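import Pool.Agent.KS6_1.SR.Crit
import Pool.Agent.KS6_1.SR.Ideal2

/-! # r-gaps in short blocks: the asymptotic constants -/

open Complex Filter Topology Set MeasureTheory

namespace Pool.Agent.KS6_1.SR

open _root_.RGap (Ideal IsSgn)

theorem asym_good {α ε : ℝ} (hα : 0 < α) (hε : 0 < ε) (hε1 : ε ≤ 1) :
    ∃ c0 : ℝ, 0 < c0 ∧ ∀ c : ℝ, c0 ≤ c → GoodI α c ((2 - ε) * Real.sqrt (α * c)) := by
  obtain ⟨κ, hκ0, hκ1, c0, hc0, h⟩ := ideal2_unif (ε / 2) (by linarith)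
  set θ : ℝ := (2 - ε) / (2 - ε / 2) with hθ
  have hθ0 : 0 < θ := div_pos (by linarith) (by linarith)
  have hθ1 : θ < 1 := by rw [hθ, div_lt_one (by linarith)]; linarith
  have hθ2 : θ ^ 2 < 1 := by nlinarith
  set η : ℝ := θ ^ 2 * α with hη
  have hη0 : 0 < η := by positivity
  have hηα : η < α := by nlinarith
  refine ⟨c0 / η, by positivity, fun c hc => ?_⟩
  have hc' : c0 ≤ η * c := by
    rw [div_le_iff₀ hη0] at hc
    linarith
  have hcpos : 0 < c := lt_of_lt_of_le (by positivity) hc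
  have hκ' : 0 < 1 - κ := by linarith
  have h1 : η * c ≤ η * c / (1 - κ) := by
    rw [le_div_iff₀ hκ']
    have : 0 < η * c := by positivity
    nlinarith
  obtain ⟨B0, r, V, s, h3, h4, h5, h6, h7⟩ := h (η * c / (1 - κ)) (hc'.trans h1)
  refine ⟨η, hη0, hηα, B0, r, V, fun _ => 1, s, h3, h4, h5, h6, ?_⟩
  have h8 : Ideal (1 - η) B0 r V (fun _ => 1) s
      ((2 - ε / 2) * Real.sqrt (η * c / (1 - κ))) c := by
    refine ideal_scale (κ := κ) (κ' := 1 - η) (by linarith) (by linarith) ?_ h7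
    rw [mul_div_cancel₀ _ hκ'.ne']
    ring
  refine h8.mono ?_
  have h9 : Real.sqrt (η * c) ≤ Real.sqrt (η * c / (1 - κ)) := Real.sqrt_le_sqrt h1
  have h10 : Real.sqrt (η * c) = θ * Real.sqrt (α * c) := by
    rw [hη, show θ ^ 2 * α * c = θ ^ 2 * (α * c) by ring, Real.sqrt_mul (by positivity),
      Real.sqrt_sq hθ0.le]
  have h11 : θ * (2 - ε / 2) = 2 - ε := by
    rw [hθ]
    exact div_mul_cancel₀ _ (by linarith : (0 : ℝ) < 2 - ε / 2).ne'
  calc (2 - ε) * Real.sqrt (α * c) = (2 - ε / 2) * (θ * Real.sqrt (α * c)) := by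
        rw [← h11]; ring
    _ ≤ (2 - ε / 2) * Real.sqrt (η * c / (1 - κ)) := by
        rw [← h10]
        exact mul_le_mul_of_nonneg_left h9 (by linarith)

/-- large sums -/
theorem asym_large {α ε : ℝ} (hα : 0 < α) (hε : 0 < ε) (hε1 : ε ≤ 1) :
    ∃ k0 : ℕ, ∀ k : ℕ, k0 ≤ k →
      GoodI α (k + (2 - ε) * Real.sqrt (α * k)) ((2 - ε) * Real.sqrt (α * k)) := by
  obtain ⟨c0, hc0, h⟩ := asym_good hα hε hε1
  refine ⟨⌈c0⌉₊, fun k hk => ?_⟩
  have hk' : c0 ≤ (k : ℝ) := (Nat.le_ceil _).trans (by exact_mod_cast hk)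
  have h2 : (k : ℝ) ≤ k + (2 - ε) * Real.sqrt (α * k) := by
    have : 0 ≤ (2 - ε) * Real.sqrt (α * k) := mul_nonneg (by linarith) (Real.sqrt_nonneg _)
    linarith
  refine (h _ (hk'.trans h2)).mono ?_
  apply mul_le_mul_of_nonneg_left _ (by linarith)
  exact Real.sqrt_le_sqrt (mul_le_mul_of_nonneg_left h2 hα.le)

/-- small sums -/
theorem asym_small {α ε : ℝ} (hα : 0 < α) (hα1 : α ≤ 1) (hε : 0 < ε) (hε1 : ε ≤ 1) :
    ∃ k0 : ℕ, 1 ≤ k0 ∧ ∀ k : ℕ, k0 ≤ k → 0 < k - (2 - ε) * Real.sqrt (α * k) ∧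
      GoodI α (k - (2 - ε) * Real.sqrt (α * k)) ((2 - ε) * Real.sqrt (α * k)) := by
  obtain ⟨c0, hc0, h⟩ := asym_good hα (show 0 < ε / 2 by linarith) (by linarith)
  set θ : ℝ := (2 - ε) / (2 - ε / 2) with hθ
  have hθ0 : 0 < θ := div_pos (by linarith) (by linarith)
  have hθ1 : θ < 1 := by rw [hθ, div_lt_one (by linarith)]; linarith
  have hθ2 : θ ^ 2 < 1 := by nlinarith
  have hθe : θ * (2 - ε / 2) = 2 - ε := by
    rw [hθ]
    exact div_mul_cancel₀ _ (by linarith : (0 : ℝ) < 2 - ε / 2).ne'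
  set R : ℝ := max (2 / (1 - θ ^ 2)) (c0 / θ ^ 2 + 1) with hR
  have hR1 : 1 ≤ R := by
    refine le_trans ?_ (le_max_right _ _)
    have : 0 < c0 / θ ^ 2 := by positivity
    linarith
  refine ⟨max ⌈R ^ 2⌉₊ 1, le_max_right _ _, fun k hk => ?_⟩
  have hkR : R ^ 2 ≤ (k : ℝ) := (Nat.le_ceil _).trans (by
    exact_mod_cast (le_max_left _ _).trans hk)
  have hsR : R ≤ Real.sqrt k := Real.le_sqrt_of_sq_le hkR
  have hk1 : (1 : ℝ) ≤ k := by nlinarith
  have hk0 : (0 : ℝ) < k := by linarith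
  set S : ℝ := Real.sqrt k with hS'
  have hSS : S ^ 2 = k := Real.sq_sqrt hk0.le
  have hS1 : 1 ≤ S := hR1.trans hsR
  have hαS : Real.sqrt (α * k) ≤ S := by
    apply Real.sqrt_le_sqrt
    nlinarith
  have hkc0 : c0 ≤ θ ^ 2 * k := by
    have h1 : c0 / θ ^ 2 ≤ k := by
      have h2 : c0 / θ ^ 2 + 1 ≤ R := le_max_right _ _
      nlinarith
    rw [div_le_iff₀ (by positivity)] at h1
    linarith
  set c : ℝ := k - (2 - ε) * Real.sqrt (α * k) with hc
  have h0 : 2 / (1 - θ ^ 2) ≤ S := (le_max_left _ _).trans hsR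
  rw [div_le_iff₀ (by linarith)] at h0
  have hcθ : θ ^ 2 * k ≤ c := by
    have h1 : (2 - ε) * Real.sqrt (α * k) ≤ (1 - θ ^ 2) * k := by
      have h2 : (2 - ε) * Real.sqrt (α * k) ≤ 2 * S :=
        mul_le_mul (by linarith) hαS (Real.sqrt_nonneg _) (by norm_num)
      have h3 : 2 * S ≤ S * (1 - θ ^ 2) * S := mul_le_mul_of_nonneg_right h0 (by linarith)
      have h4 : S * (1 - θ ^ 2) * S = (1 - θ ^ 2) * k := by rw [← hSS]; ring
      linarith
    rw [hc]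
    linarith
  have hcc : c0 ≤ c := hkc0.trans hcθ
  refine ⟨hc0.trans_le hcc, (h c hcc).mono ?_⟩
  have h8 : θ * Real.sqrt (α * k) ≤ Real.sqrt (α * c) := by
    apply Real.le_sqrt_of_sq_le
    rw [mul_pow, Real.sq_sqrt (by positivity)]
    have := mul_le_mul_of_nonneg_left hcθ hα.le
    linarith
  calc (2 - ε) * Real.sqrt (α * k) = (2 - ε / 2) * (θ * Real.sqrt (α * k)) := by
        rw [← hθe]; ring
    _ ≤ (2 - ε / 2) * Real.sqrt (α * c) := mul_le_mul_of_nonneg_left h8 (by linarith)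

end Pool.Agent.KS6_1.SR
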