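import Pool.Agent.KS6_1.SR.Defs

/-! Classification of the solutions of `n_B n_A' = n n_A n_B'` (task 07 of the LG project). -/

open Complex Filter Topology Set MeasureTheory

namespace Pool.Agent.KS6_1.SR.LG

open _root_.LG

variable [Pool.Agent.KS6_1.SI.Nu]

open SG (hh nn dl ord NZ)
open SP (RHs ZZ mu wt Mk qq tt)
open Pool.Agent.KS6_1.SI (Par Eb PS chi dd Nu)

namespace Cls

/-- indicator -/
def ic (A : Finset ℕ) (x : ℕ) : ℕ := if x ∈ A then 1 else 0

theorem nA_ne (A : Finset ℕ) (hA : ∀ p ∈ A, p.Prime) : nA A ≠ 0 := by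
  unfold nA
  exact Finset.prod_ne_zero_iff.mpr (fun p hp => (hA p hp).ne_zero)

theorem nA_fact (A : Finset ℕ) (hA : ∀ p ∈ A, p.Prime) (x : ℕ) :
    (nA A).factorization x = ic A x := by
  unfold nA ic
  rw [Nat.factorization_prod (fun p hp => (hA p hp).ne_zero)]
  rw [Finsupp.finset_sum_apply]
  have h : ∀ p ∈ A, (p.factorization) x = if p = x then 1 else 0 := by
    intro p hp
    rw [(hA p hp).factorization, Finsupp.single_apply]
  rw [Finset.sum_congr rfl h]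
  simp

theorem eq_iff (A B A' B' : Finset ℕ) (hA : ∀ p ∈ A, p.Prime) (hB : ∀ p ∈ B, p.Prime)
    (hA' : ∀ p ∈ A', p.Prime) (hB' : ∀ p ∈ B', p.Prime) (p k : ℕ) (hp : p.Prime) :
    nA B * nA A' = p ^ k * (nA A * nA B') ↔
      ∀ x, ic B x + ic A' x = (if x = p then k else 0) + (ic A x + ic B' x) := by
  have h1 : nA B * nA A' ≠ 0 := mul_ne_zero (nA_ne B hB) (nA_ne A' hA')
  have h2 : nA A * nA B' ≠ 0 := mul_ne_zero (nA_ne A hA) (nA_ne B' hB')
  have h3 : p ^ k ≠ 0 := pow_ne_zero _ hp.ne_zero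
  have hL : ∀ x, (nA B * nA A').factorization x = ic B x + ic A' x := by
    intro x
    rw [Nat.factorization_mul (nA_ne B hB) (nA_ne A' hA'), Finsupp.add_apply, nA_fact B hB,
      nA_fact A' hA']
  have hR : ∀ x, (p ^ k * (nA A * nA B')).factorization x =
      (if x = p then k else 0) + (ic A x + ic B' x) := by
    intro x
    rw [Nat.factorization_mul h3 h2, Finsupp.add_apply,
      Nat.factorization_mul (nA_ne A hA) (nA_ne B' hB'), Finsupp.add_apply, nA_fact A hA,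
      nA_fact B' hB', hp.factorization_pow, Finsupp.single_apply]
    congr 1
    by_cases h : p = x
    · rw [if_pos h, if_pos h.symm]
    · rw [if_neg h, if_neg (fun h' => h h'.symm)]
  constructor
  · intro h x
    rw [← hL, ← hR, h]
  · intro h
    apply Nat.eq_of_factorization_eq h1 (mul_ne_zero h3 h2)
    intro x
    rw [hL, hR]
    exact h x

theorem ic_le (A : Finset ℕ) (x : ℕ) : ic A x ≤ 1 := by
  unfold ic; split_ifs <;> omega

theorem ic_one {A : Finset ℕ} {x : ℕ} : ic A x = 1 ↔ x ∈ A := by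
  unfold ic; split_ifs with h <;> simp [h]

theorem ic_zero {A : Finset ℕ} {x : ℕ} : ic A x = 0 ↔ x ∉ A := by
  unfold ic; split_ifs with h <;> simp [h]

theorem disj_ic {A B : Finset ℕ} (h : Disjoint A B) (x : ℕ) : ic A x + ic B x ≤ 1 := by
  by_cases h1 : x ∈ A
  · have h2 : x ∉ B := Finset.disjoint_left.mp h h1
    rw [ic_one.mpr h1, ic_zero.mpr h2]
  · rw [ic_zero.mpr h1]
    have := ic_le B x
    omega

theorem ext_ic {A B : Finset ℕ} (h : ∀ x, ic A x = ic B x) : A = B := by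
  ext x
  rw [← ic_one, ← ic_one, h x]

theorem ic_insert (A : Finset ℕ) (p x : ℕ) (hp : p ∉ A) :
    ic (insert p A) x = (if x = p then 1 else 0) + ic A x := by
  unfold ic
  by_cases h : x = p
  · subst h; simp [hp]
  · simp [h]

theorem mem_fam {P : Par} {B0 : ℕ} {T : ℝ} {A : Finset ℕ} :
    A ∈ fam P B0 T ↔ A ⊆ PS P T ∧ ∑ p ∈ A, Eb P T p ≤ B0 := by
  simp [fam]

theorem mem_prs {P : Par} {B0 : ℕ} {T : ℝ} {q : Finset ℕ × Finset ℕ} :
    q ∈ prs P B0 T ↔ (q.1 ∈ fam P B0 T ∧ q.2 ∈ fam P B0 T) ∧ Disjoint q.1 q.2 := by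
  simp [prs]

theorem prime_PS {P : Par} {T : ℝ} {p : ℕ} (h : p ∈ PS P T) : p.Prime := by
  simp only [PS, Finset.mem_filter] at h
  exact h.2.1

theorem fam_prime {P : Par} {B0 : ℕ} {T : ℝ} {A : Finset ℕ} (h : A ∈ fam P B0 T) :
    ∀ p ∈ A, p.Prime := fun _ hp => prime_PS ((mem_fam.mp h).1 hp)

/-- the set of solutions -/
noncomputable def Sol (P : Par) (B0 : ℕ) (T : ℝ) (n : ℕ) :
    Finset ((Finset ℕ × Finset ℕ) × (Finset ℕ × Finset ℕ)) :=
  (prs P B0 T ×ˢ prs P B0 T).filter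
    (fun z => nA z.1.2 * nA z.2.1 = n * (nA z.1.1 * nA z.2.2))

theorem Cn_Sol (P : Par) (B0 : ℕ) (r : ℝ) (F : ℕ → ℝ) (T : ℝ) (n : ℕ) :
    Cn P B0 r F T n = ∑ z ∈ Sol P B0 T n,
      (ae P r F T z.1.1 * ae P r F T z.1.2) * (ae P r F T z.2.1 * ae P r F T z.2.2) := by
  unfold Cn Sol
  rw [Finset.sum_filter, Finset.sum_product]

theorem mem_Sol {P : Par} {B0 : ℕ} {T : ℝ} {n : ℕ}
    {z : (Finset ℕ × Finset ℕ) × (Finset ℕ × Finset ℕ)} :
    z ∈ Sol P B0 T n ↔ (z.1 ∈ prs P B0 T ∧ z.2 ∈ prs P B0 T) ∧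
      nA z.1.2 * nA z.2.1 = n * (nA z.1.1 * nA z.2.2) := by
  simp [Sol]

theorem mem_Sol_pow {P : Par} {B0 : ℕ} {T : ℝ} {p k : ℕ} (hp : p.Prime)
    {z : (Finset ℕ × Finset ℕ) × (Finset ℕ × Finset ℕ)} :
    z ∈ Sol P B0 T (p ^ k) ↔ (z.1 ∈ prs P B0 T ∧ z.2 ∈ prs P B0 T) ∧
      ∀ x, ic z.1.2 x + ic z.2.1 x = (if x = p then k else 0) + (ic z.1.1 x + ic z.2.2 x) := by
  rw [mem_Sol]
  constructor
  · rintro ⟨⟨h1, h2⟩, h3⟩
    refine ⟨⟨h1, h2⟩, ?_⟩
    obtain ⟨⟨a1, a2⟩, a3⟩ := mem_prs.mp h1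
    obtain ⟨⟨b1, b2⟩, b3⟩ := mem_prs.mp h2
    exact (eq_iff z.1.1 z.1.2 z.2.1 z.2.2 (fam_prime a1) (fam_prime a2) (fam_prime b1)
      (fam_prime b2) p k hp).mp h3
  · rintro ⟨⟨h1, h2⟩, h3⟩
    refine ⟨⟨h1, h2⟩, ?_⟩
    obtain ⟨⟨a1, a2⟩, a3⟩ := mem_prs.mp h1
    obtain ⟨⟨b1, b2⟩, b3⟩ := mem_prs.mp h2
    exact (eq_iff z.1.1 z.1.2 z.2.1 z.2.2 (fam_prime a1) (fam_prime a2) (fam_prime b1)
      (fam_prime b2) p k hp).mpr h3

theorem prs_swap {P : Par} {B0 : ℕ} {T : ℝ} {A B : Finset ℕ} (h : (A, B) ∈ prs P B0 T) :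
    (B, A) ∈ prs P B0 T := by
  obtain ⟨⟨h1, h2⟩, h3⟩ := mem_prs.mp h
  exact mem_prs.mpr ⟨⟨h2, h1⟩, h3.symm⟩

theorem fam_insert {P : Par} {B0 : ℕ} {T : ℝ} {A : Finset ℕ} {p : ℕ} (hA : A ∈ fam P B0 T)
    (hp : p ∈ PS P T) (hpA : p ∉ A) :
    insert p A ∈ fam P B0 T ↔ ∑ x ∈ A, Eb P T x + Eb P T p ≤ B0 := by
  rw [mem_fam, Finset.sum_insert hpA, add_comm]
  constructor
  · exact fun h => h.2
  · exact fun h => ⟨Finset.insert_subset hp (mem_fam.mp hA).1, h⟩

end Cls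

open Cls

theorem Cn_one (P : Par) (B0 : ℕ) (r : ℝ) (F : ℕ → ℝ) (T : ℝ) (hT : 10 ≤ T) :
    Cn P B0 r F T 1 = ∑ q ∈ prs P B0 T, (ae P r F T q.1) ^ 2 * (ae P r F T q.2) ^ 2 := by
  rw [Cn_Sol]
  have hkey : ∀ z : (Finset ℕ × Finset ℕ) × (Finset ℕ × Finset ℕ),
      z ∈ Sol P B0 T 1 ↔ z.1 ∈ prs P B0 T ∧ z.2 = z.1 := by
    intro z
    have h2 := mem_Sol_pow (P := P) (B0 := B0) (T := T) (p := 2) (k := 0) Nat.prime_two (z := z)
    rw [pow_zero] at h2
    rw [h2]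
    constructor
    · rintro ⟨⟨h1, h2⟩, h3⟩
      refine ⟨h1, ?_⟩
      have d1 := (mem_prs.mp h1).2
      have d2 := (mem_prs.mp h2).2
      have e1 : ∀ x, ic z.2.1 x = ic z.1.1 x ∧ ic z.2.2 x = ic z.1.2 x := by
        intro x
        have a1 := disj_ic d1 x
        have a2 := disj_ic d2 x
        have a3 := h3 x
        have : (if x = 2 then 0 else 0) = 0 := by split_ifs <;> rfl
        rw [this] at a3
        omega
      exact Prod.ext (ext_ic fun x => (e1 x).1) (ext_ic fun x => (e1 x).2)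
    · rintro ⟨h1, h2⟩
      rw [h2]
      refine ⟨⟨h1, h1⟩, fun x => ?_⟩
      have : (if x = 2 then 0 else 0) = 0 := by split_ifs <;> rfl
      rw [this]
      omega
  apply Finset.sum_nbij' (fun z => z.1) (fun q => (q, q))
  · intro z hz
    exact ((hkey z).mp hz).1
  · intro q hq
    exact (hkey _).mpr ⟨hq, rfl⟩
  · intro z hz
    have := ((hkey z).mp hz).2
    exact Prod.ext rfl this.symm
  · intro q _
    rfl
  · intro z hz
    rw [((hkey z).mp hz).2]
    ring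

theorem Cn_prime (P : Par) (B0 : ℕ) (r : ℝ) (F : ℕ → ℝ) (T : ℝ) (hT : 10 ≤ T) (p : ℕ)
    (hp : p ∈ PS P T) :
    Cn P B0 r F T p = 2 * ∑ q ∈ (prs P B0 T).filter (fun q => p ∉ q.1 ∧ p ∉ q.2 ∧
      ∑ x ∈ q.2, Eb P T x + Eb P T p ≤ B0),
      (ae P r F T q.1) ^ 2 * (ae P r F T q.2 * ae P r F T (insert p q.2)) := by
  have hpp : p.Prime := prime_PS hp
  rw [Cn_Sol, ← Finset.sum_filter_add_sum_filter_not (Sol P B0 T p) (fun z => p ∈ z.1.2), two_mul]
  have hmem : ∀ z, z ∈ Sol P B0 T p ↔ (z.1 ∈ prs P B0 T ∧ z.2 ∈ prs P B0 T) ∧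
      ∀ x, ic z.1.2 x + ic z.2.1 x = (if x = p then 1 else 0) + (ic z.1.1 x + ic z.2.2 x) := by
    intro z
    have h2 := mem_Sol_pow (P := P) (B0 := B0) (T := T) (p := p) (k := 1) hpp (z := z)
    rwa [pow_one] at h2
  congr 1
  · -- `p ∈ B`
    have hkey : ∀ z, z ∈ Sol P B0 T p → p ∈ z.1.2 →
        z.1 = (z.2.1, insert p z.2.2) ∧ p ∉ z.2.1 ∧ p ∉ z.2.2 := by
      intro z hz hpz
      obtain ⟨⟨h1, h2⟩, h3⟩ := (hmem z).mp hz
      have d1 := (mem_prs.mp h1).2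
      have d2 := (mem_prs.mp h2).2
      have ep : ic z.2.1 p = 0 ∧ ic z.2.2 p = 0 := by
        have a1 := disj_ic d1 p
        have a2 := disj_ic d2 p
        have a3 := h3 p
        have a4 := ic_one.mpr hpz
        rw [if_pos rfl] at a3
        omega
      have hn2 : p ∉ z.2.2 := ic_zero.mp ep.2
      refine ⟨Prod.ext (ext_ic fun x => ?_) (ext_ic fun x => ?_), ic_zero.mp ep.1, hn2⟩
      · have a1 := disj_ic d1 x
        have a2 := disj_ic d2 x
        have a3 := h3 x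
        by_cases hx : x = p
        · subst hx
          have a4 := ic_one.mpr hpz
          simp only
          omega
        · rw [if_neg hx] at a3
          simp only
          omega
      · have a1 := disj_ic d1 x
        have a2 := disj_ic d2 x
        have a3 := h3 x
        simp only
        rw [ic_insert _ _ _ hn2]
        by_cases hx : x = p
        · subst hx
          have a4 := ic_one.mpr hpz
          rw [if_pos rfl] at *
          omega
        · rw [if_neg hx] at *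
          omega
    apply Finset.sum_nbij' (fun z => z.2) (fun q => ((q.1, insert p q.2), q))
    · intro z hz
      obtain ⟨hz1, hz2⟩ := Finset.mem_filter.mp hz
      obtain ⟨k1, k2, k3⟩ := hkey z hz1 hz2
      obtain ⟨⟨h1, h2⟩, h3⟩ := (hmem z).mp hz1
      refine Finset.mem_filter.mpr ⟨h2, k2, k3, ?_⟩
      have hf : insert p z.2.2 ∈ fam P B0 T := by
        have := (mem_prs.mp h1).1.2
        rwa [k1] at this
      exact (fam_insert (mem_prs.mp h2).1.2 hp k3).mp hf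
    · intro q hq
      obtain ⟨h1, h2, h3, h4⟩ := Finset.mem_filter.mp hq
      obtain ⟨⟨a1, a2⟩, a3⟩ := mem_prs.mp h1
      refine Finset.mem_filter.mpr ⟨(hmem _).mpr ⟨⟨?_, h1⟩, fun x => ?_⟩, ?_⟩
      · refine mem_prs.mpr ⟨⟨a1, (fam_insert a2 hp h3).mpr h4⟩, ?_⟩
        simp only
        rw [Finset.disjoint_insert_right]
        exact ⟨h2, a3⟩
      · simp only
        rw [ic_insert _ _ _ h3]
        omega
      · simp
    · intro z hz
      obtain ⟨hz1, hz2⟩ := Finset.mem_filter.mp hz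
      obtain ⟨k1, k2, k3⟩ := hkey z hz1 hz2
      exact Prod.ext k1.symm rfl
    · intro q _
      rfl
    · intro z hz
      obtain ⟨hz1, hz2⟩ := Finset.mem_filter.mp hz
      obtain ⟨k1, k2, k3⟩ := hkey z hz1 hz2
      rw [k1]
      ring
  · -- `p ∉ B`
    have hkey : ∀ z, z ∈ Sol P B0 T p → p ∉ z.1.2 →
        z.2 = (insert p z.1.1, z.1.2) ∧ p ∉ z.1.1 := by
      intro z hz hpz
      obtain ⟨⟨h1, h2⟩, h3⟩ := (hmem z).mp hz
      have d1 := (mem_prs.mp h1).2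
      have d2 := (mem_prs.mp h2).2
      have ep : ic z.1.1 p = 0 := by
        have a1 := disj_ic d1 p
        have a2 := disj_ic d2 p
        have a3 := h3 p
        have a4 := ic_zero.mpr hpz
        rw [if_pos rfl] at a3
        omega
      have hn2 : p ∉ z.1.1 := ic_zero.mp ep
      refine ⟨Prod.ext (ext_ic fun x => ?_) (ext_ic fun x => ?_), hn2⟩
      · have a1 := disj_ic d1 x
        have a2 := disj_ic d2 x
        have a3 := h3 x
        simp only
        rw [ic_insert _ _ _ hn2]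
        by_cases hx : x = p
        · subst hx
          have a4 := ic_zero.mpr hpz
          rw [if_pos rfl] at *
          omega
        · rw [if_neg hx] at *
          omega
      · have a1 := disj_ic d1 x
        have a2 := disj_ic d2 x
        have a3 := h3 x
        by_cases hx : x = p
        · subst hx
          have a4 := ic_zero.mpr hpz
          rw [if_pos rfl] at *
          simp only
          omega
        · rw [if_neg hx] at *
          simp only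
          omega
    apply Finset.sum_nbij' (fun z => (z.1.2, z.1.1)) (fun q => ((q.2, q.1), (insert p q.2, q.1)))
    · intro z hz
      obtain ⟨hz1, hz2⟩ := Finset.mem_filter.mp hz
      obtain ⟨k1, k2⟩ := hkey z hz1 hz2
      obtain ⟨⟨h1, h2⟩, h3⟩ := (hmem z).mp hz1
      refine Finset.mem_filter.mpr ⟨prs_swap h1, hz2, k2, ?_⟩
      have hf : insert p z.1.1 ∈ fam P B0 T := by
        have := (mem_prs.mp h2).1.1
        rwa [k1] at this
      exact (fam_insert (mem_prs.mp h1).1.1 hp k2).mp hf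
    · intro q hq
      obtain ⟨h1, h2, h3, h4⟩ := Finset.mem_filter.mp hq
      obtain ⟨⟨a1, a2⟩, a3⟩ := mem_prs.mp h1
      refine Finset.mem_filter.mpr ⟨(hmem _).mpr ⟨⟨prs_swap h1, ?_⟩, fun x => ?_⟩, ?_⟩
      · refine mem_prs.mpr ⟨⟨(fam_insert a2 hp h3).mpr h4, a1⟩, ?_⟩
        simp only
        rw [Finset.disjoint_insert_left]
        exact ⟨h2, a3.symm⟩
      · simp only
        rw [ic_insert _ _ _ h3]
        omega
      · exact h2
    · intro z hz
      obtain ⟨hz1, hz2⟩ := Finset.mem_filter.mp hz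
      obtain ⟨k1, k2⟩ := hkey z hz1 hz2
      exact Prod.ext rfl k1.symm
    · intro q _
      rfl
    · intro z hz
      obtain ⟨hz1, hz2⟩ := Finset.mem_filter.mp hz
      obtain ⟨k1, k2⟩ := hkey z hz1 hz2
      rw [k1]
      ring

theorem Cn_prime_sq (P : Par) (B0 : ℕ) (r : ℝ) (F : ℕ → ℝ) (T : ℝ) (hT : 10 ≤ T) (p : ℕ)
    (hp : p ∈ PS P T) :
    |Cn P B0 r F T (p ^ 2)| ≤ ∑ q ∈ (prs P B0 T).filter (fun q => p ∉ q.1 ∧ p ∉ q.2),
      |ae P r F T q.1 * ae P r F T (insert p q.1) * (ae P r F T q.2 * ae P r F T (insert p q.2))| :=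
  by
  have hpp : p.Prime := prime_PS hp
  rw [Cn_Sol]
  refine (Finset.abs_sum_le_sum_abs _ _).trans ?_
  have hkey : ∀ z, z ∈ Sol P B0 T (p ^ 2) →
      z.1.2 = insert p z.2.2 ∧ z.2.1 = insert p z.1.1 ∧ p ∉ z.1.1 ∧ p ∉ z.2.2 := by
    intro z hz
    obtain ⟨⟨h1, h2⟩, h3⟩ := (mem_Sol_pow hpp).mp hz
    have d1 := (mem_prs.mp h1).2
    have d2 := (mem_prs.mp h2).2
    have ep : ic z.1.1 p = 0 ∧ ic z.2.2 p = 0 ∧ ic z.1.2 p = 1 ∧ ic z.2.1 p = 1 := by
      have a1 := disj_ic d1 p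
      have a2 := disj_ic d2 p
      have a3 := h3 p
      rw [if_pos rfl] at a3
      have a4 := ic_le z.1.2 p
      have a5 := ic_le z.2.1 p
      omega
    have hn1 : p ∉ z.1.1 := ic_zero.mp ep.1
    have hn2 : p ∉ z.2.2 := ic_zero.mp ep.2.1
    refine ⟨ext_ic fun x => ?_, ext_ic fun x => ?_, hn1, hn2⟩
    · rw [ic_insert _ _ _ hn2]
      have a1 := disj_ic d1 x
      have a2 := disj_ic d2 x
      have a3 := h3 x
      by_cases hx : x = p
      · subst hx
        rw [if_pos rfl] at *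
        omega
      · rw [if_neg hx] at *
        omega
    · rw [ic_insert _ _ _ hn1]
      have a1 := disj_ic d1 x
      have a2 := disj_ic d2 x
      have a3 := h3 x
      by_cases hx : x = p
      · subst hx
        rw [if_pos rfl] at *
        omega
      · rw [if_neg hx] at *
        omega
  have hsub : ∀ z ∈ Sol P B0 T (p ^ 2), (z.1.1, z.2.2) ∈
      (prs P B0 T).filter (fun q => p ∉ q.1 ∧ p ∉ q.2) := by
    intro z hz
    obtain ⟨k1, k2, k3, k4⟩ := hkey z hz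
    obtain ⟨⟨h1, h2⟩, h3⟩ := (mem_Sol_pow hpp).mp hz
    obtain ⟨⟨a1, a2⟩, a3⟩ := mem_prs.mp h1
    obtain ⟨⟨b1, b2⟩, b3⟩ := mem_prs.mp h2
    refine Finset.mem_filter.mpr ⟨mem_prs.mpr ⟨⟨a1, b2⟩, ?_⟩, k3, k4⟩
    rw [k1] at a3
    exact (Finset.disjoint_insert_right.mp a3).2
  have hinj : ∀ z ∈ Sol P B0 T (p ^ 2), ∀ z' ∈ Sol P B0 T (p ^ 2),
      (z.1.1, z.2.2) = (z'.1.1, z'.2.2) → z = z' := by
    intro z hz z' hz' h
    obtain ⟨k1, k2, k3, k4⟩ := hkey z hz
    obtain ⟨l1, l2, l3, l4⟩ := hkey z' hz'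
    have e1 : z.1.1 = z'.1.1 := (Prod.mk.inj h).1
    have e2 : z.2.2 = z'.2.2 := (Prod.mk.inj h).2
    refine Prod.ext (Prod.ext e1 ?_) (Prod.ext ?_ e2)
    · rw [k1, l1, e2]
    · rw [k2, l2, e1]
  calc ∑ z ∈ Sol P B0 T (p ^ 2), |ae P r F T z.1.1 * ae P r F T z.1.2 *
        (ae P r F T z.2.1 * ae P r F T z.2.2)|
      = ∑ z ∈ Sol P B0 T (p ^ 2), (fun q : Finset ℕ × Finset ℕ =>
          |ae P r F T q.1 * ae P r F T (insert p q.1) *
            (ae P r F T q.2 * ae P r F T (insert p q.2))|) (z.1.1, z.2.2) := by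
        apply Finset.sum_congr rfl
        intro z hz
        obtain ⟨k1, k2, k3, k4⟩ := hkey z hz
        simp only
        rw [k1, k2]
        congr 1
        ring
    _ = ∑ q ∈ (Sol P B0 T (p ^ 2)).image (fun z => (z.1.1, z.2.2)),
          |ae P r F T q.1 * ae P r F T (insert p q.1) *
            (ae P r F T q.2 * ae P r F T (insert p q.2))| := by
        rw [Finset.sum_image]
        intro z hz z' hz' h
        exact hinj z hz z' hz' h
    _ ≤ _ := by
        apply Finset.sum_le_sum_of_subset_of_nonneg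
        · intro q hq
          obtain ⟨z, hz, rfl⟩ := Finset.mem_image.mp hq
          exact hsub z hz
        · intro q _ _
          exact abs_nonneg _

theorem Cn_zero (P : Par) (B0 : ℕ) (r : ℝ) (F : ℕ → ℝ) (T : ℝ) (hT : 10 ≤ T) (p k : ℕ)
    (hp : p.Prime) (hk : 1 ≤ k) (h : p ∉ PS P T ∨ 3 ≤ k) : Cn P B0 r F T (p ^ k) = 0 := by
  rw [Cn_Sol]
  have : Sol P B0 T (p ^ k) = ∅ := by
    rw [Finset.eq_empty_iff_forall_notMem]
    intro z hz
    obtain ⟨⟨h1, h2⟩, h3⟩ := (mem_Sol_pow hp).mp hz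
    have a3 := h3 p
    rw [if_pos rfl] at a3
    rcases h with h | h
    · have b1 : ic z.1.2 p = 0 := ic_zero.mpr
        (fun hh => h ((mem_fam.mp (mem_prs.mp h1).1.2).1 hh))
      have b2 : ic z.2.1 p = 0 := ic_zero.mpr
        (fun hh => h ((mem_fam.mp (mem_prs.mp h2).1.1).1 hh))
      omega
    · have a4 := ic_le z.1.2 p
      have a5 := ic_le z.2.1 p
      omega
  rw [this, Finset.sum_empty]

end Pool.Agent.KS6_1.SR.LG
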