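import Pool.Agent.KS6_1.SR.Defs
import Pool.Agent.KS6_1.SI.TT

/-! Task 05 of `lg_tasks`: elementary facts on the families of sets of primes. -/

open Complex Filter Topology Set MeasureTheory

namespace Pool.Agent.KS6_1.SR.LG

open _root_.LG

variable [Pool.Agent.KS6_1.SI.Nu]

open SG (hh nn dl ord NZ)
open SP (RHs ZZ mu wt Mk qq tt)
open Pool.Agent.KS6_1.SI (Par Eb PS chi dd Nu)

/-- bin numbers control the size of a prime -/
lemma log_le_Eb (P : Par) (B0 : ℕ) (hB : P.B = 2 * B0) (T : ℝ) (hT : 10 ≤ T) (p : ℕ) :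
    Real.log p ≤ (Eb P T p : ℝ) * ((1 - P.κ) * Real.log T / (2 * B0)) := by
  have hκ1 := P.hκ1
  have hL : 0 < Real.log T := Real.log_pos (by linarith)
  have hB2 := P.hB
  have hB0 : 0 < B0 := by omega
  have hB0' : (0 : ℝ) < B0 := by exact_mod_cast hB0
  have h := Nat.le_ceil ((P.B : ℝ) * Real.log p / ((1 - P.κ) * Real.log T))
  change (P.B : ℝ) * Real.log p / ((1 - P.κ) * Real.log T) ≤ (Eb P T p : ℝ) at h
  have hpos : 0 < (1 - P.κ) * Real.log T := mul_pos (by linarith) hL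
  rw [div_le_iff₀ hpos, hB] at h
  push_cast at h
  rw [← mul_div_assoc, le_div_iff₀ (by positivity)]
  linarith

lemma nA_pos (P : Par) (B0 : ℕ) (T : ℝ) (A : Finset ℕ) (hA : A ∈ fam P B0 T) : 1 ≤ nA A := by
  rw [fam, Finset.mem_filter, Finset.mem_powerset] at hA
  apply Nat.one_le_iff_ne_zero.mpr
  rw [nA, Finset.prod_ne_zero_iff]
  intro p hp
  have := hA.1 hp
  rw [PS, Finset.mem_filter] at this
  exact this.2.1.ne_zero

lemma nA_le (P : Par) (B0 : ℕ) (hB : P.B = 2 * B0) (T : ℝ) (hT : 10 ≤ T) (A : Finset ℕ)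
    (hA : A ∈ fam P B0 T) : (nA A : ℝ) ≤ T ^ ((1 - P.κ) / 2) := by
  have hκ1 := P.hκ1
  have hL : 0 < Real.log T := Real.log_pos (by linarith)
  have hB2 := P.hB
  have hB0 : 0 < B0 := by omega
  have hB0' : (0 : ℝ) < B0 := by exact_mod_cast hB0
  have h1 := nA_pos P B0 T A hA
  have hA' := hA
  rw [fam, Finset.mem_filter, Finset.mem_powerset] at hA'
  have hn : (0 : ℝ) < nA A := by exact_mod_cast h1
  rw [← Real.log_le_log_iff hn (by positivity), Real.log_rpow (by linarith)]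
  have h2 : Real.log (nA A) = ∑ p ∈ A, Real.log p := by
    rw [nA, Nat.cast_prod, Real.log_prod]
    intro p hp
    have := hA'.1 hp
    rw [PS, Finset.mem_filter] at this
    exact_mod_cast this.2.1.ne_zero
  rw [h2]
  calc ∑ p ∈ A, Real.log p
      ≤ ∑ p ∈ A, (Eb P T p : ℝ) * ((1 - P.κ) * Real.log T / (2 * B0)) :=
        Finset.sum_le_sum (fun p _ => log_le_Eb P B0 hB T hT p)
    _ = ((∑ p ∈ A, Eb P T p : ℕ) : ℝ) * ((1 - P.κ) * Real.log T / (2 * B0)) := by
        rw [← Finset.sum_mul]; push_cast; rfl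
    _ ≤ (B0 : ℝ) * ((1 - P.κ) * Real.log T / (2 * B0)) := by
        apply mul_le_mul_of_nonneg_right
        · exact_mod_cast hA'.2
        · apply div_nonneg (mul_nonneg (by linarith) hL.le) (by positivity)
    _ = (1 - P.κ) / 2 * Real.log T := by field_simp

/-- `nA` is injective on sets of primes -/
lemma mem_iff_dvd_nA (A : Finset ℕ) (hA : ∀ p ∈ A, p.Prime) (p : ℕ) (hp : p.Prime) :
    p ∣ nA A ↔ p ∈ A := by
  rw [nA, hp.prime.dvd_finsetProd_iff]
  constructor
  · rintro ⟨a, ha, hpa⟩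
    rwa [(Nat.prime_dvd_prime_iff_eq hp (hA a ha)).mp hpa]
  · intro h
    exact ⟨p, h, dvd_rfl⟩

lemma nA_inj (P : Par) (B0 : ℕ) (T : ℝ) : Set.InjOn nA (fam P B0 T : Set (Finset ℕ)) := by
  intro A hA A' hA' h
  have hp : ∀ X ∈ fam P B0 T, ∀ p ∈ X, p.Prime := by
    intro X hX p hp
    rw [fam, Finset.mem_filter, Finset.mem_powerset] at hX
    have := hX.1 hp
    rw [PS, Finset.mem_filter] at this
    exact this.2.1
  have h1 := hp A hA
  have h2 := hp A' hA'
  ext p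
  constructor
  · intro hpA
    rw [← mem_iff_dvd_nA A' h2 p (h1 p hpA), ← h, mem_iff_dvd_nA A h1 p (h1 p hpA)]
    exact hpA
  · intro hpA
    rw [← mem_iff_dvd_nA A h1 p (h2 p hpA), h, mem_iff_dvd_nA A' h2 p (h2 p hpA)]
    exact hpA

lemma fam_card (P : Par) (B0 : ℕ) (hB : P.B = 2 * B0) (T : ℝ) (hT : 10 ≤ T) :
    ((fam P B0 T).card : ℝ) ≤ T ^ ((1 - P.κ) / 2) := by
  have h1 : (fam P B0 T).card ≤ (Finset.Icc 1 ⌊T ^ ((1 - P.κ) / 2)⌋₊).card := by
    apply Finset.card_le_card_of_injOn nA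
    · intro A hA
      rw [Finset.mem_coe, Finset.mem_Icc]
      exact ⟨nA_pos P B0 T A hA, Nat.le_floor (nA_le P B0 hB T hT A hA)⟩
    · exact nA_inj P B0 T
  rw [Nat.card_Icc, Nat.add_sub_cancel] at h1
  calc ((fam P B0 T).card : ℝ) ≤ (⌊T ^ ((1 - P.κ) / 2)⌋₊ : ℝ) := by exact_mod_cast h1
    _ ≤ _ := Nat.floor_le (by positivity)

theorem fam_facts (P : Par) (B0 : ℕ) (hB : P.B = 2 * B0) (r : ℝ) (F : ℕ → ℝ) :
    ∃ C T0 : ℝ, 0 < C ∧ 10 ≤ T0 ∧ ∀ T : ℝ, T0 ≤ T →
    (∀ A ∈ fam P B0 T, 1 ≤ nA A ∧ (nA A : ℝ) ≤ T ^ ((1 - P.κ) / 2) ∧ |ae P r F T A| ≤ C ∧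
      A.card ≤ B0) ∧
    (∀ p ∈ PS P T, |yp P r T p| ≤ 1 ∧ yp P r T p ^ 2 ≤ C / p ∧
      yp P r T p ^ 2 ≤ C * T ^ (-((1 - P.κ) / (2 * (B0 : ℝ))))) ∧
    (∑ q ∈ prs P B0 T, |ae P r F T q.1 * ae P r F T q.2| ≤ T ^ 2) ∧
    (∑ A ∈ fam P B0 T, ∏ p ∈ A, yp P r T p ^ 2 ≤ C) := by
  obtain ⟨C1, T1, hC1, hT1, hchi⟩ := Pool.Agent.KS6_1.SI.chi_approx P
  have hκ := P.hκ
  have hκ1 := P.hκ1
  have hB2 := P.hB
  have hB0 : 0 < B0 := by omega
  have hB0' : (0 : ℝ) < B0 := by exact_mod_cast hB0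
  -- bound for `F`
  obtain ⟨CF, hCF, hF⟩ : ∃ CF : ℝ, 0 < CF ∧ ∀ n ≤ B0, |F n| ≤ CF := by
    refine ⟨1 + ∑ n ∈ Finset.range (B0 + 1), |F n|, by positivity, fun n hn => ?_⟩
    have := Finset.single_le_sum (f := fun n => |F n|) (fun i _ => abs_nonneg _)
      (Finset.mem_range.mpr (Nat.lt_succ_of_le hn))
    linarith
  set e : ℝ := (1 - P.κ) / (2 * (B0 : ℝ)) with he
  have he0 : 0 < e := div_pos (by linarith) (by positivity)
  -- large `T`
  obtain ⟨T2, hT2⟩ : ∃ T2 : ℝ, ∀ T : ℝ, T2 ≤ T → 4 * r ^ 2 ≤ T ^ e := by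
    have := (tendsto_rpow_atTop he0).eventually_ge_atTop (4 * r ^ 2)
    obtain ⟨T2, h⟩ := Filter.eventually_atTop.mp this
    exact ⟨T2, h⟩
  set C : ℝ := CF + 4 * r ^ 2 + Real.exp (4 * r ^ 2 * C1) with hC
  have hexp := Real.exp_pos (4 * r ^ 2 * C1)
  have hr2 : 0 ≤ 4 * r ^ 2 := by positivity
  refine ⟨C, max (max T1 T2) (max 10 (CF ^ 2)), by positivity,
    le_trans (le_max_left _ _) (le_max_right _ _), ?_⟩
  intro T hT
  have hTT1 : T1 ≤ T := le_trans (le_trans (le_max_left _ _) (le_max_left _ _)) hT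
  have hTT2 : T2 ≤ T := le_trans (le_trans (le_max_right _ _) (le_max_left _ _)) hT
  have hT10 : 10 ≤ T := le_trans (le_trans (le_max_left _ _) (le_max_right _ _)) hT
  have hTCF : CF ^ 2 ≤ T := le_trans (le_trans (le_max_right _ _) (le_max_right _ _)) hT
  have hT0 : 0 < T := by linarith
  obtain ⟨hchi1, hsum⟩ := hchi T hTT1
  have hp0 : ∀ p ∈ PS P T, (0 : ℝ) < p := by
    intro p hp
    rw [PS, Finset.mem_filter] at hp
    exact_mod_cast hp.2.1.pos
  have hysq : ∀ p ∈ PS P T, yp P r T p ^ 2 ≤ 4 * r ^ 2 / p := by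
    intro p hp
    have h1 := hp0 p hp
    have h2 := (hchi1 p hp).2.2
    have h3 : chi P T p ^ 2 ≤ 4 := by
      have := sq_abs (chi P T p)
      have h4 := abs_nonneg (chi P T p)
      nlinarith
    rw [yp, div_pow, Real.sq_sqrt h1.le, mul_pow]
    apply div_le_div_of_nonneg_right _ h1.le
    nlinarith [sq_nonneg r]
  have hlow : ∀ p ∈ PS P T, T ^ e ≤ p := by
    intro p hp
    refine le_trans ?_ (Pool.Agent.KS6_1.SI.TTAux.lower P T hT10 p hp)
    apply Real.rpow_le_rpow_of_exponent_le (by linarith)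
    rw [he, hB]
    push_cast
    exact le_rfl
  have hTe : 0 < T ^ e := by positivity
  have hysq2 : ∀ p ∈ PS P T, yp P r T p ^ 2 ≤ 4 * r ^ 2 * T ^ (-e) := by
    intro p hp
    refine (hysq p hp).trans ?_
    rw [Real.rpow_neg hT0.le, div_eq_mul_inv]
    exact mul_le_mul_of_nonneg_left (inv_anti₀ hTe (hlow p hp)) hr2
  have hy1 : ∀ p ∈ PS P T, |yp P r T p| ≤ 1 := by
    intro p hp
    rw [← sq_le_one_iff_abs_le_one]
    refine (hysq2 p hp).trans ?_
    rw [Real.rpow_neg hT0.le, ← div_eq_mul_inv, div_le_one hTe]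
    exact hT2 T hTT2
  have hae : ∀ A ∈ fam P B0 T, |ae P r F T A| ≤ CF := by
    intro A hA
    rw [fam, Finset.mem_filter, Finset.mem_powerset] at hA
    rw [ae, abs_mul, Finset.abs_prod]
    calc |F (∑ p ∈ A, Eb P T p)| * ∏ p ∈ A, |yp P r T p| ≤ CF * 1 := by
          apply mul_le_mul (hF _ hA.2) _ (Finset.prod_nonneg fun i _ => abs_nonneg _) hCF.le
          exact Finset.prod_le_one (fun i _ => abs_nonneg _) (fun i hi => hy1 i (hA.1 hi))
      _ = CF := mul_one _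
  refine ⟨?_, ?_, ?_, ?_⟩
  · intro A hA
    refine ⟨nA_pos P B0 T A hA, nA_le P B0 hB T hT10 A hA, ?_, ?_⟩
    · refine (hae A hA).trans ?_
      rw [hC]; linarith
    · rw [fam, Finset.mem_filter, Finset.mem_powerset] at hA
      have h1 : ∑ p ∈ A, 1 ≤ ∑ p ∈ A, Eb P T p := by
        apply Finset.sum_le_sum
        intro p hp
        have := hA.1 hp
        rw [PS, Finset.mem_filter] at this
        omega
      rw [Finset.sum_const, smul_eq_mul, mul_one] at h1
      omega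
  · intro p hp
    refine ⟨hy1 p hp, (hysq p hp).trans ?_, (hysq2 p hp).trans ?_⟩
    · apply div_le_div_of_nonneg_right _ (hp0 p hp).le
      rw [hC]; linarith
    · apply mul_le_mul_of_nonneg_right _ (by positivity)
      rw [hC]; linarith
  · calc ∑ q ∈ prs P B0 T, |ae P r F T q.1 * ae P r F T q.2|
        ≤ ∑ q ∈ prs P B0 T, CF ^ 2 := by
          apply Finset.sum_le_sum
          intro q hq
          rw [prs, Finset.mem_filter, Finset.mem_product] at hq
          rw [abs_mul, sq]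
          exact mul_le_mul (hae _ hq.1.1) (hae _ hq.1.2) (abs_nonneg _) hCF.le
      _ ≤ ∑ q ∈ fam P B0 T ×ˢ fam P B0 T, CF ^ 2 := by
          apply Finset.sum_le_sum_of_subset_of_nonneg (Finset.filter_subset _ _)
          intros; positivity
      _ = ((fam P B0 T).card : ℝ) ^ 2 * CF ^ 2 := by
          rw [Finset.sum_const, Finset.card_product, nsmul_eq_mul]; push_cast; ring
      _ ≤ T * T := by
          apply mul_le_mul _ hTCF (by positivity) hT0.le
          calc ((fam P B0 T).card : ℝ) ^ 2 ≤ (T ^ ((1 - P.κ) / 2)) ^ 2 := by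
                gcongr
                exact fam_card P B0 hB T hT10
            _ = T ^ (1 - P.κ) := by
                rw [← Real.rpow_natCast, ← Real.rpow_mul hT0.le]
                congr 1
                push_cast
                ring
            _ ≤ T ^ (1 : ℝ) := Real.rpow_le_rpow_of_exponent_le (by linarith) (by linarith)
            _ = T := Real.rpow_one T
      _ = T ^ 2 := by ring
  · calc ∑ A ∈ fam P B0 T, ∏ p ∈ A, yp P r T p ^ 2
        ≤ ∑ A ∈ (PS P T).powerset, ∏ p ∈ A, yp P r T p ^ 2 := by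
          apply Finset.sum_le_sum_of_subset_of_nonneg (Finset.filter_subset _ _)
          intro A _ _
          exact Finset.prod_nonneg fun i _ => sq_nonneg _
      _ = ∏ p ∈ PS P T, (1 + yp P r T p ^ 2) := by
          rw [Finset.prod_one_add]
      _ ≤ ∏ p ∈ PS P T, Real.exp (yp P r T p ^ 2) := by
          apply Finset.prod_le_prod
          · intro i _; positivity
          · intro i _
            have := Real.add_one_le_exp (yp P r T i ^ 2)
            linarith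
      _ = Real.exp (∑ p ∈ PS P T, yp P r T p ^ 2) := by rw [Real.exp_sum]
      _ ≤ Real.exp (4 * r ^ 2 * C1) := by
          apply Real.exp_le_exp.mpr
          calc ∑ p ∈ PS P T, yp P r T p ^ 2 ≤ ∑ p ∈ PS P T, 4 * r ^ 2 * (1 / p : ℝ) := by
                apply Finset.sum_le_sum
                intro p hp
                refine (hysq p hp).trans (le_of_eq ?_)
                ring
            _ = 4 * r ^ 2 * ∑ p ∈ PS P T, (1 / p : ℝ) := by rw [Finset.mul_sum]
            _ ≤ 4 * r ^ 2 * C1 := mul_le_mul_of_nonneg_left hsum hr2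
      _ ≤ C := by rw [hC]; linarith

end Pool.Agent.KS6_1.SR.LG
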