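import Pool.Agent.KS6_1.SR.Defs
import Pool.Agent.KS6_1.SR.Sets
import Pool.Agent.KS6_1.SR.Cls

/-! Task 8 (DIS) of the large gaps project: disjointness errors tend to zero. -/

open Complex Filter Topology Set MeasureTheory

namespace Pool.Agent.KS6_1.SR.LG

open _root_.LG

variable [Pool.Agent.KS6_1.SI.Nu]

open SG (hh nn dl ord NZ)
open SP (RHs ZZ mu wt Mk qq tt)
open Pool.Agent.KS6_1.SI (Par Eb PS chi dd Nu)

namespace DISx

/-- sets of energy at most `N` -/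
noncomputable def FF (S : Finset ℕ) (E : ℕ → ℕ) (N : ℕ) : Finset (Finset ℕ) :=
  S.powerset.filter (fun A => ∑ p ∈ A, E p ≤ N)

noncomputable def XX (y : ℕ → ℝ) (A : Finset ℕ) : ℝ := ∏ p ∈ A, y p ^ 2

variable (S : Finset ℕ) (E : ℕ → ℕ) (y : ℕ → ℝ) (N : ℕ)

theorem XX_nonneg (A : Finset ℕ) : 0 ≤ XX y A := Finset.prod_nonneg (fun _ _ => sq_nonneg _)

theorem sum_fiber (g : ℕ → ℝ) :
    ∑ A ∈ FF S E N, g (∑ p ∈ A, E p) * XX y A =
    ∑ n ∈ Finset.range (N + 1), g n *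
      ∑ A ∈ S.powerset.filter (fun A => ∑ p ∈ A, E p = n), XX y A := by
  rw [← Finset.sum_fiberwise_of_maps_to (s := FF S E N) (t := Finset.range (N + 1))
    (g := fun A : Finset ℕ => ∑ p ∈ A, E p)]
  · apply Finset.sum_congr rfl
    intro n hn
    rw [Finset.mem_range] at hn
    rw [Finset.mul_sum, FF, Finset.filter_filter]
    apply Finset.sum_congr
    · ext A
      simp only [Finset.mem_filter, Finset.mem_powerset]
      constructor
      · rintro ⟨h1, h2, h3⟩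
        exact ⟨h1, h3⟩
      · rintro ⟨h1, h2⟩
        exact ⟨h1, by omega, h2⟩
    · intro A hA
      rw [Finset.mem_filter] at hA
      rw [hA.2]
  · intro A hA
    rw [FF, Finset.mem_filter] at hA
    rw [Finset.mem_range]
    omega

theorem sum_contain (p : ℕ) :
    ∑ A ∈ (FF S E N).filter (fun A => p ∈ A), XX y A ≤ y p ^ 2 * ∑ A ∈ FF S E N, XX y A := by
  have h1 : ∑ A ∈ (FF S E N).filter (fun A => p ∈ A), XX y A =
      ∑ A ∈ (FF S E N).filter (fun A => p ∈ A), y p ^ 2 * XX y (A.erase p) := by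
    apply Finset.sum_congr rfl
    intro A hA
    rw [Finset.mem_filter] at hA
    rw [XX, XX, Finset.mul_prod_erase A (fun p => y p ^ 2) hA.2]
  rw [h1, ← Finset.mul_sum]
  apply mul_le_mul_of_nonneg_left _ (sq_nonneg _)
  rw [← Finset.sum_image (s := (FF S E N).filter (fun A => p ∈ A)) (g := fun A => A.erase p)
    (f := XX y)]
  · apply Finset.sum_le_sum_of_subset_of_nonneg
    · intro A' hA'
      rw [Finset.mem_image] at hA'
      obtain ⟨A, hA, rfl⟩ := hA'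
      rw [Finset.mem_filter, FF, Finset.mem_filter, Finset.mem_powerset] at hA
      rw [FF, Finset.mem_filter, Finset.mem_powerset]
      refine ⟨(Finset.erase_subset _ _).trans hA.1.1, ?_⟩
      refine le_trans (Finset.sum_le_sum_of_subset (Finset.erase_subset _ _)) hA.1.2
    · intro A _ _
      exact XX_nonneg y A
  · intro A hA B hB hAB
    simp only [Finset.coe_filter, Set.mem_ofPred_eq] at hA hB
    have hAB' : A.erase p = B.erase p := hAB
    rw [← Finset.insert_erase hA.2, hAB', Finset.insert_erase hB.2]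

theorem sum_single :
    ∑ p ∈ S.filter (fun p => E p ≤ N), y p ^ 2 ≤ ∑ A ∈ FF S E N, XX y A := by
  have h1 : ∑ p ∈ S.filter (fun p => E p ≤ N), y p ^ 2 =
      ∑ p ∈ S.filter (fun p => E p ≤ N), XX y {p} := by
    apply Finset.sum_congr rfl
    intro p _
    simp [XX]
  rw [h1, ← Finset.sum_image (s := S.filter (fun p => E p ≤ N)) (g := fun p => ({p} : Finset ℕ))
    (f := XX y)]
  · apply Finset.sum_le_sum_of_subset_of_nonneg
    · intro A' hA'
      rw [Finset.mem_image] at hA'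
      obtain ⟨p, hp, rfl⟩ := hA'
      rw [Finset.mem_filter] at hp
      rw [FF, Finset.mem_filter, Finset.mem_powerset]
      simp only [Finset.singleton_subset_iff, Finset.sum_singleton]
      exact hp
    · intro A _ _
      exact XX_nonneg y A
  · intro a _ b _ hab
    exact Finset.singleton_injective hab

theorem prod_sum (W : Finset (Finset ℕ)) (f g : Finset ℕ → ℝ) :
    ∑ q ∈ W ×ˢ W, f q.1 * g q.2 = (∑ A ∈ W, f A) * (∑ A ∈ W, g A) := by
  rw [Finset.sum_mul_sum, ← Finset.sum_product']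

theorem sum_nondisj (M : ℝ) (hM : ∀ p ∈ S, y p ^ 2 ≤ M) (hM0 : 0 ≤ M) :
    ∑ q ∈ (FF S E N ×ˢ FF S E N).filter (fun q => ¬ Disjoint q.1 q.2), XX y q.1 * XX y q.2 ≤
      M * (∑ A ∈ FF S E N, XX y A) ^ 3 := by
  obtain ⟨G, hG⟩ : ∃ G : ℝ, G = ∑ A ∈ FF S E N, XX y A := ⟨_, rfl⟩
  have hG0 : 0 ≤ G := by
    rw [hG]
    exact Finset.sum_nonneg (fun A _ => XX_nonneg y A)
  have h1 : ∑ q ∈ (FF S E N ×ˢ FF S E N).filter (fun q => ¬ Disjoint q.1 q.2),
      XX y q.1 * XX y q.2 ≤ ∑ q ∈ FF S E N ×ˢ FF S E N, ∑ p ∈ S.filter (fun p => E p ≤ N),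
        (if p ∈ q.1 then XX y q.1 else 0) * (if p ∈ q.2 then XX y q.2 else 0) := by
    rw [Finset.sum_filter]
    apply Finset.sum_le_sum
    intro q hq
    have hnn : ∀ p ∈ S.filter (fun p => E p ≤ N),
        0 ≤ (if p ∈ q.1 then XX y q.1 else 0) * (if p ∈ q.2 then XX y q.2 else 0) := by
      intro p _
      have h1 := XX_nonneg y q.1
      have h2 := XX_nonneg y q.2
      split_ifs <;> positivity
    split_ifs with hd
    · exact Finset.sum_nonneg hnn
    · rw [Finset.not_disjoint_iff] at hd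
      obtain ⟨p, hp1, hp2⟩ := hd
      rw [Finset.mem_product] at hq
      have hq1 := hq.1
      rw [FF, Finset.mem_filter, Finset.mem_powerset] at hq1
      have hpS : p ∈ S.filter (fun p => E p ≤ N) := by
        rw [Finset.mem_filter]
        refine ⟨hq1.1 hp1, ?_⟩
        exact le_trans (Finset.single_le_sum (f := E) (fun _ _ => Nat.zero_le _) hp1) hq1.2
      refine le_trans (le_of_eq ?_) (Finset.single_le_sum hnn hpS)
      rw [if_pos hp1, if_pos hp2]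
  refine h1.trans ?_
  rw [Finset.sum_comm, ← hG]
  have h2 : ∀ p ∈ S.filter (fun p => E p ≤ N), ∑ q ∈ FF S E N ×ˢ FF S E N,
      (if p ∈ q.1 then XX y q.1 else 0) * (if p ∈ q.2 then XX y q.2 else 0) ≤
      M * G ^ 2 * y p ^ 2 := by
    intro p hp
    rw [Finset.mem_filter] at hp
    rw [prod_sum (FF S E N) (fun A => if p ∈ A then XX y A else 0)
      (fun A => if p ∈ A then XX y A else 0), ← Finset.sum_filter]
    have h3 := sum_contain S E y N p
    rw [← hG] at h3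
    have h4 : 0 ≤ ∑ A ∈ (FF S E N).filter (fun A => p ∈ A), XX y A :=
      Finset.sum_nonneg (fun A _ => XX_nonneg y A)
    calc (∑ A ∈ (FF S E N).filter (fun A => p ∈ A), XX y A) *
          (∑ A ∈ (FF S E N).filter (fun A => p ∈ A), XX y A)
        ≤ (y p ^ 2 * G) * (y p ^ 2 * G) := mul_le_mul h3 h3 h4 (by positivity)
      _ = (y p ^ 2) * (G ^ 2 * y p ^ 2) := by ring
      _ ≤ M * (G ^ 2 * y p ^ 2) := mul_le_mul_of_nonneg_right (hM p hp.1) (by positivity)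
      _ = _ := by ring
  refine (Finset.sum_le_sum h2).trans ?_
  rw [← Finset.mul_sum]
  have h5 := sum_single S E y N
  rw [← hG] at h5
  calc M * G ^ 2 * ∑ i ∈ S.filter (fun p => E p ≤ N), y i ^ 2 ≤ M * G ^ 2 * G :=
        mul_le_mul_of_nonneg_left h5 (by positivity)
    _ = _ := by ring

/-- the pairs which are not disjoint, or contain `p` -/
theorem sum_bad (M : ℝ) (hM : ∀ p ∈ S, y p ^ 2 ≤ M) (p : ℕ) (hp : p ∈ S) :
    ∑ q ∈ (FF S E N ×ˢ FF S E N).filter (fun q => ¬ (Disjoint q.1 q.2 ∧ p ∉ q.1 ∧ p ∉ q.2)),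
      XX y q.1 * XX y q.2 ≤
      M * (∑ A ∈ FF S E N, XX y A) ^ 3 + 2 * (M * (∑ A ∈ FF S E N, XX y A) ^ 2) := by
  have hM0 : 0 ≤ M := (sq_nonneg _).trans (hM p hp)
  have hG0 : 0 ≤ ∑ A ∈ FF S E N, XX y A := Finset.sum_nonneg (fun A _ => XX_nonneg y A)
  have h0 := sum_nondisj S E y N M hM hM0
  have h1 : ∑ q ∈ (FF S E N ×ˢ FF S E N).filter
      (fun q => ¬ (Disjoint q.1 q.2 ∧ p ∉ q.1 ∧ p ∉ q.2)), XX y q.1 * XX y q.2 ≤
      ∑ q ∈ (FF S E N ×ˢ FF S E N).filter (fun q => ¬ Disjoint q.1 q.2), XX y q.1 * XX y q.2 +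
      (∑ q ∈ FF S E N ×ˢ FF S E N, (if p ∈ q.1 then XX y q.1 else 0) * XX y q.2 +
      ∑ q ∈ FF S E N ×ˢ FF S E N, XX y q.1 * (if p ∈ q.2 then XX y q.2 else 0)) := by
    rw [Finset.sum_filter, Finset.sum_filter, ← Finset.sum_add_distrib, ← Finset.sum_add_distrib]
    apply Finset.sum_le_sum
    intro q _
    have h1 := XX_nonneg y q.1
    have h2 := XX_nonneg y q.2
    have h3 : 0 ≤ XX y q.1 * XX y q.2 := mul_nonneg h1 h2
    by_cases hd : Disjoint q.1 q.2 <;> by_cases hp1 : p ∈ q.1 <;> by_cases hp2 : p ∈ q.2 <;>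
      simp [hd, hp1, hp2] <;> linarith
  have h2 := sum_contain S E y N p
  have h3 : ∑ q ∈ FF S E N ×ˢ FF S E N, (if p ∈ q.1 then XX y q.1 else 0) * XX y q.2 ≤
      M * (∑ A ∈ FF S E N, XX y A) ^ 2 := by
    rw [prod_sum (FF S E N) (fun A => if p ∈ A then XX y A else 0) (XX y), ← Finset.sum_filter]
    calc (∑ A ∈ (FF S E N).filter (fun A => p ∈ A), XX y A) * ∑ A ∈ FF S E N, XX y A
        ≤ (y p ^ 2 * ∑ A ∈ FF S E N, XX y A) * ∑ A ∈ FF S E N, XX y A :=
          mul_le_mul_of_nonneg_right h2 hG0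
      _ ≤ (M * ∑ A ∈ FF S E N, XX y A) * ∑ A ∈ FF S E N, XX y A := by
          apply mul_le_mul_of_nonneg_right _ hG0
          exact mul_le_mul_of_nonneg_right (hM p hp) hG0
      _ = _ := by ring
  have h4 : ∑ q ∈ FF S E N ×ˢ FF S E N, XX y q.1 * (if p ∈ q.2 then XX y q.2 else 0) ≤
      M * (∑ A ∈ FF S E N, XX y A) ^ 2 := by
    rw [prod_sum (FF S E N) (XX y) (fun A => if p ∈ A then XX y A else 0), ← Finset.sum_filter]
    calc (∑ A ∈ FF S E N, XX y A) * (∑ A ∈ (FF S E N).filter (fun A => p ∈ A), XX y A)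
        ≤ (∑ A ∈ FF S E N, XX y A) * (y p ^ 2 * ∑ A ∈ FF S E N, XX y A) :=
          mul_le_mul_of_nonneg_left h2 hG0
      _ ≤ (∑ A ∈ FF S E N, XX y A) * (M * ∑ A ∈ FF S E N, XX y A) := by
          apply mul_le_mul_of_nonneg_left _ hG0
          exact mul_le_mul_of_nonneg_right (hM p hp) hG0
      _ = _ := by ring
  linarith

/-- replacing the good pairs by all pairs -/
theorem replace (M K : ℝ) (hM : ∀ p ∈ S, y p ^ 2 ≤ M) (p : ℕ) (hp : p ∈ S)
    (g g' : ℕ → ℝ) (hg : ∀ n ≤ N, |g n| ≤ K) (hg' : ∀ n ≤ N, |g' n| ≤ K) :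
    |∑ q ∈ (FF S E N ×ˢ FF S E N).filter (fun q => Disjoint q.1 q.2 ∧ p ∉ q.1 ∧ p ∉ q.2),
      (g (∑ x ∈ q.1, E x) * XX y q.1) * (g' (∑ x ∈ q.2, E x) * XX y q.2) -
      (∑ n ∈ Finset.range (N + 1), g n *
        ∑ A ∈ S.powerset.filter (fun A => ∑ p ∈ A, E p = n), XX y A) *
      (∑ n ∈ Finset.range (N + 1), g' n *
        ∑ A ∈ S.powerset.filter (fun A => ∑ p ∈ A, E p = n), XX y A)| ≤
      K ^ 2 * (M * (∑ A ∈ FF S E N, XX y A) ^ 3 + 2 * (M * (∑ A ∈ FF S E N, XX y A) ^ 2)) := by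
  rw [← sum_fiber, ← sum_fiber, Finset.sum_mul_sum, ← Finset.sum_product',
    ← Finset.sum_filter_add_sum_filter_not (FF S E N ×ˢ FF S E N)
      (fun q => Disjoint q.1 q.2 ∧ p ∉ q.1 ∧ p ∉ q.2)
      (fun q => (g (∑ x ∈ q.1, E x) * XX y q.1) * (g' (∑ x ∈ q.2, E x) * XX y q.2)),
    sub_add_cancel_left, abs_neg]
  refine (Finset.abs_sum_le_sum_abs _ _).trans ?_
  have h1 := sum_bad S E y N M hM p hp
  refine le_trans ?_ (mul_le_mul_of_nonneg_left h1 (sq_nonneg K))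
  rw [Finset.mul_sum]
  apply Finset.sum_le_sum
  intro q hq
  rw [Finset.mem_filter, Finset.mem_product, FF, Finset.mem_filter, Finset.mem_filter] at hq
  have h2 := hg _ hq.1.1.2
  have h3 := hg' _ hq.1.2.2
  have hK : 0 ≤ K := (abs_nonneg _).trans h2
  rw [abs_mul, abs_mul, abs_mul, abs_of_nonneg (XX_nonneg y q.1), abs_of_nonneg (XX_nonneg y q.2)]
  have h4 := XX_nonneg y q.1
  have h5 := XX_nonneg y q.2
  calc |g (∑ x ∈ q.1, E x)| * XX y q.1 * (|g' (∑ x ∈ q.2, E x)| * XX y q.2)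
      ≤ K * XX y q.1 * (K * XX y q.2) := by gcongr
    _ = _ := by ring

theorem replace0 (M K : ℝ) (hM : ∀ p ∈ S, y p ^ 2 ≤ M) (hM0 : 0 ≤ M)
    (g g' : ℕ → ℝ) (hg : ∀ n ≤ N, |g n| ≤ K) (hg' : ∀ n ≤ N, |g' n| ≤ K) :
    |∑ q ∈ (FF S E N ×ˢ FF S E N).filter (fun q => Disjoint q.1 q.2),
      (g (∑ x ∈ q.1, E x) * XX y q.1) * (g' (∑ x ∈ q.2, E x) * XX y q.2) -
      (∑ n ∈ Finset.range (N + 1), g n *
        ∑ A ∈ S.powerset.filter (fun A => ∑ p ∈ A, E p = n), XX y A) *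
      (∑ n ∈ Finset.range (N + 1), g' n *
        ∑ A ∈ S.powerset.filter (fun A => ∑ p ∈ A, E p = n), XX y A)| ≤
      K ^ 2 * (M * (∑ A ∈ FF S E N, XX y A) ^ 3) := by
  rw [← sum_fiber, ← sum_fiber, Finset.sum_mul_sum, ← Finset.sum_product',
    ← Finset.sum_filter_add_sum_filter_not (FF S E N ×ˢ FF S E N)
      (fun q => Disjoint q.1 q.2)
      (fun q => (g (∑ x ∈ q.1, E x) * XX y q.1) * (g' (∑ x ∈ q.2, E x) * XX y q.2)),
    sub_add_cancel_left, abs_neg]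
  refine (Finset.abs_sum_le_sum_abs _ _).trans ?_
  have h1 := sum_nondisj S E y N M hM hM0
  refine le_trans ?_ (mul_le_mul_of_nonneg_left h1 (sq_nonneg K))
  rw [Finset.mul_sum]
  apply Finset.sum_le_sum
  intro q hq
  rw [Finset.mem_filter, Finset.mem_product, FF, Finset.mem_filter, Finset.mem_filter] at hq
  have h2 := hg _ hq.1.1.2
  have h3 := hg' _ hq.1.2.2
  have hK : 0 ≤ K := (abs_nonneg _).trans h2
  rw [abs_mul, abs_mul, abs_mul, abs_of_nonneg (XX_nonneg y q.1), abs_of_nonneg (XX_nonneg y q.2)]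
  have h4 := XX_nonneg y q.1
  have h5 := XX_nonneg y q.2
  calc |g (∑ x ∈ q.1, E x)| * XX y q.1 * (|g' (∑ x ∈ q.2, E x)| * XX y q.2)
      ≤ K * XX y q.1 * (K * XX y q.2) := by gcongr
    _ = _ := by ring

theorem ae_sq (P : Par) (r : ℝ) (F : ℕ → ℝ) (T : ℝ) (A : Finset ℕ) :
    ae P r F T A ^ 2 = F (∑ p ∈ A, Eb P T p) ^ 2 * XX (yp P r T) A := by
  unfold ae XX
  rw [mul_pow, Finset.prod_pow]

theorem ae_insert (P : Par) (r : ℝ) (F : ℕ → ℝ) (T : ℝ) (A : Finset ℕ) (p : ℕ) (hp : p ∉ A) :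
    ae P r F T A * ae P r F T (insert p A) =
      yp P r T p * (F (∑ p ∈ A, Eb P T p) * F (∑ p ∈ A, Eb P T p + Eb P T p) * XX (yp P r T) A) := by
  unfold ae XX
  rw [Finset.sum_insert hp, Finset.prod_insert hp, Finset.prod_pow, add_comm (Eb P T p)]
  ring

theorem Eb_le (P : Par) (T : ℝ) (hT : 10 ≤ T) (p : ℕ) (hp : p ∈ PS P T) : Eb P T p ≤ P.B := by
  unfold PS at hp
  rw [Finset.mem_filter, Finset.mem_Icc] at hp
  unfold Eb
  rw [Nat.ceil_le]
  have hκ := P.hκ1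
  have hL : 0 < Real.log T := Real.log_pos (by linarith)
  have hp1 : (0 : ℝ) < p := by exact_mod_cast hp.2.1.pos
  have h1 : (p : ℝ) ≤ T ^ (1 - P.κ) := by
    have h2 : (p : ℝ) ≤ (nn P.κ T : ℝ) := by exact_mod_cast hp.1.2
    exact h2.trans (Nat.floor_le (by positivity))
  have h3 : Real.log p ≤ (1 - P.κ) * Real.log T := by
    rw [← Real.log_rpow (by linarith)]
    exact Real.log_le_log hp1 h1
  rw [div_le_iff₀ (by nlinarith)]
  exact mul_le_mul_of_nonneg_left h3 (Nat.cast_nonneg _)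

end DISx

open DISx in
theorem DIS (P : Par) (B0 : ℕ) (hB : P.B = 2 * B0) (r : ℝ) (hr : 0 < r) (F : ℕ → ℝ) :
    ∃ C η T0 : ℝ, 0 < C ∧ 0 < η ∧ 10 ≤ T0 ∧ ∀ T : ℝ, T0 ≤ T →
    |Cn P B0 r F T 1 - SF B0 F (QT P r T) ^ 2| ≤ C * T ^ (-η) ∧
    (∀ p ∈ PS P T, Eb P T p ≤ B0 →
      |Cn P B0 r F T p - 2 * yp P r T p * (SF B0 F (QT P r T) * SM B0 F (QT P r T) (Eb P T p))| ≤
        C * |yp P r T p| * T ^ (-η)) ∧
    (∀ p ∈ PS P T, B0 < Eb P T p → Cn P B0 r F T p = 0) ∧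
    (∀ p ∈ PS P T, |Cn P B0 r F T (p ^ 2)| ≤ C / p) := by
  obtain ⟨C, T0, hC, hT0, hfam⟩ := fam_facts P B0 hB r F
  have hB0 : 1 ≤ B0 := by
    have := P.hB
    omega
  have hB0' : (0 : ℝ) < B0 := by exact_mod_cast hB0
  obtain ⟨K, hK⟩ : ∃ K : ℝ, K = ∑ n ∈ Finset.range (3 * B0 + 1), |F n| := ⟨_, rfl⟩
  have hK0 : 0 ≤ K := by
    rw [hK]
    exact Finset.sum_nonneg (fun _ _ => abs_nonneg _)
  have hF : ∀ n ≤ 3 * B0, |F n| ≤ K := by
    intro n hn
    rw [hK]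
    exact Finset.single_le_sum (f := fun n => |F n|) (fun _ _ => abs_nonneg _)
      (Finset.mem_range.2 (by omega))
  have hFF : ∀ n ≤ 3 * B0, ∀ m ≤ 3 * B0, |F n * F m| ≤ K ^ 2 := by
    intro n hn m hm
    rw [abs_mul, sq]
    exact mul_le_mul (hF n hn) (hF m hm) (abs_nonneg _) hK0
  refine ⟨2 * (K ^ 4 * (C ^ 4 + 2 * C ^ 3)) + K ^ 4 * C ^ 3 + 1, (1 - P.κ) / (2 * (B0 : ℝ)), T0,
    by positivity, div_pos (by have := P.hκ1; linarith) (by positivity), hT0, fun T hT => ?_⟩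
  have hT10 : 10 ≤ T := hT0.trans hT
  have hT00 : 0 < T := by linarith
  obtain ⟨-, h2, -, h4⟩ := hfam T hT
  obtain ⟨τ, hτ⟩ : ∃ τ : ℝ, τ = T ^ (-((1 - P.κ) / (2 * (B0 : ℝ)))) := ⟨_, rfl⟩
  have hτ0 : 0 < τ := by rw [hτ]; positivity
  rw [← hτ] at h2 ⊢
  obtain ⟨G, hG⟩ : ∃ G : ℝ, G = ∑ A ∈ FF (PS P T) (Eb P T) B0, XX (yp P r T) A := ⟨_, rfl⟩
  have hGC : G ≤ C := by rw [hG]; exact h4
  have hG0 : 0 ≤ G := by
    rw [hG]
    exact Finset.sum_nonneg (fun A _ => XX_nonneg _ A)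
  have hM : ∀ p ∈ PS P T, yp P r T p ^ 2 ≤ C * τ := fun p hp => (h2 p hp).2.2
  have hbad : C * τ * G ^ 3 + 2 * (C * τ * G ^ 2) ≤ (C ^ 4 + 2 * C ^ 3) * τ := by
    have e1 : G ^ 3 ≤ C ^ 3 := pow_le_pow_left₀ hG0 hGC 3
    have e2 : G ^ 2 ≤ C ^ 2 := pow_le_pow_left₀ hG0 hGC 2
    calc C * τ * G ^ 3 + 2 * (C * τ * G ^ 2) ≤ C * τ * C ^ 3 + 2 * (C * τ * C ^ 2) := by gcongr
      _ = _ := by ring
  have hbad0 : C * τ * G ^ 3 ≤ C ^ 4 * τ := by
    have e1 : G ^ 3 ≤ C ^ 3 := pow_le_pow_left₀ hG0 hGC 3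
    calc C * τ * G ^ 3 ≤ C * τ * C ^ 3 := by gcongr
      _ = _ := by ring
  refine ⟨?_, ?_, ?_, ?_⟩
  · -- the case 1
    have key := replace0 (PS P T) (Eb P T) (yp P r T) B0 (C * τ) (K ^ 2) hM (by positivity)
      (fun n => F n ^ 2) (fun n => F n ^ 2)
      (fun n hn => by simpa [sq] using hFF n (by omega) n (by omega))
      (fun n hn => by simpa [sq] using hFF n (by omega) n (by omega))
    rw [← hG] at key
    have e1 : Cn P B0 r F T 1 = ∑ q ∈ (FF (PS P T) (Eb P T) B0 ×ˢ FF (PS P T) (Eb P T) B0).filter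
        (fun q => Disjoint q.1 q.2),
        (F (∑ x ∈ q.1, Eb P T x) ^ 2 * XX (yp P r T) q.1) *
          (F (∑ x ∈ q.2, Eb P T x) ^ 2 * XX (yp P r T) q.2) := by
      rw [Cn_one P B0 r F T hT10]
      apply Finset.sum_congr rfl
      intro q _
      rw [ae_sq, ae_sq]
    have e2 : SF B0 F (QT P r T) ^ 2 = (∑ n ∈ Finset.range (B0 + 1), F n ^ 2 *
        ∑ A ∈ (PS P T).powerset.filter (fun A => ∑ p ∈ A, Eb P T p = n), XX (yp P r T) A) *
        (∑ n ∈ Finset.range (B0 + 1), F n ^ 2 *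
        ∑ A ∈ (PS P T).powerset.filter (fun A => ∑ p ∈ A, Eb P T p = n), XX (yp P r T) A) := by
      rw [sq]
      rfl
    rw [e1, e2]
    refine key.trans ?_
    calc (K ^ 2) ^ 2 * (C * τ * G ^ 3) ≤ (K ^ 2) ^ 2 * (C ^ 4 * τ) :=
          mul_le_mul_of_nonneg_left hbad0 (by positivity)
      _ = K ^ 4 * C ^ 4 * τ := by ring
      _ ≤ _ := by
          apply mul_le_mul_of_nonneg_right _ hτ0.le
          have : 0 ≤ K ^ 4 * C ^ 4 := by positivity
          have : 0 ≤ K ^ 4 * C ^ 3 := by positivity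
          linarith
  · intro p hp hpB
    have key := replace (PS P T) (Eb P T) (yp P r T) B0 (C * τ) (K ^ 2) hM p hp
      (fun n => F n ^ 2) (fun n => if n + Eb P T p ≤ B0 then F n * F (n + Eb P T p) else 0)
      (fun n hn => by simpa [sq] using hFF n (by omega) n (by omega))
      (fun n hn => by
        split_ifs
        · exact hFF n (by omega) _ (by omega)
        · simp
          positivity)
    rw [← hG] at key
    have e1 : Cn P B0 r F T p = 2 * yp P r T p *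
        ∑ q ∈ (FF (PS P T) (Eb P T) B0 ×ˢ FF (PS P T) (Eb P T) B0).filter
        (fun q => Disjoint q.1 q.2 ∧ p ∉ q.1 ∧ p ∉ q.2),
        (F (∑ x ∈ q.1, Eb P T x) ^ 2 * XX (yp P r T) q.1) *
          ((if ∑ x ∈ q.2, Eb P T x + Eb P T p ≤ B0 then
            F (∑ x ∈ q.2, Eb P T x) * F (∑ x ∈ q.2, Eb P T x + Eb P T p) else 0) *
            XX (yp P r T) q.2) := by
      rw [Cn_prime P B0 r F T hT10 p hp, mul_assoc, Finset.mul_sum (a := yp P r T p)]
      congr 1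
      unfold prs
      rw [Finset.filter_filter, Finset.sum_filter, Finset.sum_filter]
      apply Finset.sum_congr rfl
      intro q _
      by_cases hd : Disjoint q.1 q.2
      swap
      · simp [hd]
      by_cases hp1 : p ∈ q.1
      · simp [hp1]
      by_cases hp2 : p ∈ q.2
      · simp [hp2]
      by_cases he : ∑ x ∈ q.2, Eb P T x + Eb P T p ≤ B0
      · rw [if_pos ⟨hd, hp1, hp2, he⟩, if_pos ⟨hd, hp1, hp2⟩, if_pos he, ae_sq,
          ae_insert P r F T q.2 p hp2]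
        ring
      · rw [if_neg (fun h => he h.2.2.2), if_pos ⟨hd, hp1, hp2⟩, if_neg he]
        ring
    have e2 : SM B0 F (QT P r T) (Eb P T p) = ∑ n ∈ Finset.range (B0 + 1),
        (if n + Eb P T p ≤ B0 then F n * F (n + Eb P T p) else 0) *
        ∑ A ∈ (PS P T).powerset.filter (fun A => ∑ p ∈ A, Eb P T p = n), XX (yp P r T) A := by
      unfold SM
      have hsub : Finset.range (B0 + 1 - Eb P T p) ⊆ Finset.range (B0 + 1) := by
        intro n hn
        rw [Finset.mem_range] at hn ⊢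
        omega
      rw [← Finset.sum_subset hsub]
      · apply Finset.sum_congr rfl
        intro n hn
        rw [Finset.mem_range] at hn
        rw [if_pos (by omega)]
        rfl
      · intro n _ hn
        rw [Finset.mem_range] at hn
        rw [if_neg (by omega), zero_mul]
    have e3 : SF B0 F (QT P r T) = ∑ n ∈ Finset.range (B0 + 1), F n ^ 2 *
        ∑ A ∈ (PS P T).powerset.filter (fun A => ∑ p ∈ A, Eb P T p = n), XX (yp P r T) A := rfl
    rw [e1, e2, e3, ← mul_sub, abs_mul]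
    have e4 : |2 * yp P r T p| = 2 * |yp P r T p| := by
      rw [abs_mul, abs_of_pos (by norm_num : (0 : ℝ) < 2)]
    rw [e4]
    have h0 := abs_nonneg (yp P r T p)
    refine (mul_le_mul_of_nonneg_left key (by positivity)).trans ?_
    calc 2 * |yp P r T p| * ((K ^ 2) ^ 2 * (C * τ * G ^ 3 + 2 * (C * τ * G ^ 2)))
        ≤ 2 * |yp P r T p| * ((K ^ 2) ^ 2 * ((C ^ 4 + 2 * C ^ 3) * τ)) := by gcongr
      _ = 2 * (K ^ 4 * (C ^ 4 + 2 * C ^ 3)) * |yp P r T p| * τ := by ring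
      _ ≤ _ := by
          apply mul_le_mul_of_nonneg_right _ hτ0.le
          apply mul_le_mul_of_nonneg_right _ h0
          have : 0 ≤ K ^ 4 * C ^ 3 := by positivity
          linarith
  · intro p hp hpB
    rw [Cn_prime P B0 r F T hT10 p hp]
    have : (prs P B0 T).filter (fun q => p ∉ q.1 ∧ p ∉ q.2 ∧
        ∑ x ∈ q.2, Eb P T x + Eb P T p ≤ B0) = ∅ := by
      apply Finset.filter_false_of_mem
      rintro q - ⟨-, -, h⟩
      omega
    rw [this]
    simp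
  · intro p hp
    have hEb : Eb P T p ≤ 2 * B0 := hB ▸ Eb_le P T hT10 p hp
    refine (Cn_prime_sq P B0 r F T hT10 p hp).trans ?_
    have h3 : ∀ q ∈ (prs P B0 T).filter (fun q => p ∉ q.1 ∧ p ∉ q.2),
        |ae P r F T q.1 * ae P r F T (insert p q.1) * (ae P r F T q.2 * ae P r F T (insert p q.2))| ≤
        (yp P r T p ^ 2 * K ^ 4) * (XX (yp P r T) q.1 * XX (yp P r T) q.2) := by
      intro q hq
      unfold prs fam at hq
      rw [Finset.mem_filter, Finset.mem_filter, Finset.mem_product, Finset.mem_filter,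
        Finset.mem_filter] at hq
      have g1 := hq.1.1.1.2
      have g2 := hq.1.1.2.2
      rw [ae_insert P r F T q.1 p hq.2.1, ae_insert P r F T q.2 p hq.2.2]
      have e1 := hFF (∑ x ∈ q.1, Eb P T x) (by omega) (∑ x ∈ q.1, Eb P T x + Eb P T p) (by omega)
      have e2 := hFF (∑ x ∈ q.2, Eb P T x) (by omega) (∑ x ∈ q.2, Eb P T x + Eb P T p) (by omega)
      have n1 := XX_nonneg (yp P r T) q.1
      have n2 := XX_nonneg (yp P r T) q.2
      have e3 : yp P r T p * (F (∑ x ∈ q.1, Eb P T x) * F (∑ x ∈ q.1, Eb P T x + Eb P T p) *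
          XX (yp P r T) q.1) * (yp P r T p * (F (∑ x ∈ q.2, Eb P T x) *
          F (∑ x ∈ q.2, Eb P T x + Eb P T p) * XX (yp P r T) q.2)) =
          yp P r T p ^ 2 * ((F (∑ x ∈ q.1, Eb P T x) * F (∑ x ∈ q.1, Eb P T x + Eb P T p)) *
          (F (∑ x ∈ q.2, Eb P T x) * F (∑ x ∈ q.2, Eb P T x + Eb P T p))) *
          (XX (yp P r T) q.1 * XX (yp P r T) q.2) := by ring
      rw [e3, abs_mul, abs_mul, abs_of_nonneg (sq_nonneg (yp P r T p)),
        abs_of_nonneg (mul_nonneg n1 n2), abs_mul (F _ * F _)]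
      calc yp P r T p ^ 2 * (|F (∑ x ∈ q.1, Eb P T x) * F (∑ x ∈ q.1, Eb P T x + Eb P T p)| *
            |F (∑ x ∈ q.2, Eb P T x) * F (∑ x ∈ q.2, Eb P T x + Eb P T p)|) *
            (XX (yp P r T) q.1 * XX (yp P r T) q.2)
          ≤ yp P r T p ^ 2 * (K ^ 2 * K ^ 2) * (XX (yp P r T) q.1 * XX (yp P r T) q.2) := by gcongr
        _ = _ := by ring
    refine (Finset.sum_le_sum h3).trans ?_
    rw [← Finset.mul_sum]
    have h5 : ∑ q ∈ (prs P B0 T).filter (fun q => p ∉ q.1 ∧ p ∉ q.2),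
        XX (yp P r T) q.1 * XX (yp P r T) q.2 ≤ G * G := by
      rw [hG, ← prod_sum]
      apply Finset.sum_le_sum_of_subset_of_nonneg
      · intro q hq
        rw [Finset.mem_filter] at hq
        have := hq.1
        unfold prs at this
        rw [Finset.mem_filter] at this
        exact this.1
      · intro q _ _
        exact mul_nonneg (XX_nonneg _ _) (XX_nonneg _ _)
    have h6 := (h2 p hp).2.1
    have hp0 : 0 ≤ C / (p : ℝ) := by positivity
    calc yp P r T p ^ 2 * K ^ 4 * ∑ q ∈ (prs P B0 T).filter (fun q => p ∉ q.1 ∧ p ∉ q.2),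
          XX (yp P r T) q.1 * XX (yp P r T) q.2 ≤ (C / p) * K ^ 4 * (C * C) := by
          apply mul_le_mul _ (h5.trans (mul_le_mul hGC hGC hG0 hC.le)) _ (by positivity)
          · exact mul_le_mul_of_nonneg_right h6 (by positivity)
          · exact Finset.sum_nonneg (fun q _ => mul_nonneg (XX_nonneg _ _) (XX_nonneg _ _))
      _ = (K ^ 4 * C ^ 3) / p := by ring
      _ ≤ _ := by
          apply div_le_div_of_nonneg_right _ (Nat.cast_nonneg _)
          have : 0 ≤ 2 * (K ^ 4 * (C ^ 4 + 2 * C ^ 3)) := by positivity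
          linarith

end Pool.Agent.KS6_1.SR.LG
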