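import Pool.Agent.KS6_1.SR.Defs
import Pool.Agent.KS6_1.SI.TT
import Pool.Graph.R_seed8.H382P.Newton

/-! # Task 09: limits of `QT` (helper613) -/

open Complex Filter Topology Set MeasureTheory

namespace Pool.Agent.KS6_1.SR.LG

open _root_.LG

variable [Pool.Agent.KS6_1.SI.Nu]

open SG (hh nn dl ord NZ)
open SP (RHs ZZ mu wt Mk qq tt)
open Pool.Agent.KS6_1.SI (Par Eb PS chi dd Nu)

namespace QLimAux

open Pool.Agent.KS6_1.SI.TTAux

/-- squares of the coefficients -/
noncomputable def y2 (P : Par) (r T : ℝ) (p : ℕ) : ℂ := ((yp P r T p ^ 2 : ℝ) : ℂ)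

/-- the test function -/
noncomputable def HQ (P : Par) (r : ℝ) (m : ℕ) (u : ℝ) : ℂ :=
  ((r ^ 2 * (u * P.b m u ^ 2) : ℝ) : ℂ)

lemma HQ_contDiff (P : Par) (r : ℝ) (m : ℕ) : ContDiff ℝ 1 (HQ P r m) := by
  have hb : ContDiff ℝ 1 (P.b m) := (P.hb m).of_le (by norm_num)
  unfold HQ
  exact ofRealCLM.contDiff.comp (contDiff_const.mul (contDiff_id.mul (hb.pow 2)))

lemma b_zero (P : Par) (m : ℕ) (u : ℝ) (hu : 1 ≤ u ∨ u ≤ 0) : P.b m u = 0 := by
  by_contra h
  obtain ⟨h2, hB, hl, hu'⟩ := P.hb0 m _ h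
  have hBpos : (0 : ℝ) < P.B := by have := P.hB; positivity
  have hκ := P.hκ
  have hκ1 : 0 < 1 - P.κ := by have := P.hκ1; linarith
  have hm := P.hm
  have h5 : (m : ℝ) * (1 - P.κ) / P.B ≤ 1 - P.κ := by
    rw [div_le_iff₀ hBpos, mul_comm]
    apply mul_le_mul_of_nonneg_left _ hκ1.le
    exact_mod_cast hB
  have h6 : 0 ≤ ((m : ℝ) - 1) * (1 - P.κ) / P.B := by
    have : (2 : ℝ) ≤ m := by exact_mod_cast h2
    apply div_nonneg (mul_nonneg (by linarith) hκ1.le) hBpos.le
  rcases hu with hu | hu <;> linarith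

lemma HQ_zero (P : Par) (r : ℝ) (m : ℕ) (u : ℝ) (hu : 1 ≤ u ∨ u ≤ 0) : HQ P r m u = 0 := by
  simp [HQ, b_zero P m u hu]

lemma HQ_lip (P : Par) (r : ℝ) (m : ℕ) : ∃ K : NNReal, LipschitzWith K (HQ P r m) := by
  apply ContDiff.lipschitzWith_of_hasCompactSupport (n := 1) _ (HQ_contDiff P r m) (by norm_num)
  apply HasCompactSupport.intro (isCompact_Icc (a := (0 : ℝ)) (b := 1))
  intro u hu
  apply HQ_zero
  rw [mem_Icc, not_and_or, not_le, not_le] at hu
  rcases hu with h | h
  · right; exact h.le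
  · left; exact h.le

lemma y2_eq (P : Par) (r T : ℝ) (p : ℕ) : y2 P r T p = ((r ^ 2 * chi P T p ^ 2 / p : ℝ) : ℂ) := by
  unfold y2 yp
  rw [div_pow, Real.sq_sqrt (Nat.cast_nonneg p), mul_pow]

lemma y2_norm (P : Par) (r T : ℝ) (p : ℕ) (hp : 0 < p) (h : |chi P T p| ≤ 2) :
    ‖y2 P r T p‖ ≤ 4 * r ^ 2 / p := by
  rw [y2_eq, Complex.norm_real, Real.norm_eq_abs]
  have hp0 : (0 : ℝ) < p := by exact_mod_cast hp
  rw [abs_of_nonneg (by positivity)]
  have h2 : chi P T p ^ 2 ≤ 4 := by
    rw [← sq_abs]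
    nlinarith [abs_nonneg (chi P T p)]
  apply div_le_div_of_nonneg_right _ hp0.le
  nlinarith [sq_nonneg r]

lemma HQ_eq (P : Par) (r : ℝ) (m : ℕ) (T : ℝ) (hT : 10 ≤ T) (p : ℕ) :
    ((1 / Real.log T : ℝ) : ℂ) * ((Real.log p / p : ℝ) * HQ P r m (Real.log p / Real.log T)) =
      ((r ^ 2 * (Real.log p / Real.log T * P.b m (Real.log p / Real.log T)) ^ 2 / p : ℝ) : ℂ) := by
  have hL := log_pos' hT
  unfold HQ
  rw [← Complex.ofReal_mul, ← Complex.ofReal_mul]
  congr 1
  field_simp

lemma y2_sub (P : Par) (r T : ℝ) (hT : 10 ≤ T) (p m : ℕ) (hp : 0 < p) (C : ℝ)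
    (h : |chi P T p| ≤ 2) (h1 : |chi P T p - Real.log p / Real.log T *
      P.b m (Real.log p / Real.log T)| ≤ C / Real.log T) :
    ‖y2 P r T p - ((1 / Real.log T : ℝ) : ℂ) *
      ((Real.log p / p : ℝ) * HQ P r m (Real.log p / Real.log T))‖ ≤
      3 * r ^ 2 * (C / Real.log T) * (1 / p) := by
  have hu : 0 ≤ Real.log p / Real.log T :=
    div_nonneg (Real.log_natCast_nonneg p) (log_pos' hT).le
  rw [y2_eq, HQ_eq P r m T hT, ← Complex.ofReal_sub, Complex.norm_real, Real.norm_eq_abs]
  set u := Real.log p / Real.log T with hudef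
  set x := chi P T p with hx
  have hb := P.hb1 m u
  set x0 : ℝ := u * P.b m u with hx0
  have hp0 : (0 : ℝ) < p := by exact_mod_cast hp
  have e : r ^ 2 * x ^ 2 / p - r ^ 2 * x0 ^ 2 / p = r ^ 2 * ((x + x0) * (x - x0)) * (1 / p) := by
    field_simp
    ring
  have hx00 : 0 ≤ x0 := mul_nonneg hu hb.1
  have h7 : 0 ≤ C / Real.log T := (abs_nonneg _).trans h1
  rw [e, abs_mul, abs_mul, abs_mul, abs_of_nonneg (sq_nonneg r),
    abs_of_pos (show (0 : ℝ) < 1 / p by positivity)]
  apply mul_le_mul_of_nonneg_right _ (by positivity)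
  rw [mul_comm (3 : ℝ), mul_assoc]
  apply mul_le_mul_of_nonneg_left _ (sq_nonneg r)
  apply mul_le_mul _ h1 (abs_nonneg _) (by norm_num)
  calc |x + x0| ≤ |x| + |x0| := abs_add_le _ _
    _ ≤ 2 + 1 := by
      rw [abs_of_nonneg hx00]
      exact add_le_add h hb.2
    _ = 3 := by norm_num

theorem tt_lim2 (P : Par) (r : ℝ) (m : ℕ) (hm : 1 ≤ m) :
    Tendsto (fun T : ℝ => tt (PS P T) (Eb P T) (y2 P r T) m) atTop (𝓝 ((tm P r m : ℝ) : ℂ)) := by
  obtain ⟨C1, T1, hC1, hT1, hchi⟩ := Pool.Agent.KS6_1.SI.chi_approx P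
  obtain ⟨K, hK⟩ := HQ_lip P r m
  obtain ⟨C2, hC2, hmert⟩ := Pool.Agent.KS6_1.SI.mert (HQ P r m) K hK (fun u hu => HQ_zero P r m u (Or.inl hu))
  have htm : ((tm P r m : ℝ) : ℂ) = m * ∫ u in (0 : ℝ)..1, HQ P r m u := by
    unfold tm HQ
    rw [intervalIntegral.integral_ofReal, intervalIntegral.integral_const_mul]
    push_cast
    ring
  have hBpos : (0 : ℝ) < P.B := by have := P.hB; positivity
  have hκ1 : 0 < 1 - P.κ := by have := P.hκ1; linarith
  have he : 0 < (1 - P.κ) / P.B := by positivity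
  have hN0 : Tendsto (fun T : ℝ => T ^ ((1 - P.κ) / P.B)) atTop atTop := tendsto_rpow_atTop he
  rw [tendsto_iff_norm_sub_tendsto_zero]
  set R : ℝ := 4 * r ^ 2 with hR
  have hR0 : 0 ≤ R := by positivity
  have hbound : ∀ᶠ T : ℝ in atTop, ‖tt (PS P T) (Eb P T) (y2 P r T) m - (tm P r m : ℝ)‖ ≤
      R ^ 2 * m * C1 * (T ^ ((1 - P.κ) / P.B))⁻¹ +
        (m * (3 * r ^ 2) * C1 ^ 2 + m * C2) * (Real.log T)⁻¹ := by
    filter_upwards [eventually_ge_atTop T1, eventually_ge_atTop (10 : ℝ),
      hN0.eventually_ge_atTop (R + 1)] with T hTT hT10 hT8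
    obtain ⟨hc, hs⟩ := hchi T hTT
    have hL := log_pos' hT10
    set N0 := T ^ ((1 - P.κ) / P.B) with hN0def
    have hN0pos : 0 < N0 := by linarith
    have hmem : ∀ p ∈ PS P T, 0 < p ∧ R ≤ (p : ℝ) ∧ N0 ≤ p := by
      intro p hp
      have := lower P T hT10 p hp
      refine ⟨?_, by linarith, this⟩
      have h : (0 : ℝ) < p := by linarith
      exact_mod_cast h
    -- the r ≥ 2 part
    have hA : ‖tt (PS P T) (Eb P T) (y2 P r T) m -
        ∑ p ∈ (PS P T).filter (fun p => Eb P T p = m), (m : ℂ) * y2 P r T p‖ ≤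
        R ^ 2 * m * C1 * N0⁻¹ := by
      rw [Finset.sum_filter]
      unfold tt
      rw [← Finset.sum_sub_distrib]
      refine (norm_sum_le _ _).trans ?_
      calc _ ≤ ∑ p ∈ PS P T, R ^ 2 * m * N0⁻¹ * (1 / p : ℝ) := by
            apply Finset.sum_le_sum
            intro p hp
            obtain ⟨hp0, hp8, hpN⟩ := hmem p hp
            have hpr : (0 : ℝ) < p := by exact_mod_cast hp0
            have hE2 : 2 ≤ Eb P T p := by
              rw [PS, Finset.mem_filter] at hp
              exact hp.2.2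
            by_cases hEm : Eb P T p = m
            · rw [if_pos (by rw [hEm]), if_pos hEm, hEm, Nat.div_self (by omega)]
              simp only [Nat.sub_self, pow_zero, one_mul, pow_one, sub_self, norm_zero]
              positivity
            · rw [if_neg hEm, sub_zero]
              by_cases hd : Eb P T p ∣ m
              · rw [if_pos hd, norm_mul, norm_mul, norm_pow, norm_neg, norm_one, one_pow, one_mul,
                  Complex.norm_natCast, norm_pow]
                have hEle : (Eb P T p : ℝ) ≤ m := by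
                  exact_mod_cast Nat.le_of_dvd (by omega) hd
                have hr : 2 ≤ m / Eb P T p := by
                  obtain ⟨r, hr⟩ := hd
                  have : m / Eb P T p = r := by
                    rw [hr, Nat.mul_div_cancel_left _ (by omega)]
                  rw [this]
                  rcases r with _ | _ | r
                  · omega
                  · omega
                  · omega
                have hg : ‖y2 P r T p‖ ≤ R / p := y2_norm P r T p hp0 (hc p hp).2.2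
                have hg1 : (R / p : ℝ) ≤ 1 := by
                  rw [div_le_one hpr]; exact hp8
                have hg2 : ‖y2 P r T p‖ ^ (m / Eb P T p) ≤ (R / p : ℝ) ^ 2 := by
                  calc _ ≤ (R / p : ℝ) ^ (m / Eb P T p) :=
                        pow_le_pow_left₀ (norm_nonneg _) hg _
                    _ ≤ _ := pow_le_pow_of_le_one (by positivity) hg1 hr
                calc (Eb P T p : ℝ) * ‖y2 P r T p‖ ^ (m / Eb P T p) ≤ m * (R / p : ℝ) ^ 2 :=
                      mul_le_mul hEle hg2 (by positivity) (by positivity)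
                  _ = R ^ 2 * m * (p : ℝ)⁻¹ * (1 / p : ℝ) := by
                      field_simp
                  _ ≤ R ^ 2 * m * N0⁻¹ * (1 / p : ℝ) := by
                      gcongr
              · rw [if_neg hd, norm_zero]
                positivity
        _ = R ^ 2 * m * N0⁻¹ * ∑ p ∈ PS P T, (1 / p : ℝ) := by rw [Finset.mul_sum]
        _ ≤ R ^ 2 * m * N0⁻¹ * C1 := by gcongr
        _ = _ := by ring
    -- main part
    have hBsum : ‖∑ p ∈ (PS P T).filter (fun p => Eb P T p = m), (m : ℂ) * y2 P r T p -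
        ∑ p ∈ (PS P T).filter (fun p => Eb P T p = m), (m : ℂ) *
          (((1 / Real.log T : ℝ) : ℂ) *
            ((Real.log p / p : ℝ) * HQ P r m (Real.log p / Real.log T)))‖ ≤
        m * (3 * r ^ 2) * C1 ^ 2 * (Real.log T)⁻¹ := by
      rw [← Finset.sum_sub_distrib]
      refine (norm_sum_le _ _).trans ?_
      calc _ ≤ ∑ p ∈ (PS P T).filter (fun p => Eb P T p = m),
            m * (3 * r ^ 2 * (C1 / Real.log T)) * (1 / p : ℝ) := by
            apply Finset.sum_le_sum
            intro p hp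
            rw [Finset.mem_filter] at hp
            obtain ⟨hp0, hp8, hpN⟩ := hmem p hp.1
            rw [← mul_sub, norm_mul, Complex.norm_natCast, mul_assoc]
            apply mul_le_mul_of_nonneg_left _ (by positivity)
            have h1 := (hc p hp.1).2.1
            rw [hp.2] at h1
            exact y2_sub P r T hT10 p m hp0 C1 (hc p hp.1).2.2 h1
        _ ≤ ∑ p ∈ PS P T, m * (3 * r ^ 2 * (C1 / Real.log T)) * (1 / p : ℝ) := by
            apply Finset.sum_le_sum_of_subset_of_nonneg (Finset.filter_subset _ _)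
            intro p hp _
            positivity
        _ = m * (3 * r ^ 2 * (C1 / Real.log T)) * ∑ p ∈ PS P T, (1 / p : ℝ) := by
            rw [Finset.mul_sum]
        _ ≤ m * (3 * r ^ 2 * (C1 / Real.log T)) * C1 := by gcongr
        _ = _ := by field_simp
    have hsum : ∑ p ∈ (PS P T).filter (fun p => Eb P T p = m), (m : ℂ) *
          (((1 / Real.log T : ℝ) : ℂ) *
            ((Real.log p / p : ℝ) * HQ P r m (Real.log p / Real.log T))) =
        (m : ℂ) * (((1 / Real.log T : ℝ) : ℂ) *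
          ∑ p ∈ (Finset.Icc 1 ⌊T⌋₊).filter Nat.Prime,
            ((Real.log p / p : ℝ) : ℂ) * HQ P r m (Real.log p / Real.log T)) := by
      rw [Finset.mul_sum, Finset.mul_sum]
      apply Finset.sum_subset
      · exact (Finset.filter_subset _ _).trans (PS_sub P T hT10)
      · intro p hp hp'
        rw [Finset.mem_filter] at hp
        have : P.b m (Real.log p / Real.log T) = 0 := by
          by_contra h
          exact hp' (Finset.mem_filter.mpr (mem_of_b P T hT10 p m hp.2 h))
        simp [HQ, this]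
    have hC : ‖(m : ℂ) * (((1 / Real.log T : ℝ) : ℂ) *
          ∑ p ∈ (Finset.Icc 1 ⌊T⌋₊).filter Nat.Prime,
            ((Real.log p / p : ℝ) : ℂ) * HQ P r m (Real.log p / Real.log T)) -
              (tm P r m : ℝ)‖ ≤
        m * C2 * (Real.log T)⁻¹ := by
      rw [htm, ← mul_sub, norm_mul, Complex.norm_natCast, mul_assoc]
      apply mul_le_mul_of_nonneg_left _ (by positivity)
      exact hmert T hT10
    rw [hsum] at hBsum
    calc ‖tt (PS P T) (Eb P T) (y2 P r T) m - (tm P r m : ℝ)‖ ≤ _ + (_ + _) := by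
          refine (norm_sub_le_norm_sub_add_norm_sub _
            (∑ p ∈ (PS P T).filter (fun p => Eb P T p = m), (m : ℂ) * y2 P r T p) _).trans ?_
          exact add_le_add hA ((norm_sub_le_norm_sub_add_norm_sub _ _ _).trans
            (add_le_add hBsum hC))
      _ = _ := by ring
  have hlim : Tendsto (fun T : ℝ => R ^ 2 * m * C1 * (T ^ ((1 - P.κ) / P.B))⁻¹ +
      (m * (3 * r ^ 2) * C1 ^ 2 + m * C2) * (Real.log T)⁻¹) atTop (𝓝 0) := by
    have h1 := (hN0.inv_tendsto_atTop).const_mul (R ^ 2 * m * C1)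
    have h2 := (Real.tendsto_log_atTop.inv_tendsto_atTop).const_mul
      (m * (3 * r ^ 2) * C1 ^ 2 + m * C2)
    have h3 := h1.add h2
    simpa using h3
  exact squeeze_zero' (Eventually.of_forall fun _ => norm_nonneg _) hbound hlim

lemma qq_QT (P : Par) (r T : ℝ) (n : ℕ) :
    qq (PS P T) (Eb P T) (y2 P r T) n = ((QT P r T n : ℝ) : ℂ) := by
  unfold qq QT y2
  push_cast
  rfl

end QLimAux

open QLimAux

theorem QLIM (P : Par) (B0 : ℕ) (hB : P.B = 2 * B0) (r : ℝ) (q : ℕ → ℝ)
    (hq : IsQ B0 (tm P r) q) (n : ℕ) (hn : n ≤ B0) :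
    Tendsto (fun T : ℝ => QT P r T n) atTop (𝓝 (q n)) := by
  have hnew := fun T : ℝ => SP.newton (PS P T) (Eb P T) (fun p hp => by
    unfold PS at hp
    rw [Finset.mem_filter] at hp
    omega) (y2 P r T)
  have key : ∀ n : ℕ, n ≤ B0 → Tendsto (fun T : ℝ => qq (PS P T) (Eb P T) (y2 P r T) n) atTop
      (𝓝 ((q n : ℝ) : ℂ)) := by
    intro n
    induction n using Nat.strong_induction_on with
    | _ n ih =>
      intro hn
      rcases Nat.eq_zero_or_pos n with h0 | h0
      · subst h0
        rw [hq.1]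
        simp only [(hnew _).1]
        simp
      · have hn0 : (n : ℂ) ≠ 0 := by exact_mod_cast (show n ≠ 0 by omega)
        have e1 : ∀ T : ℝ, qq (PS P T) (Eb P T) (y2 P r T) n = (n : ℂ)⁻¹ *
            ∑ m ∈ Finset.Icc 1 n, tt (PS P T) (Eb P T) (y2 P r T) m *
              qq (PS P T) (Eb P T) (y2 P r T) (n - m) := by
          intro T
          rw [← (hnew T).2 n h0, ← mul_assoc, inv_mul_cancel₀ hn0, one_mul]
        have e2 : ((q n : ℝ) : ℂ) = (n : ℂ)⁻¹ *
            ∑ m ∈ Finset.Icc 1 n, ((tm P r m : ℝ) : ℂ) * ((q (n - m) : ℝ) : ℂ) := by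
          have := hq.2 n h0 hn
          have h2 : (n : ℂ) * ((q n : ℝ) : ℂ) =
              ∑ m ∈ Finset.Icc 1 n, ((tm P r m : ℝ) : ℂ) * ((q (n - m) : ℝ) : ℂ) := by
            exact_mod_cast this
          rw [← h2, ← mul_assoc, inv_mul_cancel₀ hn0, one_mul]
        rw [e2]
        simp only [e1]
        apply Tendsto.const_mul
        apply tendsto_finsetSum
        intro m hm
        rw [Finset.mem_Icc] at hm
        exact (tt_lim2 P r m hm.1).mul (ih (n - m) (by omega) (by omega))
  have h := key n hn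
  simp only [qq_QT] at h
  have h2 := (Complex.continuous_re.tendsto _).comp h
  refine h2.congr fun T => ?_
  simp only [Function.comp, Complex.ofReal_re]

end Pool.Agent.KS6_1.SR.LG
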