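import Pool.Agent.KS6_1.SR.Defs
import Pool.Agent.KS6_1.SR.QLim
import Pool.Agent.KS6_1.SR.Cls
import Pool.Agent.KS6_1.SR.DIS

/-! # Task 11: limits of the diagonal terms (helper613) -/

open Complex Filter Topology Set MeasureTheory

namespace Pool.Agent.KS6_1.SR.LG

open _root_.LG

variable [Pool.Agent.KS6_1.SI.Nu]

open SG (hh nn dl ord NZ)
open SP (RHs ZZ mu wt Mk qq tt)
open Pool.Agent.KS6_1.SI (Par Eb PS chi dd Nu)

namespace CombAux

lemma SF_lim (P : Par) (B0 : ℕ) (hB : P.B = 2 * B0) (r : ℝ) (F q : ℕ → ℝ)
    (hq : IsQ B0 (tm P r) q) :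
    Tendsto (fun T : ℝ => SF B0 F (QT P r T)) atTop (𝓝 (SF B0 F q)) := by
  unfold SF
  apply tendsto_finsetSum
  intro n hn
  rw [Finset.mem_range] at hn
  exact (QLIM P B0 hB r q hq n (by omega)).const_mul _

lemma SM_lim (P : Par) (B0 : ℕ) (hB : P.B = 2 * B0) (r : ℝ) (F q : ℕ → ℝ)
    (hq : IsQ B0 (tm P r) q) (m : ℕ) :
    Tendsto (fun T : ℝ => SM B0 F (QT P r T) m) atTop (𝓝 (SM B0 F q m)) := by
  unfold SM
  apply tendsto_finsetSum
  intro n hn
  rw [Finset.mem_range] at hn
  exact (QLIM P B0 hB r q hq n (by omega)).const_mul _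

lemma PS_prime (P : Par) (T : ℝ) (p : ℕ) (hp : p ∈ PS P T) : p.Prime := by
  unfold PS at hp
  rw [Finset.mem_filter] at hp
  exact hp.2.1

lemma lk_prime (A c T : ℝ) (p : ℕ) (hp : p.Prime) :
    lk A c T p = Real.log p * (1 / Real.sqrt p) * bk A c T p := by
  unfold lk
  rw [ArithmeticFunction.vonMangoldt_apply_prime hp]
  congr 2
  rw [Real.rpow_neg (Nat.cast_nonneg p), ← Real.sqrt_eq_rpow, one_div]

lemma lk_prime_sq (A c T : ℝ) (p : ℕ) (hp : p.Prime) :
    lk A c T (p ^ 2 : ℕ) = Real.log p * (1 / p) * bk A c T ((p ^ 2 : ℕ) : ℝ) := by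
  unfold lk
  rw [ArithmeticFunction.vonMangoldt_apply_pow (by norm_num),
    ArithmeticFunction.vonMangoldt_apply_prime hp]
  congr 2
  have hp0 : (0 : ℝ) < p := by exact_mod_cast hp.pos
  push_cast
  rw [← Real.rpow_natCast, ← Real.rpow_mul hp0.le]
  norm_num
  rw [Real.rpow_neg_one]

lemma tsum_split (P : Par) (B0 : ℕ) (r : ℝ) (F : ℕ → ℝ) (T A c : ℝ) (hT : 10 ≤ T) :
    ∑' n : ℕ, lk A c T n * Cn P B0 r F T n =
      ∑ p ∈ PS P T, lk A c T p * Cn P B0 r F T p +
      ∑ p ∈ PS P T, lk A c T (p ^ 2 : ℕ) * Cn P B0 r F T (p ^ 2) := by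
  have hinj : Set.InjOn (fun p : ℕ => p ^ 2) (PS P T) := by
    intro a _ b _ h
    exact Nat.pow_left_injective (by norm_num : 2 ≠ 0) h
  have hdis : Disjoint (PS P T) ((PS P T).image (fun p => p ^ 2)) := by
    rw [Finset.disjoint_left]
    intro a ha ha'
    rw [Finset.mem_image] at ha'
    obtain ⟨b, hb, rfl⟩ := ha'
    exact Nat.Prime.not_prime_pow (by norm_num : 2 ≤ 2) (PS_prime P T _ ha)
  rw [tsum_eq_sum (s := PS P T ∪ (PS P T).image (fun p => p ^ 2)), Finset.sum_union hdis,
    Finset.sum_image hinj]
  intro n hn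
  rw [Finset.mem_union, not_or] at hn
  by_cases hpp : IsPrimePow n
  · obtain ⟨p, k, hp, hk, rfl⟩ := (isPrimePow_nat_iff n).mp hpp
    have : p ∉ PS P T ∨ 3 ≤ k := by
      by_contra hcon
      rw [not_or, not_not] at hcon
      obtain ⟨h1, h2⟩ := hcon
      have hk2 : k = 1 ∨ k = 2 := by omega
      rcases hk2 with h | h
      · subst h
        exact hn.1 (by simpa using h1)
      · subst h
        exact hn.2 (Finset.mem_image.mpr ⟨p, h1, rfl⟩)
    rw [Cn_zero P B0 r F T hT p k hp hk this, mul_zero]
  · have : ArithmeticFunction.vonMangoldt n = 0 := by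
      rw [ArithmeticFunction.vonMangoldt_eq_zero_iff]
      exact hpp
    simp [lk, this]

end CombAux

open CombAux

theorem COMB1 (P : Par) (B0 : ℕ) (hB : P.B = 2 * B0) (r : ℝ) (hr : 0 < r) (F q : ℕ → ℝ)
    (hq : IsQ B0 (tm P r) q) :
    Tendsto (fun T : ℝ => Cn P B0 r F T 1) atTop (𝓝 (SF B0 F q ^ 2)) := by
  obtain ⟨C, η, T0, hC, hη, hT0, h⟩ := DIS P B0 hB r hr F
  have h1 := (SF_lim P B0 hB r F q hq).pow 2
  have h2 : Tendsto (fun T : ℝ => Cn P B0 r F T 1 - SF B0 F (QT P r T) ^ 2) atTop (𝓝 0) := by
    apply squeeze_zero_norm' (a := fun T : ℝ => C * T ^ (-η))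
    · filter_upwards [eventually_ge_atTop T0] with T hT
      exact (h T hT).1
    · have := (tendsto_rpow_neg_atTop hη).const_mul C
      simpa using this
  have h3 := h2.add h1
  simpa using h3

/-- `COMB2` from the statements `PSUM` and `PSUM_abs` (task 10) -/
theorem COMB2_of (P : Par) (B0 : ℕ) (hB : P.B = 2 * B0) (r : ℝ) (hr : 0 < r) (F q : ℕ → ℝ)
    (hq : IsQ B0 (tm P r) q) (A c : ℝ)
    (hPSUM : ∀ m : ℕ, Tendsto (fun T : ℝ => ∑ p ∈ (PS P T).filter (fun p => Eb P T p = m),
      Real.log p / Real.log T * bk A c T p * chi P T p / p) atTop (𝓝 (sm P A c m / Real.pi)))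
    (hPSUM_abs : ∃ C T0 : ℝ, 0 < C ∧ 10 ≤ T0 ∧
    ∀ T : ℝ, T0 ≤ T → ∑ p ∈ PS P T, |Real.log p / Real.log T * bk A c T p * chi P T p / p| ≤ C ∧
      ∑ p ∈ PS P T, |Real.log p * bk A c T ((p ^ 2 : ℕ) : ℝ) / (p : ℝ) ^ 2| ≤ C) :
    Tendsto (fun T : ℝ => (2 / Real.log T) * ∑' n : ℕ, lk A c T n * Cn P B0 r F T n) atTop
      (𝓝 (4 * r / Real.pi * (SF B0 F q * ∑ m ∈ Finset.Icc 2 B0, sm P A c m * SM B0 F q m))) := by
  obtain ⟨C, η, T0, hC, hη, hT0, h⟩ := DIS P B0 hB r hr F
  obtain ⟨C1, T1, hC1, hT1, h1⟩ := hPSUM_abs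
  set a : ℝ → ℕ → ℝ := fun T p => Real.log p / Real.log T * bk A c T p * chi P T p / p with ha
  set M : ℝ → ℝ := fun T => ∑ m ∈ Finset.Icc 2 B0,
    (4 * r) * ((∑ p ∈ (PS P T).filter (fun p => Eb P T p = m), a T p) *
      (SF B0 F (QT P r T) * SM B0 F (QT P r T) m)) with hM
  have hMlim : Tendsto M atTop
      (𝓝 (4 * r / Real.pi * (SF B0 F q * ∑ m ∈ Finset.Icc 2 B0, sm P A c m * SM B0 F q m))) := by
    have e : 4 * r / Real.pi * (SF B0 F q * ∑ m ∈ Finset.Icc 2 B0, sm P A c m * SM B0 F q m) =
        ∑ m ∈ Finset.Icc 2 B0, (4 * r) * ((sm P A c m / Real.pi) *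
          (SF B0 F q * SM B0 F q m)) := by
      rw [Finset.mul_sum, Finset.mul_sum]
      apply Finset.sum_congr rfl
      intro m _
      ring
    rw [e]
    apply tendsto_finsetSum
    intro m _
    exact ((hPSUM m).mul
      ((SF_lim P B0 hB r F q hq).mul (SM_lim P B0 hB r F q hq m))).const_mul _
  have hdiff : Tendsto (fun T : ℝ => (2 / Real.log T) * (∑' n : ℕ, lk A c T n * Cn P B0 r F T n) -
      M T) atTop (𝓝 0) := by
    apply squeeze_zero_norm' (a := fun T : ℝ => 2 * C * r * C1 * T ^ (-η) + 2 * C * C1 *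
      (Real.log T)⁻¹)
    · filter_upwards [eventually_ge_atTop T0, eventually_ge_atTop T1,
        eventually_ge_atTop (10 : ℝ)] with T hT hTT1 hT10
      obtain ⟨_, hp1, hp2, hp3⟩ := h T hT
      obtain ⟨ha1, ha2⟩ := h1 T hTT1
      have hL : 0 < Real.log T := Real.log_pos (by linarith)
      -- main term over primes
      have hMeq : M T = ∑ p ∈ PS P T, if Eb P T p ≤ B0 then
          (4 * r) * (a T p * (SF B0 F (QT P r T) * SM B0 F (QT P r T) (Eb P T p))) else 0 := by
        rw [hM]
        simp only
        rw [← Finset.sum_filter]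
        have hsub : (PS P T).filter (fun p => Eb P T p ≤ B0) =
            (Finset.Icc 2 B0).biUnion (fun m => (PS P T).filter (fun p => Eb P T p = m)) := by
          ext p
          simp only [Finset.mem_filter, Finset.mem_biUnion, Finset.mem_Icc]
          constructor
          · rintro ⟨h1, h2⟩
            refine ⟨Eb P T p, ⟨?_, h2⟩, h1, rfl⟩
            unfold PS at h1
            rw [Finset.mem_filter] at h1
            exact h1.2.2
          · rintro ⟨m, ⟨h1, h2⟩, h3, rfl⟩
            exact ⟨h3, h2⟩
        rw [hsub, Finset.sum_biUnion]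
        · apply Finset.sum_congr rfl
          intro m _
          rw [Finset.sum_mul, Finset.mul_sum]
          apply Finset.sum_congr rfl
          intro p hp
          rw [Finset.mem_filter] at hp
          rw [hp.2]
        · intro m _ m' _ hmm
          rw [Function.onFun, Finset.disjoint_left]
          intro p hp hp'
          rw [Finset.mem_filter] at hp hp'
          exact hmm (hp.2.symm.trans hp'.2)
      rw [tsum_split P B0 r F T A c hT10, mul_add, hMeq, add_sub_right_comm,
        Finset.mul_sum, ← Finset.sum_sub_distrib, Finset.mul_sum]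
      refine (norm_add_le _ _).trans ?_
      apply add_le_add
      · refine (norm_sum_le _ _).trans ?_
        calc _ ≤ ∑ p ∈ PS P T, 2 * C * r * T ^ (-η) * |a T p| := by
              apply Finset.sum_le_sum
              intro p hp
              have hpr := PS_prime P T p hp
              have hp0 : (0 : ℝ) < p := by exact_mod_cast hpr.pos
              have hsq : 0 < Real.sqrt p := Real.sqrt_pos.mpr hp0
              have hsq2 : Real.sqrt p * Real.sqrt p = p := Real.mul_self_sqrt hp0.le
              have hTη : 0 ≤ T ^ (-η) := Real.rpow_nonneg (by linarith) _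
              rw [lk_prime A c T p hpr]
              split_ifs with hE
              · have e1 : 2 / Real.log T * (Real.log p * (1 / Real.sqrt p) * bk A c T p *
                    Cn P B0 r F T p) - 4 * r * (a T p *
                      (SF B0 F (QT P r T) * SM B0 F (QT P r T) (Eb P T p))) =
                    2 / Real.log T * (Real.log p * (1 / Real.sqrt p) * bk A c T p) *
                    (Cn P B0 r F T p - 2 * yp P r T p *
                      (SF B0 F (QT P r T) * SM B0 F (QT P r T) (Eb P T p))) := by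
                  have e0 : 4 * r * a T p = 2 / Real.log T * (Real.log p * (1 / Real.sqrt p) *
                      bk A c T p) * (2 * yp P r T p) := by
                    simp only [ha, yp]
                    rw [show (Real.log p / Real.log T * bk A c T p * chi P T p / (p : ℝ)) =
                      Real.log p / Real.log T * bk A c T p * chi P T p /
                        (Real.sqrt p * Real.sqrt p) by rw [hsq2]]
                    field_simp
                    ring
                  linear_combination (-(SF B0 F (QT P r T) * SM B0 F (QT P r T) (Eb P T p))) * e0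
                rw [e1, norm_mul, Real.norm_eq_abs, Real.norm_eq_abs]
                have e2 : |2 / Real.log T * (Real.log p * (1 / Real.sqrt p) * bk A c T p)| *
                    (C * |yp P r T p| * T ^ (-η)) = 2 * C * r * T ^ (-η) * |a T p| := by
                  have e3 : r * |a T p| = |1 / Real.log T * (Real.log p * (1 / Real.sqrt p) *
                      bk A c T p)| * |yp P r T p| := by
                    rw [← abs_mul, ← abs_of_pos hr, ← abs_mul, abs_of_pos hr]
                    congr 1
                    simp only [ha, yp]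
                    rw [show (Real.log p / Real.log T * bk A c T p * chi P T p / (p : ℝ)) =
                      Real.log p / Real.log T * bk A c T p * chi P T p /
                        (Real.sqrt p * Real.sqrt p) by rw [hsq2]]
                    field_simp
                  have e4 : |2 / Real.log T * (Real.log p * (1 / Real.sqrt p) * bk A c T p)| =
                      2 * |1 / Real.log T * (Real.log p * (1 / Real.sqrt p) * bk A c T p)| := by
                    rw [show 2 / Real.log T * (Real.log p * (1 / Real.sqrt p) * bk A c T p) =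
                      2 * (1 / Real.log T * (Real.log p * (1 / Real.sqrt p) * bk A c T p)) by ring,
                      abs_mul, abs_two]
                  rw [e4]
                  linear_combination (-(2 * C * T ^ (-η))) * e3
                rw [← e2]
                exact mul_le_mul_of_nonneg_left (hp1 p hp hE) (abs_nonneg _)
              · rw [hp2 p hp (by omega), mul_zero, mul_zero, sub_zero, norm_zero]
                positivity
          _ = 2 * C * r * T ^ (-η) * ∑ p ∈ PS P T, |a T p| := by rw [Finset.mul_sum]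
          _ ≤ 2 * C * r * T ^ (-η) * C1 := by
              apply mul_le_mul_of_nonneg_left ha1
              have hTη : 0 ≤ T ^ (-η) := Real.rpow_nonneg (by linarith) _
              positivity
          _ = _ := by ring
      · refine (norm_sum_le _ _).trans ?_
        calc _ ≤ ∑ p ∈ PS P T, 2 * C * (Real.log T)⁻¹ *
              |Real.log p * bk A c T ((p ^ 2 : ℕ) : ℝ) / (p : ℝ) ^ 2| := by
              apply Finset.sum_le_sum
              intro p hp
              have hpr := PS_prime P T p hp
              have hp0 : (0 : ℝ) < p := by exact_mod_cast hpr.pos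
              rw [lk_prime_sq A c T p hpr]
              have e1 : 2 / Real.log T * (Real.log p * (1 / p) * bk A c T ((p ^ 2 : ℕ) : ℝ) *
                  Cn P B0 r F T (p ^ 2)) = 2 * (Real.log T)⁻¹ * ((Real.log p *
                    bk A c T ((p ^ 2 : ℕ) : ℝ) / (p : ℝ) ^ 2) * (p * Cn P B0 r F T (p ^ 2))) := by
                field_simp
              rw [e1, Real.norm_eq_abs, abs_mul (2 * (Real.log T)⁻¹), abs_mul (Real.log p *
                    bk A c T ((p ^ 2 : ℕ) : ℝ) / (p : ℝ) ^ 2),
                abs_of_pos (show (0 : ℝ) < 2 * (Real.log T)⁻¹ by positivity)]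
              have e5 : |p * Cn P B0 r F T (p ^ 2)| ≤ C := by
                rw [abs_mul, abs_of_pos hp0]
                have := hp3 p hp
                rw [le_div_iff₀ hp0] at this
                linarith
              calc 2 * (Real.log T)⁻¹ * (|Real.log p * bk A c T ((p ^ 2 : ℕ) : ℝ) / (p : ℝ) ^ 2| *
                    |p * Cn P B0 r F T (p ^ 2)|) ≤
                    2 * (Real.log T)⁻¹ * (|Real.log p * bk A c T ((p ^ 2 : ℕ) : ℝ) /
                      (p : ℝ) ^ 2| * C) := by gcongr
                _ = _ := by ring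
          _ = 2 * C * (Real.log T)⁻¹ * ∑ p ∈ PS P T,
              |Real.log p * bk A c T ((p ^ 2 : ℕ) : ℝ) / (p : ℝ) ^ 2| := by rw [Finset.mul_sum]
          _ ≤ 2 * C * (Real.log T)⁻¹ * C1 := by gcongr
          _ = _ := by ring
    · have h3 := (tendsto_rpow_neg_atTop hη).const_mul (2 * C * r * C1)
      have h4 := (Real.tendsto_log_atTop.inv_tendsto_atTop).const_mul (2 * C * C1)
      have h5 := h3.add h4
      simpa using h5
  have h6 := hdiff.add hMlim
  simpa using h6

end Pool.Agent.KS6_1.SR.LG
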