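import Pool.Agent.KS6_1.SR.Defs
import Pool.Graph.R_seed8.H503R2.LG.Ker
import Pool.Agent.KS6_1.SI.TT

/-! LG, task 10: prime sums in one bin. -/

open Complex Filter Topology Set MeasureTheory

namespace Pool.Agent.KS6_1.SR.LG

open _root_.LG

variable [Pool.Agent.KS6_1.SI.Nu]

open SG (hh nn dl ord NZ)
open SP (RHs ZZ mu wt Mk qq tt)
open Pool.Agent.KS6_1.SI (Par Eb PS chi dd Nu)

namespace PsumAux

open Pool.Agent.KS6_1.SI.TTAux Pool.Agent.KS6_1.SI.MertAux

/-- the test function -/
noncomputable def HR (P : Par) (A c : ℝ) (m : ℕ) (u : ℝ) : ℝ :=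
  P.b m u * Real.sin (Real.pi * c * u) * Real.exp (-(u / A) ^ 2 / 2)

lemma HR_contDiff (P : Par) (A c : ℝ) (m : ℕ) : ContDiff ℝ 1 (HR P A c m) := by
  have hb : ContDiff ℝ 1 (P.b m) := (P.hb m).of_le (by norm_num)
  have h1 : ContDiff ℝ 1 (fun u : ℝ => Real.sin (Real.pi * c * u)) :=
    Real.contDiff_sin.comp (contDiff_const.mul contDiff_id)
  have h2 : ContDiff ℝ 1 (fun u : ℝ => Real.exp (-(u / A) ^ 2 / 2)) := by
    apply Real.contDiff_exp.comp
    apply ContDiff.div_const
    apply ContDiff.neg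
    exact (contDiff_id.div_const A).pow 2
  exact (hb.mul h1).mul h2

lemma b_zero (P : Par) (m : ℕ) (u : ℝ) (hu : 1 ≤ u ∨ u ≤ 0) : P.b m u = 0 := by
  by_contra h
  obtain ⟨h2, hB, hl, hu'⟩ := P.hb0 m _ h
  have hBpos : (0 : ℝ) < P.B := by have := P.hB; positivity
  have hκ := P.hκ
  have hκ1 : 0 < 1 - P.κ := by have := P.hκ1; linarith
  have hm := P.hm
  have h5 : (m : ℝ) * (1 - P.κ) / P.B ≤ 1 - P.κ := by
    rw [div_le_iff₀ hBpos, mul_comm]
    apply mul_le_mul_of_nonneg_left _ hκ1.le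
    exact_mod_cast hB
  have h6 : 0 ≤ ((m : ℝ) - 1) * (1 - P.κ) / P.B := by
    have : (2 : ℝ) ≤ m := by exact_mod_cast h2
    apply div_nonneg (mul_nonneg (by linarith) hκ1.le) hBpos.le
  rcases hu with hu | hu <;> linarith

lemma HR_zero (P : Par) (A c : ℝ) (m : ℕ) (u : ℝ) (hu : 1 ≤ u ∨ u ≤ 0) : HR P A c m u = 0 := by
  simp [HR, b_zero P m u hu]

lemma HR_lip (P : Par) (A c : ℝ) (m : ℕ) :
    ∃ K : NNReal, LipschitzWith K (fun u => ((HR P A c m u : ℝ) : ℂ)) := by
  apply ContDiff.lipschitzWith_of_hasCompactSupport (n := 1) _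
    (ofRealCLM.contDiff.comp (HR_contDiff P A c m)) (by norm_num)
  apply HasCompactSupport.intro (isCompact_Icc (a := (0 : ℝ)) (b := 1))
  intro u hu
  show ((HR P A c m u : ℝ) : ℂ) = 0
  rw [HR_zero]
  · simp
  · rw [mem_Icc, not_and_or, not_le, not_le] at hu
    rcases hu with h | h
    · right; exact h.le
    · left; exact h.le

/-- `u * gh u = sin (π c u) e^{-(u/A)²/2} / π` -/
lemma u_gh (A c u : ℝ) (hc : 0 < c) : u * gh A c u =
    Real.sin (Real.pi * c * u) * Real.exp (-(u / A) ^ 2 / 2) / Real.pi := by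
  unfold gh
  have hπ := Real.pi_pos
  rcases eq_or_ne u 0 with rfl | hu
  · simp
  · have h : Real.pi * c * u ≠ 0 := mul_ne_zero (mul_ne_zero hπ.ne' hc.ne') hu
    rw [Real.sinc_of_ne_zero h]
    field_simp

/-- one term -/
lemma term_bound (P : Par) (A c T : ℝ) (hc : 0 < c) (hT : 10 ≤ T) (p m : ℕ) (hp : p ∈ PS P T)
    (hE : Eb P T p = m) (C1 C3 : ℝ) (hC3 : 0 < C3)
    (h1 : |chi P T p - Real.log p / Real.log T * P.b (Eb P T p) (Real.log p / Real.log T)| ≤
      C1 / Real.log T)
    (h2 : |bk A c T p - gh A c (Real.log p / Real.log T)| ≤ C3 / Real.log T) :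
    |Real.log p / Real.log T * bk A c T p * chi P T p / p -
      1 / Real.log T * (Real.log p / p * (HR P A c m (Real.log p / Real.log T) / Real.pi))| ≤
      (c * C1 + C3) / Real.log T * (1 / p) := by
  have hL : 0 < Real.log T := log_pos' hT
  obtain ⟨-, hp0, hp1, -⟩ := Eb_le P T hT p hp
  have hpp : (0 : ℝ) < p := by
    have := lower P T hT p hp
    have h3 : 0 < T ^ ((1 - P.κ) / P.B) := by positivity
    linarith
  set u := Real.log p / Real.log T with hu
  have hu0 : 0 ≤ u := div_nonneg hp0 hL.le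
  have hu1 : u ≤ 1 := (div_le_one hL).mpr hp1
  rw [hE] at h1
  set x := chi P T p
  set g := gh A c u with hg
  set b := P.b m u with hb
  have hgl : |g| ≤ c := gh_le A c u hc
  have hbkl : |bk A c T p| ≤ c := bk_le A c T p hc
  have hbb := P.hb1 m u
  have hub : |u * b| ≤ 1 := by
    rw [abs_of_nonneg (mul_nonneg hu0 hbb.1)]; exact hbb.2
  have key : 1 / Real.log T * (Real.log p / p * (HR P A c m u / Real.pi)) =
      u * g * (u * b) / p := by
    have h3 := u_gh A c u hc
    have h4 : HR P A c m u / Real.pi = b * (u * g) := by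
      rw [hg, h3]; unfold HR; ring
    rw [h4, hu]
    field_simp
  rw [key]
  have e : u * bk A c T p * x / p - u * g * (u * b) / p =
      (u * bk A c T p * (x - u * b) + u * (u * b) * (bk A c T p - g)) * (1 / p) := by
    field_simp
    ring
  rw [e, abs_mul, abs_of_pos (by positivity : (0:ℝ) < 1 / p)]
  apply mul_le_mul_of_nonneg_right _ (by positivity)
  calc |u * bk A c T p * (x - u * b) + u * (u * b) * (bk A c T p - g)|
      ≤ |u * bk A c T p * (x - u * b)| + |u * (u * b) * (bk A c T p - g)| := abs_add_le _ _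
    _ = u * |bk A c T p| * |x - u * b| + u * |u * b| * |bk A c T p - g| := by
        rw [abs_mul, abs_mul, abs_mul, abs_mul, abs_of_nonneg hu0]
    _ ≤ 1 * c * (C1 / Real.log T) + 1 * 1 * (C3 / Real.log T) := by
        have h5 : 0 ≤ C1 / Real.log T := (abs_nonneg _).trans h1
        gcongr
    _ = (c * C1 + C3) / Real.log T := by ring

end PsumAux

open PsumAux Pool.Agent.KS6_1.SI.TTAux Pool.Agent.KS6_1.SI.MertAux

theorem PSUM (P : Par) (A c : ℝ) (hA : 0 < A) (hc : 0 < c) (m : ℕ) :
    Tendsto (fun T : ℝ => ∑ p ∈ (PS P T).filter (fun p => Eb P T p = m),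
      Real.log p / Real.log T * bk A c T p * chi P T p / p) atTop (𝓝 (sm P A c m / Real.pi)) := by
  obtain ⟨C1, T1, hC1, hT1, hchi⟩ := Pool.Agent.KS6_1.SI.chi_approx P
  obtain ⟨C3, T3, hC3, hT3, hbk⟩ := bk_approx A c hA hc
  obtain ⟨K, hK⟩ := HR_lip P A c m
  obtain ⟨C2, hC2, hmert⟩ := Pool.Agent.KS6_1.SI.mert (fun u => ((HR P A c m u : ℝ) : ℂ)) K hK
    (fun u hu => by show ((HR P A c m u : ℝ) : ℂ) = 0; rw [HR_zero P A c m u (Or.inl hu)]; simp)
  have hBpos : (0 : ℝ) < P.B := by have := P.hB; positivity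
  have hκ := P.hκ
  have hκ1 : 0 < 1 - P.κ := by have := P.hκ1; linarith
  have he : 0 < (1 - P.κ) / P.B := by positivity
  have hπ := Real.pi_pos
  rw [tendsto_iff_norm_sub_tendsto_zero]
  have hsm : sm P A c m = ∫ u in (0 : ℝ)..1, HR P A c m u := rfl
  have hbound : ∀ᶠ T : ℝ in atTop, ‖(∑ p ∈ (PS P T).filter (fun p => Eb P T p = m),
      Real.log p / Real.log T * bk A c T p * chi P T p / p) - sm P A c m / Real.pi‖ ≤
      ((c * C1 + C3) * C1 + C2 / Real.pi) * (Real.log T)⁻¹ := by
    have hsq : ∀ᶠ T : ℝ in atTop, P.B / (1 - P.κ) ≤ Real.sqrt (Real.log T) :=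
      (Real.tendsto_sqrt_atTop.comp Real.tendsto_log_atTop).eventually_ge_atTop _
    filter_upwards [eventually_ge_atTop T1, eventually_ge_atTop T3, eventually_ge_atTop (10 : ℝ),
      hsq] with T hTT1 hTT3 hT10 hTs
    obtain ⟨hc1, hs⟩ := hchi T hTT1
    have hL := log_pos' hT10
    have hrange : ∀ p ∈ PS P T, |bk A c T p - gh A c (Real.log p / Real.log T)| ≤
        C3 / Real.log T := by
      intro p hp
      apply hbk T hTT3
      · refine le_trans ?_ (lower P T hT10 p hp)
        apply Real.rpow_le_rpow_of_exponent_le (by linarith)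
        have hs0 : 0 < Real.sqrt (Real.log T) := Real.sqrt_pos.mpr hL
        rw [div_le_div_iff₀ hs0 hBpos]
        rw [div_le_iff₀ hκ1] at hTs
        linarith
      · have h1 := PS_sub P T hT10 hp
        rw [Finset.mem_filter, Finset.mem_Icc] at h1
        have h2 : (p : ℝ) ≤ T := (Nat.le_floor_iff (by linarith)).mp h1.1.2
        have h3 : T ≤ T ^ (2 : ℝ) := by
          have := Real.rpow_le_rpow_of_exponent_le (x := T) (by linarith) (y := 1) (z := 2)
            (by norm_num)
          rwa [Real.rpow_one] at this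
        linarith
    -- comparison with the test function
    have hA1 : |(∑ p ∈ (PS P T).filter (fun p => Eb P T p = m),
        Real.log p / Real.log T * bk A c T p * chi P T p / p) -
        ∑ p ∈ (PS P T).filter (fun p => Eb P T p = m),
          1 / Real.log T * (Real.log p / p * (HR P A c m (Real.log p / Real.log T) / Real.pi))| ≤
        (c * C1 + C3) * C1 * (Real.log T)⁻¹ := by
      rw [← Finset.sum_sub_distrib]
      refine (Finset.abs_sum_le_sum_abs _ _).trans ?_
      calc _ ≤ ∑ p ∈ (PS P T).filter (fun p => Eb P T p = m),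
            (c * C1 + C3) / Real.log T * (1 / p : ℝ) := by
            apply Finset.sum_le_sum
            intro p hp
            rw [Finset.mem_filter] at hp
            exact term_bound P A c T hc hT10 p m hp.1 hp.2 C1 C3 hC3 (hc1 p hp.1).2.1
              (hrange p hp.1)
        _ ≤ ∑ p ∈ PS P T, (c * C1 + C3) / Real.log T * (1 / p : ℝ) := by
            apply Finset.sum_le_sum_of_subset_of_nonneg (Finset.filter_subset _ _)
            intro p hp _
            positivity
        _ = (c * C1 + C3) / Real.log T * ∑ p ∈ PS P T, (1 / p : ℝ) := by rw [Finset.mul_sum]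
        _ ≤ (c * C1 + C3) / Real.log T * C1 := by gcongr
        _ = _ := by ring
    have hsum : ∑ p ∈ (PS P T).filter (fun p => Eb P T p = m),
          1 / Real.log T * (Real.log p / p * (HR P A c m (Real.log p / Real.log T) / Real.pi)) =
        1 / Real.pi * (1 / Real.log T * ∑ p ∈ (Finset.Icc 1 ⌊T⌋₊).filter Nat.Prime,
            (Real.log p / p) * HR P A c m (Real.log p / Real.log T)) := by
      rw [Finset.mul_sum, Finset.mul_sum]
      rw [← Finset.sum_subset (s₁ := (PS P T).filter (fun p => Eb P T p = m))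
        (s₂ := (Finset.Icc 1 ⌊T⌋₊).filter Nat.Prime)]
      · refine Finset.sum_congr rfl fun p _ => ?_
        ring
      · exact (Finset.filter_subset _ _).trans (PS_sub P T hT10)
      · intro p hp hp'
        rw [Finset.mem_filter] at hp
        have : P.b m (Real.log p / Real.log T) = 0 := by
          by_contra h
          exact hp' (Finset.mem_filter.mpr (mem_of_b P T hT10 p m hp.2 h))
        simp [HR, this]
    have hC : |(1 / Real.log T * ∑ p ∈ (Finset.Icc 1 ⌊T⌋₊).filter Nat.Prime,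
            (Real.log p / p) * HR P A c m (Real.log p / Real.log T)) - sm P A c m| ≤
        C2 / Real.log T := by
      have h1 := hmert T hT10
      have h2 : ((1 / Real.log T : ℝ) : ℂ) * ∑ p ∈ (Finset.Icc 1 ⌊T⌋₊).filter Nat.Prime,
          ((Real.log p / p : ℝ) : ℂ) * ((HR P A c m (Real.log p / Real.log T) : ℝ) : ℂ) -
          ∫ u in (0 : ℝ)..1, ((HR P A c m u : ℝ) : ℂ) =
          (((1 / Real.log T * ∑ p ∈ (Finset.Icc 1 ⌊T⌋₊).filter Nat.Prime,
            (Real.log p / p) * HR P A c m (Real.log p / Real.log T)) - sm P A c m : ℝ) : ℂ) := by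
        rw [hsm, intervalIntegral.integral_ofReal]
        push_cast
        rfl
      rw [h2, Complex.norm_real, Real.norm_eq_abs] at h1
      exact h1
    rw [hsum] at hA1
    rw [Real.norm_eq_abs]
    set S1 := ∑ p ∈ (PS P T).filter (fun p => Eb P T p = m),
        Real.log p / Real.log T * bk A c T p * chi P T p / p
    set S2 := 1 / Real.log T * ∑ p ∈ (Finset.Icc 1 ⌊T⌋₊).filter Nat.Prime,
            (Real.log p / p) * HR P A c m (Real.log p / Real.log T)
    have e : S1 - sm P A c m / Real.pi =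
        (S1 - 1 / Real.pi * S2) + (1 / Real.pi) * (S2 - sm P A c m) := by ring
    rw [e]
    refine (abs_add_le _ _).trans ?_
    rw [abs_mul, abs_of_pos (by positivity : (0 : ℝ) < 1 / Real.pi)]
    calc _ ≤ (c * C1 + C3) * C1 * (Real.log T)⁻¹ + 1 / Real.pi * (C2 / Real.log T) := by gcongr
      _ = _ := by ring
  have hlim : Tendsto (fun T : ℝ => ((c * C1 + C3) * C1 + C2 / Real.pi) * (Real.log T)⁻¹)
      atTop (𝓝 0) := by
    have h2 := (Real.tendsto_log_atTop.inv_tendsto_atTop).const_mul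
      ((c * C1 + C3) * C1 + C2 / Real.pi)
    simpa using h2
  exact squeeze_zero' (Eventually.of_forall fun _ => norm_nonneg _) hbound hlim

theorem PSUM_abs (P : Par) (A c : ℝ) (hA : 0 < A) (hc : 0 < c) : ∃ C T0 : ℝ, 0 < C ∧ 10 ≤ T0 ∧
    ∀ T : ℝ, T0 ≤ T → ∑ p ∈ PS P T, |Real.log p / Real.log T * bk A c T p * chi P T p / p| ≤ C ∧
      ∑ p ∈ PS P T, |Real.log p * bk A c T ((p ^ 2 : ℕ) : ℝ) / (p : ℝ) ^ 2| ≤ C := by
  have _ := hA
  obtain ⟨C1, T1, hC1, hT1, hchi⟩ := Pool.Agent.KS6_1.SI.chi_approx P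
  refine ⟨2 * c * C1, T1, by positivity, hT1, fun T hT => ?_⟩
  have hT10 : 10 ≤ T := hT1.trans hT
  obtain ⟨hc1, hs⟩ := hchi T hT
  have hL := log_pos' hT10
  have hfac : ∀ p ∈ PS P T, (0 : ℝ) < p ∧ 0 ≤ Real.log p ∧ Real.log p ≤ Real.log T := by
    intro p hp
    obtain ⟨-, hp0, hp1, -⟩ := Eb_le P T hT10 p hp
    refine ⟨?_, hp0, hp1⟩
    have := lower P T hT10 p hp
    have h3 : 0 < T ^ ((1 - P.κ) / P.B) := by positivity
    linarith
  constructor
  · calc _ ≤ ∑ p ∈ PS P T, 2 * c * (1 / p : ℝ) := by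
          apply Finset.sum_le_sum
          intro p hp
          obtain ⟨hpp, hp0, hp1⟩ := hfac p hp
          have hu0 : 0 ≤ Real.log p / Real.log T := div_nonneg hp0 hL.le
          have hu1 : Real.log p / Real.log T ≤ 1 := (div_le_one hL).mpr hp1
          rw [abs_div, abs_mul, abs_mul, abs_of_nonneg hu0, abs_of_pos hpp, div_eq_mul_one_div]
          apply mul_le_mul_of_nonneg_right _ (by positivity)
          calc _ ≤ 1 * c * 2 := by
                have h1 := bk_le A c T p hc
                have h2 := (hc1 p hp).2.2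
                gcongr
            _ = 2 * c := by ring
      _ = 2 * c * ∑ p ∈ PS P T, (1 / p : ℝ) := by rw [Finset.mul_sum]
      _ ≤ 2 * c * C1 := by gcongr
  · calc _ ≤ ∑ p ∈ PS P T, c * (1 / p : ℝ) := by
          apply Finset.sum_le_sum
          intro p hp
          obtain ⟨hpp, hp0, hp1⟩ := hfac p hp
          rw [abs_div, abs_mul, abs_of_nonneg hp0, abs_of_pos (by positivity : (0:ℝ) < (p:ℝ) ^ 2)]
          rw [div_le_iff₀ (by positivity)]
          have h1 := bk_le A c T ((p ^ 2 : ℕ) : ℝ) hc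
          have h2 : Real.log p ≤ p := by
            have := Real.log_le_sub_one_of_pos hpp
            linarith
          calc Real.log p * |bk A c T ((p ^ 2 : ℕ) : ℝ)| ≤ p * c := by gcongr
            _ = c * (1 / p) * (p : ℝ) ^ 2 := by field_simp
      _ = c * ∑ p ∈ PS P T, (1 / p : ℝ) := by rw [Finset.mul_sum]
      _ ≤ c * C1 := by gcongr
      _ ≤ 2 * c * C1 := by nlinarith [mul_pos hc hC1]

end Pool.Agent.KS6_1.SR.LG
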