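import Pool.Agent.KS6_1.SR.Stubs
import Pool.Agent.KS6_1.SR.Comb0
import Pool.Agent.KS6_1.SR.LGPsum

/-! Task COMBS: limits of the signed diagonal terms (adapted from LG.COMB1, LG.COMB2_of). -/

open Complex Filter Topology Set MeasureTheory

namespace Pool.Agent.KS6_1.SR.RGap

variable [Pool.Agent.KS6_1.SI.Nu]

open SG (hh nn dl ord NZ)
open SP (RHs ZZ mu wt Mk qq tt)
open Pool.Agent.KS6_1.SI (Par Eb PS chi dd Nu)
open _root_.LG (gK gh Zs bk lk nA IsQ SF SM)
open Pool.Agent.KS6_1.SR.LG (fam prs yp ae EE Cn QT tm sm sm0)
open _root_.RGap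

namespace CombsAux

open LG.CombAux

theorem sgn_abs (s : ℕ → ℝ) (hs : IsSgn s) (m : ℕ) : |s m| = 1 := by
  rcases hs m with h | h <;> rw [h] <;> simp

lemma tsum_splitS (hS : SGN) (P : Par) (B0 : ℕ) (r : ℝ) (F s : ℕ → ℝ) (hs : IsSgn s)
    (T A c : ℝ) (hT : 10 ≤ T) :
    ∑' n : ℕ, lk A c T n * CnS P B0 r F s T n =
      ∑ p ∈ PS P T, lk A c T p * CnS P B0 r F s T p +
      ∑ p ∈ PS P T, lk A c T (p ^ 2 : ℕ) * CnS P B0 r F s T (p ^ 2) := by
  have hinj : Set.InjOn (fun p : ℕ => p ^ 2) (PS P T) := by
    intro a _ b _ h
    exact Nat.pow_left_injective (by norm_num : 2 ≠ 0) h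
  have hdis : Disjoint (PS P T) ((PS P T).image (fun p => p ^ 2)) := by
    rw [Finset.disjoint_left]
    intro a ha ha'
    rw [Finset.mem_image] at ha'
    obtain ⟨b, hb, rfl⟩ := ha'
    exact Nat.Prime.not_prime_pow (by norm_num : 2 ≤ 2) (PS_prime P T _ ha)
  rw [tsum_eq_sum (s := PS P T ∪ (PS P T).image (fun p => p ^ 2)), Finset.sum_union hdis,
    Finset.sum_image hinj]
  intro n hn
  rw [Finset.mem_union, not_or] at hn
  by_cases hpp : IsPrimePow n
  · obtain ⟨p, k, hp, hk, rfl⟩ := (isPrimePow_nat_iff n).mp hpp
    have : p ∉ PS P T ∨ 3 ≤ k := by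
      by_contra hcon
      rw [not_or, not_not] at hcon
      obtain ⟨h1, h2⟩ := hcon
      have hk2 : k = 1 ∨ k = 2 := by omega
      rcases hk2 with h | h
      · subst h
        exact hn.1 (by simpa using h1)
      · subst h
        exact hn.2 (Finset.mem_image.mpr ⟨p, h1, rfl⟩)
    rw [(hS P B0 r F s T hs hT).2.2.2 p k hp hk this, mul_zero]
  · have : ArithmeticFunction.vonMangoldt n = 0 := by
      rw [ArithmeticFunction.vonMangoldt_eq_zero_iff]
      exact hpp
    simp [lk, this]

end CombsAux

open CombsAux LG.CombAux

theorem COMBS_of (hS : SGN) : COMBS := by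
  intro P B0 hB r hr F q s hs hq A c hA hc
  constructor
  · refine (LG.COMB1 P B0 hB r hr F q hq).congr' ?_
    filter_upwards [eventually_ge_atTop (10 : ℝ)] with T hT
    exact (hS P B0 r F s T hs hT).1.symm
  have hPSUM := LG.PSUM P A c hA hc
  obtain ⟨C, η, T0, hC, hη, hT0, h⟩ := LG.DIS P B0 hB r hr F
  obtain ⟨C1, T1, hC1, hT1, h1⟩ := LG.PSUM_abs P A c hA hc
  set a : ℝ → ℕ → ℝ := fun T p => Real.log p / Real.log T * bk A c T p * chi P T p / p with ha
  set M : ℝ → ℝ := fun T => ∑ m ∈ Finset.Icc 2 B0,
    (4 * r) * (s m * ((∑ p ∈ (PS P T).filter (fun p => Eb P T p = m), a T p) *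
      (SF B0 F (QT P r T) * SM B0 F (QT P r T) m))) with hM
  have hMlim : Tendsto M atTop
      (𝓝 (4 * r / Real.pi * (SF B0 F q * ∑ m ∈ Finset.Icc 2 B0,
        s m * (sm P A c m * SM B0 F q m)))) := by
    have e : 4 * r / Real.pi * (SF B0 F q * ∑ m ∈ Finset.Icc 2 B0,
          s m * (sm P A c m * SM B0 F q m)) =
        ∑ m ∈ Finset.Icc 2 B0, (4 * r) * (s m * ((sm P A c m / Real.pi) *
          (SF B0 F q * SM B0 F q m))) := by
      rw [Finset.mul_sum, Finset.mul_sum]
      apply Finset.sum_congr rfl
      intro m _
      ring
    rw [e]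
    apply tendsto_finsetSum
    intro m _
    exact (((hPSUM m).mul
      ((SF_lim P B0 hB r F q hq).mul (SM_lim P B0 hB r F q hq m))).const_mul _).const_mul _
  have hdiff : Tendsto (fun T : ℝ => (2 / Real.log T) *
      (∑' n : ℕ, lk A c T n * CnS P B0 r F s T n) - M T) atTop (𝓝 0) := by
    apply squeeze_zero_norm' (a := fun T : ℝ => 2 * C * r * C1 * T ^ (-η) + 2 * C * C1 *
      (Real.log T)⁻¹)
    · filter_upwards [eventually_ge_atTop T0, eventually_ge_atTop T1,
        eventually_ge_atTop (10 : ℝ)] with T hT hTT1 hT10
      obtain ⟨_, hp1, hp2, hp3⟩ := h T hT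
      obtain ⟨ha1, ha2⟩ := h1 T hTT1
      obtain ⟨-, hS1, hS2, -⟩ := hS P B0 r F s T hs hT10
      have hL : 0 < Real.log T := Real.log_pos (by linarith)
      -- main term over primes
      have hMeq : M T = ∑ p ∈ PS P T, if Eb P T p ≤ B0 then
          (4 * r) * (s (Eb P T p) * (a T p * (SF B0 F (QT P r T) *
            SM B0 F (QT P r T) (Eb P T p)))) else 0 := by
        rw [hM]
        simp only
        rw [← Finset.sum_filter]
        have hsub : (PS P T).filter (fun p => Eb P T p ≤ B0) =
            (Finset.Icc 2 B0).biUnion (fun m => (PS P T).filter (fun p => Eb P T p = m)) := by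
          ext p
          simp only [Finset.mem_filter, Finset.mem_biUnion, Finset.mem_Icc]
          constructor
          · rintro ⟨h1, h2⟩
            refine ⟨Eb P T p, ⟨?_, h2⟩, h1, rfl⟩
            unfold PS at h1
            rw [Finset.mem_filter] at h1
            exact h1.2.2
          · rintro ⟨m, ⟨h1, h2⟩, h3, rfl⟩
            exact ⟨h3, h2⟩
        rw [hsub, Finset.sum_biUnion]
        · apply Finset.sum_congr rfl
          intro m _
          rw [Finset.sum_mul, Finset.mul_sum, Finset.mul_sum]
          apply Finset.sum_congr rfl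
          intro p hp
          rw [Finset.mem_filter] at hp
          rw [hp.2]
        · intro m _ m' _ hmm
          rw [Function.onFun, Finset.disjoint_left]
          intro p hp hp'
          rw [Finset.mem_filter] at hp hp'
          exact hmm (hp.2.symm.trans hp'.2)
      rw [tsum_splitS hS P B0 r F s hs T A c hT10, mul_add, hMeq, add_sub_right_comm,
        Finset.mul_sum, ← Finset.sum_sub_distrib, Finset.mul_sum]
      refine (norm_add_le _ _).trans ?_
      apply add_le_add
      · refine (norm_sum_le _ _).trans ?_
        calc _ ≤ ∑ p ∈ PS P T, 2 * C * r * T ^ (-η) * |a T p| := by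
              apply Finset.sum_le_sum
              intro p hp
              have hpr := PS_prime P T p hp
              have hp0 : (0 : ℝ) < p := by exact_mod_cast hpr.pos
              have hsq : 0 < Real.sqrt p := Real.sqrt_pos.mpr hp0
              have hsq2 : Real.sqrt p * Real.sqrt p = p := Real.mul_self_sqrt hp0.le
              have hTη : 0 ≤ T ^ (-η) := Real.rpow_nonneg (by linarith) _
              rw [lk_prime A c T p hpr, hS1 p hp]
              split_ifs with hE
              · have e1 : 2 / Real.log T * (Real.log p * (1 / Real.sqrt p) * bk A c T p *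
                    (s (Eb P T p) * Cn P B0 r F T p)) - 4 * r * (s (Eb P T p) * (a T p *
                      (SF B0 F (QT P r T) * SM B0 F (QT P r T) (Eb P T p)))) =
                    s (Eb P T p) *
                    (2 / Real.log T * (Real.log p * (1 / Real.sqrt p) * bk A c T p) *
                    (Cn P B0 r F T p - 2 * yp P r T p *
                      (SF B0 F (QT P r T) * SM B0 F (QT P r T) (Eb P T p)))) := by
                  have e0 : 4 * r * a T p = 2 / Real.log T * (Real.log p * (1 / Real.sqrt p) *
                      bk A c T p) * (2 * yp P r T p) := by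
                    simp only [ha, yp]
                    rw [show (Real.log p / Real.log T * bk A c T p * chi P T p / (p : ℝ)) =
                      Real.log p / Real.log T * bk A c T p * chi P T p /
                        (Real.sqrt p * Real.sqrt p) by rw [hsq2]]
                    field_simp
                    ring
                  linear_combination (-(s (Eb P T p) * (SF B0 F (QT P r T) *
                    SM B0 F (QT P r T) (Eb P T p)))) * e0
                rw [e1, norm_mul, Real.norm_eq_abs, sgn_abs s hs, one_mul, norm_mul,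
                  Real.norm_eq_abs, Real.norm_eq_abs]
                have e2 : |2 / Real.log T * (Real.log p * (1 / Real.sqrt p) * bk A c T p)| *
                    (C * |yp P r T p| * T ^ (-η)) = 2 * C * r * T ^ (-η) * |a T p| := by
                  have e3 : r * |a T p| = |1 / Real.log T * (Real.log p * (1 / Real.sqrt p) *
                      bk A c T p)| * |yp P r T p| := by
                    rw [← abs_mul, ← abs_of_pos hr, ← abs_mul, abs_of_pos hr]
                    congr 1
                    simp only [ha, yp]
                    rw [show (Real.log p / Real.log T * bk A c T p * chi P T p / (p : ℝ)) =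
                      Real.log p / Real.log T * bk A c T p * chi P T p /
                        (Real.sqrt p * Real.sqrt p) by rw [hsq2]]
                    field_simp
                  have e4 : |2 / Real.log T * (Real.log p * (1 / Real.sqrt p) * bk A c T p)| =
                      2 * |1 / Real.log T * (Real.log p * (1 / Real.sqrt p) * bk A c T p)| := by
                    rw [show 2 / Real.log T * (Real.log p * (1 / Real.sqrt p) * bk A c T p) =
                      2 * (1 / Real.log T * (Real.log p * (1 / Real.sqrt p) * bk A c T p)) by ring,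
                      abs_mul, abs_two]
                  rw [e4]
                  linear_combination (-(2 * C * T ^ (-η))) * e3
                rw [← e2]
                exact mul_le_mul_of_nonneg_left (hp1 p hp hE) (abs_nonneg _)
              · rw [hp2 p hp (by omega), mul_zero, mul_zero, mul_zero, sub_zero, norm_zero]
                positivity
          _ = 2 * C * r * T ^ (-η) * ∑ p ∈ PS P T, |a T p| := by rw [Finset.mul_sum]
          _ ≤ 2 * C * r * T ^ (-η) * C1 := by
              apply mul_le_mul_of_nonneg_left ha1
              have hTη : 0 ≤ T ^ (-η) := Real.rpow_nonneg (by linarith) _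
              positivity
          _ = _ := by ring
      · refine (norm_sum_le _ _).trans ?_
        calc _ ≤ ∑ p ∈ PS P T, 2 * C * (Real.log T)⁻¹ *
              |Real.log p * bk A c T ((p ^ 2 : ℕ) : ℝ) / (p : ℝ) ^ 2| := by
              apply Finset.sum_le_sum
              intro p hp
              have hpr := PS_prime P T p hp
              have hp0 : (0 : ℝ) < p := by exact_mod_cast hpr.pos
              rw [lk_prime_sq A c T p hpr, hS2 p hp]
              have e1 : 2 / Real.log T * (Real.log p * (1 / p) * bk A c T ((p ^ 2 : ℕ) : ℝ) *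
                  Cn P B0 r F T (p ^ 2)) = 2 * (Real.log T)⁻¹ * ((Real.log p *
                    bk A c T ((p ^ 2 : ℕ) : ℝ) / (p : ℝ) ^ 2) * (p * Cn P B0 r F T (p ^ 2))) := by
                field_simp
              rw [e1, Real.norm_eq_abs, abs_mul (2 * (Real.log T)⁻¹), abs_mul (Real.log p *
                    bk A c T ((p ^ 2 : ℕ) : ℝ) / (p : ℝ) ^ 2),
                abs_of_pos (show (0 : ℝ) < 2 * (Real.log T)⁻¹ by positivity)]
              have e5 : |p * Cn P B0 r F T (p ^ 2)| ≤ C := by
                rw [abs_mul, abs_of_pos hp0]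
                have := hp3 p hp
                rw [le_div_iff₀ hp0] at this
                linarith
              calc 2 * (Real.log T)⁻¹ * (|Real.log p * bk A c T ((p ^ 2 : ℕ) : ℝ) / (p : ℝ) ^ 2| *
                    |p * Cn P B0 r F T (p ^ 2)|) ≤
                    2 * (Real.log T)⁻¹ * (|Real.log p * bk A c T ((p ^ 2 : ℕ) : ℝ) /
                      (p : ℝ) ^ 2| * C) := by gcongr
                _ = _ := by ring
          _ = 2 * C * (Real.log T)⁻¹ * ∑ p ∈ PS P T,
              |Real.log p * bk A c T ((p ^ 2 : ℕ) : ℝ) / (p : ℝ) ^ 2| := by rw [Finset.mul_sum]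
          _ ≤ 2 * C * (Real.log T)⁻¹ * C1 := by gcongr
          _ = _ := by ring
    · have h3 := (tendsto_rpow_neg_atTop hη).const_mul (2 * C * r * C1)
      have h4 := (Real.tendsto_log_atTop.inv_tendsto_atTop).const_mul (2 * C * C1)
      have h5 := h3.add h4
      simpa using h5
  have h6 := hdiff.add hMlim
  simpa using h6

end Pool.Agent.KS6_1.SR.RGap
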