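import Pool.Agent.KS6_1.SI.ShortDelta

/-! # from windows to blocks of consecutive indices -/

open Complex Filter Topology Set MeasureTheory

namespace Pool.Agent.KS6_1.SR

open SP

open SG (ord NZ)

/-- from windows of length `T ^ w` to all intervals of length at least `T ^ a`, `w < a` -/
theorem win_to_int {w a : ℝ} (hwa : w < a) {ε K T0 : ℝ} (hε : 0 < ε) (hK : 1 ≤ K)
    {Q : ℝ → ℕ → Prop}
    (hloc : ∀ T : ℝ, T0 ≤ T → ∀ t0 : ℝ, 11 / 10 * T ≤ t0 → t0 ≤ 19 / 10 * T →
      ε * T ^ w * Real.log T ≤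
        ({n : ℕ | 1 ≤ n ∧ |ord n - t0| ≤ K * T ^ w ∧ Q T n}.ncard : ℝ)) :
    ∃ ε' T1 : ℝ, 0 < ε' ∧ 10 ≤ T1 ∧ T0 ≤ T1 ∧ ∀ T : ℝ, T1 ≤ T → ∀ A h : ℝ, 11 / 10 * T ≤ A →
    A + h ≤ 19 / 10 * T → T ^ a ≤ h →
    ε' * (h * Real.log T) ≤ ({n : ℕ | 1 ≤ n ∧ A ≤ ord n ∧ ord n ≤ A + h ∧ Q T n}.ncard : ℝ) := by
  have hlim1 : Tendsto (fun T : ℝ => T ^ (a - w)) atTop atTop :=
    tendsto_rpow_atTop (by linarith)
  obtain ⟨T1, hT1⟩ := (tendsto_atTop.mp hlim1 (100 * K)).exists_forall_of_atTop
  refine ⟨ε / (6 * K), max (max T0 T1) 1000, by positivity,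
    le_trans (by norm_num) (le_max_right _ _), (le_max_left _ _).trans (le_max_left _ _),
    fun T hT A h hA1 hA2 hh => ?_⟩
  have hTT0 : T0 ≤ T := ((le_max_left _ _).trans (le_max_left _ _)).trans hT
  have hTT1 : T1 ≤ T := ((le_max_right _ _).trans (le_max_left _ _)).trans hT
  have hT1000 : 1000 ≤ T := (le_max_right _ _).trans hT
  have hTpos : 0 < T := by linarith
  have hl1 := hT1 T hTT1
  have hlog1 : 1 ≤ Real.log T := by
    rw [Real.le_log_iff_exp_le hTpos]
    have := Real.exp_one_lt_d9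
    linarith
  set Δ : ℝ := T ^ w with hΔ
  have hΔ0 : 0 < Δ := Real.rpow_pos_of_pos hTpos _
  -- K Δ ≤ h / 100
  have hKΔ : 100 * (K * Δ) ≤ h := by
    have h2 : T ^ (a - w) * Δ = T ^ a := by
      rw [hΔ, ← Real.rpow_add hTpos]
      congr 1
      ring
    calc 100 * (K * Δ) = (100 * K) * Δ := by ring
      _ ≤ T ^ (a - w) * Δ := mul_le_mul_of_nonneg_right hl1 hΔ0.le
      _ = T ^ a := h2
      _ ≤ h := hh
  have hKΔ0 : 0 < K * Δ := by positivity
  have hh0 : 0 < h := by linarith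
  set M : ℕ := ⌊h / (3 * (K * Δ))⌋₊ with hM
  have hM1 : (M : ℝ) ≤ h / (3 * (K * Δ)) := Nat.floor_le (by positivity)
  have hM2 : h / (3 * (K * Δ)) < M + 1 := Nat.lt_floor_add_one _
  have hM3 : h / (6 * (K * Δ)) ≤ M := by
    have h1 : h / (3 * (K * Δ)) = 1 / 3 * (h / (K * Δ)) := by field_simp
    have h2 : h / (6 * (K * Δ)) = 1 / 6 * (h / (K * Δ)) := by field_simp
    have h3 : 100 ≤ h / (K * Δ) := by
      rw [le_div_iff₀ hKΔ0]
      exact hKΔ
    rw [h1] at hM2
    rw [h2]
    linarith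
  have hM4 : 3 * (K * Δ) * M ≤ h := by
    rw [le_div_iff₀ (by positivity)] at hM1
    linarith
  set S : Set ℕ := {n : ℕ | 1 ≤ n ∧ A ≤ ord n ∧ ord n ≤ A + h ∧ Q T n} with hS
  have hSfin : S.Finite := by
    apply SP.PosProp.fin_ord (A + h)
    intro n hn
    exact ⟨hn.1, hn.2.2.1⟩
  set t : ℕ → ℝ := fun i => A + 3 / 2 * (K * Δ) + 3 * (K * Δ) * i with ht
  set W : ℕ → Set ℕ := fun i => {n : ℕ | 1 ≤ n ∧ |ord n - t i| ≤ K * T ^ w ∧ Q T n} with hW
  have hti : ∀ i < M, 3 * (K * Δ) * ((i : ℝ) + 1) ≤ h := by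
    intro i hi
    have hiM : (i : ℝ) + 1 ≤ M := by exact_mod_cast hi
    exact (mul_le_mul_of_nonneg_left hiM (by positivity)).trans hM4
  have hsub : ∀ i < M, W i ⊆ S := by
    intro i hi n hn
    obtain ⟨h1, h2, h3⟩ := hn
    have h4 := hti i hi
    have h5 : 0 ≤ 3 * (K * Δ) * (i : ℝ) := by positivity
    rw [abs_le] at h2
    rw [← hΔ] at h2
    simp only [ht] at h2
    refine ⟨h1, by linarith, ?_, h3⟩
    have h6 : 3 * (K * Δ) * ((i : ℝ) + 1) = 3 * (K * Δ) * i + 3 * (K * Δ) := by ring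
    rw [h6] at h4
    linarith
  have hdisj : ∀ i < M, ∀ j < M, i ≠ j → Disjoint (W i) (W j) := by
    intro i _ j _ hij
    rw [Set.disjoint_left]
    intro n hn hn'
    have h1 := abs_le.mp hn.2.1
    have h2 := abs_le.mp hn'.2.1
    rw [← hΔ] at h1 h2
    simp only [ht] at h1 h2
    rcases Nat.lt_or_gt_of_ne hij with h | h
    · have h3 : (i : ℝ) + 1 ≤ j := by exact_mod_cast h
      have h4 : 3 * (K * Δ) * ((i : ℝ) + 1) ≤ 3 * (K * Δ) * j :=
        mul_le_mul_of_nonneg_left h3 (by positivity)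
      nlinarith
    · have h3 : (j : ℝ) + 1 ≤ i := by exact_mod_cast h
      have h4 : 3 * (K * Δ) * ((j : ℝ) + 1) ≤ 3 * (K * Δ) * i :=
        mul_le_mul_of_nonneg_left h3 (by positivity)
      nlinarith
  have hcount : ∀ i < M, ε * Δ * Real.log T ≤ ((W i).ncard : ℝ) := by
    intro i hi
    have h4 := hti i hi
    have h5 : 0 ≤ 3 * (K * Δ) * (i : ℝ) := by positivity
    have h6 : 3 * (K * Δ) * ((i : ℝ) + 1) = 3 * (K * Δ) * i + 3 * (K * Δ) := by ring
    rw [h6] at h4
    refine hloc T hTT0 (t i) ?_ ?_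
    · simp only [ht]; linarith
    · simp only [ht]; linarith
  have hfinal := SP.PosProp.card_windows hSfin M W hsub hdisj _ hcount
  refine le_trans ?_ hfinal
  have h5 : 0 ≤ ε * Δ * Real.log T := by positivity
  calc ε / (6 * K) * (h * Real.log T) = h / (6 * (K * Δ)) * (ε * Δ * Real.log T) := by
        field_simp
    _ ≤ M * (ε * Δ * Real.log T) := mul_le_mul_of_nonneg_right hM3 h5

open Pool.Agent.KS6_1.SI (NZ_short ord_le_self le_ord_log aux_sq aux_eight)

/-- from intervals of length `T ^ a` to blocks of `N ^ α` consecutive indices, `a < α` -/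
theorem int_to_block {a α : ℝ} (ha0 : 0 < a) (haα : a < α) (hα1 : α ≤ 1) {ε T0 : ℝ} (hε : 0 < ε)
    {Q : ℝ → ℕ → Prop} {P : ℕ → Prop}
    (hshort : ∀ T : ℝ, T0 ≤ T → ∀ A h : ℝ, 11 / 10 * T ≤ A → A + h ≤ 19 / 10 * T → T ^ a ≤ h →
      ε * (h * Real.log T) ≤ ({n : ℕ | 1 ≤ n ∧ A ≤ ord n ∧ ord n ≤ A + h ∧ Q T n}.ncard : ℝ))
    (hQP : ∀ (T : ℝ) (n : ℕ), T0 ≤ T → 1 ≤ n → 11 / 10 * T ≤ ord n → ord n ≤ 19 / 10 * T →
      Q T n → P n) :
    ∃ ε : ℝ, 0 < ε ∧ ∃ N0 : ℕ, ∀ N H : ℕ, N0 ≤ N → (N : ℝ) ^ α ≤ H → H ≤ N →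
      ε * H ≤ (({n : ℕ | N < n ∧ n ≤ N + H ∧ P n}.ncard : ℕ) : ℝ) := by
  have ha1 : a < 1 := by linarith
  obtain ⟨C, hC, hNZ⟩ := NZ_short
  obtain ⟨N1, hN1⟩ := ord_le_self
  obtain ⟨D, hD, N2, hN2⟩ := le_ord_log
  -- asymptotics
  have hlogT : ∀ᶠ x : ℝ in atTop, D * Real.log x ≤ x := by
    have h := Real.isLittleO_log_id_atTop.bound (show (0 : ℝ) < 1 / D by positivity)
    filter_upwards [h, eventually_ge_atTop 1] with x hx h1
    simp only [id] at hx
    rw [Real.norm_of_nonneg (Real.log_nonneg h1), Real.norm_of_nonneg (by linarith)] at hx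
    calc D * Real.log x ≤ D * (1 / D * x) := mul_le_mul_of_nonneg_left hx hD.le
      _ = x := by field_simp
  have hTa : ∀ᶠ x : ℝ in atTop, x ^ a ≤ 7 / 10 * x := by
    have h := (tendsto_rpow_atTop (show 0 < 1 - a by linarith)).eventually_ge_atTop (10 / 7)
    filter_upwards [h, eventually_ge_atTop 1] with x hx h1
    have hxp : 0 < x := by linarith
    have e1 : x ^ a * x ^ (1 - a) = x := by
      rw [← Real.rpow_add hxp, show a + (1 - a) = 1 by ring, Real.rpow_one]
    have e2 : 0 < x ^ a := Real.rpow_pos_of_pos hxp _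
    have e3 := mul_le_mul_of_nonneg_left hx e2.le
    rw [e1] at e3
    linarith
  have hNα : ∀ᶠ x : ℝ in atTop, 2 * C * (x ^ a + 4) * Real.log (2 * x) ≤ x ^ α := by
    have h := (isLittleO_log_rpow_atTop (show 0 < (α - a) / 2 by linarith)).bound
      (show (0 : ℝ) < 1 by norm_num)
    have h' := (tendsto_rpow_atTop (show 0 < (α - a) / 2 by linarith)).eventually_ge_atTop
      (20 * C)
    filter_upwards [h, h', eventually_ge_atTop 2] with x hx hx' h1
    have hxp : 0 < x := by linarith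
    rw [Real.norm_of_nonneg (Real.log_nonneg (by linarith)),
      Real.norm_of_nonneg (Real.rpow_nonneg (by linarith) _), one_mul] at hx
    have e1 : Real.log (2 * x) ≤ 2 * Real.log x := by
      rw [Real.log_mul (by norm_num) (by linarith)]
      have : Real.log 2 ≤ Real.log x := Real.log_le_log (by norm_num) h1
      linarith
    have e2 : 1 ≤ x ^ a := Real.one_le_rpow (by linarith) ha0.le
    have e3 : x ^ α = x ^ a * x ^ ((α - a) / 2) * x ^ ((α - a) / 2) := by
      rw [← Real.rpow_add hxp, ← Real.rpow_add hxp]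
      congr 1
      ring
    have e4 : 0 ≤ Real.log (2 * x) := Real.log_nonneg (by linarith)
    calc 2 * C * (x ^ a + 4) * Real.log (2 * x)
        ≤ 2 * C * (5 * x ^ a) * (2 * x ^ ((α - a) / 2)) := by
          apply mul_le_mul _ (by linarith) e4 (by positivity)
          apply mul_le_mul_of_nonneg_left (by linarith) (by positivity)
      _ = x ^ a * (20 * C) * x ^ ((α - a) / 2) := by ring
      _ ≤ x ^ a * x ^ ((α - a) / 2) * x ^ ((α - a) / 2) := by gcongr
      _ = x ^ α := e3.symm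
  obtain ⟨X1, hX1⟩ := (hlogT.and (hTa.and (eventually_ge_atTop (max T0 100)))).exists_forall_of_atTop
  obtain ⟨X2, hX2⟩ := hNα.exists_forall_of_atTop
  obtain ⟨N3, hN3⟩ := (tendsto_atTop.mp SG.ord_tendsto (2 * max X1 100)).exists_forall_of_atTop
  refine ⟨min (ε / (16 * C)) (ε * (7 / 10) / (4 * D)), lt_min (by positivity) (by positivity),
    max (max (max N1 N2) (max N3 1)) ⌈max X2 2⌉₊, ?_⟩
  intro N H hN hH1 hH2
  have hNN1 : N1 ≤ N := le_trans (le_trans (le_trans (le_max_left _ _) (le_max_left _ _))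
    (le_max_left _ _)) hN
  have hNN2 : N2 ≤ N := le_trans (le_trans (le_trans (le_max_right _ _) (le_max_left _ _))
    (le_max_left _ _)) hN
  have hNN3 : N3 ≤ N := le_trans (le_trans (le_trans (le_max_left _ _) (le_max_right _ _))
    (le_max_left _ _)) hN
  have hNN4 : 1 ≤ N := le_trans (le_trans (le_trans (le_max_right _ _) (le_max_right _ _))
    (le_max_left _ _)) hN
  have hNX : max X2 2 ≤ (N : ℝ) := (Nat.le_ceil _).trans (by
    exact_mod_cast (le_max_right _ _).trans hN)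
  have hNX2 : X2 ≤ (N : ℝ) := (le_max_left _ _).trans hNX
  have hN2' : (2 : ℝ) ≤ N := (le_max_right _ _).trans hNX
  have hNpos : (0 : ℝ) < N := by linarith
  set x : ℝ := ord N with hx
  set y : ℝ := ord (N + H) with hy
  have hx3 := hN3 N hNN3
  rw [← hx] at hx3
  have hxX1 : 2 * X1 ≤ x := le_trans (by have := le_max_left X1 (100 : ℝ); linarith) hx3
  have hx100 : 200 ≤ x := le_trans (by have := le_max_right X1 (100 : ℝ); linarith) hx3
  have hxN : x ≤ N := hN1 N hNN1
  have hyN : y ≤ 2 * N := by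
    have h1 := hN1 (N + H) (by omega)
    rw [← hy] at h1
    have h2 : ((N + H : ℕ) : ℝ) ≤ 2 * N := by
      push_cast
      have : (H : ℝ) ≤ N := by exact_mod_cast hH2
      linarith
    linarith
  have hxy : x ≤ y := SG.ord_mono hNN4 (by omega)
  -- the number of zeros in the interval
  have hcnt : (H : ℝ) ≤ C * (y - x + 2) * Real.log (2 * N) := by
    have h1 := hNZ (x - 1) (by linarith) y (by linarith)
    have h2 : NZ (x - 1) < N := by
      by_contra hcon
      push Not at hcon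
      have := (SG.ord_le_iff hNN4 (x - 1)).mpr hcon
      rw [← hx] at this
      linarith
    have h3 : N + H ≤ NZ y := SG.le_NZ_ord (by omega)
    have h2' : (NZ (x - 1) : ℝ) ≤ N := by exact_mod_cast h2.le
    have h3' : (N : ℝ) + H ≤ NZ y := by exact_mod_cast h3
    have h4 : Real.log y ≤ Real.log (2 * N) := Real.log_le_log (by linarith) hyN
    have h5 : C * (y - (x - 1) + 1) * Real.log y ≤ C * (y - x + 2) * Real.log (2 * N) := by
      rw [show y - (x - 1) + 1 = y - x + 2 by ring]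
      exact mul_le_mul_of_nonneg_left h4 (by
        have : 0 ≤ y - x + 2 := by linarith
        positivity)
    linarith
  -- the dyadic scale
  set T : ℝ := (x + 1) * (5 / 6) with hT
  have hTX1 : X1 ≤ T := by
    rw [hT]
    rcases le_or_gt 0 X1 with h | h
    · linarith
    · linarith
  obtain ⟨hT1, hT2, hT3⟩ := hX1 T hTX1
  have hTT0 : T0 ≤ T := (le_max_left _ _).trans hT3
  have hT100 : 100 ≤ T := (le_max_right _ _).trans hT3
  have hTpos : 0 < T := by linarith
  have hTN : T ≤ N := by rw [hT]; linarith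
  have hLT : 0 < Real.log T := Real.log_pos (by linarith)
  set h : ℝ := min (y - x - 2) (7 / 10 * T) with hh
  have hL2N : 0 < Real.log (2 * N) := Real.log_pos (by linarith)
  have hNα' := hX2 N hNX2
  have hyx : (N : ℝ) ^ a + 4 ≤ (y - x + 2) / 2 := by
    have h1 : 2 * C * ((N : ℝ) ^ a + 4) * Real.log (2 * N) ≤ C * (y - x + 2) * Real.log (2 * N) :=
      (hNα'.trans hH1).trans hcnt
    have h2 := le_of_mul_le_mul_right h1 hL2N
    have h3 : C * (2 * ((N : ℝ) ^ a + 4)) ≤ C * (y - x + 2) := by linarith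
    have h4 := le_of_mul_le_mul_left h3 hC
    linarith
  have hNa : 0 ≤ (N : ℝ) ^ a := Real.rpow_nonneg hNpos.le _
  have hyx2 : (y - x + 2) / 2 ≤ y - x - 2 := by linarith
  have hTa' : T ^ a ≤ h := by
    apply le_min
    · have : T ^ a ≤ (N : ℝ) ^ a := Real.rpow_le_rpow hTpos.le hTN ha0.le
      linarith
    · exact hT2
  have hA1 : 11 / 10 * T ≤ x + 1 := by rw [hT]; linarith
  have hA2 : x + 1 + h ≤ 19 / 10 * T := by
    have : h ≤ 7 / 10 * T := min_le_right _ _
    have h2 : x + 1 = 12 / 10 * T := by rw [hT]; ring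
    linarith
  have hmain := hshort T hTT0 (x + 1) h hA1 hA2 hTa'
  -- log comparison
  have hlogs : Real.log (2 * N) ≤ 4 * Real.log T := by
    have h1 := hN2 N hNN2
    rw [← hx] at h1
    -- N ≤ D x log x ≤ 2 D T log (2T) ≤ T ^ 3
    have h2 : x ≤ 2 * T := by rw [hT]; linarith
    have h3 : Real.log x ≤ 2 * Real.log T := by
      have h4 : Real.log x ≤ Real.log (T ^ 2) := Real.log_le_log (by linarith) (aux_sq h2 hT100)
      rw [Real.log_pow] at h4
      push_cast at h4
      exact h4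
    have h5 : x * Real.log x ≤ 2 * T * (2 * Real.log T) :=
      mul_le_mul h2 h3 (Real.log_nonneg (by linarith)) (by linarith)
    have h6 : (N : ℝ) ≤ 4 * T ^ 2 := by
      calc (N : ℝ) ≤ D * (x * Real.log x) := h1
        _ ≤ D * (2 * T * (2 * Real.log T)) := mul_le_mul_of_nonneg_left h5 hD.le
        _ = 4 * T * (D * Real.log T) := by ring
        _ ≤ 4 * T * T := mul_le_mul_of_nonneg_left hT1 (by linarith)
        _ = 4 * T ^ 2 := by ring
    have h7 : 2 * (N : ℝ) ≤ T ^ 4 := by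
      have : 8 ≤ T ^ 2 := aux_eight hT100
      calc 2 * (N : ℝ) ≤ 8 * T ^ 2 := by linarith
        _ ≤ T ^ 2 * T ^ 2 := mul_le_mul_of_nonneg_right this (by positivity)
        _ = T ^ 4 := by ring
    have h8 : Real.log (2 * N) ≤ Real.log (T ^ 4) := Real.log_le_log (by linarith) h7
    rw [Real.log_pow] at h8
    push_cast at h8
    exact h8
  -- count
  have hcount : min (ε / (16 * C)) (ε * (7 / 10) / (4 * D)) * H ≤ ε * (h * Real.log T) := by
    have hH0 : (0 : ℝ) ≤ H := Nat.cast_nonneg H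
    rcases le_total (y - x - 2) (7 / 10 * T) with hle | hle
    · have e1 : h = y - x - 2 := min_eq_left hle
      rw [e1]
      have e2 : (H : ℝ) ≤ C * (2 * (y - x - 2)) * (4 * Real.log T) := by
        refine hcnt.trans ?_
        apply mul_le_mul _ hlogs hL2N.le (by
          have : 0 ≤ y - x - 2 := by linarith
          positivity)
        apply mul_le_mul_of_nonneg_left _ hC.le
        linarith
      calc min (ε / (16 * C)) (ε * (7 / 10) / (4 * D)) * H
          ≤ ε / (16 * C) * H := mul_le_mul_of_nonneg_right (min_le_left _ _) hH0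
        _ ≤ ε / (16 * C) * (C * (2 * (y - x - 2)) * (4 * Real.log T)) :=
            mul_le_mul_of_nonneg_left e2 (by positivity)
        _ = ε * ((y - x - 2) * Real.log T) / 2 := by field_simp; ring
        _ ≤ ε * ((y - x - 2) * Real.log T) := by
            have : 0 ≤ ε * ((y - x - 2) * Real.log T) := by
              have : 0 ≤ y - x - 2 := by linarith
              positivity
            linarith
    · have e1 : h = 7 / 10 * T := min_eq_right hle
      rw [e1]
      have h1 := hN2 N hNN2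
      rw [← hx] at h1
      have h2 : x ≤ 2 * T := by rw [hT]; linarith
      have h3 : Real.log x ≤ 2 * Real.log T := by
        have h4 : Real.log x ≤ Real.log (T ^ 2) := Real.log_le_log (by linarith) (aux_sq h2 hT100)
        rw [Real.log_pow] at h4
        push_cast at h4
        exact h4
      have h5 : x * Real.log x ≤ 2 * T * (2 * Real.log T) :=
        mul_le_mul h2 h3 (Real.log_nonneg (by linarith)) (by linarith)
      have h6 : (H : ℝ) ≤ 4 * D * (T * Real.log T) := by
        have h7 : (H : ℝ) ≤ N := by exact_mod_cast hH2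
        calc (H : ℝ) ≤ N := h7
          _ ≤ D * (x * Real.log x) := h1
          _ ≤ D * (2 * T * (2 * Real.log T)) := mul_le_mul_of_nonneg_left h5 hD.le
          _ = _ := by ring
      calc min (ε / (16 * C)) (ε * (7 / 10) / (4 * D)) * H
          ≤ ε * (7 / 10) / (4 * D) * H := mul_le_mul_of_nonneg_right (min_le_right _ _) hH0
        _ ≤ ε * (7 / 10) / (4 * D) * (4 * D * (T * Real.log T)) :=
            mul_le_mul_of_nonneg_left h6 (by positivity)
        _ = ε * (7 / 10 * T * Real.log T) := by field_simp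
  refine hcount.trans (hmain.trans ?_)
  -- inclusion of the index sets
  have hsub : {n : ℕ | 1 ≤ n ∧ x + 1 ≤ ord n ∧ ord n ≤ x + 1 + h ∧ Q T n} ⊆
      {n : ℕ | N < n ∧ n ≤ N + H ∧ P n} := by
    rintro n ⟨a1, a2, a3, a4⟩
    have b1 : N < n := by
      by_contra hcon
      push Not at hcon
      have := SG.ord_mono a1 hcon
      rw [← hx] at this
      linarith
    have b2 : n ≤ N + H := by
      by_contra hcon
      push Not at hcon
      have h1 := SG.ord_mono (n := N + H) (m := n) (by omega) (by omega)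
      rw [← hy] at h1
      have h2 : h ≤ y - x - 2 := min_le_left _ _
      linarith
    exact ⟨b1, b2, hQP T n hTT0 a1 (by linarith) (by linarith) a4⟩
  have hfin : {n : ℕ | N < n ∧ n ≤ N + H ∧ P n}.Finite :=
    (Set.finite_Iic (N + H)).subset fun n hn => hn.2.1
  exact_mod_cast Set.ncard_le_ncard hsub hfin

end Pool.Agent.KS6_1.SR
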