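import Pool.Agent.KS6_1.SR.Main
import Pool.Agent.KS6_1.SR.Win
import Pool.Graph.R_seed8.TH861.RGP.Fin

/-! # r-gaps in short blocks: the criterion -/

open Complex Filter Topology Set MeasureTheory

namespace Pool.Agent.KS6_1.SR

open SG (ord NZ)
open SP (RHs)
open Pool.Agent.KS6_1.SI (Par Nu dd)
open _root_.LG (IsQ SF SM smid phi riem floor_div_lim floor_top smid_le smid_lim phi_cont)
open _root_.RGap (Ideal smI lam1 IsSgn NLarge NSmall)
open _root_.RGP (LF LF_cont Fp qe tn aa Gf Gf_cont SF_lim SF_pos outer_lim step_int SM_sum)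

/-- the resonators: the simplest one (`lam1`) and the powers -/
def Good (x y : ℝ) : Prop :=
  y < lam1 x ∨ ∃ ν b : ℝ, 1 ≤ ν ∧ 0 < b ∧ y < LF ν b (Real.pi * x / 2)

theorem ideal_LF {ν b c x κ : ℝ} (hν : 1 ≤ ν) (hb : 0 < b) (hc : 0 < c) (hκ1 : κ < 1)
    (hx : x < LF ν b (Real.pi * ((1 - κ) * c) / 2)) : ∃ B0 : ℕ, 1 ≤ B0 ∧
      Ideal κ B0 (Real.sqrt ν) (fun _ => 1) (Fp ν b) (fun _ => 1) x c := by
  have hν0 : 0 < ν := by linarith
  have ha : 0 < aa ν b := by unfold aa; linarith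
  have hκx : x < LF ν b (Real.pi * c * ((1 - κ) / 2)) := by
    rw [show Real.pi * c * ((1 - κ) / 2) = Real.pi * ((1 - κ) * c) / 2 by ring]
    exact hx
  set κ' : ℝ := (1 - κ) / 2 with hκ'
  have hκ'0 : 0 < κ' := by rw [hκ']; linarith
  have l1 := (SF_lim hν0 hb (ν := ν)).const_mul x
  have l2 := (outer_lim (c := c) (κ := κ') hν hb hc hκ'0).const_mul (4 * Real.sqrt ν / Real.pi)
  rw [step_int hb (g := fun s => Gf (aa ν b) (Real.pi * c * κ' * s))
    ((Gf_cont ha).comp (continuous_const.mul continuous_id))] at l2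
  have hlt : x * (1 / (b + 1)) < 4 * Real.sqrt ν / Real.pi *
      ∫ s in (0 : ℝ)..1, s ^ b * Gf (aa ν b) (Real.pi * c * κ' * s) := by
    unfold LF at hκx
    have hb1 : 0 < b + 1 := by linarith
    rw [mul_one_div, div_lt_iff₀ hb1]
    linarith
  have hev2 := l1.eventually_lt l2 hlt
  obtain ⟨B, hB, hB2⟩ := (hev2.and (eventually_ge_atTop 2)).exists
  refine ⟨B, by omega, fun q hq => ?_⟩
  have hB0 : (0 : ℝ) < B := by
    have : 0 < B := by omega
    exact_mod_cast this
  have hq' : IsQ B (tn ν) q := by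
    have : (fun m : ℕ => if 2 ≤ m then Real.sqrt ν ^ 2 * (1 : ℝ) ^ 2 else 0) = tn ν := by
      funext m
      unfold tn
      rw [Real.sq_sqrt hν0.le, one_pow, mul_one]
    rwa [this] at hq
  have eSF : SF B (Fp ν b) q = SF B (Fp ν b) (qe ν) := by
    unfold SF
    apply Finset.sum_congr rfl
    intro n hn
    simp only [Finset.mem_range] at hn
    rw [_root_.RGP.q_eq hq' n (by omega)]
  have eSM : ∀ m, SM B (Fp ν b) q m = SM B (Fp ν b) (qe ν) m := by
    intro m
    unfold SM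
    apply Finset.sum_congr rfl
    intro n hn
    simp only [Finset.mem_range] at hn
    rw [_root_.RGP.q_eq hq' n (by omega)]
  rw [eSF]
  refine ⟨SF_pos hν0 hb hB2, ?_⟩
  have esum := SM_sum (b := b) (c := c) (κ := κ') hν0 (show 1 ≤ B by omega)
  rw [← esum] at hB
  have h5 : (0 : ℝ) < (B : ℝ) ^ (b + 1) := Real.rpow_pos_of_pos hB0 _
  rw [← mul_div_assoc, ← mul_div_assoc, div_lt_div_iff_of_pos_right h5] at hB
  refine hB.trans_le (le_of_eq ?_)
  congr 1
  apply Finset.sum_congr rfl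
  intro m _
  rw [eSM, one_mul, one_mul]
  congr 1
  unfold smid smI
  rw [hκ', div_div]

theorem KK_lam1 (c κ : ℝ) : 4 / Real.pi * _root_.RGap.I1.KK c κ = lam1 ((1 - κ) * c) := by
  unfold _root_.RGap.I1.KK lam1
  congr 1
  refine intervalIntegral.integral_congr ?_
  intro v _
  simp only
  have h1 : Real.pi * c * ((1 - κ) / 2 * v) = Real.pi * ((1 - κ) * c) / 2 * v := by ring
  rw [h1]
  ring

open _root_.RGap.I1 in
theorem ideal_lam1 {c x κ : ℝ} (hc : 0 < c) (hκ1 : κ < 1) (hx : x < lam1 ((1 - κ) * c)) :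
    ∃ B0 : ℕ, 1 ≤ B0 ∧ Ideal κ B0 1 (fun _ => 1) (fun _ => 1) (fun _ => 1) x c := by
  rw [← KK_lam1] at hx
  have hlim := (aa_lim hκ1 hc).const_mul (4 / Real.pi)
  rw [gg_int] at hlim
  have hev := hlim.eventually (eventually_gt_nhds hx)
  obtain ⟨B, hB1, hB⟩ := ((eventually_ge_atTop 1).and hev).exists
  refine ⟨B, hB1, ?_⟩
  intro q hq
  have hq' : IsQ B t1 q := by
    have h1 : (fun m : ℕ => if 2 ≤ m then (1 : ℝ) ^ 2 * (fun _ : ℕ => (1 : ℝ)) m ^ 2 else 0) = t1 := by
      funext m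
      unfold t1
      split_ifs <;> norm_num
    rwa [h1] at hq
  have hSF : SF B (fun _ => 1) q = R (B + 1) := by
    unfold SF R
    refine Finset.sum_congr rfl (fun n hn => ?_)
    rw [Finset.mem_range] at hn
    rw [q_eq hq' n (by omega)]
    norm_num
  have hSM : ∀ m, SM B (fun _ => 1) q m = R (B + 1 - m) := by
    intro m
    unfold SM R
    refine Finset.sum_congr rfl (fun n hn => ?_)
    rw [Finset.mem_range] at hn
    rw [q_eq hq' n (by omega)]
    norm_num
  rw [hSF]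
  refine ⟨R_pos B, ?_⟩
  have h1 : ∑ m ∈ Finset.Icc 2 B, (1 : ℝ) * (1 * smI ((1 - κ) / (2 * B)) c m *
      SM B (fun _ => 1) q m) = R (B + 1) * ∑ n ∈ Finset.range (B + 1), aa κ c B n := by
    rw [Finset.mul_sum]
    refine Finset.sum_subset_zero_on_sdiff ?_ ?_ ?_
    · intro m hm
      rw [Finset.mem_Icc] at hm
      rw [Finset.mem_range]
      omega
    · intro m hm
      rw [Finset.mem_sdiff, Finset.mem_range, Finset.mem_Icc] at hm
      unfold _root_.RGap.I1.aa
      rw [if_neg (by omega), mul_zero]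
    · intro m hm
      rw [Finset.mem_Icc] at hm
      unfold _root_.RGap.I1.aa
      rw [if_pos hm, hSM]
      have := (R_pos B).ne'
      field_simp
  have h2 : (4 : ℝ) * 1 / Real.pi = 4 / Real.pi := by ring
  rw [h1, h2]
  have h3 := R_pos B
  calc x * R (B + 1) < (4 / Real.pi * ∑ n ∈ Finset.range (B + 1), aa κ c B n) * R (B + 1) :=
        mul_lt_mul_of_pos_right hB h3
    _ = _ := by ring

/-- from `Good` to the ideal inequality -/
theorem ideal_of_good {c x κ : ℝ} (hc : 0 < c) (hκ1 : κ < 1) (h : Good ((1 - κ) * c) x) :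
    ∃ (B0 : ℕ) (r : ℝ) (F : ℕ → ℝ), 1 ≤ B0 ∧ 0 < r ∧
      Ideal κ B0 r (fun _ => 1) F (fun _ => 1) x c := by
  rcases h with h | ⟨ν, b, hν, hb, h⟩
  · obtain ⟨B0, h1, h2⟩ := ideal_lam1 hc hκ1 h
    exact ⟨B0, 1, _, h1, one_pos, h2⟩
  · obtain ⟨B0, h1, h2⟩ := ideal_LF hν hb hc hκ1 h
    exact ⟨B0, _, _, h1, Real.sqrt_pos.2 (by linarith), h2⟩

theorem lam1_cont : Continuous lam1 := by
  unfold lam1
  apply continuous_const.mul
  apply intervalIntegral.continuous_parametric_intervalIntegral_of_continuous' ?_ 0 1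
  have := Real.continuous_sinc
  simp only [Function.uncurry_def]
  fun_prop

/-- `Good` is an open condition on the first variable -/
theorem good_open {x y : ℝ} (h : Good x y) : ∀ᶠ x' in 𝓝 x, Good x' y := by
  rcases h with h | ⟨ν, b, hν, hb, h⟩
  · filter_upwards [lam1_cont.continuousAt.eventually_const_lt h] with x' hx'
    exact Or.inl hx'
  · have hcont : ContinuousAt (fun x' : ℝ => LF ν b (Real.pi * x' / 2)) x :=
      ((LF_cont hν hb).comp ((continuous_const.mul continuous_id).div_const 2)).continuousAt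
    filter_upwards [hcont.eventually_const_lt h] with x' hx'
    exact Or.inr ⟨ν, b, hν, hb, hx'⟩

/-- choice of the length of the detector -/
theorem good_choose {α c y : ℝ} (hα : 0 < α) (h : Good (α * c) y) :
    ∃ η : ℝ, 0 < η ∧ η < α ∧ Good (η * c) y := by
  have h1 : Tendsto (fun η : ℝ => η * c) (𝓝[<] α) (𝓝 (α * c)) :=
    ((continuous_id.mul continuous_const).tendsto α).mono_left nhdsWithin_le_nhds
  have h2 := h1.eventually (good_open h)
  have h3 : ∀ᶠ η in 𝓝[<] α, 0 < η :=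
    (eventually_gt_nhds hα).filter_mono nhdsWithin_le_nhds
  have h4 : ∀ᶠ η in 𝓝[<] α, η < α := eventually_mem_nhdsWithin
  obtain ⟨η, h5, h6, h7⟩ := (h2.and (h3.and h4)).exists
  exact ⟨η, h6, h7, h5⟩

/-- the resonance inequality for some detector of length `T ^ η`, `η < α` -/
def GoodI (α c y : ℝ) : Prop := ∃ η : ℝ, 0 < η ∧ η < α ∧
  ∃ (B0 : ℕ) (r : ℝ) (V F s : ℕ → ℝ), 1 ≤ B0 ∧ 0 < r ∧ (∀ m, 0 ≤ V m ∧ V m ≤ 1) ∧ IsSgn s ∧
    Ideal (1 - η) B0 r V F s y c

theorem goodI_of_good {α c y : ℝ} (hα : 0 < α) (hc : 0 < c) (h : Good (α * c) y) :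
    GoodI α c y := by
  obtain ⟨η, hη0, hηα, hη⟩ := good_choose hα h
  obtain ⟨B0, r, F, hB0, hr, hI⟩ := ideal_of_good (κ := 1 - η) hc (by linarith)
    (by rw [sub_sub_cancel]; exact hη)
  exact ⟨η, hη0, hηα, B0, r, fun _ => 1, F, fun _ => 1, hB0, hr, fun _ => ⟨zero_le_one, le_rfl⟩,
    fun _ => Or.inl rfl, hI⟩

theorem GoodI.mono {α c y y' : ℝ} (h : GoodI α c y) (hy : y' ≤ y) : GoodI α c y' := by
  obtain ⟨η, h1, h2, B0, r, V, F, s, h3, h4, h5, h6, h7⟩ := h
  exact ⟨η, h1, h2, B0, r, V, F, s, h3, h4, h5, h6, h7.mono hy⟩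

/-- the unfolded gaps -/
noncomputable def dlt (n : ℕ) : ℝ :=
  (ord (n + 1) - ord n) / (2 * Real.pi) * Real.log (ord n / (2 * Real.pi))

theorem dlt_lower {k n : ℕ} (hn : 1 ≤ n) :
    (ord (n + k) - ord n) / (2 * Real.pi) * Real.log (ord n / (2 * Real.pi)) ≤
      ∑ i ∈ Finset.range k, dlt (n + i) := by
  have hpi := Real.pi_pos
  have hp0 : 0 < ord n := SG.ord_pos hn
  have h4 : ∀ i : ℕ, (ord (n + (i + 1)) - ord (n + i)) / (2 * Real.pi) *
      Real.log (ord n / (2 * Real.pi)) ≤ dlt (n + i) := by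
    intro i
    show _ ≤ (ord (n + i + 1) - ord (n + i)) / (2 * Real.pi) *
      Real.log (ord (n + i) / (2 * Real.pi))
    rw [show n + (i + 1) = n + i + 1 by ring]
    apply mul_le_mul_of_nonneg_left
    · apply Real.log_le_log (by positivity)
      apply div_le_div_of_nonneg_right _ (by positivity)
      exact SG.ord_mono hn (by omega)
    · apply div_nonneg _ (by positivity)
      have := SG.ord_mono (show 1 ≤ n + i by omega) (show n + i ≤ n + i + 1 by omega)
      linarith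
  calc (ord (n + k) - ord n) / (2 * Real.pi) * Real.log (ord n / (2 * Real.pi))
      = ∑ i ∈ Finset.range k, (ord (n + (i + 1)) - ord (n + i)) / (2 * Real.pi) *
        Real.log (ord n / (2 * Real.pi)) := by
        rw [← Finset.sum_mul, ← Finset.sum_div,
          Finset.sum_range_sub (fun i => ord (n + i)) k, add_zero]
    _ ≤ ∑ i ∈ Finset.range k, dlt (n + i) := Finset.sum_le_sum fun i _ => h4 i

theorem dlt_upper {k n : ℕ} (hn : 1 ≤ n) {L : ℝ}
    (hL : Real.log (ord (n + k) / (2 * Real.pi)) ≤ L) :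
      ∑ i ∈ Finset.range k, dlt (n + i) ≤ (ord (n + k) - ord n) / (2 * Real.pi) * L := by
  have hpi := Real.pi_pos
  have h4 : ∀ i ∈ Finset.range k, dlt (n + i) ≤
      (ord (n + (i + 1)) - ord (n + i)) / (2 * Real.pi) * L := by
    intro i hi
    rw [Finset.mem_range] at hi
    show (ord (n + i + 1) - ord (n + i)) / (2 * Real.pi) *
      Real.log (ord (n + i) / (2 * Real.pi)) ≤ _
    rw [show n + (i + 1) = n + i + 1 by ring]
    apply mul_le_mul_of_nonneg_left
    · refine le_trans ?_ hL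
      apply Real.log_le_log (by have := SG.ord_pos (show 1 ≤ n + i by omega); positivity)
      apply div_le_div_of_nonneg_right _ (by positivity)
      exact SG.ord_mono (show 1 ≤ n + i by omega) (by omega)
    · apply div_nonneg _ (by positivity)
      have := SG.ord_mono (show 1 ≤ n + i by omega) (show n + i ≤ n + i + 1 by omega)
      linarith
  calc ∑ i ∈ Finset.range k, dlt (n + i)
      ≤ ∑ i ∈ Finset.range k, (ord (n + (i + 1)) - ord (n + i)) / (2 * Real.pi) * L :=
        Finset.sum_le_sum h4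
    _ = (ord (n + k) - ord n) / (2 * Real.pi) * L := by
        rw [← Finset.sum_mul, ← Finset.sum_div,
          Finset.sum_range_sub (fun i => ord (n + i)) k, add_zero]

/-- **criterion, large sums** -/
theorem crit_large (hRH : RHs) {α c : ℝ} {k : ℕ} (hα : 0 < α) (hα1 : α ≤ 1) (hk : 1 ≤ k)
    (hc : 0 < c) (h : GoodI α c (c - k)) :
    ∃ ε : ℝ, 0 < ε ∧ ∃ N0 : ℕ, ∀ N H : ℕ, N0 ≤ N → (N : ℝ) ^ α ≤ H → H ≤ N →
      ε * H ≤ (({n : ℕ | N < n ∧ n ≤ N + H ∧
        c < ∑ i ∈ Finset.range k, dlt (n + i)}.ncard : ℕ) : ℝ) := by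
  obtain ⟨η, hη0, hηα, B0, r, V, F, s, hB0, hr, hV, hs, hI⟩ := h
  set κ : ℝ := 1 - η with hκ
  have hκ0 : 0 < κ := by rw [hκ]; linarith
  have hκ1 : κ < 1 := by rw [hκ]; linarith
  set ν : ℝ := min ((α - η) / 4) (κ / 2) with hν
  have hν0 : 0 < ν := lt_min (by linarith) (by linarith)
  have hνκ : ν < κ := (min_le_right _ _).trans_lt (by linarith)
  have hνα : 1 - κ + ν < (α + η) / 2 := by
    have : ν ≤ (α - η) / 4 := min_le_left _ _
    rw [hκ]
    linarith
  let _ : Nu := ⟨ν, hν0⟩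
  obtain ⟨P, q, hPκ, h1, h2, h3, h4⟩ := RGap.PARG_proof κ hκ0 hκ1 B0 hB0 r V F s hV _ _ hI
  have hνP : Nu.ν < P.κ := by rw [hPκ]; exact hνκ
  have hloc := RGap.LOCL_main hRH P B0 h1 hνP r hr F q s hs h2 h3 k c hk hc h4
  rw [hPκ] at hloc
  obtain ⟨δ, ε, K, T0, hδ, hε, hK, hT0, hloc⟩ := hloc
  obtain ⟨ε', T1, hε', hT1, hT01, hint⟩ := win_to_int (w := 1 - κ + ν) (a := (α + η) / 2) hνα hε hK
    (Q := fun T n => 2 * Real.pi * (c + δ) / Real.log T < ord (n + k) - ord n)
    (fun T hT t0 ht0 ht0' => hloc T hT t0 ht0 ht0')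
  have hlogev : ∀ᶠ x : ℝ in atTop, c * Real.log x ≤ (c + δ) * (Real.log x - Real.log (2 * Real.pi)) := by
    filter_upwards [Real.tendsto_log_atTop.eventually_ge_atTop
      ((c + δ) * Real.log (2 * Real.pi) / δ)] with x hx
    rw [div_le_iff₀ hδ] at hx
    linarith
  obtain ⟨T2, hT2⟩ := hlogev.exists_forall_of_atTop
  refine int_to_block (a := (α + η) / 2) (by linarith) (by linarith) hα1 (T0 := max T1 T2) hε'
    (Q := fun T n => 2 * Real.pi * (c + δ) / Real.log T < ord (n + k) - ord n)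
    (fun T hT => hint T ((le_max_left _ _).trans hT)) ?_
  intro T n hT hn hn1 _ hQ
  have hTT1 : 10 ≤ T := hT1.trans ((le_max_left _ _).trans hT)
  have hLT : 0 < Real.log T := Real.log_pos (by linarith)
  have hpi := Real.pi_pos
  refine lt_of_lt_of_le ?_ (dlt_lower hn)
  have h5 := hT2 T ((le_max_right _ _).trans hT)
  have h6 : Real.log T - Real.log (2 * Real.pi) ≤ Real.log (ord n / (2 * Real.pi)) := by
    rw [← Real.log_div (by linarith) (by positivity)]
    apply Real.log_le_log (by positivity)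
    apply div_le_div_of_nonneg_right _ (by positivity)
    linarith
  have h7 : 0 < Real.log (ord n / (2 * Real.pi)) := by
    have h8 : 0 < (c + δ) * (Real.log T - Real.log (2 * Real.pi)) := lt_of_lt_of_le (by positivity) h5
    have h9 : 0 < Real.log T - Real.log (2 * Real.pi) := by
      by_contra hcon
      push Not at hcon
      have := mul_nonpos_of_nonneg_of_nonpos (show 0 ≤ c + δ by linarith) hcon
      linarith
    linarith
  have h8 : (c + δ) / Real.log T < (ord (n + k) - ord n) / (2 * Real.pi) := by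
    rw [lt_div_iff₀ (by positivity)]
    calc (c + δ) / Real.log T * (2 * Real.pi) = 2 * Real.pi * (c + δ) / Real.log T := by ring
      _ < _ := hQ
  calc c = c * Real.log T / Real.log T := by field_simp
    _ ≤ (c + δ) * (Real.log T - Real.log (2 * Real.pi)) / Real.log T :=
        div_le_div_of_nonneg_right h5 hLT.le
    _ = (c + δ) / Real.log T * (Real.log T - Real.log (2 * Real.pi)) := by ring
    _ ≤ (c + δ) / Real.log T * Real.log (ord n / (2 * Real.pi)) :=
        mul_le_mul_of_nonneg_left h6 (by positivity)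
    _ < _ := mul_lt_mul_of_pos_right h8 h7

/-- **criterion, small sums** -/
theorem crit_small (hRH : RHs) {α c : ℝ} {k : ℕ} (hα : 0 < α) (hα1 : α ≤ 1) (hk : 1 ≤ k)
    (hc : 0 < c) (h : GoodI α c (k - c)) :
    ∃ ε : ℝ, 0 < ε ∧ ∃ N0 : ℕ, ∀ N H : ℕ, N0 ≤ N → (N : ℝ) ^ α ≤ H → H ≤ N →
      ε * H ≤ (({n : ℕ | N < n ∧ n ≤ N + H ∧
        ∑ i ∈ Finset.range k, dlt (n + i) < c}.ncard : ℕ) : ℝ) := by
  obtain ⟨η, hη0, hηα, B0, r, V, F, s, hB0, hr, hV, hs, hI⟩ := h
  set κ : ℝ := 1 - η with hκ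
  have hκ0 : 0 < κ := by rw [hκ]; linarith
  have hκ1 : κ < 1 := by rw [hκ]; linarith
  set ν : ℝ := min ((α - η) / 4) (κ / 2) with hν
  have hν0 : 0 < ν := lt_min (by linarith) (by linarith)
  have hνκ : ν < κ := (min_le_right _ _).trans_lt (by linarith)
  have hνα : 1 - κ + ν < (α + η) / 2 := by
    have : ν ≤ (α - η) / 4 := min_le_left _ _
    rw [hκ]
    linarith
  let _ : Nu := ⟨ν, hν0⟩
  obtain ⟨P, q, hPκ, h1, h2, h3, h4⟩ := RGap.PARG_proof κ hκ0 hκ1 B0 hB0 r V F s hV _ _ hI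
  have hνP : Nu.ν < P.κ := by rw [hPκ]; exact hνκ
  have hLM : RGap.LM P B0 r F q (fun m => -s m) c = -RGap.LM P B0 r F q s c := by
    unfold RGap.LM
    rw [← mul_neg, ← Finset.sum_neg_distrib]
    congr 1
    apply Finset.sum_congr rfl
    intro m _
    ring
  have hloc := RGap.LOCS_main hRH P B0 h1 hνP r hr F q (fun m => -s m) hs.neg h2 h3 k c
    hk hc (by rw [hLM, neg_neg]; exact h4)
  rw [hPκ] at hloc
  obtain ⟨δ, ε, K, T0, hδ, hε, hK, hT0, hloc⟩ := hloc
  obtain ⟨ε', T1, hε', hT1, hT01, hint⟩ := win_to_int (w := 1 - κ + ν) (a := (α + η) / 2) hνα hε hK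
    (Q := fun T n => ord (n + k) - ord n ≤ 2 * Real.pi * (c - δ) / Real.log T)
    (fun T hT t0 ht0 ht0' => hloc T hT t0 ht0 ht0')
  have hlogev : ∀ᶠ x : ℝ in atTop, 2 * Real.pi * c / Real.log x ≤ x / 10 := by
    filter_upwards [eventually_ge_atTop (max 10 (20 * Real.pi * c))] with x hx
    have hx1 : 10 ≤ x := (le_max_left _ _).trans hx
    have hx2 : 20 * Real.pi * c ≤ x := (le_max_right _ _).trans hx
    have h1 : 1 ≤ Real.log x := by
      rw [Real.le_log_iff_exp_le (by linarith)]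
      have := Real.exp_one_lt_d9
      linarith
    rw [div_le_iff₀ (by linarith)]
    have hpi := Real.pi_pos
    nlinarith
  obtain ⟨T2, hT2⟩ := hlogev.exists_forall_of_atTop
  refine int_to_block (a := (α + η) / 2) (by linarith) (by linarith) hα1 (T0 := max T1 T2) hε'
    (Q := fun T n => ord (n + k) - ord n ≤ 2 * Real.pi * (c - δ) / Real.log T)
    (fun T hT => hint T ((le_max_left _ _).trans hT)) ?_
  intro T n hT hn _ hn2 hQ
  have hTT1 : 10 ≤ T := hT1.trans ((le_max_left _ _).trans hT)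
  have hLT : 0 < Real.log T := Real.log_pos (by linarith)
  have hpi := Real.pi_gt_three
  have h5 := hT2 T ((le_max_right _ _).trans hT)
  have h5' : 2 * Real.pi * (c - δ) / Real.log T ≤ 2 * Real.pi * c / Real.log T := by
    apply div_le_div_of_nonneg_right _ hLT.le
    apply mul_le_mul_of_nonneg_left (by linarith) (by positivity)
  have hpos : 0 < ord (n + k) := SG.ord_pos (by omega)
  have h6 : Real.log (ord (n + k) / (2 * Real.pi)) ≤ Real.log T := by
    apply Real.log_le_log (by positivity)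
    rw [div_le_iff₀ (by positivity)]
    have : ord (n + k) ≤ 2 * T := by linarith
    nlinarith
  refine lt_of_le_of_lt (dlt_upper hn h6) ?_
  calc (ord (n + k) - ord n) / (2 * Real.pi) * Real.log T
      ≤ (2 * Real.pi * (c - δ) / Real.log T) / (2 * Real.pi) * Real.log T := by gcongr
    _ = c - δ := by field_simp
    _ < c := by linarith

end Pool.Agent.KS6_1.SR
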