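import Pool.Agent.KS6_1.SI.Defs
import Pool.Graph.R_seed8.H360R2.RG.Defs

/-!
# Sums of consecutive gaps between zeta zeros in short intervals: definitions

The files `Pool/Agent/KS6_1/SR` repeat the files `LG` and `RG` of the library (positive proportion of
large and small sums of consecutive gaps, windows of length `T ^ (1 - κ / 2)`) for windows of length
`T ^ (1 - κ + ν)` with arbitrary `0 < ν < κ < 1`.  Everything which does not involve the window is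
imported from there.
-/

open Complex Filter Topology Set MeasureTheory

namespace Pool.Agent.KS6_1.SR.LG

open SG (hh nn dl ord NZ)
open SP (RHs ZZ mu wt Mk qq tt)
open Pool.Agent.KS6_1.SI (Par Eb PS chi dd Nu)
open _root_.LG (gK gh Zs bk lk nA IsQ SF SM)

/-! ### the two-sided Dirichlet polynomial -/

/-- sets of primes of energy at most `B0` -/
noncomputable def fam (P : Par) (B0 : ℕ) (T : ℝ) : Finset (Finset ℕ) :=
  (PS P T).powerset.filter (fun A => ∑ p ∈ A, Eb P T p ≤ B0)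

/-- pairs of disjoint sets of primes, each of energy at most `B0` -/
noncomputable def prs (P : Par) (B0 : ℕ) (T : ℝ) : Finset (Finset ℕ × Finset ℕ) :=
  (fam P B0 T ×ˢ fam P B0 T).filter (fun q => Disjoint q.1 q.2)

/-- the coefficient of a prime -/
noncomputable def yp (P : Par) (r T : ℝ) (p : ℕ) : ℝ := r * chi P T p / Real.sqrt p

/-- coefficient of a set -/
noncomputable def ae (P : Par) (r : ℝ) (F : ℕ → ℝ) (T : ℝ) (A : Finset ℕ) : ℝ :=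
  F (∑ p ∈ A, Eb P T p) * ∏ p ∈ A, yp P r T p

/-- the two-sided Dirichlet polynomial `∑_{(A,B)} a(A) a(B) (n_B / n_A)^{it}` -/
noncomputable def EE (P : Par) (B0 : ℕ) (r : ℝ) (F : ℕ → ℝ) (T t : ℝ) : ℂ :=
  ∑ q ∈ prs P B0 T, ((ae P r F T q.1 * ae P r F T q.2 : ℝ) : ℂ) *
    cexp (I * ((t * (Real.log (nA q.2) - Real.log (nA q.1)) : ℝ) : ℂ))

/-- the diagonal of `|E|² n^{-it}` -/
noncomputable def Cn (P : Par) (B0 : ℕ) (r : ℝ) (F : ℕ → ℝ) (T : ℝ) (n : ℕ) : ℝ :=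
  ∑ q ∈ prs P B0 T, ∑ q' ∈ prs P B0 T,
    if nA q.2 * nA q'.1 = n * (nA q.1 * nA q'.2) then
      (ae P r F T q.1 * ae P r F T q.2) * (ae P r F T q'.1 * ae P r F T q'.2) else 0

/-- sum of `∏ y_p²` over the sets of energy `n` -/
noncomputable def QT (P : Par) (r T : ℝ) (n : ℕ) : ℝ :=
  ∑ A ∈ (PS P T).powerset.filter (fun A => ∑ p ∈ A, Eb P T p = n), ∏ p ∈ A, yp P r T p ^ 2

/-! ### limits -/

noncomputable def tm (P : Par) (r : ℝ) (m : ℕ) : ℝ :=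
  m * r ^ 2 * ∫ u in (0 : ℝ)..1, u * P.b m u ^ 2

noncomputable def sm (P : Par) (A c : ℝ) (m : ℕ) : ℝ :=
  ∫ u in (0 : ℝ)..1, P.b m u * Real.sin (Real.pi * c * u) * Real.exp (-(u / A) ^ 2 / 2)

noncomputable def sm0 (P : Par) (c : ℝ) (m : ℕ) : ℝ :=
  ∫ u in (0 : ℝ)..1, P.b m u * Real.sin (Real.pi * c * u)

end Pool.Agent.KS6_1.SR.LG

namespace Pool.Agent.KS6_1.SR.RGap

open SG (hh nn dl ord NZ)
open SP (RHs ZZ mu wt Mk qq tt)
open Pool.Agent.KS6_1.SI (Par Eb PS chi dd Nu)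
open _root_.LG (gK gh Zs bk lk nA IsQ SF SM)
open Pool.Agent.KS6_1.SR.LG (fam prs yp ae EE Cn QT tm sm sm0)
open _root_.RGap (IsSgn smI NN lam1 NLarge NSmall PosLarge PosSmall PosT)

/-- sign of a set of primes -/
noncomputable def sg (P : Par) (s : ℕ → ℝ) (T : ℝ) (A : Finset ℕ) : ℝ := ∏ p ∈ A, s (Eb P T p)

/-- signed coefficient of a set -/
noncomputable def aeS (P : Par) (r : ℝ) (F s : ℕ → ℝ) (T : ℝ) (A : Finset ℕ) : ℝ :=
  sg P s T A * ae P r F T A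

/-- the signed two-sided Dirichlet polynomial -/
noncomputable def EES (P : Par) (B0 : ℕ) (r : ℝ) (F s : ℕ → ℝ) (T t : ℝ) : ℂ :=
  ∑ q ∈ prs P B0 T, ((aeS P r F s T q.1 * aeS P r F s T q.2 : ℝ) : ℂ) *
    cexp (I * ((t * (Real.log (nA q.2) - Real.log (nA q.1)) : ℝ) : ℂ))

/-- the diagonal of `|EES|² n^{-it}` -/
noncomputable def CnS (P : Par) (B0 : ℕ) (r : ℝ) (F s : ℕ → ℝ) (T : ℝ) (n : ℕ) : ℝ :=
  ∑ q ∈ prs P B0 T, ∑ q' ∈ prs P B0 T,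
    if nA q.2 * nA q'.1 = n * (nA q.1 * nA q'.2) then
      (aeS P r F s T q.1 * aeS P r F s T q.2) * (aeS P r F s T q'.1 * aeS P r F s T q'.2) else 0

/-- the (signed) limit functional: `(4r/π) ∑ s_m sm0_m SM_m` -/
noncomputable def LM (P : Par) (B0 : ℕ) (r : ℝ) (F q s : ℕ → ℝ) (c : ℝ) : ℝ :=
  4 * r / Real.pi * ∑ m ∈ Finset.Icc 2 B0, s m * (sm0 P c m * SM B0 F q m)

variable [Nu]

/-- many large `k`-gaps (`> c`) near every `t0` -/
def LocLarge (κ : ℝ) (k : ℕ) (c : ℝ) : Prop :=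
  ∃ η ε K T0 : ℝ, 0 < η ∧ 0 < ε ∧ 1 ≤ K ∧ 10 ≤ T0 ∧ ∀ T : ℝ, T0 ≤ T →
    ∀ t0 : ℝ, 11 / 10 * T ≤ t0 → t0 ≤ 19 / 10 * T →
    ε * dd κ T * Real.log T ≤ (NLarge k (c + η) T (K * dd κ T) t0 : ℝ)

/-- many small `k`-gaps (`< c`) near every `t0` -/
def LocSmall (κ : ℝ) (k : ℕ) (c : ℝ) : Prop :=
  ∃ η ε K T0 : ℝ, 0 < η ∧ 0 < ε ∧ 1 ≤ K ∧ 10 ≤ T0 ∧ ∀ T : ℝ, T0 ≤ T →
    ∀ t0 : ℝ, 11 / 10 * T ≤ t0 → t0 ≤ 19 / 10 * T →
    ε * dd κ T * Real.log T ≤ (NSmall k (c - η) T (K * dd κ T) t0 : ℝ)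

end Pool.Agent.KS6_1.SR.RGap
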