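import Pool.Agent.KS6_1.SR.Defs

/-! Inclusion–exclusion for the two-sided polynomial `EE`. -/

open Complex Filter Topology Set MeasureTheory

namespace Pool.Agent.KS6_1.SR.LG

open _root_.LG

variable [Pool.Agent.KS6_1.SI.Nu]

open SG (hh nn dl ord NZ)
open SP (RHs ZZ mu wt Mk qq tt)
open Pool.Agent.KS6_1.SI (Par Eb PS chi dd Nu)

namespace MomA

/-- energy -/
noncomputable def en (P : Par) (T : ℝ) (A : Finset ℕ) : ℕ := ∑ p ∈ A, Eb P T p

/-- the unimodular twist of the coefficient of a prime -/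
noncomputable def ww (P : Par) (r T t : ℝ) (p : ℕ) : ℂ :=
  (yp P r T p : ℂ) * cexp (I * ((t * Real.log p : ℝ) : ℂ))

noncomputable def zz (P : Par) (r : ℝ) (F : ℕ → ℝ) (T t : ℝ) (A : Finset ℕ) : ℂ :=
  (F (en P T A) : ℂ) * ∏ p ∈ A, ww P r T t p

lemma mem_fam {P : Par} {B0 : ℕ} {T : ℝ} {A : Finset ℕ} :
    A ∈ fam P B0 T ↔ A ⊆ PS P T ∧ en P T A ≤ B0 := by
  unfold fam en
  rw [Finset.mem_filter, Finset.mem_powerset]

lemma prime_of_mem {P : Par} {T : ℝ} {p : ℕ} (hp : p ∈ PS P T) : p.Prime ∧ 2 ≤ Eb P T p := by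
  unfold PS at hp
  rw [Finset.mem_filter] at hp
  exact hp.2

lemma log_nA {P : Par} {T : ℝ} {A : Finset ℕ} (hA : A ⊆ PS P T) :
    Real.log (nA A) = ∑ p ∈ A, Real.log p := by
  unfold nA
  push_cast
  rw [Real.log_prod]
  intro p hp
  have := (prime_of_mem (hA hp)).1.pos
  positivity

lemma zz_eq {P : Par} {r : ℝ} {F : ℕ → ℝ} {T t : ℝ} {A : Finset ℕ} (hA : A ⊆ PS P T) :
    zz P r F T t A = (ae P r F T A : ℂ) * cexp (I * ((t * Real.log (nA A) : ℝ) : ℂ)) := by
  unfold zz ae ww en
  rw [log_nA hA, Finset.prod_mul_distrib]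
  push_cast
  rw [Finset.mul_sum, Finset.mul_sum, Complex.exp_sum]
  ring

lemma conj_exp (x : ℝ) : (starRingEnd ℂ) (cexp (I * (x : ℂ))) = cexp (-(I * (x : ℂ))) := by
  rw [← Complex.exp_conj]
  congr 1
  simp

/-- the sum over the sets containing `C` -/
noncomputable def DC (P : Par) (B0 : ℕ) (r : ℝ) (F : ℕ → ℝ) (T t : ℝ) (C : Finset ℕ) : ℂ :=
  ∑ A ∈ (fam P B0 T).filter (fun A => C ⊆ A), zz P r F T t A

lemma EE_zz (P : Par) (B0 : ℕ) (r : ℝ) (F : ℕ → ℝ) (T t : ℝ) :
    EE P B0 r F T t = ∑ A ∈ fam P B0 T, ∑ B ∈ fam P B0 T,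
      if Disjoint A B then zz P r F T t B * (starRingEnd ℂ) (zz P r F T t A) else 0 := by
  unfold EE prs
  rw [Finset.sum_filter, Finset.sum_product]
  apply Finset.sum_congr rfl
  intro A hA
  apply Finset.sum_congr rfl
  intro B hB
  split_ifs with h
  · rw [zz_eq (mem_fam.mp hA).1, zz_eq (mem_fam.mp hB).1, map_mul, conj_exp, Complex.conj_ofReal]
    have : cexp (I * ((t * (Real.log (nA B) - Real.log (nA A)) : ℝ) : ℂ)) =
        cexp (I * ((t * Real.log (nA B) : ℝ) : ℂ)) * cexp (-(I * ((t * Real.log (nA A) : ℝ) : ℂ))) := by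
      rw [← Complex.exp_add]
      congr 1
      push_cast
      ring
    simp only [this]
    push_cast
    ring
  · rfl

lemma incl_excl (A B : Finset ℕ) :
    (if Disjoint A B then (1 : ℂ) else 0) = ∑ C ∈ (A ∩ B).powerset, (-1 : ℂ) ^ C.card := by
  have h := Finset.sum_powerset_neg_one_pow_card (x := A ∩ B)
  have h2 : (∑ C ∈ (A ∩ B).powerset, (-1 : ℂ) ^ C.card) =
      ((∑ C ∈ (A ∩ B).powerset, (-1 : ℤ) ^ C.card : ℤ) : ℂ) := by
    push_cast
    rfl
  rw [h2, h]
  by_cases hd : Disjoint A B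
  · rw [if_pos hd, if_pos (Finset.disjoint_iff_inter_eq_empty.mp hd)]
    simp
  · rw [if_neg hd, if_neg (fun h => hd (Finset.disjoint_iff_inter_eq_empty.mpr h))]
    simp

theorem EE_eq (P : Par) (B0 : ℕ) (r : ℝ) (F : ℕ → ℝ) (T t : ℝ) :
    EE P B0 r F T t = ∑ C ∈ fam P B0 T, (-1 : ℂ) ^ C.card *
      (DC P B0 r F T t C * (starRingEnd ℂ) (DC P B0 r F T t C)) := by
  rw [EE_zz]
  have h1 : ∀ A ∈ fam P B0 T, ∀ B ∈ fam P B0 T,
      (if Disjoint A B then zz P r F T t B * (starRingEnd ℂ) (zz P r F T t A) else 0) =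
      ∑ C ∈ fam P B0 T, if (C ⊆ A ∧ C ⊆ B) then
        (-1 : ℂ) ^ C.card * (zz P r F T t B * (starRingEnd ℂ) (zz P r F T t A)) else 0 := by
    intro A hA B hB
    have h2 : (if Disjoint A B then zz P r F T t B * (starRingEnd ℂ) (zz P r F T t A) else 0) =
        (if Disjoint A B then (1 : ℂ) else 0) *
          (zz P r F T t B * (starRingEnd ℂ) (zz P r F T t A)) := by
      split_ifs <;> simp
    rw [h2, incl_excl, Finset.sum_mul, ← Finset.sum_filter]
    apply Finset.sum_congr _ (fun _ _ => rfl)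
    ext C
    rw [Finset.mem_powerset, Finset.mem_filter, Finset.subset_inter_iff]
    constructor
    · intro h
      refine ⟨?_, h⟩
      rw [mem_fam] at hA ⊢
      refine ⟨h.1.trans hA.1, le_trans ?_ hA.2⟩
      exact Finset.sum_le_sum_of_subset h.1
    · exact fun h => h.2
  rw [Finset.sum_congr rfl (fun A hA => Finset.sum_congr rfl (fun B hB => h1 A hA B hB))]
  rw [Finset.sum_congr rfl (fun A _ => Finset.sum_comm), Finset.sum_comm]
  apply Finset.sum_congr rfl
  intro C _
  unfold DC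
  rw [map_sum, Finset.sum_mul_sum, Finset.sum_filter, Finset.mul_sum]
  rw [Finset.sum_comm]
  apply Finset.sum_congr rfl
  intro B _
  by_cases hCB : C ⊆ B
  · simp only [hCB, and_true, if_true]
    rw [Finset.sum_filter, Finset.mul_sum]
    apply Finset.sum_congr rfl
    intro A _
    split_ifs <;> simp
  · simp only [hCB, and_false, if_false, Finset.sum_const_zero, mul_zero]

/-- factorisation of `DC` -/
theorem DC_eq (P : Par) (B0 : ℕ) (r : ℝ) (F : ℕ → ℝ) (T t : ℝ) (C : Finset ℕ)
    (hC : C ∈ fam P B0 T) :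
    DC P B0 r F T t C = (∏ p ∈ C, ww P r T t p) *
      ∑ n ∈ Finset.range (B0 - en P T C + 1), (F (en P T C + n) : ℂ) *
        qq (PS P T \ C) (Eb P T) (ww P r T t) n := by
  obtain ⟨hC1, hC2⟩ := mem_fam.mp hC
  have hen : ∀ B : Finset ℕ, Disjoint C B → en P T (C ∪ B) = en P T C + en P T B := by
    intro B hB
    unfold en
    exact Finset.sum_union hB
  have h1 : DC P B0 r F T t C = ∑ B ∈ ((PS P T \ C).powerset).filter
      (fun B => en P T C + en P T B ≤ B0), zz P r F T t (C ∪ B) := by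
    unfold DC
    apply Finset.sum_bij' (fun A _ => A \ C) (fun B _ => C ∪ B)
    · intro A hA
      rw [Finset.mem_filter, mem_fam] at hA
      rw [Finset.mem_filter, Finset.mem_powerset]
      refine ⟨Finset.sdiff_subset_sdiff hA.1.1 (le_refl _), ?_⟩
      rw [← hen _ Finset.disjoint_sdiff, Finset.union_sdiff_of_subset hA.2]
      exact hA.1.2
    · intro B hB
      rw [Finset.mem_filter, Finset.mem_powerset] at hB
      have hd : Disjoint C B := by
        rw [Finset.disjoint_left]
        intro x hx hxB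
        have := hB.1 hxB
        rw [Finset.mem_sdiff] at this
        exact this.2 hx
      rw [Finset.mem_filter, mem_fam]
      refine ⟨⟨Finset.union_subset hC1 (hB.1.trans Finset.sdiff_subset), ?_⟩,
        Finset.subset_union_left⟩
      rw [hen _ hd]
      exact hB.2
    · intro A hA
      rw [Finset.mem_filter] at hA
      exact Finset.union_sdiff_of_subset hA.2
    · intro B hB
      rw [Finset.mem_filter, Finset.mem_powerset] at hB
      ext x
      rw [Finset.mem_sdiff, Finset.mem_union]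
      constructor
      · rintro ⟨h | h, h'⟩
        · exact absurd h h'
        · exact h
      · intro h
        have := hB.1 h
        rw [Finset.mem_sdiff] at this
        exact ⟨Or.inr h, this.2⟩
    · intro A hA
      rw [Finset.mem_filter] at hA
      rw [Finset.union_sdiff_of_subset hA.2]
  rw [h1]
  have h2 : ∀ B ∈ ((PS P T \ C).powerset).filter (fun B => en P T C + en P T B ≤ B0),
      zz P r F T t (C ∪ B) = ∑ n ∈ Finset.range (B0 - en P T C + 1),
        if en P T B = n then (∏ p ∈ C, ww P r T t p) * ((F (en P T C + n) : ℂ) *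
          ∏ p ∈ B, ww P r T t p) else 0 := by
    intro B hB
    rw [Finset.mem_filter, Finset.mem_powerset] at hB
    have hd : Disjoint C B := by
      rw [Finset.disjoint_left]
      intro x hx hxB
      have := hB.1 hxB
      rw [Finset.mem_sdiff] at this
      exact this.2 hx
    rw [Finset.sum_ite_eq, if_pos (by rw [Finset.mem_range]; omega)]
    unfold zz
    rw [hen _ hd, Finset.prod_union hd]
    ring
  rw [Finset.sum_congr rfl h2, Finset.sum_comm, Finset.mul_sum]
  apply Finset.sum_congr rfl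
  intro n hn
  rw [Finset.mem_range] at hn
  unfold qq
  rw [← Finset.sum_filter, Finset.filter_filter, Finset.mul_sum, Finset.mul_sum]
  apply Finset.sum_congr
  · ext B
    rw [Finset.mem_filter, Finset.mem_filter]
    constructor
    · rintro ⟨h3, h4, h5⟩
      exact ⟨h3, h5⟩
    · rintro ⟨h3, h5⟩
      have h6 : en P T B = n := h5
      exact ⟨h3, by omega, h6⟩
  · intro B _
    rfl

end MomA

end Pool.Agent.KS6_1.SR.LG
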