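import Pool.Agent.KS6_1.SR.Defs
import Pool.Agent.KS6_1.SR.Mom0
import Pool.Agent.KS6_1.SR.Sets
import Pool.Agent.KS6_1.SI.DpB
import Pool.Agent.KS6_1.SI.Mom2

/-! Fourth moment of `EE`. -/

open Complex Filter Topology Set MeasureTheory

namespace Pool.Agent.KS6_1.SR.LG

open _root_.LG

variable [Pool.Agent.KS6_1.SI.Nu]

open SG (hh nn dl ord NZ)
open SP (RHs ZZ mu wt Mk qq tt)
open Pool.Agent.KS6_1.SI (Par Eb PS chi dd Nu)

namespace MomA

lemma norm_ww (P : Par) (r T t : ℝ) (p : ℕ) : ‖ww P r T t p‖ = |yp P r T p| := by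
  unfold ww
  rw [norm_mul, Complex.norm_real, Real.norm_eq_abs, mul_comm I, Complex.norm_exp_ofReal_mul_I,
    mul_one]

/-- the twist in terms of the complex power of TEAM SG, conjugated -/
lemma ww_conj (P : Par) (r T t : ℝ) (p : ℕ) (hp : 1 ≤ p) :
    (starRingEnd ℂ) (ww P r T t p) = (r : ℂ) * ((chi P T p : ℂ) *
      (p : ℂ) ^ (hh (dl P.c T) - (⟨1 / 2, t + dl P.c T / 2⟩ : ℂ))) := by
  have hp0 : (0 : ℝ) < p := by exact_mod_cast hp
  have h1 : hh (dl P.c T) - (⟨1 / 2, t + dl P.c T / 2⟩ : ℂ) = -(1 / 2 : ℂ) + -(I * t) := by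
    apply Complex.ext
    · simp [hh]
    · simp [hh]
  rw [h1, Complex.cpow_add _ _ (by exact_mod_cast hp0.ne')]
  unfold ww yp
  rw [map_mul, conj_exp, Complex.conj_ofReal]
  have h2 : (p : ℂ) ^ (-(1 / 2 : ℂ)) = ((1 / Real.sqrt p : ℝ) : ℂ) := by
    have : ((p : ℝ) : ℂ) ^ ((-(1 / 2) : ℝ) : ℂ) = (((p : ℝ) ^ (-(1 / 2) : ℝ) : ℝ) : ℂ) :=
      (Complex.ofReal_cpow hp0.le _).symm
    push_cast at this
    have h3 : (p : ℂ) ^ (-(1 / 2 : ℂ)) = (((p : ℝ) ^ (-(1 / 2) : ℝ) : ℝ) : ℂ) := by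
      rw [← this]
    rw [h3, Real.rpow_neg hp0.le, ← Real.sqrt_eq_rpow, one_div]
  have h4 : (p : ℂ) ^ (-(I * (t : ℂ))) = cexp (-(I * ((t * Real.log p : ℝ) : ℂ))) := by
    rw [Complex.cpow_def_of_ne_zero (by exact_mod_cast hp0.ne')]
    congr 1
    rw [← Complex.ofReal_natCast, ← Complex.ofReal_log hp0.le]
    push_cast
    ring
  rw [h2, h4]
  push_cast
  ring

/-- bound for the power sums over `PS \ C` -/
theorem tt_bound (hRH : RHs) (P : Par) (B0 : ℕ) (hB : P.B = 2 * B0) (r : ℝ) (hr : 0 < r) :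
    ∃ K T0 : ℝ, 1 ≤ K ∧ 10 ≤ T0 ∧ ∀ T : ℝ, T0 ≤ T → ∀ t : ℝ,
    T + 2 * Real.log T ≤ t → t ≤ 2 * T - 2 * Real.log T → ∀ C ∈ fam P B0 T,
    ∀ m, 1 ≤ m → m ≤ P.B →
    ‖tt (PS P T \ C) (Eb P T) (ww P r T t) m‖ ≤ K * (1 + Mk T 1 t) := by
  obtain ⟨C1, T1, hC1, hT1, h1⟩ := Pool.Agent.KS6_1.SI.Pj_bound hRH P
  obtain ⟨C2, T2, hC2, hT2, h2⟩ := Pool.Agent.KS6_1.SI.chi_approx P
  obtain ⟨C3, T3, hC3, hT3, h3⟩ := fam_facts P B0 hB r (fun _ => 1)
  refine ⟨1 + P.B * (r * C1 + B0) + P.B * (C3 * C2), max (max T1 T2) (max T3 (Real.exp 20)), ?_, ?_, ?_⟩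
  · have : (0:ℝ) ≤ P.B * (r * C1 + B0) := by positivity
    have : (0:ℝ) ≤ P.B * (C3 * C2) := by positivity
    linarith
  · exact hT1.trans ((le_max_left _ _).trans (le_max_left _ _))
  intro T hT t ht ht' C hC m hm hmB
  simp only [max_le_iff] at hT
  obtain ⟨⟨hTT1, hTT2⟩, hTT3, hTe⟩ := hT
  have hT10 : 10 ≤ T := hT1.trans hTT1
  have hL20 : 20 ≤ Real.log T := by
    rw [Real.le_log_iff_exp_le (by linarith)]; exact hTe
  obtain ⟨hchi, hsum⟩ := h2 T hTT2
  obtain ⟨hf1, hf2, -, -⟩ := h3 T hTT3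
  set M := Mk T 1 t with hM
  have hM0 : 0 ≤ M := Pool.Agent.KS6_1.SI.DpB_Mk_nonneg _ _ _
  have hdl0 : 0 ≤ dl P.c T := by
    unfold dl
    have := P.hc
    have := Real.pi_pos
    positivity
  have hdl1 : dl P.c T ≤ 1 := by
    unfold dl
    rw [div_le_one (by linarith)]
    have := P.hc1
    have := P.hc
    have := Real.pi_lt_four
    nlinarith [Real.pi_pos]
  have hP := h1 T hTT1 (t + dl P.c T / 2) (by linarith) (by linarith) m
  have e0 : t + dl P.c T / 2 - dl P.c T / 2 = t := by ring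
  rw [e0, ← hM] at hP
  obtain ⟨hC1', hC2'⟩ := mem_fam.mp hC
  set y : ℕ → ℂ := ww P r T t with hy
  have hmem : ∀ p ∈ PS P T, 1 ≤ p ∧ p.Prime ∧ 2 ≤ Eb P T p := by
    intro p hp
    have := prime_of_mem hp
    exact ⟨this.1.one_lt.le, this.1, this.2⟩
  have hy1 : ∀ p ∈ PS P T, ‖y p‖ ≤ 1 := by
    intro p hp
    rw [hy, norm_ww]
    exact (hf2 p hp).1
  have hy2 : ∀ p ∈ PS P T, ‖y p‖ ^ 2 ≤ C3 * (1 / p) := by
    intro p hp
    rw [hy, norm_ww, sq_abs]
    have := (hf2 p hp).2.1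
    rwa [mul_one_div]
  have hsplit : tt (PS P T \ C) (Eb P T) y m =
      (∑ p ∈ (PS P T \ C).filter (fun p => Eb P T p = m), (m : ℂ) * y p) +
      ∑ p ∈ (PS P T \ C).filter (fun p => ¬ Eb P T p = m),
        if Eb P T p ∣ m then (-1 : ℂ) ^ (m / Eb P T p - 1) * (Eb P T p : ℂ) *
          y p ^ (m / Eb P T p) else 0 := by
    unfold tt
    rw [← Finset.sum_filter_add_sum_filter_not (PS P T \ C) (fun p => Eb P T p = m)]
    congr 1
    apply Finset.sum_congr rfl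
    intro p hp
    rw [Finset.mem_filter] at hp
    rw [hp.2]
    simp [Nat.div_self hm]
  rw [hsplit]
  have hA : ‖∑ p ∈ (PS P T \ C).filter (fun p => Eb P T p = m), (m : ℂ) * y p‖ ≤
      P.B * (r * C1 + B0) * (1 + M) := by
    rw [← Finset.mul_sum, norm_mul, Complex.norm_natCast]
    have h5 : ‖∑ p ∈ (PS P T).filter (fun p => Eb P T p = m), y p‖ ≤ r * (C1 * (1 + M)) := by
      have h6 : (starRingEnd ℂ) (∑ p ∈ (PS P T).filter (fun p => Eb P T p = m), y p) =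
          (r : ℂ) * ∑ p ∈ (PS P T).filter (fun p => Eb P T p = m), (chi P T p : ℂ) *
            (p : ℂ) ^ (hh (dl P.c T) - (⟨1 / 2, t + dl P.c T / 2⟩ : ℂ)) := by
        rw [map_sum, Finset.mul_sum]
        apply Finset.sum_congr rfl
        intro p hp
        rw [Finset.mem_filter] at hp
        exact ww_conj P r T t p (hmem p hp.1).1
      rw [← RCLike.norm_conj, h6, norm_mul, Complex.norm_real, Real.norm_eq_abs, abs_of_pos hr]
      exact mul_le_mul_of_nonneg_left hP hr.le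
    have h7 : ∑ p ∈ (PS P T \ C).filter (fun p => Eb P T p = m), y p =
        ∑ p ∈ (PS P T).filter (fun p => Eb P T p = m), y p -
          ∑ p ∈ C.filter (fun p => Eb P T p = m), y p := by
      rw [eq_sub_iff_add_eq, ← Finset.sum_union]
      · apply Finset.sum_congr _ (fun _ _ => rfl)
        rw [← Finset.filter_union, Finset.sdiff_union_of_subset hC1']
      · apply Finset.disjoint_filter_filter
        exact Finset.sdiff_disjoint
    have h8 : ‖∑ p ∈ C.filter (fun p => Eb P T p = m), y p‖ ≤ B0 := by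
      calc _ ≤ ∑ p ∈ C.filter (fun p => Eb P T p = m), ‖y p‖ := norm_sum_le _ _
        _ ≤ ∑ p ∈ C.filter (fun p => Eb P T p = m), 1 := by
            apply Finset.sum_le_sum
            intro p hp
            rw [Finset.mem_filter] at hp
            exact hy1 p (hC1' hp.1)
        _ = ((C.filter (fun p => Eb P T p = m)).card : ℝ) := by simp
        _ ≤ B0 := by
            have := (hf1 C hC).2.2.2
            exact_mod_cast (Finset.card_filter_le _ _).trans this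
    rw [h7]
    have h9 := (norm_sub_le (∑ p ∈ (PS P T).filter (fun p => Eb P T p = m), y p)
          (∑ p ∈ C.filter (fun p => Eb P T p = m), y p)).trans (add_le_add h5 h8)
    calc (m : ℝ) * _ ≤ P.B * (r * (C1 * (1 + M)) + B0) := by
          apply mul_le_mul (by exact_mod_cast hmB) h9 (norm_nonneg _) (by positivity)
      _ ≤ P.B * (r * C1 + B0) * (1 + M) := by
          have e1 : (0 : ℝ) ≤ P.B * B0 * M := by positivity
          nlinarith
  have hBd : ‖∑ p ∈ (PS P T \ C).filter (fun p => ¬ Eb P T p = m),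
        if Eb P T p ∣ m then (-1 : ℂ) ^ (m / Eb P T p - 1) * (Eb P T p : ℂ) *
          y p ^ (m / Eb P T p) else 0‖ ≤ P.B * (C3 * C2) := by
    calc _ ≤ ∑ p ∈ (PS P T \ C).filter (fun p => ¬ Eb P T p = m),
          ‖if Eb P T p ∣ m then (-1 : ℂ) ^ (m / Eb P T p - 1) * (Eb P T p : ℂ) *
            y p ^ (m / Eb P T p) else 0‖ := norm_sum_le _ _
      _ ≤ ∑ p ∈ (PS P T \ C).filter (fun p => ¬ Eb P T p = m), P.B * (C3 * (1 / p : ℝ)) := by
        apply Finset.sum_le_sum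
        intro p hp
        rw [Finset.mem_filter, Finset.mem_sdiff] at hp
        obtain ⟨hp1, hpp, hE2⟩ := hmem p hp.1.1
        have hpB : (0:ℝ) ≤ P.B * (C3 * (1 / p : ℝ)) := by positivity
        split_ifs with hd
        · obtain ⟨j, hj⟩ := hd
          have hEpos : 0 < Eb P T p := by omega
          have hdiv : m / Eb P T p = j := by rw [hj]; exact Nat.mul_div_cancel_left j hEpos
          have hj2 : 2 ≤ j := by
            by_contra hlt
            have : j = 0 ∨ j = 1 := by omega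
            rcases this with h | h
            · rw [h] at hj; omega
            · rw [h, mul_one] at hj; exact hp.2 hj.symm
          rw [hdiv, norm_mul, norm_mul, norm_pow, norm_neg, norm_one, one_pow, one_mul,
            Complex.norm_natCast, norm_pow]
          have hyr : ‖y p‖ ^ j ≤ C3 * (1 / p : ℝ) :=
            (pow_le_pow_of_le_one (norm_nonneg _) (hy1 p hp.1.1) hj2).trans (hy2 p hp.1.1)
          apply mul_le_mul _ hyr (by positivity) (by positivity)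
          exact_mod_cast (hchi p hp.1.1).1
        · rw [norm_zero]; exact hpB
      _ ≤ ∑ p ∈ PS P T, P.B * (C3 * (1 / p : ℝ)) := by
        apply Finset.sum_le_sum_of_subset_of_nonneg
          ((Finset.filter_subset _ _).trans Finset.sdiff_subset)
        intro p _ _
        positivity
      _ = P.B * (C3 * ∑ p ∈ PS P T, (1 / p : ℝ)) := by rw [Finset.mul_sum, Finset.mul_sum]
      _ ≤ P.B * (C3 * C2) := by gcongr
  calc _ ≤ P.B * (r * C1 + B0) * (1 + M) + P.B * (C3 * C2) :=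
        le_trans (norm_add_le _ _) (add_le_add hA hBd)
    _ ≤ _ := by
      have e1 : 0 ≤ (P.B : ℝ) * (C3 * C2) := by positivity
      have e2 := mul_nonneg e1 hM0
      nlinarith

/-- bound of a bounded function on a range -/
lemma F_bound (F : ℕ → ℝ) (N : ℕ) : ∃ K : ℝ, 0 < K ∧ ∀ n, n ≤ N → |F n| ≤ K := by
  refine ⟨∑ n ∈ Finset.range (N + 1), |F n| + 1, by positivity, ?_⟩
  intro n hn
  have := Finset.single_le_sum (f := fun n => |F n|) (fun i _ => abs_nonneg (F i))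
    (Finset.mem_range.mpr (by omega : n < N + 1))
  linarith

end MomA

open MomA

theorem EE_bound (hRH : RHs) (P : Par) (B0 : ℕ) (hB : P.B = 2 * B0) (r : ℝ) (hr : 0 < r)
    (F : ℕ → ℝ) : ∃ C T0 : ℝ, 0 < C ∧ 10 ≤ T0 ∧ ∀ T : ℝ, T0 ≤ T → ∀ t : ℝ,
    T + 2 * Real.log T ≤ t → t ≤ 2 * T - 2 * Real.log T →
    ‖EE P B0 r F T t‖ ≤ C * (1 + Mk T 1 t) ^ (2 * B0) := by
  obtain ⟨K, T1, hK, hT1, h1⟩ := tt_bound hRH P B0 hB r hr
  obtain ⟨C3, T3, hC3, hT3, h3⟩ := fam_facts P B0 hB r (fun _ => 1)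
  obtain ⟨KF, hKF, hF⟩ := F_bound F B0
  refine ⟨C3 * ((B0 + 1) * KF * K ^ B0) ^ 2, max T1 T3, by positivity,
    hT1.trans (le_max_left _ _), ?_⟩
  intro T hT t ht ht'
  simp only [max_le_iff] at hT
  obtain ⟨hTT1, hTT3⟩ := hT
  obtain ⟨-, -, -, hX⟩ := h3 T hTT3
  set M := Mk T 1 t with hM
  have hM0 : 0 ≤ M := Pool.Agent.KS6_1.SI.DpB_Mk_nonneg _ _ _
  have hKM : 1 ≤ K * (1 + M) := by nlinarith
  have hD : ∀ C ∈ fam P B0 T, ‖DC P B0 r F T t C‖ ≤
      (∏ p ∈ C, |yp P r T p|) * ((B0 + 1) * KF * (K * (1 + M)) ^ B0) := by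
    intro C hC
    obtain ⟨hC1, hC2⟩ := mem_fam.mp hC
    rw [DC_eq P B0 r F T t C hC, norm_mul, norm_prod]
    have e1 : ∏ p ∈ C, ‖ww P r T t p‖ = ∏ p ∈ C, |yp P r T p| :=
      Finset.prod_congr rfl (fun p _ => norm_ww P r T t p)
    rw [e1]
    apply mul_le_mul_of_nonneg_left _ (Finset.prod_nonneg (fun p _ => abs_nonneg _))
    have hE : ∀ p ∈ PS P T \ C, 1 ≤ Eb P T p := by
      intro p hp
      rw [Finset.mem_sdiff] at hp
      have := (prime_of_mem hp.1).2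
      omega
    obtain ⟨hq0, hq⟩ := SP.newton (PS P T \ C) (Eb P T) hE (ww P r T t)
    have hqn := Pool.Agent.KS6_1.SI.DpB.newton_growth (qq (PS P T \ C) (Eb P T) (ww P r T t))
      (tt (PS P T \ C) (Eb P T) (ww P r T t)) (K * (1 + M)) hKM B0 hq0
      (fun m hm hmB => h1 T hTT1 t ht ht' C hC m hm (by omega)) hq
    calc _ ≤ ∑ n ∈ Finset.range (B0 - en P T C + 1), ‖(F (en P T C + n) : ℂ) *
          qq (PS P T \ C) (Eb P T) (ww P r T t) n‖ := norm_sum_le _ _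
      _ ≤ ∑ n ∈ Finset.range (B0 - en P T C + 1), KF * (K * (1 + M)) ^ B0 := by
          apply Finset.sum_le_sum
          intro n hn
          rw [Finset.mem_range] at hn
          rw [norm_mul, Complex.norm_real, Real.norm_eq_abs]
          apply mul_le_mul (hF _ (by omega)) _ (norm_nonneg _) hKF.le
          exact (hqn n (by omega)).trans (pow_le_pow_right₀ hKM (by omega))
      _ = (B0 - en P T C + 1 : ℕ) * (KF * (K * (1 + M)) ^ B0) := by
          rw [Finset.sum_const, Finset.card_range, nsmul_eq_mul]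
      _ ≤ ((B0 : ℝ) + 1) * (KF * (K * (1 + M)) ^ B0) := by
          apply mul_le_mul_of_nonneg_right _ (by positivity)
          push_cast
          have : ((B0 - en P T C : ℕ) : ℝ) ≤ B0 := by exact_mod_cast Nat.sub_le _ _
          linarith
      _ = _ := by ring
  rw [EE_eq]
  calc _ ≤ ∑ C ∈ fam P B0 T, ‖(-1 : ℂ) ^ C.card *
      (DC P B0 r F T t C * (starRingEnd ℂ) (DC P B0 r F T t C))‖ := norm_sum_le _ _
    _ ≤ ∑ C ∈ fam P B0 T, (∏ p ∈ C, yp P r T p ^ 2) *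
        ((B0 + 1) * KF * (K * (1 + M)) ^ B0) ^ 2 := by
        apply Finset.sum_le_sum
        intro C hC
        rw [norm_mul, norm_pow, norm_neg, norm_one, one_pow, one_mul, norm_mul, RCLike.norm_conj,
          ← sq]
        have e1 : (∏ p ∈ C, yp P r T p ^ 2) = (∏ p ∈ C, |yp P r T p|) ^ 2 := by
          rw [← Finset.prod_pow]
          exact Finset.prod_congr rfl (fun p _ => (sq_abs _).symm)
        rw [e1, ← mul_pow]
        exact pow_le_pow_left₀ (norm_nonneg _) (hD C hC) 2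
    _ = (∑ C ∈ fam P B0 T, ∏ p ∈ C, yp P r T p ^ 2) *
        ((B0 + 1) * KF * (K * (1 + M)) ^ B0) ^ 2 := by rw [Finset.sum_mul]
    _ ≤ C3 * ((B0 + 1) * KF * (K * (1 + M)) ^ B0) ^ 2 := by gcongr
    _ = C3 * ((B0 + 1) * KF * K ^ B0) ^ 2 * (1 + M) ^ (2 * B0) := by
        rw [mul_pow K, mul_comm 2 B0, pow_mul]
        ring

lemma EE_continuous (P : Par) (B0 : ℕ) (r : ℝ) (F : ℕ → ℝ) (T : ℝ) :
    Continuous (EE P B0 r F T) := by
  unfold EE
  apply continuous_finsetSum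
  intro q _
  apply Continuous.mul continuous_const
  apply Complex.continuous_exp.comp
  apply Continuous.mul continuous_const
  apply Complex.continuous_ofReal.comp
  fun_prop

theorem MOM (hRH : RHs) (P : Par) (B0 : ℕ) (hB : P.B = 2 * B0) (r : ℝ) (hr : 0 < r)
    (F : ℕ → ℝ) : ∃ C T0 : ℝ, 0 < C ∧ 10 ≤ T0 ∧ ∀ T : ℝ, T0 ≤ T → ∀ t0 : ℝ,
    ∫ t in (T + 2 * Real.log T)..(2 * T - 2 * Real.log T),
      wt t0 (dd P.κ T) t * ‖EE P B0 r F T t‖ ^ 4 ≤ C * dd P.κ T := by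
  obtain ⟨C1, T1, hC1, hT1, h1⟩ := EE_bound hRH P B0 hB r hr F
  obtain ⟨C2, T2, hC2, hT2, h2⟩ := Pool.Agent.KS6_1.SI.exp_main hRH P.κ 1 (8 * B0 + 1) P.hκ P.hκ1 one_pos
    (by positivity)
  refine ⟨C1 ^ 4 * C2, max (max T1 T2) 100, by positivity,
    hT1.trans ((le_max_left _ _).trans (le_max_left _ _)), ?_⟩
  intro T hT t0
  simp only [max_le_iff] at hT
  obtain ⟨⟨hTT1, hTT2⟩, hT100⟩ := hT
  obtain ⟨hL4, hLT⟩ := Pool.Agent.KS6_1.SI.Mom2.log_bounds T hT100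
  have hV : T + 2 * Real.log T ≤ 2 * T - 2 * Real.log T := by linarith
  have hm := h2 T hTT2 t0 (T + 2 * Real.log T) (2 * T - 2 * Real.log T) hV (by linarith)
    (by linarith)
  have hpt : ∀ t ∈ Set.Icc (T + 2 * Real.log T) (2 * T - 2 * Real.log T),
      wt t0 (dd P.κ T) t * ‖EE P B0 r F T t‖ ^ 4 ≤
      C1 ^ 4 * (wt t0 (dd P.κ T) t * Real.exp ((8 * B0 + 1) * (‖SP.Ya T 1 t‖ + Mk T 1 t))) := by
    intro t ht
    have hM0 : 0 ≤ Mk T 1 t := Pool.Agent.KS6_1.SI.DpB_Mk_nonneg _ _ _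
    have h3 := h1 T hTT1 t ht.1 ht.2
    have h4 : ‖EE P B0 r F T t‖ ^ 4 ≤ C1 ^ 4 * Real.exp ((8 * B0 + 1) * (‖SP.Ya T 1 t‖ + Mk T 1 t)) := by
      calc ‖EE P B0 r F T t‖ ^ 4 ≤ (C1 * (1 + Mk T 1 t) ^ (2 * B0)) ^ 4 :=
            pow_le_pow_left₀ (norm_nonneg _) h3 4
        _ = C1 ^ 4 * (1 + Mk T 1 t) ^ (8 * B0) := by
            rw [mul_pow, ← pow_mul]
            congr 2
            ring
        _ ≤ C1 ^ 4 * (Real.exp (Mk T 1 t)) ^ (8 * B0) := by
            gcongr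
            linarith [Real.add_one_le_exp (Mk T 1 t)]
        _ = C1 ^ 4 * Real.exp ((8 * B0 : ℕ) * Mk T 1 t) := by rw [← Real.exp_nat_mul]
        _ ≤ C1 ^ 4 * Real.exp ((8 * B0 + 1) * (‖SP.Ya T 1 t‖ + Mk T 1 t)) := by
            apply mul_le_mul_of_nonneg_left _ (by positivity)
            apply Real.exp_le_exp.2
            push_cast
            have e1 := norm_nonneg (SP.Ya T 1 t)
            have e2 : (0 : ℝ) ≤ (8 * B0 + 1) * ‖SP.Ya T 1 t‖ := by positivity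
            nlinarith
    have hw := Pool.Agent.KS6_1.SI.Mom2.wt_nonneg t0 (dd P.κ T) t
    calc _ ≤ wt t0 (dd P.κ T) t * (C1 ^ 4 *
          Real.exp ((8 * B0 + 1) * (‖SP.Ya T 1 t‖ + Mk T 1 t))) :=
          mul_le_mul_of_nonneg_left h4 hw
      _ = _ := by ring
  have hcont : Continuous (fun t => C1 ^ 4 * (wt t0 (dd P.κ T) t *
      Real.exp ((8 * B0 + 1) * (‖SP.Ya T 1 t‖ + Mk T 1 t)))) :=
    (Pool.Agent.KS6_1.SI.Mom2.main_cont T P.κ 1 (8 * B0 + 1) (by linarith) one_pos t0).const_mul _ |>.congr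
      (fun t => rfl)
  have hmono := Pool.Agent.KS6_1.SI.Mom2.int_mono (fun t => wt t0 (dd P.κ T) t * ‖EE P B0 r F T t‖ ^ 4) _ _ _ hV
    (fun t _ => mul_nonneg (Pool.Agent.KS6_1.SI.Mom2.wt_nonneg _ _ _) (by positivity)) hpt hcont
  refine hmono.trans ?_
  rw [intervalIntegral.integral_const_mul]
  calc _ ≤ C1 ^ 4 * (C2 * dd P.κ T) := by
        apply mul_le_mul_of_nonneg_left hm (by positivity)
    _ = _ := by ring

end Pool.Agent.KS6_1.SR.LG
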