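import Pool.Agent.KS6_1.SR.Stubs
import Pool.Agent.KS6_1.SR.Mom1

/-! Pointwise bound for the signed two-sided Dirichlet polynomial `EES` (adapted from TEAM LG,
`H297R2/LG/Mom0.lean` and `Mom1.lean`). -/

open Complex Filter Topology Set MeasureTheory

namespace Pool.Agent.KS6_1.SR.RGap

variable [Pool.Agent.KS6_1.SI.Nu]

open SG (hh nn dl ord NZ)
open SP (RHs ZZ mu wt Mk qq tt)
open Pool.Agent.KS6_1.SI (Par Eb PS chi dd Nu)
open _root_.LG (gK gh Zs bk lk nA IsQ SF SM)
open Pool.Agent.KS6_1.SR.LG (fam prs yp ae EE Cn QT tm sm sm0)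
open _root_.RGap
open LG.MomA (en ww mem_fam prime_of_mem log_nA conj_exp incl_excl norm_ww ww_conj F_bound)

namespace MomS

/-- the signed twist of the coefficient of a prime -/
noncomputable def wS (P : Par) (r : ℝ) (s : ℕ → ℝ) (T t : ℝ) (p : ℕ) : ℂ :=
  (s (Eb P T p) : ℂ) * ww P r T t p

noncomputable def zS (P : Par) (r : ℝ) (F s : ℕ → ℝ) (T t : ℝ) (A : Finset ℕ) : ℂ :=
  (F (en P T A) : ℂ) * ∏ p ∈ A, wS P r s T t p

lemma zS_eq {P : Par} {r : ℝ} {F s : ℕ → ℝ} {T t : ℝ} {A : Finset ℕ} (hA : A ⊆ PS P T) :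
    zS P r F s T t A = (aeS P r F s T A : ℂ) * cexp (I * ((t * Real.log (nA A) : ℝ) : ℂ)) := by
  unfold zS aeS sg LG.ae wS ww en
  rw [log_nA hA, Finset.prod_mul_distrib, Finset.prod_mul_distrib]
  push_cast
  rw [Finset.mul_sum, Finset.mul_sum, Complex.exp_sum]
  ring

lemma abs_sgn {s : ℕ → ℝ} (hs : IsSgn s) (m : ℕ) : |s m| = 1 := by
  rcases hs m with h | h <;> rw [h] <;> simp

lemma norm_wS (P : Par) (r : ℝ) {s : ℕ → ℝ} (hs : IsSgn s) (T t : ℝ) (p : ℕ) :
    ‖wS P r s T t p‖ = |yp P r T p| := by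
  unfold wS
  rw [norm_mul, norm_ww, Complex.norm_real, Real.norm_eq_abs, abs_sgn hs, one_mul]

/-- the sum over the sets containing `C` -/
noncomputable def DCS (P : Par) (B0 : ℕ) (r : ℝ) (F s : ℕ → ℝ) (T t : ℝ) (C : Finset ℕ) : ℂ :=
  ∑ A ∈ (fam P B0 T).filter (fun A => C ⊆ A), zS P r F s T t A

lemma EES_zz (P : Par) (B0 : ℕ) (r : ℝ) (F s : ℕ → ℝ) (T t : ℝ) :
    EES P B0 r F s T t = ∑ A ∈ fam P B0 T, ∑ B ∈ fam P B0 T,
      if Disjoint A B then zS P r F s T t B * (starRingEnd ℂ) (zS P r F s T t A) else 0 := by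
  unfold EES prs
  rw [Finset.sum_filter, Finset.sum_product]
  apply Finset.sum_congr rfl
  intro A hA
  apply Finset.sum_congr rfl
  intro B hB
  split_ifs with h
  · rw [zS_eq (mem_fam.mp hA).1, zS_eq (mem_fam.mp hB).1, map_mul, conj_exp, Complex.conj_ofReal]
    have : cexp (I * ((t * (Real.log (nA B) - Real.log (nA A)) : ℝ) : ℂ)) =
        cexp (I * ((t * Real.log (nA B) : ℝ) : ℂ)) * cexp (-(I * ((t * Real.log (nA A) : ℝ) : ℂ))) := by
      rw [← Complex.exp_add]
      congr 1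
      push_cast
      ring
    simp only [this]
    push_cast
    ring
  · rfl

theorem EES_eq (P : Par) (B0 : ℕ) (r : ℝ) (F s : ℕ → ℝ) (T t : ℝ) :
    EES P B0 r F s T t = ∑ C ∈ fam P B0 T, (-1 : ℂ) ^ C.card *
      (DCS P B0 r F s T t C * (starRingEnd ℂ) (DCS P B0 r F s T t C)) := by
  rw [EES_zz]
  have h1 : ∀ A ∈ fam P B0 T, ∀ B ∈ fam P B0 T,
      (if Disjoint A B then zS P r F s T t B * (starRingEnd ℂ) (zS P r F s T t A) else 0) =
      ∑ C ∈ fam P B0 T, if (C ⊆ A ∧ C ⊆ B) then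
        (-1 : ℂ) ^ C.card * (zS P r F s T t B * (starRingEnd ℂ) (zS P r F s T t A)) else 0 := by
    intro A hA B hB
    have h2 : (if Disjoint A B then zS P r F s T t B * (starRingEnd ℂ) (zS P r F s T t A) else 0) =
        (if Disjoint A B then (1 : ℂ) else 0) *
          (zS P r F s T t B * (starRingEnd ℂ) (zS P r F s T t A)) := by
      split_ifs <;> simp
    rw [h2, incl_excl, Finset.sum_mul, ← Finset.sum_filter]
    apply Finset.sum_congr _ (fun _ _ => rfl)
    ext C
    rw [Finset.mem_powerset, Finset.mem_filter, Finset.subset_inter_iff]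
    constructor
    · intro h
      refine ⟨?_, h⟩
      rw [mem_fam] at hA ⊢
      refine ⟨h.1.trans hA.1, le_trans ?_ hA.2⟩
      exact Finset.sum_le_sum_of_subset h.1
    · exact fun h => h.2
  rw [Finset.sum_congr rfl (fun A hA => Finset.sum_congr rfl (fun B hB => h1 A hA B hB))]
  rw [Finset.sum_congr rfl (fun A _ => Finset.sum_comm), Finset.sum_comm]
  apply Finset.sum_congr rfl
  intro C _
  unfold DCS
  rw [map_sum, Finset.sum_mul_sum, Finset.sum_filter, Finset.mul_sum]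
  rw [Finset.sum_comm]
  apply Finset.sum_congr rfl
  intro B _
  by_cases hCB : C ⊆ B
  · simp only [hCB, and_true, if_true]
    rw [Finset.sum_filter, Finset.mul_sum]
    apply Finset.sum_congr rfl
    intro A _
    split_ifs <;> simp
  · simp only [hCB, and_false, if_false, Finset.sum_const_zero, mul_zero]

/-- factorisation of `DC` -/
theorem DCS_eq (P : Par) (B0 : ℕ) (r : ℝ) (F s : ℕ → ℝ) (T t : ℝ) (C : Finset ℕ)
    (hC : C ∈ fam P B0 T) :
    DCS P B0 r F s T t C = (∏ p ∈ C, wS P r s T t p) *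
      ∑ n ∈ Finset.range (B0 - en P T C + 1), (F (en P T C + n) : ℂ) *
        qq (PS P T \ C) (Eb P T) (wS P r s T t) n := by
  obtain ⟨hC1, hC2⟩ := mem_fam.mp hC
  have hen : ∀ B : Finset ℕ, Disjoint C B → en P T (C ∪ B) = en P T C + en P T B := by
    intro B hB
    unfold en
    exact Finset.sum_union hB
  have h1 : DCS P B0 r F s T t C = ∑ B ∈ ((PS P T \ C).powerset).filter
      (fun B => en P T C + en P T B ≤ B0), zS P r F s T t (C ∪ B) := by
    unfold DCS
    apply Finset.sum_bij' (fun A _ => A \ C) (fun B _ => C ∪ B)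
    · intro A hA
      rw [Finset.mem_filter, mem_fam] at hA
      rw [Finset.mem_filter, Finset.mem_powerset]
      refine ⟨Finset.sdiff_subset_sdiff hA.1.1 (le_refl _), ?_⟩
      rw [← hen _ Finset.disjoint_sdiff, Finset.union_sdiff_of_subset hA.2]
      exact hA.1.2
    · intro B hB
      rw [Finset.mem_filter, Finset.mem_powerset] at hB
      have hd : Disjoint C B := by
        rw [Finset.disjoint_left]
        intro x hx hxB
        have := hB.1 hxB
        rw [Finset.mem_sdiff] at this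
        exact this.2 hx
      rw [Finset.mem_filter, mem_fam]
      refine ⟨⟨Finset.union_subset hC1 (hB.1.trans Finset.sdiff_subset), ?_⟩,
        Finset.subset_union_left⟩
      rw [hen _ hd]
      exact hB.2
    · intro A hA
      rw [Finset.mem_filter] at hA
      exact Finset.union_sdiff_of_subset hA.2
    · intro B hB
      rw [Finset.mem_filter, Finset.mem_powerset] at hB
      ext x
      rw [Finset.mem_sdiff, Finset.mem_union]
      constructor
      · rintro ⟨h | h, h'⟩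
        · exact absurd h h'
        · exact h
      · intro h
        have := hB.1 h
        rw [Finset.mem_sdiff] at this
        exact ⟨Or.inr h, this.2⟩
    · intro A hA
      rw [Finset.mem_filter] at hA
      rw [Finset.union_sdiff_of_subset hA.2]
  rw [h1]
  have h2 : ∀ B ∈ ((PS P T \ C).powerset).filter (fun B => en P T C + en P T B ≤ B0),
      zS P r F s T t (C ∪ B) = ∑ n ∈ Finset.range (B0 - en P T C + 1),
        if en P T B = n then (∏ p ∈ C, wS P r s T t p) * ((F (en P T C + n) : ℂ) *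
          ∏ p ∈ B, wS P r s T t p) else 0 := by
    intro B hB
    rw [Finset.mem_filter, Finset.mem_powerset] at hB
    have hd : Disjoint C B := by
      rw [Finset.disjoint_left]
      intro x hx hxB
      have := hB.1 hxB
      rw [Finset.mem_sdiff] at this
      exact this.2 hx
    rw [Finset.sum_ite_eq, if_pos (by rw [Finset.mem_range]; omega)]
    unfold zS
    rw [hen _ hd, Finset.prod_union hd]
    ring
  rw [Finset.sum_congr rfl h2, Finset.sum_comm, Finset.mul_sum]
  apply Finset.sum_congr rfl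
  intro n hn
  rw [Finset.mem_range] at hn
  unfold qq
  rw [← Finset.sum_filter, Finset.filter_filter, Finset.mul_sum, Finset.mul_sum]
  apply Finset.sum_congr
  · ext B
    rw [Finset.mem_filter, Finset.mem_filter]
    constructor
    · rintro ⟨h3, h4, h5⟩
      exact ⟨h3, h5⟩
    · rintro ⟨h3, h5⟩
      have h6 : en P T B = n := h5
      exact ⟨h3, by omega, h6⟩
  · intro B _
    rfl


/-- bound for the power sums over `PS \ C` -/
theorem ttS_bound (hRH : RHs) (P : Par) (B0 : ℕ) (hB : P.B = 2 * B0) (r : ℝ) (hr : 0 < r)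
    {s : ℕ → ℝ} (hs : IsSgn s) :
    ∃ K T0 : ℝ, 1 ≤ K ∧ 10 ≤ T0 ∧ ∀ T : ℝ, T0 ≤ T → ∀ t : ℝ,
    T + 2 * Real.log T ≤ t → t ≤ 2 * T - 2 * Real.log T → ∀ C ∈ fam P B0 T,
    ∀ m, 1 ≤ m → m ≤ P.B →
    ‖tt (PS P T \ C) (Eb P T) (wS P r s T t) m‖ ≤ K * (1 + Mk T 1 t) := by
  obtain ⟨C1, T1, hC1, hT1, h1⟩ := Pool.Agent.KS6_1.SI.Pj_bound hRH P
  obtain ⟨C2, T2, hC2, hT2, h2⟩ := Pool.Agent.KS6_1.SI.chi_approx P
  obtain ⟨C3, T3, hC3, hT3, h3⟩ := LG.fam_facts P B0 hB r (fun _ => 1)
  refine ⟨1 + P.B * (r * C1 + B0) + P.B * (C3 * C2), max (max T1 T2) (max T3 (Real.exp 20)), ?_, ?_, ?_⟩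
  · have : (0:ℝ) ≤ P.B * (r * C1 + B0) := by positivity
    have : (0:ℝ) ≤ P.B * (C3 * C2) := by positivity
    linarith
  · exact hT1.trans ((le_max_left _ _).trans (le_max_left _ _))
  intro T hT t ht ht' C hC m hm hmB
  simp only [max_le_iff] at hT
  obtain ⟨⟨hTT1, hTT2⟩, hTT3, hTe⟩ := hT
  have hT10 : 10 ≤ T := hT1.trans hTT1
  have hL20 : 20 ≤ Real.log T := by
    rw [Real.le_log_iff_exp_le (by linarith)]; exact hTe
  obtain ⟨hchi, hsum⟩ := h2 T hTT2
  obtain ⟨hf1, hf2, -, -⟩ := h3 T hTT3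
  set M := Mk T 1 t with hM
  have hM0 : 0 ≤ M := Pool.Agent.KS6_1.SI.DpB_Mk_nonneg _ _ _
  have hdl0 : 0 ≤ dl P.c T := by
    unfold dl
    have := P.hc
    have := Real.pi_pos
    positivity
  have hdl1 : dl P.c T ≤ 1 := by
    unfold dl
    rw [div_le_one (by linarith)]
    have := P.hc1
    have := P.hc
    have := Real.pi_lt_four
    nlinarith [Real.pi_pos]
  have hP := h1 T hTT1 (t + dl P.c T / 2) (by linarith) (by linarith) m
  have e0 : t + dl P.c T / 2 - dl P.c T / 2 = t := by ring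
  rw [e0, ← hM] at hP
  obtain ⟨hC1', hC2'⟩ := mem_fam.mp hC
  set y : ℕ → ℂ := wS P r s T t with hy
  have hmem : ∀ p ∈ PS P T, 1 ≤ p ∧ p.Prime ∧ 2 ≤ Eb P T p := by
    intro p hp
    have := prime_of_mem hp
    exact ⟨this.1.one_lt.le, this.1, this.2⟩
  have hy1 : ∀ p ∈ PS P T, ‖y p‖ ≤ 1 := by
    intro p hp
    rw [hy, norm_wS P r hs]
    exact (hf2 p hp).1
  have hy2 : ∀ p ∈ PS P T, ‖y p‖ ^ 2 ≤ C3 * (1 / p) := by
    intro p hp
    rw [hy, norm_wS P r hs, sq_abs]
    have := (hf2 p hp).2.1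
    rwa [mul_one_div]
  have hsplit : tt (PS P T \ C) (Eb P T) y m =
      (∑ p ∈ (PS P T \ C).filter (fun p => Eb P T p = m), (m : ℂ) * y p) +
      ∑ p ∈ (PS P T \ C).filter (fun p => ¬ Eb P T p = m),
        if Eb P T p ∣ m then (-1 : ℂ) ^ (m / Eb P T p - 1) * (Eb P T p : ℂ) *
          y p ^ (m / Eb P T p) else 0 := by
    unfold tt
    rw [← Finset.sum_filter_add_sum_filter_not (PS P T \ C) (fun p => Eb P T p = m)]
    congr 1
    apply Finset.sum_congr rfl
    intro p hp
    rw [Finset.mem_filter] at hp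
    rw [hp.2]
    simp [Nat.div_self hm]
  rw [hsplit]
  have hA : ‖∑ p ∈ (PS P T \ C).filter (fun p => Eb P T p = m), (m : ℂ) * y p‖ ≤
      P.B * (r * C1 + B0) * (1 + M) := by
    rw [← Finset.mul_sum, norm_mul, Complex.norm_natCast]
    have h5 : ‖∑ p ∈ (PS P T).filter (fun p => Eb P T p = m), y p‖ ≤ r * (C1 * (1 + M)) := by
      have h60 : ∑ p ∈ (PS P T).filter (fun p => Eb P T p = m), y p =
          (s m : ℂ) * ∑ p ∈ (PS P T).filter (fun p => Eb P T p = m), ww P r T t p := by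
        rw [Finset.mul_sum]
        apply Finset.sum_congr rfl
        intro p hp
        rw [Finset.mem_filter] at hp
        rw [hy]
        unfold wS
        rw [hp.2]
      have h6 : (starRingEnd ℂ) (∑ p ∈ (PS P T).filter (fun p => Eb P T p = m), ww P r T t p) =
          (r : ℂ) * ∑ p ∈ (PS P T).filter (fun p => Eb P T p = m), (chi P T p : ℂ) *
            (p : ℂ) ^ (hh (dl P.c T) - (⟨1 / 2, t + dl P.c T / 2⟩ : ℂ)) := by
        rw [map_sum, Finset.mul_sum]
        apply Finset.sum_congr rfl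
        intro p hp
        rw [Finset.mem_filter] at hp
        exact ww_conj P r T t p (hmem p hp.1).1
      rw [h60, norm_mul, Complex.norm_real, Real.norm_eq_abs, abs_sgn hs, one_mul,
        ← RCLike.norm_conj, h6, norm_mul, Complex.norm_real, Real.norm_eq_abs, abs_of_pos hr]
      exact mul_le_mul_of_nonneg_left hP hr.le
    have h7 : ∑ p ∈ (PS P T \ C).filter (fun p => Eb P T p = m), y p =
        ∑ p ∈ (PS P T).filter (fun p => Eb P T p = m), y p -
          ∑ p ∈ C.filter (fun p => Eb P T p = m), y p := by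
      rw [eq_sub_iff_add_eq, ← Finset.sum_union]
      · apply Finset.sum_congr _ (fun _ _ => rfl)
        rw [← Finset.filter_union, Finset.sdiff_union_of_subset hC1']
      · apply Finset.disjoint_filter_filter
        exact Finset.sdiff_disjoint
    have h8 : ‖∑ p ∈ C.filter (fun p => Eb P T p = m), y p‖ ≤ B0 := by
      calc _ ≤ ∑ p ∈ C.filter (fun p => Eb P T p = m), ‖y p‖ := norm_sum_le _ _
        _ ≤ ∑ p ∈ C.filter (fun p => Eb P T p = m), 1 := by
            apply Finset.sum_le_sum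
            intro p hp
            rw [Finset.mem_filter] at hp
            exact hy1 p (hC1' hp.1)
        _ = ((C.filter (fun p => Eb P T p = m)).card : ℝ) := by simp
        _ ≤ B0 := by
            have := (hf1 C hC).2.2.2
            exact_mod_cast (Finset.card_filter_le _ _).trans this
    rw [h7]
    have h9 := (norm_sub_le (∑ p ∈ (PS P T).filter (fun p => Eb P T p = m), y p)
          (∑ p ∈ C.filter (fun p => Eb P T p = m), y p)).trans (add_le_add h5 h8)
    calc (m : ℝ) * _ ≤ P.B * (r * (C1 * (1 + M)) + B0) := by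
          apply mul_le_mul (by exact_mod_cast hmB) h9 (norm_nonneg _) (by positivity)
      _ ≤ P.B * (r * C1 + B0) * (1 + M) := by
          have e1 : (0 : ℝ) ≤ P.B * B0 * M := by positivity
          nlinarith
  have hBd : ‖∑ p ∈ (PS P T \ C).filter (fun p => ¬ Eb P T p = m),
        if Eb P T p ∣ m then (-1 : ℂ) ^ (m / Eb P T p - 1) * (Eb P T p : ℂ) *
          y p ^ (m / Eb P T p) else 0‖ ≤ P.B * (C3 * C2) := by
    calc _ ≤ ∑ p ∈ (PS P T \ C).filter (fun p => ¬ Eb P T p = m),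
          ‖if Eb P T p ∣ m then (-1 : ℂ) ^ (m / Eb P T p - 1) * (Eb P T p : ℂ) *
            y p ^ (m / Eb P T p) else 0‖ := norm_sum_le _ _
      _ ≤ ∑ p ∈ (PS P T \ C).filter (fun p => ¬ Eb P T p = m), P.B * (C3 * (1 / p : ℝ)) := by
        apply Finset.sum_le_sum
        intro p hp
        rw [Finset.mem_filter, Finset.mem_sdiff] at hp
        obtain ⟨hp1, hpp, hE2⟩ := hmem p hp.1.1
        have hpB : (0:ℝ) ≤ P.B * (C3 * (1 / p : ℝ)) := by positivity
        split_ifs with hd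
        · obtain ⟨j, hj⟩ := hd
          have hEpos : 0 < Eb P T p := by omega
          have hdiv : m / Eb P T p = j := by rw [hj]; exact Nat.mul_div_cancel_left j hEpos
          have hj2 : 2 ≤ j := by
            by_contra hlt
            have : j = 0 ∨ j = 1 := by omega
            rcases this with h | h
            · rw [h] at hj; omega
            · rw [h, mul_one] at hj; exact hp.2 hj.symm
          rw [hdiv, norm_mul, norm_mul, norm_pow, norm_neg, norm_one, one_pow, one_mul,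
            Complex.norm_natCast, norm_pow]
          have hyr : ‖y p‖ ^ j ≤ C3 * (1 / p : ℝ) :=
            (pow_le_pow_of_le_one (norm_nonneg _) (hy1 p hp.1.1) hj2).trans (hy2 p hp.1.1)
          apply mul_le_mul _ hyr (by positivity) (by positivity)
          exact_mod_cast (hchi p hp.1.1).1
        · rw [norm_zero]; exact hpB
      _ ≤ ∑ p ∈ PS P T, P.B * (C3 * (1 / p : ℝ)) := by
        apply Finset.sum_le_sum_of_subset_of_nonneg
          ((Finset.filter_subset _ _).trans Finset.sdiff_subset)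
        intro p _ _
        positivity
      _ = P.B * (C3 * ∑ p ∈ PS P T, (1 / p : ℝ)) := by rw [Finset.mul_sum, Finset.mul_sum]
      _ ≤ P.B * (C3 * C2) := by gcongr
  calc _ ≤ P.B * (r * C1 + B0) * (1 + M) + P.B * (C3 * C2) :=
        le_trans (norm_add_le _ _) (add_le_add hA hBd)
    _ ≤ _ := by
      have e1 : 0 ≤ (P.B : ℝ) * (C3 * C2) := by positivity
      have e2 := mul_nonneg e1 hM0
      nlinarith


end MomS

open MomS

theorem EES_bound (hRH : RHs) (P : Par) (B0 : ℕ) (hB : P.B = 2 * B0) (r : ℝ) (hr : 0 < r)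
    {s : ℕ → ℝ} (hs : IsSgn s) (F : ℕ → ℝ) : ∃ C T0 : ℝ, 0 < C ∧ 10 ≤ T0 ∧ ∀ T : ℝ, T0 ≤ T → ∀ t : ℝ,
    T + 2 * Real.log T ≤ t → t ≤ 2 * T - 2 * Real.log T →
    ‖EES P B0 r F s T t‖ ≤ C * (1 + Mk T 1 t) ^ (2 * B0) := by
  obtain ⟨K, T1, hK, hT1, h1⟩ := ttS_bound hRH P B0 hB r hr hs
  obtain ⟨C3, T3, hC3, hT3, h3⟩ := LG.fam_facts P B0 hB r (fun _ => 1)
  obtain ⟨KF, hKF, hF⟩ := F_bound F B0
  refine ⟨C3 * ((B0 + 1) * KF * K ^ B0) ^ 2, max T1 T3, by positivity,
    hT1.trans (le_max_left _ _), ?_⟩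
  intro T hT t ht ht'
  simp only [max_le_iff] at hT
  obtain ⟨hTT1, hTT3⟩ := hT
  obtain ⟨-, -, -, hX⟩ := h3 T hTT3
  set M := Mk T 1 t with hM
  have hM0 : 0 ≤ M := Pool.Agent.KS6_1.SI.DpB_Mk_nonneg _ _ _
  have hKM : 1 ≤ K * (1 + M) := by nlinarith
  have hD : ∀ C ∈ fam P B0 T, ‖DCS P B0 r F s T t C‖ ≤
      (∏ p ∈ C, |yp P r T p|) * ((B0 + 1) * KF * (K * (1 + M)) ^ B0) := by
    intro C hC
    obtain ⟨hC1, hC2⟩ := mem_fam.mp hC
    rw [DCS_eq P B0 r F s T t C hC, norm_mul, norm_prod]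
    have e1 : ∏ p ∈ C, ‖wS P r s T t p‖ = ∏ p ∈ C, |yp P r T p| :=
      Finset.prod_congr rfl (fun p _ => norm_wS P r hs T t p)
    rw [e1]
    apply mul_le_mul_of_nonneg_left _ (Finset.prod_nonneg (fun p _ => abs_nonneg _))
    have hE : ∀ p ∈ PS P T \ C, 1 ≤ Eb P T p := by
      intro p hp
      rw [Finset.mem_sdiff] at hp
      have := (prime_of_mem hp.1).2
      omega
    obtain ⟨hq0, hq⟩ := SP.newton (PS P T \ C) (Eb P T) hE (wS P r s T t)
    have hqn := Pool.Agent.KS6_1.SI.DpB.newton_growth (qq (PS P T \ C) (Eb P T) (wS P r s T t))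
      (tt (PS P T \ C) (Eb P T) (wS P r s T t)) (K * (1 + M)) hKM B0 hq0
      (fun m hm hmB => h1 T hTT1 t ht ht' C hC m hm (by omega)) hq
    calc _ ≤ ∑ n ∈ Finset.range (B0 - en P T C + 1), ‖(F (en P T C + n) : ℂ) *
          qq (PS P T \ C) (Eb P T) (wS P r s T t) n‖ := norm_sum_le _ _
      _ ≤ ∑ n ∈ Finset.range (B0 - en P T C + 1), KF * (K * (1 + M)) ^ B0 := by
          apply Finset.sum_le_sum
          intro n hn
          rw [Finset.mem_range] at hn
          rw [norm_mul, Complex.norm_real, Real.norm_eq_abs]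
          apply mul_le_mul (hF _ (by omega)) _ (norm_nonneg _) hKF.le
          exact (hqn n (by omega)).trans (pow_le_pow_right₀ hKM (by omega))
      _ = (B0 - en P T C + 1 : ℕ) * (KF * (K * (1 + M)) ^ B0) := by
          rw [Finset.sum_const, Finset.card_range, nsmul_eq_mul]
      _ ≤ ((B0 : ℝ) + 1) * (KF * (K * (1 + M)) ^ B0) := by
          apply mul_le_mul_of_nonneg_right _ (by positivity)
          push_cast
          have : ((B0 - en P T C : ℕ) : ℝ) ≤ B0 := by exact_mod_cast Nat.sub_le _ _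
          linarith
      _ = _ := by ring
  rw [EES_eq]
  calc _ ≤ ∑ C ∈ fam P B0 T, ‖(-1 : ℂ) ^ C.card *
      (DCS P B0 r F s T t C * (starRingEnd ℂ) (DCS P B0 r F s T t C))‖ := norm_sum_le _ _
    _ ≤ ∑ C ∈ fam P B0 T, (∏ p ∈ C, yp P r T p ^ 2) *
        ((B0 + 1) * KF * (K * (1 + M)) ^ B0) ^ 2 := by
        apply Finset.sum_le_sum
        intro C hC
        rw [norm_mul, norm_pow, norm_neg, norm_one, one_pow, one_mul, norm_mul, RCLike.norm_conj,
          ← sq]
        have e1 : (∏ p ∈ C, yp P r T p ^ 2) = (∏ p ∈ C, |yp P r T p|) ^ 2 := by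
          rw [← Finset.prod_pow]
          exact Finset.prod_congr rfl (fun p _ => (sq_abs _).symm)
        rw [e1, ← mul_pow]
        exact pow_le_pow_left₀ (norm_nonneg _) (hD C hC) 2
    _ = (∑ C ∈ fam P B0 T, ∏ p ∈ C, yp P r T p ^ 2) *
        ((B0 + 1) * KF * (K * (1 + M)) ^ B0) ^ 2 := by rw [Finset.sum_mul]
    _ ≤ C3 * ((B0 + 1) * KF * (K * (1 + M)) ^ B0) ^ 2 := by gcongr
    _ = C3 * ((B0 + 1) * KF * K ^ B0) ^ 2 * (1 + M) ^ (2 * B0) := by
        rw [mul_pow K, mul_comm 2 B0, pow_mul]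
        ring


theorem EESB_proof : EESB := by
  intro hRH P B0 hB r hr F s hs
  exact EES_bound hRH P B0 hB r hr hs F

end Pool.Agent.KS6_1.SR.RGap
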