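import Pool.Agent.KS6_1.SR.Crit
import Pool.Graph.R_seed8.H780R2.RG.NUM1

/-! # r-gaps in short blocks: numerical values -/

open Complex Filter Topology Set MeasureTheory

namespace Pool.Agent.KS6_1.SR

open _root_.RGap (lam1)
open _root_.RGP (LF LF_lower' final_step arctan_13)

theorem lam1_lower {x : ℝ} (hx : 0 < x) (hw : (Real.pi * x / 2) ^ 2 ≤ 100) :
    x * (1 - (Real.pi * x / 2) ^ 2 / 36 + ((Real.pi * x / 2) ^ 2) ^ 2 / 1800 -
      ((Real.pi * x / 2) ^ 2) ^ 3 / 141120) ≤ lam1 x := by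
  unfold lam1
  have hpi := Real.pi_pos
  set s : ℝ := Real.pi * x / 2 with hs
  have hs0 : 0 < s := by positivity
  have hpt : ∀ v : ℝ, 0 ≤ v → s - s ^ 3 * v ^ 2 / 6 + s ^ 5 * v ^ 4 / 120 - s ^ 7 * v ^ 6 / 5040
      + s ^ 9 * v ^ 8 / 362880 - s ^ 11 * v ^ 10 / 39916800 ≤ s * Real.sinc (s * v) := by
    intro v hv
    have h := LG.num_sinc s v hs0.le hv
    simp only [Finset.sum_range_succ, Finset.sum_range_zero] at h
    norm_num [Nat.factorial] at h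
    linarith
  have hint : ∫ v in (0 : ℝ)..1, (s - s ^ 3 * v ^ 2 / 6 + s ^ 5 * v ^ 4 / 120 - s ^ 7 * v ^ 6 / 5040
      + s ^ 9 * v ^ 8 / 362880 - s ^ 11 * v ^ 10 / 39916800) * (1 - v) ≤
      ∫ v in (0 : ℝ)..1, s * Real.sinc (s * v) * (1 - v) := by
    refine intervalIntegral.integral_mono_on (by norm_num) ?_ ?_ ?_
    · exact Continuous.intervalIntegrable (by fun_prop) _ _
    · have := Real.continuous_sinc
      exact Continuous.intervalIntegrable (by fun_prop) _ _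
    · intro v hv
      exact mul_le_mul_of_nonneg_right (hpt v hv.1) (by linarith [hv.2])
  have hval : ∫ v in (0 : ℝ)..1, (s - s ^ 3 * v ^ 2 / 6 + s ^ 5 * v ^ 4 / 120 - s ^ 7 * v ^ 6 / 5040
      + s ^ 9 * v ^ 8 / 362880 - s ^ 11 * v ^ 10 / 39916800) * (1 - v) =
      s / 2 - s ^ 3 / 72 + s ^ 5 / 3600 - s ^ 7 / 282240 + s ^ 9 / 32659200
        - s ^ 11 / 5269017600 := by
    have hp : ∀ (n : ℕ) (v : ℝ), HasDerivAt (fun v : ℝ => v ^ (n + 1) / ((n : ℝ) + 1)) (v ^ n) v := by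
      intro n v
      have := (hasDerivAt_pow (n + 1) v).div_const ((n : ℝ) + 1)
      refine this.congr_deriv ?_
      have : ((n : ℝ) + 1) ≠ 0 := by positivity
      push_cast
      field_simp
    have e : (fun v : ℝ => (s - s ^ 3 * v ^ 2 / 6 + s ^ 5 * v ^ 4 / 120 - s ^ 7 * v ^ 6 / 5040
      + s ^ 9 * v ^ 8 / 362880 - s ^ 11 * v ^ 10 / 39916800) * (1 - v)) = fun v =>
      s - s * v ^ 1 - s ^ 3 / 6 * v ^ 2 + s ^ 3 / 6 * v ^ 3 + s ^ 5 / 120 * v ^ 4
        - s ^ 5 / 120 * v ^ 5 - s ^ 7 / 5040 * v ^ 6 + s ^ 7 / 5040 * v ^ 7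
        + s ^ 9 / 362880 * v ^ 8 - s ^ 9 / 362880 * v ^ 9
        - s ^ 11 / 39916800 * v ^ 10 + s ^ 11 / 39916800 * v ^ 11 := by
      funext v; ring
    rw [e]
    set F : ℝ → ℝ := fun v => s * v - s * (v ^ 2 / 2) - s ^ 3 / 6 * (v ^ 3 / 3)
      + s ^ 3 / 6 * (v ^ 4 / 4) + s ^ 5 / 120 * (v ^ 5 / 5) - s ^ 5 / 120 * (v ^ 6 / 6)
      - s ^ 7 / 5040 * (v ^ 7 / 7) + s ^ 7 / 5040 * (v ^ 8 / 8) + s ^ 9 / 362880 * (v ^ 9 / 9)
      - s ^ 9 / 362880 * (v ^ 10 / 10) - s ^ 11 / 39916800 * (v ^ 11 / 11)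
      + s ^ 11 / 39916800 * (v ^ 12 / 12) with hF
    have hd : ∀ v : ℝ, HasDerivAt F (s - s * v ^ 1 - s ^ 3 / 6 * v ^ 2 + s ^ 3 / 6 * v ^ 3
        + s ^ 5 / 120 * v ^ 4
        - s ^ 5 / 120 * v ^ 5 - s ^ 7 / 5040 * v ^ 6 + s ^ 7 / 5040 * v ^ 7
        + s ^ 9 / 362880 * v ^ 8 - s ^ 9 / 362880 * v ^ 9
        - s ^ 11 / 39916800 * v ^ 10 + s ^ 11 / 39916800 * v ^ 11) v := by
      intro v
      have h0 := (hasDerivAt_id v).const_mul s
      have h1 := (hp 1 v).const_mul s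
      have h2 := (hp 2 v).const_mul (s ^ 3 / 6)
      have h3 := (hp 3 v).const_mul (s ^ 3 / 6)
      have h4 := (hp 4 v).const_mul (s ^ 5 / 120)
      have h5 := (hp 5 v).const_mul (s ^ 5 / 120)
      have h6 := (hp 6 v).const_mul (s ^ 7 / 5040)
      have h7 := (hp 7 v).const_mul (s ^ 7 / 5040)
      have h8 := (hp 8 v).const_mul (s ^ 9 / 362880)
      have h9 := (hp 9 v).const_mul (s ^ 9 / 362880)
      have h10 := (hp 10 v).const_mul (s ^ 11 / 39916800)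
      have h11 := (hp 11 v).const_mul (s ^ 11 / 39916800)
      have hh := ((((((((((h0.sub h1).sub h2).add h3).add h4).sub h5).sub h6).add h7).add h8).sub
        h9).sub h10).add h11
      refine HasDerivAt.congr_deriv (hh.congr_of_eventuallyEq (Filter.Eventually.of_forall ?_)) ?_
      · intro w
        simp only [Pi.add_apply, Pi.sub_apply, hF, id]
        norm_num
      · ring
    rw [intervalIntegral.integral_eq_sub_of_hasDerivAt (fun v _ => hd v)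
      (Continuous.intervalIntegrable (by fun_prop) _ _)]
    simp only [hF]
    ring
  have hfin := hint
  rw [hval] at hfin
  have e2 : (4 : ℝ) / Real.pi * (∫ v in (0 : ℝ)..1, s * Real.sinc (s * v) * (1 - v)) =
      (4 * ∫ v in (0 : ℝ)..1, s * Real.sinc (s * v) * (1 - v)) / Real.pi := by ring
  rw [e2, le_div_iff₀ hpi]
  have e3 : x * Real.pi = 2 * s := by rw [hs]; ring
  have e4 : 0 ≤ s ^ 9 * (100 - s ^ 2) := mul_nonneg (by positivity) (by linarith)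
  have e6 : x * (1 - s ^ 2 / 36 + (s ^ 2) ^ 2 / 1800 - (s ^ 2) ^ 3 / 141120) * Real.pi =
      4 * (s / 2 - s ^ 3 / 72 + s ^ 5 / 3600 - s ^ 7 / 282240) := by
    rw [show x * (1 - s ^ 2 / 36 + (s ^ 2) ^ 2 / 1800 - (s ^ 2) ^ 3 / 141120) * Real.pi =
      (x * Real.pi) * (1 - s ^ 2 / 36 + (s ^ 2) ^ 2 / 1800 - (s ^ 2) ^ 3 / 141120) by ring, e3]
    ring
  rw [e6]
  have e7 : s ^ 9 * (100 - s ^ 2) = 100 * s ^ 9 - s ^ 11 := by ring
  have e8 : 0 < s ^ 9 := by positivity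
  rw [e7] at e4
  linarith

/-- the cubic -/
noncomputable def Pw (w : ℝ) : ℝ := 1 - w / 36 + w ^ 2 / 1800 - w ^ 3 / 141120

theorem Pw_anti {w w1 : ℝ} (h0 : 0 ≤ w) (h1 : w ≤ w1) (h2 : w1 ≤ 15) : Pw w1 ≤ Pw w := by
  unfold Pw
  have e : (1 - w / 36 + w ^ 2 / 1800 - w ^ 3 / 141120) -
      (1 - w1 / 36 + w1 ^ 2 / 1800 - w1 ^ 3 / 141120) =
      (w1 - w) * (1 / 36 - (w + w1) / 1800 + (w ^ 2 + w * w1 + w1 ^ 2) / 141120) := by ring
  have h3 : 0 ≤ 1 / 36 - (w + w1) / 1800 + (w ^ 2 + w * w1 + w1 ^ 2) / 141120 := by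
    have : 0 ≤ w ^ 2 + w * w1 + w1 ^ 2 := by nlinarith
    linarith
  have := mul_nonneg (sub_nonneg.2 h1) h3
  linarith

theorem lam1_S {S : ℝ} (h0 : 0 < S) (h1 : S ≤ 9 / 10) :
    9 / 5 * S < lam1 (S ^ 2 + 9 / 5 * S) := by
  have hpi := Real.pi_pos
  have hpi4 := Real.pi_lt_d4
  set x : ℝ := S ^ 2 + 9 / 5 * S with hx
  have hx0 : 0 < x := by positivity
  have hxS : x = S * (S + 9 / 5) := by rw [hx]; ring
  have hpp : Real.pi ^ 2 ≤ 9.87 := by
    have : Real.pi ^ 2 ≤ 3.1416 ^ 2 := pow_le_pow_left₀ hpi.le hpi4.le 2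
    norm_num at this ⊢
    linarith
  have hw : (Real.pi * x / 2) ^ 2 ≤ 2.4675 * x ^ 2 := by
    have : (Real.pi * x / 2) ^ 2 = Real.pi ^ 2 * x ^ 2 / 4 := by ring
    rw [this]
    have := mul_le_mul_of_nonneg_right hpp (sq_nonneg x)
    norm_num at this ⊢
    linarith
  have hx1 : x ≤ 2.43 := by
    rw [hxS]
    nlinarith
  have hw2 : (Real.pi * x / 2) ^ 2 ≤ 14.58 := by
    have : x ^ 2 ≤ 2.43 ^ 2 := pow_le_pow_left₀ hx0.le hx1 2
    norm_num at this hw ⊢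
    linarith
  have hlow := lam1_lower hx0 (by linarith)
  set w : ℝ := (Real.pi * x / 2) ^ 2 with hwd
  have hw0 : 0 ≤ w := sq_nonneg _
  refine lt_of_lt_of_le ?_ hlow
  show 9 / 5 * S < x * Pw w
  rcases le_or_gt S (4 / 5) with h | h
  · have h2 : 1 - w / 36 ≤ Pw w := by
      unfold Pw
      have : 0 ≤ w ^ 2 * (141120 / 1800 - w) := mul_nonneg (sq_nonneg _) (by linarith)
      nlinarith
    have h3 : 1 - 2.4675 * x ^ 2 / 36 ≤ Pw w := by linarith
    have h4 : (S + 9 / 5) ^ 3 * S ≤ 14.1 := by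
      have e1 : (S + 9 / 5) ^ 3 ≤ (2.6 : ℝ) ^ 3 := pow_le_pow_left₀ (by linarith) (by linarith) 3
      have e2 : (S + 9 / 5) ^ 3 * S ≤ (2.6 : ℝ) ^ 3 * (4 / 5) :=
        mul_le_mul e1 h h0.le (by positivity)
      norm_num at e2 ⊢
      linarith
    have h5 : 9 / 5 * S < x * (1 - 2.4675 * x ^ 2 / 36) := by
      have e1 : x * (1 - 2.4675 * x ^ 2 / 36) - 9 / 5 * S =
          S ^ 2 * (1 - 2.4675 / 36 * ((S + 9 / 5) ^ 3 * S)) := by
        rw [hxS]; ring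
      have e2 : 0 < S ^ 2 * (1 - 2.4675 / 36 * ((S + 9 / 5) ^ 3 * S)) := by
        apply mul_pos (by positivity)
        norm_num at h4 ⊢
        linarith
      linarith
    exact h5.trans_le (mul_le_mul_of_nonneg_left h3 hx0.le)
  · rcases le_or_gt S (17 / 20) with h' | h'
    · have hx2 : x ≤ 2.2525 := by
        rw [hxS]
        nlinarith
      have hw3 : w ≤ 12.52 := by
        have : x ^ 2 ≤ 2.2525 ^ 2 := pow_le_pow_left₀ hx0.le hx2 2
        norm_num at this hw ⊢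
        linarith
      have h2 := Pw_anti hw0 hw3 (by norm_num)
      have h3 : (0.725 : ℝ) ≤ Pw 12.52 := by unfold Pw; norm_num
      have h4 : S * 2.6 ≤ x := by rw [hxS]; nlinarith
      have h5 : S * 2.6 * 0.725 ≤ x * Pw w := mul_le_mul h4 (h3.trans h2) (by norm_num) hx0.le
      norm_num at h5 ⊢
      linarith
    · have h2 := Pw_anti hw0 hw2 (by norm_num)
      have h3 : (0.691 : ℝ) ≤ Pw 14.58 := by unfold Pw; norm_num
      have h4 : S * 2.65 ≤ x := by rw [hxS]; nlinarith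
      have h5 : S * 2.65 * 0.691 ≤ x * Pw w := mul_le_mul h4 (h3.trans h2) (by norm_num) hx0.le
      norm_num at h5 ⊢
      linarith

/-- the powers, for `S ≥ 9/10` -/
theorem LF_S {S : ℝ} (hS : 9 / 10 ≤ S) :
    ∃ ν b : ℝ, 1 ≤ ν ∧ 0 < b ∧
      9 / 5 * S < LF ν b (Real.pi * (S ^ 2 + 9 / 5 * S) / 2) := by
  obtain ⟨t, ht0, rfl⟩ : ∃ t : ℝ, 0 ≤ t ∧ S = 9 / 10 + t := ⟨S - 9 / 10, by linarith, by ring⟩
  set S : ℝ := 9 / 10 + t with hSd
  have hS0 : 0 < S := by linarith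
  have hpi := Real.pi_gt_d4
  norm_num at hpi
  set c : ℝ := S ^ 2 + 9 / 5 * S with hc
  have hc0 : 0 < c := by positivity
  have hS2 : 9 / 10 * S ≤ S ^ 2 := by nlinarith
  set n0 : ℝ := -1 + (27497 / 10000) * S + (4833 / 2000) * S ^ 2 with hn0
  have hν : n0 ≤ (10 / 13) * Real.pi * c - 1 - 8 / 5 * S := by
    have h1 : (10 / 13) * 3.1415 * c ≤ (10 / 13) * Real.pi * c := by
      apply mul_le_mul_of_nonneg_right _ hc0.le
      norm_num
      linarith
    have h2 : n0 ≤ (10 / 13) * 3.1415 * c - 1 - 8 / 5 * S := by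
      rw [hn0, hc]
      nlinarith
    linarith
  have hn1 : 1 ≤ n0 := by
    rw [hn0]; nlinarith
  refine ⟨(10 / 13) * Real.pi * c - 1 - 8 / 5 * S, 8 / 5 * S, hn1.trans hν, by positivity, ?_⟩
  have hpc : 0 < Real.pi * c := by positivity
  have hpc2 : 2.43 ≤ c := by
    rw [hc]; nlinarith
  have hpc3 : 3.1415 * 2.43 ≤ Real.pi * c := by
    apply mul_le_mul _ hpc2 (by positivity) (by positivity)
    norm_num
    linarith
  refine lt_of_lt_of_le ?_ (LF_lower' (x := 13 / 10) (c0 := 109 / 100) (c1 := 718 / 1000)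
    (A := 9136 / 10000) (N := (15487 / 5000) + (20422 / 3125) * S + (36544 / 15625) * S ^ 2)
    (D := 6 + 8 * S + (64 / 25) * S ^ 2) (hn1.trans hν) (by positivity)
    (by positivity) (by norm_num at hpc3; linarith) ?_ (by norm_num) ?_ arctan_13 ?_ ?_)
  · apply final_step hν (by linarith) (by positivity) (by positivity) (by positivity)
    have e : 16 * n0 * ((15487 / 5000) + (20422 / 3125) * S + (36544 / 15625) * S ^ 2) ^ 2 -
        (3.1416 * (9 / 5 * S)) ^ 2 * (6 + 8 * S + (64 / 25) * S ^ 2) ^ 2 =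
        (54928175934059527651 / 122070312500000000 : ℝ) + (8721153903340334997 / 3051757812500000 : ℝ) * t + (1092569715718732829 / 244140625000000 : ℝ) * t ^ 2 + (4649847912912969 / 1525878906250 : ℝ) * t ^ 3 + (29620333935812 / 30517578125 : ℝ) * t ^ 4 + (18791220190208 / 152587890625 : ℝ) * t ^ 5 + (58763639808 / 30517578125 : ℝ) * t ^ 6 := by
      rw [hn0, hSd]
      norm_num
      ring
    rw [e]
    positivity
  · rw [show 2 * (Real.pi * c / 2) / (8 / 5 * S + (10 / 13 * Real.pi * c - 1 - 8 / 5 * S) + 1) =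
      (Real.pi * c) / (10 / 13 * (Real.pi * c)) by congr 1 <;> ring]
    rw [div_eq_iff (by positivity)]
    ring
  · intro t ht0 ht1
    nlinarith [mul_nonneg ht0 (sub_nonneg.2 ht1), sq_nonneg (t - 1/2), sq_nonneg (t - 1),
      mul_nonneg ht0 (sq_nonneg (t - 1/2)), mul_nonneg ht0 (sq_nonneg (t - 1)), mul_nonneg (sub_nonneg.2 ht1) (sq_nonneg (t - 1/4))]
  · ring
  · ring

/-- **the numerical lower bound for the resonance functional** -/
theorem good_S {S : ℝ} (hS : 0 < S) : Good (S ^ 2 + 9 / 5 * S) (9 / 5 * S) := by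
  rcases le_or_gt S (9 / 10) with h | h
  · exact Or.inl (lam1_S hS h)
  · exact Or.inr (LF_S h.le)

end Pool.Agent.KS6_1.SR
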