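import Pool.Agent.KS6_1.SR.Asym
import Pool.Agent.KS6_1.SR.Num

/-! # r-gaps in short blocks: the final theorems -/

open Complex Filter Topology Set MeasureTheory

namespace Pool.Agent.KS6_1.SR

open SP (RHs)
open _root_.RGap (lam1)

/-- many large sums of `k` gaps in every block of `≥ N ^ α` -/
def BlockLarge (α : ℝ) (k : ℕ) (c : ℝ) : Prop :=
  ∃ ε : ℝ, 0 < ε ∧ ∃ N0 : ℕ, ∀ N H : ℕ, N0 ≤ N → (N : ℝ) ^ α ≤ H → H ≤ N →
      ε * H ≤ (({n : ℕ | N < n ∧ n ≤ N + H ∧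
        c < ∑ i ∈ Finset.range k, dlt (n + i)}.ncard : ℕ) : ℝ)

/-- many small sums of `k` gaps in every block of `≥ N ^ α` -/
def BlockSmall (α : ℝ) (k : ℕ) (c : ℝ) : Prop :=
  ∃ ε : ℝ, 0 < ε ∧ ∃ N0 : ℕ, ∀ N H : ℕ, N0 ≤ N → (N : ℝ) ^ α ≤ H → H ≤ N →
      ε * H ≤ (({n : ℕ | N < n ∧ n ≤ N + H ∧
        ∑ i ∈ Finset.range k, dlt (n + i) < c}.ncard : ℕ) : ℝ)

theorem BlockLarge.mono {α : ℝ} {k : ℕ} {c c' : ℝ} (h : BlockLarge α k c) (hc : c' ≤ c) :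
    BlockLarge α k c' := by
  obtain ⟨ε, hε, N0, h⟩ := h
  refine ⟨ε, hε, N0, fun N H h1 h2 h3 => (h N H h1 h2 h3).trans ?_⟩
  have hsub : {n : ℕ | N < n ∧ n ≤ N + H ∧ c < ∑ i ∈ Finset.range k, dlt (n + i)} ⊆
      {n : ℕ | N < n ∧ n ≤ N + H ∧ c' < ∑ i ∈ Finset.range k, dlt (n + i)} :=
    fun n hn => ⟨hn.1, hn.2.1, hc.trans_lt hn.2.2⟩
  exact_mod_cast Set.ncard_le_ncard hsub
    ((Set.finite_Iic (N + H)).subset fun n hn => hn.2.1)

theorem BlockSmall.mono {α : ℝ} {k : ℕ} {c c' : ℝ} (h : BlockSmall α k c) (hc : c ≤ c') :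
    BlockSmall α k c' := by
  obtain ⟨ε, hε, N0, h⟩ := h
  refine ⟨ε, hε, N0, fun N H h1 h2 h3 => (h N H h1 h2 h3).trans ?_⟩
  have hsub : {n : ℕ | N < n ∧ n ≤ N + H ∧ ∑ i ∈ Finset.range k, dlt (n + i) < c} ⊆
      {n : ℕ | N < n ∧ n ≤ N + H ∧ ∑ i ∈ Finset.range k, dlt (n + i) < c'} :=
    fun n hn => ⟨hn.1, hn.2.1, hn.2.2.trans_le hc⟩
  exact_mod_cast Set.ncard_le_ncard hsub
    ((Set.finite_Iic (N + H)).subset fun n hn => hn.2.1)

/-- large sums, all `k` -/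
theorem large_all (hRH : RHs) {α : ℝ} (hα : 0 < α) (hα1 : α ≤ 1) {k : ℕ} (hk : 1 ≤ k) :
    BlockLarge α k (k + 9 / 5 * (Real.sqrt (α * k + (9 / 10 * (1 - α)) ^ 2) - 9 / 10 * (1 - α))) := by
  have hk0 : (0 : ℝ) < k := by exact_mod_cast hk
  set S : ℝ := Real.sqrt (α * k + (9 / 10 * (1 - α)) ^ 2) - 9 / 10 * (1 - α) with hS
  have hS0 : 0 < S := by
    rw [hS, sub_pos]
    apply Real.lt_sqrt_of_sq_lt
    have : 0 < α * k := by positivity
    linarith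
  have h1 : (S + 9 / 10 * (1 - α)) ^ 2 = α * k + (9 / 10 * (1 - α)) ^ 2 := by
    rw [hS, sub_add_cancel, Real.sq_sqrt (by positivity)]
  have h2 : α * (k + 9 / 5 * S) = S ^ 2 + 9 / 5 * S := by
    nlinarith
  have h3 := good_S hS0
  rw [← h2] at h3
  refine crit_large hRH hα hα1 hk (by positivity) ?_
  rw [add_sub_cancel_left]
  exact goodI_of_good hα (by positivity) h3

/-- small sums, all `k` -/
theorem small_all (hRH : RHs) {α : ℝ} (hα : 0 < α) (hα1 : α ≤ 1) {k : ℕ} (hk : 1 ≤ k) :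
    BlockSmall α k (k - 9 / 5 * (Real.sqrt (α * k + (9 / 10 * (1 + α)) ^ 2) - 9 / 10 * (1 + α))) := by
  have hk0 : (0 : ℝ) < k := by exact_mod_cast hk
  set S : ℝ := Real.sqrt (α * k + (9 / 10 * (1 + α)) ^ 2) - 9 / 10 * (1 + α) with hS
  have hS0 : 0 < S := by
    rw [hS, sub_pos]
    apply Real.lt_sqrt_of_sq_lt
    have : 0 < α * k := by positivity
    linarith
  have h1 : (S + 9 / 10 * (1 + α)) ^ 2 = α * k + (9 / 10 * (1 + α)) ^ 2 := by
    rw [hS, sub_add_cancel, Real.sq_sqrt (by positivity)]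
  have h2 : α * (k - 9 / 5 * S) = S ^ 2 + 9 / 5 * S := by
    nlinarith
  have hc : 0 < (k : ℝ) - 9 / 5 * S := by
    have : 0 < S ^ 2 + 9 / 5 * S := by positivity
    rw [← h2] at this
    exact (pos_iff_pos_of_mul_pos this).1 hα
  have h3 := good_S hS0
  rw [← h2] at h3
  refine crit_small hRH hα hα1 hk hc ?_
  rw [sub_sub_cancel]
  exact goodI_of_good hα hc h3

/-- large sums, criterion -/
theorem large_crit (hRH : RHs) {α : ℝ} (hα : 0 < α) (hα1 : α ≤ 1) {k : ℕ} (hk : 1 ≤ k) {c : ℝ}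
    (hc : 0 < c) (h : c - k < lam1 (α * c)) : BlockLarge α k c :=
  crit_large hRH hα hα1 hk hc (goodI_of_good hα hc (Or.inl h))

/-- small sums, criterion -/
theorem small_crit (hRH : RHs) {α : ℝ} (hα : 0 < α) (hα1 : α ≤ 1) {k : ℕ} (hk : 1 ≤ k) {c : ℝ}
    (hc : 0 < c) (h : k - c < lam1 (α * c)) : BlockSmall α k c :=
  crit_small hRH hα hα1 hk hc (goodI_of_good hα hc (Or.inl h))

/-- large sums, asymptotically -/
theorem large_asym (hRH : RHs) {α : ℝ} (hα : 0 < α) (hα1 : α ≤ 1) {ε : ℝ} (hε : 0 < ε) :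
    ∃ k0 : ℕ, ∀ k : ℕ, k0 ≤ k → BlockLarge α k (k + (2 - ε) * Real.sqrt (α * k)) := by
  set e : ℝ := min ε 1 with he
  have he0 : 0 < e := lt_min hε one_pos
  have hee : e ≤ ε := min_le_left _ _
  have he1 : e ≤ 1 := min_le_right _ _
  obtain ⟨k0, h⟩ := asym_large hα he0 he1
  refine ⟨max k0 1, fun k hk => ?_⟩
  have hk1 : 1 ≤ k := (le_max_right _ _).trans hk
  have hk0 : (0 : ℝ) < k := by exact_mod_cast hk1
  have h1 : BlockLarge α k (k + (2 - e) * Real.sqrt (α * k)) := by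
    refine crit_large hRH hα hα1 hk1 ?_ ?_
    · have : 0 ≤ (2 - e) * Real.sqrt (α * k) := mul_nonneg (by linarith) (Real.sqrt_nonneg _)
      linarith
    · rw [add_sub_cancel_left]
      exact h k ((le_max_left _ _).trans hk)
  refine h1.mono ?_
  have := mul_le_mul_of_nonneg_right (show 2 - ε ≤ 2 - e by linarith) (Real.sqrt_nonneg (α * k))
  linarith

/-- small sums, asymptotically -/
theorem small_asym (hRH : RHs) {α : ℝ} (hα : 0 < α) (hα1 : α ≤ 1) {ε : ℝ} (hε : 0 < ε) :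
    ∃ k0 : ℕ, ∀ k : ℕ, k0 ≤ k → BlockSmall α k (k - (2 - ε) * Real.sqrt (α * k)) := by
  set e : ℝ := min ε 1 with he
  have he0 : 0 < e := lt_min hε one_pos
  have hee : e ≤ ε := min_le_left _ _
  have he1 : e ≤ 1 := min_le_right _ _
  obtain ⟨k0, hk01, h⟩ := asym_small hα hα1 he0 he1
  refine ⟨k0, fun k hk => ?_⟩
  obtain ⟨h1, h2⟩ := h k hk
  have h3 : BlockSmall α k (k - (2 - e) * Real.sqrt (α * k)) := by
    refine crit_small hRH hα hα1 (hk01.trans hk) h1 ?_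
    rw [sub_sub_cancel]
    exact h2
  refine h3.mono ?_
  have := mul_le_mul_of_nonneg_right (show 2 - ε ≤ 2 - e by linarith) (Real.sqrt_nonneg (α * k))
  linarith

end Pool.Agent.KS6_1.SR
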