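import Pool.Agent.KS6_1.SR.Defs
import Pool.Agent.KS6_1.SI.ExpMom
import Pool.Graph.R_seed8.H793R2.LG.GapTail

/-! GAPTAIL (helper793): very large gaps between the zeros are rare. -/

open Complex Filter Topology Set MeasureTheory

namespace Pool.Agent.KS6_1.SR.LG

open _root_.LG

variable [Pool.Agent.KS6_1.SI.Nu]

open SG (hh nn dl ord NZ)
open SP (RHs ZZ mu wt Mk qq tt)
open Pool.Agent.KS6_1.SI (Par Eb PS chi dd Nu)

namespace GT

open SP
open _root_.LG.GT

/-- upper bound for the basic real integral -/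
theorem int_cos_upper {l x : ℝ} (hl : 0 < l) (h : x ≠ 0) :
    ∫ u in (0 : ℝ)..l, (1 - u / l) ^ 2 * Real.cos (u * x) ≤ 4 / (l * x ^ 2) := by
  have hy : l * x ≠ 0 := mul_ne_zero hl.ne' h
  have h1 : ∫ u in (0 : ℝ)..l, (1 - u / l) ^ 2 * Real.cos (u * x) =
      2 / (l * x ^ 2) * (1 - Real.sin (l * x) / (l * x)) := by
    have hd : ∀ u ∈ uIcc 0 l, HasDerivAt (fun u => (1 - u / l) ^ 2 * Real.sin (u * x) / x -
        2 / (l * x ^ 2) * ((1 - u / l) * Real.cos (u * x)) -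
        2 / (l ^ 2 * x ^ 3) * Real.sin (u * x)) ((1 - u / l) ^ 2 * Real.cos (u * x)) u := by
      intro u _
      have h1 : HasDerivAt (fun u => 1 - u / l) (-(1 / l)) u := by
        simpa using ((hasDerivAt_id u).div_const l).const_sub 1
      have h2 : HasDerivAt (fun u => u * x) x u := by
        simpa using (hasDerivAt_id u).mul_const x
      have h3 : HasDerivAt (fun u => Real.sin (u * x)) (Real.cos (u * x) * x) u := h2.sin
      have h4 : HasDerivAt (fun u => Real.cos (u * x)) (-Real.sin (u * x) * x) u := h2.cos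
      have h5 := (((h1.pow 2).mul h3).div_const x).sub ((h1.mul h4).const_mul (2 / (l * x ^ 2)))
      have h6 := h5.sub (h3.const_mul (2 / (l ^ 2 * x ^ 3)))
      refine h6.congr_deriv ?_
      have hl0 := hl.ne'
      norm_num
      field_simp
      ring
    rw [intervalIntegral.integral_eq_sub_of_hasDerivAt hd
      (by apply Continuous.intervalIntegrable; fun_prop)]
    simp only [zero_mul, Real.sin_zero, Real.cos_zero, zero_div, sub_zero, mul_one, mul_zero]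
    rw [div_self hl.ne']
    field_simp
    ring
  rw [h1]
  have h2 : |Real.sin (l * x) / (l * x)| ≤ 1 := by
    rw [abs_div, div_le_one (abs_pos.2 hy)]
    exact Real.abs_sin_le_abs
  have h3 : 1 - Real.sin (l * x) / (l * x) ≤ 2 := by
    have := (abs_le.1 h2).1
    linarith
  have h4 : 0 < l * x ^ 2 := by positivity
  calc 2 / (l * x ^ 2) * (1 - Real.sin (l * x) / (l * x)) ≤ 2 / (l * x ^ 2) * 2 :=
        mul_le_mul_of_nonneg_left h3 (by positivity)
    _ = 4 / (l * x ^ 2) := by ring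

/-- lower bound for the main term -/
theorem main_lower {l L : ℝ} (hl : 10 ≤ l) (hL : l ≤ L) :
    L / 4 ≤ (∫ u in (0 : ℝ)..L, W1 l u * (((1 / Real.sqrt (2 * Real.pi) : ℝ) : ℂ) *
        ((L * Real.exp (-u ^ 2 / 2) : ℝ) : ℂ))).re := by
  have hl0 : 0 < l := by linarith
  have hL0 : 0 < L := by linarith
  have hs0 : 0 < Real.sqrt (2 * Real.pi) := by positivity
  have h0 : ∀ u, W1 l u * (((1 / Real.sqrt (2 * Real.pi) : ℝ) : ℂ) *
        ((L * Real.exp (-u ^ 2 / 2) : ℝ) : ℂ)) =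
      ((L / Real.sqrt (2 * Real.pi) * (max 0 (1 - |u| / l) ^ 2 * Real.exp (-u ^ 2 / 2)) : ℝ) : ℂ) := by
    intro u
    unfold W1
    push_cast
    ring
  have h1 : (∫ u in (0 : ℝ)..L, W1 l u * (((1 / Real.sqrt (2 * Real.pi) : ℝ) : ℂ) *
        ((L * Real.exp (-u ^ 2 / 2) : ℝ) : ℂ))) =
      ((L / Real.sqrt (2 * Real.pi) *
        ∫ u in (0 : ℝ)..L, max 0 (1 - |u| / l) ^ 2 * Real.exp (-u ^ 2 / 2) : ℝ) : ℂ) := by
    rw [intervalIntegral.integral_congr (fun u _ => h0 u), intervalIntegral.integral_ofReal,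
      intervalIntegral.integral_const_mul]
  rw [h1, Complex.ofReal_re]
  have hint : ∀ a b : ℝ, IntervalIntegrable
      (fun u => max 0 (1 - |u| / l) ^ 2 * Real.exp (-u ^ 2 / 2)) volume a b := by
    intro a b
    apply Continuous.intervalIntegrable
    fun_prop
  have h2 : ∫ u in (0 : ℝ)..1, (1 - 2 * u / l - u ^ 2 / 2) ≤
      ∫ u in (0 : ℝ)..1, max 0 (1 - |u| / l) ^ 2 * Real.exp (-u ^ 2 / 2) := by
    apply intervalIntegral.integral_mono_on (by norm_num)
    · apply Continuous.intervalIntegrable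
      fun_prop
    · exact hint 0 1
    · intro u hu
      rw [Pool.Agent.KS6_1.SI.MkB.max_val hl0 hu.1 (by linarith [hu.2])]
      have e1 : 1 - u ^ 2 / 2 ≤ Real.exp (-u ^ 2 / 2) := by
        have := Real.add_one_le_exp (-u ^ 2 / 2)
        linarith
      have e2 : 1 - 2 * u / l ≤ (1 - u / l) ^ 2 := by
        have : (1 - u / l) ^ 2 = 1 - 2 * u / l + (u / l) ^ 2 := by ring
        rw [this]
        have := sq_nonneg (u / l)
        linarith
      have e3 : 0 ≤ u / l := div_nonneg hu.1 hl0.le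
      have e4 : u / l ≤ 1 / 10 := by
        rw [div_le_iff₀ hl0]
        linarith [hu.2]
      have e5 : 0 ≤ 1 - 2 * u / l := by
        have : 2 * u / l = 2 * (u / l) := by ring
        rw [this]
        linarith
      have e6 : 0 ≤ 1 - u ^ 2 / 2 := by nlinarith [hu.1, hu.2]
      have e7 : (1 - 2 * u / l) * (1 - u ^ 2 / 2) ≤ (1 - u / l) ^ 2 * Real.exp (-u ^ 2 / 2) :=
        mul_le_mul e2 e1 e6 (sq_nonneg _)
      have e8 : 0 ≤ (2 * u / l) * (u ^ 2 / 2) := by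
        have := hu.1
        positivity
      nlinarith
  have h3 : ∫ u in (0 : ℝ)..1, (1 - 2 * u / l - u ^ 2 / 2) = 5 / 6 - 1 / l := by
    have hd : ∀ u ∈ uIcc (0 : ℝ) 1, HasDerivAt (fun u : ℝ => u - u ^ 2 / l - u ^ 3 / 6)
        (1 - 2 * u / l - u ^ 2 / 2) u := by
      intro u _
      have a1 := ((hasDerivAt_id u).sub (((hasDerivAt_id u).pow 2).div_const l)).sub
        (((hasDerivAt_id u).pow 3).div_const 6)
      refine a1.congr_deriv ?_
      simp
      ring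
    rw [intervalIntegral.integral_eq_sub_of_hasDerivAt hd
      (by apply Continuous.intervalIntegrable; fun_prop)]
    ring
  have h4 : ∫ u in (0 : ℝ)..L, max 0 (1 - |u| / l) ^ 2 * Real.exp (-u ^ 2 / 2) =
      (∫ u in (0 : ℝ)..1, max 0 (1 - |u| / l) ^ 2 * Real.exp (-u ^ 2 / 2)) +
      ∫ u in (1 : ℝ)..L, max 0 (1 - |u| / l) ^ 2 * Real.exp (-u ^ 2 / 2) :=
    (intervalIntegral.integral_add_adjacent_intervals (hint 0 1) (hint 1 L)).symm
  have h5 : 0 ≤ ∫ u in (1 : ℝ)..L, max 0 (1 - |u| / l) ^ 2 * Real.exp (-u ^ 2 / 2) :=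
    intervalIntegral.integral_nonneg (by linarith) (fun u _ => by positivity)
  have h6 : 1 / l ≤ 1 / 10 := one_div_le_one_div_of_le (by norm_num) hl
  have h7 : (7 : ℝ) / 10 ≤ ∫ u in (0 : ℝ)..L, max 0 (1 - |u| / l) ^ 2 * Real.exp (-u ^ 2 / 2) := by
    linarith
  have h8 : Real.sqrt (2 * Real.pi) ≤ 14 / 5 := by
    rw [Real.sqrt_le_left (by norm_num)]
    have := Real.pi_lt_d2
    linarith
  have h9 : L / (14 / 5) ≤ L / Real.sqrt (2 * Real.pi) :=
    div_le_div_of_nonneg_left hL0.le hs0 h8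
  calc L / 4 = L / (14 / 5) * (7 / 10) := by ring
    _ ≤ _ := mul_le_mul h9 h7 (by norm_num) (by positivity)

/-- if there is no zero near `t` then the zero side is small -/
theorem re_zs_le {T l X t : ℝ} (hT : 10 ≤ T) (hl : 0 < l) (hlL : l ≤ Real.log T) (hX : 0 < X)
    (h : ∀ s ∈ ZZ T, X / Real.log T < |s.im - t|) :
    (zs T t (W1 l)).re ≤ 8 * Real.log T ^ 2 / (l * X ^ 2) * Mk T X t := by
  have hL : 0 < Real.log T := Real.log_pos (by linarith)
  rw [Pool.Agent.KS6_1.SI.MkB.zs_eq (by linarith), Pool.Agent.KS6_1.SI.MkB.Mk_eq (by linarith), Complex.re_sum, Finset.mul_sum]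
  refine Finset.sum_le_sum fun s hs => ?_
  have hs' : s ∈ ZZ T := (Pool.Agent.KS6_1.SI.MkB.ZZ_finite (by linarith)).mem_toFinset.1 hs
  have hx := h s hs'
  set x : ℝ := s.im - t with hxd
  have hx0 : 0 < |x| := lt_of_le_of_lt (by positivity) hx
  have hxne : x ≠ 0 := abs_pos.1 hx0
  have e3 : (mu s : ℂ) * (Real.exp (-x ^ 2 / 2) : ℂ) =
      (((mu s : ℝ) * Real.exp (-x ^ 2 / 2) : ℝ) : ℂ) := by push_cast; rfl
  rw [e3, Complex.re_ofReal_mul, Pool.Agent.KS6_1.SI.MkB.re_int hl hlL]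
  have e4 := int_cos_upper (x := x) hl hxne
  have hLx : X < Real.log T * |x| := by
    rw [div_lt_iff₀ hL] at hx
    linarith
  have hy : 1 ≤ (Real.log T * x / X) ^ 2 := by
    have h1 : 1 ≤ Real.log T * |x| / X := by
      rw [le_div_iff₀ hX]
      linarith
    have h2 : (Real.log T * x / X) ^ 2 = (Real.log T * |x| / X) ^ 2 := by
      rw [div_pow, div_pow, mul_pow, mul_pow, sq_abs]
    rw [h2]
    nlinarith
  have e5 : 4 / (l * x ^ 2) ≤ 8 * Real.log T ^ 2 / (l * X ^ 2) /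
      (1 + (Real.log T * x / X) ^ 2) := by
    have h1 : 4 / (l * x ^ 2) = 8 * Real.log T ^ 2 / (l * X ^ 2) /
        (2 * (Real.log T * x / X) ^ 2) := by
      field_simp
      ring
    rw [h1]
    apply div_le_div_of_nonneg_left (by positivity) (by positivity)
    linarith
  calc (mu s : ℝ) * Real.exp (-x ^ 2 / 2) *
        ∫ u in (0 : ℝ)..l, (1 - u / l) ^ 2 * Real.cos (u * x)
      ≤ (mu s : ℝ) * Real.exp (-x ^ 2 / 2) * (8 * Real.log T ^ 2 / (l * X ^ 2) /
      (1 + (Real.log T * x / X) ^ 2)) :=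
        mul_le_mul_of_nonneg_left (e4.trans e5) (by positivity)
    _ = _ := by ring

theorem Q1_cont (κ T : ℝ) (k : ℕ) : Continuous (Q1 κ T k) := by
  unfold Q1 QW
  refine continuous_const.mul (continuous_finsetSum _ fun p hp => ?_)
  have hp0 : (p : ℂ) ≠ 0 := by
    exact_mod_cast (Finset.mem_filter.mp hp).2.ne_zero
  refine (continuous_const.mul ?_).mul continuous_const
  refine Continuous.const_cpow ?_ (Or.inl hp0)
  fun_prop

/-- the pointwise inequality -/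
theorem pointwise (hRH : RHs) (κ : ℝ) (hκ : 0 < κ) (hκ1 : κ < 1) :
    ∀ k : ℕ, 32 ≤ k → ∃ T0 : ℝ, 10 ≤ T0 ∧ ∀ T : ℝ, T0 ≤ T → ∀ X : ℝ, 0 < X → ∀ t : ℝ,
    T + Real.log T ≤ t → t ≤ 2 * T - Real.log T →
    (∀ s ∈ ZZ T, X / Real.log T < |s.im - t|) →
    1 ≤ 512 * (1 / (1 - κ)) * k / X ^ 2 * Mk T X t + (16 * ‖Q1 κ T k t‖) ^ (2 * k) := by
  obtain ⟨w, hw⟩ : ∃ w : ℝ, w = 1 / (1 - κ) := ⟨_, rfl⟩
  have hw0 : 0 < w := by rw [hw]; exact one_div_pos.2 (by linarith)
  have hw1 : w * (1 - κ) = 1 := by rw [hw]; exact one_div_mul_cancel (by linarith)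
  rw [← hw]
  obtain ⟨C1, T1, hC1, hT1, h1⟩ := EFW2 hRH
  obtain ⟨C2, hC2, h2⟩ := prime_part2
  intro k hk
  have hk0 : (32 : ℝ) ≤ k := by exact_mod_cast hk
  set M : ℝ := 4 * k * w * (10 + 128 * C2) + 32 * (24 + C1) with hM
  refine ⟨max T1 (Real.exp M), le_max_of_le_left hT1, ?_⟩
  intro T hT X hX t ht1 ht2 hno
  have hTT1 : T1 ≤ T := (le_max_left _ _).trans hT
  have hT10 : 10 ≤ T := hT1.trans hTT1
  have hLM : M ≤ Real.log T := by
    rw [Real.le_log_iff_exp_le (by linarith)]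
    exact (le_max_right _ _).trans hT
  have hL : 0 < Real.log T := Real.log_pos (by linarith)
  set L : ℝ := Real.log T with hLd
  have hk1 : 1 ≤ k := by omega
  have hl := Pool.Agent.KS6_1.SI.MkB.ell_pos hκ1 hT10 hk1
  have hl2 := Pool.Agent.KS6_1.SI.MkB.ell_le_log hκ hT10 hk1
  have hl3 := Pool.Agent.KS6_1.SI.MkB.ell_ge (κ := κ) (T := T) (k := k)
  have hl4 : ell κ T k ≤ L / (2 * k) := by
    unfold ell
    apply div_le_div_of_nonneg_right _ (by positivity)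
    nlinarith
  set l := ell κ T k with hld
  rw [← hLd] at hl2 hl3
  have hA1 : 10 + 128 * C2 ≤ l := by
    refine le_trans ?_ hl3
    have a0 : 0 < 32 * (24 + C1) := by positivity
    have a1 : 4 * k * w * (10 + 128 * C2) ≤ L := by linarith
    have a2 : 4 * k * w * (10 + 128 * C2) / (2 * k) ≤ L / (2 * k) :=
      div_le_div_of_nonneg_right a1 (by positivity)
    have a3 : 4 * k * w * (10 + 128 * C2) / (2 * k) = 2 * (w * (10 + 128 * C2)) := by
      field_simp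
      ring
    rw [a3] at a2
    have a4 := mul_le_mul_of_nonneg_left a2 (by linarith : 0 ≤ 1 - κ)
    have a5 : (1 - κ) * (2 * (w * (10 + 128 * C2))) = 2 * (10 + 128 * C2) := by
      linear_combination (2 * (10 + 128 * C2)) * hw1
    rw [a5] at a4
    have : 0 < 128 * C2 := by positivity
    linarith
  have hA2 : 32 * (24 + C1) ≤ L := by
    have : 0 ≤ 4 * (k : ℝ) * w * (10 + 128 * C2) := by positivity
    linarith
  have hl10 : 10 ≤ l := by
    have : 0 < 128 * C2 := by positivity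
    linarith
  have e1 := h1 T hTT1 t ht1 ht2 (W1 l) 1 (Pool.Agent.KS6_1.SI.MkB.W1_cont l) (fun u _ => Pool.Agent.KS6_1.SI.MkB.W1_norm hl u)
  have e2 := h2 T hT10 t l hl hl2 (W1 l) 1 (fun u _ => Pool.Agent.KS6_1.SI.MkB.W1_norm hl u)
    (fun u hu => Pool.Agent.KS6_1.SI.MkB.W1_zero hl hu)
  have e3 := main_lower hl10 hl2
  have e4 := re_zs_le hT10 hl hl2 hX hno
  rw [← hLd] at e1 e2 e4
  set MM : ℂ := ∫ u in (0 : ℝ)..L, W1 l u * (((1 / Real.sqrt (2 * Real.pi) : ℝ) : ℂ) *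
        ((L * Real.exp (-u ^ 2 / 2) : ℝ) : ℂ)) with hMM
  -- real parts
  have e5 : MM.re ≤ (zs T t (W1 l)).re + ‖ps T t (W1 l)‖ + C1 * 1 := by
    have a1 : MM = zs T t (W1 l) + ps T t (W1 l) - (zs T t (W1 l) + ps T t (W1 l) - MM) := by ring
    have a2 : MM.re = (zs T t (W1 l)).re + (ps T t (W1 l)).re -
        (zs T t (W1 l) + ps T t (W1 l) - MM).re := by
      rw [← Complex.add_re, ← Complex.sub_re]
      exact congrArg Complex.re a1
    have a3 : (ps T t (W1 l)).re ≤ ‖ps T t (W1 l)‖ := Complex.re_le_norm _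
    have a4 : -(zs T t (W1 l) + ps T t (W1 l) - MM).re ≤ C1 * 1 := by
      have := (abs_le.1 (Complex.abs_re_le_norm (zs T t (W1 l) + ps T t (W1 l) - MM))).1
      linarith
    linarith
  have e6 : ‖ps T t (W1 l)‖ ≤ L * ‖Q1 κ T k t‖ +
      1 * (4 * (l + 6) + C2 * (L * Real.exp (-l ^ 2 / 4))) := by
    have a1 : ps T t (W1 l) = (ps T t (W1 l) - (L : ℂ) * QW T t l (W1 l)) +
        (L : ℂ) * QW T t l (W1 l) := by ring
    have a2 : ‖(L : ℂ) * QW T t l (W1 l)‖ = L * ‖Q1 κ T k t‖ := by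
      rw [norm_mul, Complex.norm_real, Real.norm_eq_abs, abs_of_pos hL]
      rfl
    calc ‖ps T t (W1 l)‖ = ‖(ps T t (W1 l) - (L : ℂ) * QW T t l (W1 l)) +
        (L : ℂ) * QW T t l (W1 l)‖ := congrArg _ a1
      _ ≤ ‖ps T t (W1 l) - (L : ℂ) * QW T t l (W1 l)‖ + ‖(L : ℂ) * QW T t l (W1 l)‖ :=
        norm_add_le _ _
      _ ≤ _ := by
        rw [a2]
        linarith
  have e7 : C2 * (L * Real.exp (-l ^ 2 / 4)) ≤ L / 32 := by
    have a1 : Real.exp (-l ^ 2 / 4) ≤ 4 / l ^ 2 := by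
      have a2 : l ^ 2 / 4 ≤ Real.exp (l ^ 2 / 4) := by
        have := Real.add_one_le_exp (l ^ 2 / 4)
        linarith
      have a3 : -l ^ 2 / 4 = -(l ^ 2 / 4) := by ring
      rw [a3, Real.exp_neg]
      calc (Real.exp (l ^ 2 / 4))⁻¹ ≤ (l ^ 2 / 4)⁻¹ := inv_anti₀ (by positivity) a2
        _ = 4 / l ^ 2 := by rw [inv_div]
    have a2 : C2 * (4 / l ^ 2) ≤ 1 / 32 := by
      rw [mul_div_assoc', div_le_div_iff₀ (by positivity) (by norm_num)]
      nlinarith
    calc C2 * (L * Real.exp (-l ^ 2 / 4)) = L * (C2 * Real.exp (-l ^ 2 / 4)) := by ring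
      _ ≤ L * (1 / 32) := by
        apply mul_le_mul_of_nonneg_left _ hL.le
        exact (mul_le_mul_of_nonneg_left a1 hC2.le).trans a2
      _ = L / 32 := by ring
  have e8 : 4 * l ≤ L / 16 := by
    have : L / (2 * k) ≤ L / 64 := by
      apply div_le_div_of_nonneg_left hL.le (by norm_num)
      linarith
    linarith
  have hMk := Pool.Agent.KS6_1.SI.MkB.Mk_nonneg (T := T) (by linarith) X t
  have e9 : 8 * L ^ 2 / (l * X ^ 2) * Mk T X t ≤ L * (32 * w * k / X ^ 2 * Mk T X t) := by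
    have a1 : 8 * L ^ 2 / (l * X ^ 2) ≤ L * (32 * w * k / X ^ 2) := by
      rw [mul_div_assoc', div_le_div_iff₀ (by positivity) (by positivity)]
      have a2 : L ≤ 4 * w * k * l := by
        have b1 := mul_le_mul_of_nonneg_left hl3 (by positivity : 0 ≤ 2 * w * k)
        have b2 : 2 * w * k * ((1 - κ) * (L / (2 * k))) = L := by
          have b4 : 2 * w * k * ((1 - κ) * (L / (2 * k))) = (w * (1 - κ)) * L := by
            field_simp
          rw [b4, hw1, one_mul]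
        rw [b2] at b1
        have b3 : 0 ≤ 2 * w * k * l := by positivity
        linarith
      have a3 : 0 ≤ L * X ^ 2 := by positivity
      nlinarith [mul_le_mul_of_nonneg_left a2 a3]
    calc _ ≤ L * (32 * w * k / X ^ 2) * Mk T X t := mul_le_mul_of_nonneg_right a1 hMk
      _ = _ := by ring
  have e10 : L * (1 / 8) ≤ L * (32 * w * k / X ^ 2 * Mk T X t + ‖Q1 κ T k t‖) := by
    have : L * (32 * w * k / X ^ 2 * Mk T X t + ‖Q1 κ T k t‖) =
      L * (32 * w * k / X ^ 2 * Mk T X t) + L * ‖Q1 κ T k t‖ := by ring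
    rw [this]
    linarith
  have e11 := le_of_mul_le_mul_left e10 hL
  have e12 : 1 ≤ 256 * w * k / X ^ 2 * Mk T X t + 8 * ‖Q1 κ T k t‖ := by
    have : 256 * w * k / X ^ 2 * Mk T X t = 8 * (32 * w * k / X ^ 2 * Mk T X t) := by ring
    rw [this]
    linarith
  have hp : 0 ≤ (16 * ‖Q1 κ T k t‖) ^ (2 * k) := by positivity
  have hm : 0 ≤ 512 * w * k / X ^ 2 * Mk T X t := by positivity
  rcases le_total (1 / 2) (256 * w * k / X ^ 2 * Mk T X t) with h | h
  · have : 512 * w * k / X ^ 2 * Mk T X t = 2 * (256 * w * k / X ^ 2 * Mk T X t) := by ring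
    linarith
  · have h3 : 1 ≤ 16 * ‖Q1 κ T k t‖ := by linarith
    have h4 := one_le_pow₀ h3 (n := 2 * k)
    linarith

end GT

/-! ## 13. GAPTAIL : very large gaps are rare -/
theorem GAPTAIL (hRH : RHs) (κ : ℝ) (hκ : 0 < κ) (hκ1 : κ < 1) (ε : ℝ) (hε : 0 < ε) :
    ∃ X T0 : ℝ, 1 ≤ X ∧ 10 ≤ T0 ∧ ∀ T : ℝ, T0 ≤ T → ∃ G : ℝ → ℝ, Continuous G ∧ (∀ t, 0 ≤ G t) ∧
    (∀ t : ℝ, T + Real.log T ≤ t → t ≤ 2 * T - Real.log T →
      (∀ s ∈ ZZ T, X / Real.log T < |s.im - t|) → 1 ≤ G t) ∧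
    ∀ t0 V1 V2 : ℝ, V1 ≤ V2 → T + Real.log T ≤ V1 → V2 ≤ 2 * T - Real.log T →
      ∫ t in V1..V2, wt t0 (dd κ T) t * G t ≤ ε * dd κ T := by
  obtain ⟨w, hw⟩ : ∃ w : ℝ, w = 1 / (1 - κ) := ⟨_, rfl⟩
  have hw0 : 0 < w := by rw [hw]; exact one_div_pos.2 (by linarith)
  obtain ⟨CM, hCM, hMean⟩ := Pool.Agent.KS6_1.SI.Mk_mean hRH κ hκ hκ1
  obtain ⟨CQ, TQ, hCQ, hTQ, hmom⟩ := Pool.Agent.KS6_1.SI.mom_Q κ 1 hκ hκ1 one_pos
  -- choice of `k`
  obtain ⟨k1, hk1⟩ := exists_nat_ge (512 * CQ)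
  obtain ⟨k2, hk2⟩ := exists_pow_lt_of_lt_one (show (0 : ℝ) < ε / 2 by positivity)
    (show (1 / 2 : ℝ) < 1 by norm_num)
  set k : ℕ := k1 + k2 + 32 with hkd
  have hk : 32 ≤ k := by omega
  have hk0 : (32 : ℝ) ≤ k := by exact_mod_cast hk
  have hkQ : 512 * CQ ≤ k := by
    refine hk1.trans ?_
    have : k1 ≤ k := by omega
    exact_mod_cast this
  have hpowk : (256 * CQ / (k : ℝ)) ^ k ≤ ε / 2 := by
    have a1 : 256 * CQ / (k : ℝ) ≤ 1 / 2 := by
      rw [div_le_iff₀ (by linarith)]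
      linarith
    calc (256 * CQ / (k : ℝ)) ^ k ≤ (1 / 2) ^ k := pow_le_pow_left₀ (by positivity) a1 k
      _ ≤ (1 / 2) ^ k2 := pow_le_pow_of_le_one (by norm_num) (by norm_num) (by omega)
      _ ≤ ε / 2 := hk2.le
  obtain ⟨Tp, hTp, hpt⟩ := GT.pointwise hRH κ hκ hκ1 k hk
  rw [← hw] at hpt
  -- choice of `X`
  obtain ⟨N, hN⟩ := exists_nat_ge (1024 * w * k * CM / ε)
  set X : ℕ := N + 1 with hXd
  have hX1 : (1 : ℝ) ≤ (X : ℝ) := by
    have : 1 ≤ X := by omega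
    exact_mod_cast this
  have hX2 : 512 * w * k * CM / X ≤ ε / 2 := by
    have a1 : 1024 * w * k * CM / ε ≤ X := by
      refine hN.trans ?_
      have : N ≤ X := by omega
      exact_mod_cast this
    rw [div_le_iff₀ hε] at a1
    rw [div_le_iff₀ (by linarith)]
    linarith
  obtain ⟨TM, hTM, hMk⟩ := hMean X (by omega)
  refine ⟨X, max (max TM TQ) Tp, hX1, ?_, ?_⟩
  · exact (hTM.trans (le_max_left _ _)).trans (le_max_left _ _)
  intro T hT
  have hTM' : TM ≤ T := ((le_max_left _ _).trans (le_max_left _ _)).trans hT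
  have hTQ' : TQ ≤ T := ((le_max_right _ _).trans (le_max_left _ _)).trans hT
  have hTp' : Tp ≤ T := (le_max_right _ _).trans hT
  have hT10 : 10 ≤ T := hTM.trans hTM'
  have hT1 : 1 ≤ T := by linarith
  have hD := Pool.Agent.KS6_1.SI.ExpAux.dd_pos (κ := κ) hT10
  refine ⟨fun t => 512 * w * k / (X : ℝ) ^ 2 * Mk T X t + (16 * ‖SP.Q1 κ T k t‖) ^ (2 * k), ?_, ?_, ?_, ?_⟩
  · refine (continuous_const.mul (Pool.Agent.KS6_1.SI.ExpAux.Mk_cont hT1 _)).add ?_
    exact (continuous_const.mul (GT.Q1_cont κ T k).norm).pow _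
  · intro t
    have := Pool.Agent.KS6_1.SI.ExpAux.Mk_nonneg hT1 (X : ℝ) t
    positivity
  · intro t ht1 ht2 hno
    exact hpt T hTp' X (by linarith) t ht1 ht2 hno
  · intro t0 V1 V2 hV hV1 hV2
    have hm := (hmom T hTQ' t0 k (by omega)).1
    have i1 : IntervalIntegrable (fun t => wt t0 (dd κ T) t * Mk T X t) volume V1 V2 :=
      ((Pool.Agent.KS6_1.SI.ExpAux.wt_cont t0 _).mul (Pool.Agent.KS6_1.SI.ExpAux.Mk_cont hT1 _)).intervalIntegrable _ _
    have i2 : IntervalIntegrable (fun t => wt t0 (dd κ T) t * ‖SP.Q1 κ T k t‖ ^ (2 * k))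
        volume V1 V2 := hm.1.intervalIntegrable
    have a1 : ∀ t, wt t0 (dd κ T) t * (512 * w * k / (X : ℝ) ^ 2 * Mk T X t +
        (16 * ‖SP.Q1 κ T k t‖) ^ (2 * k)) =
        512 * w * k / (X : ℝ) ^ 2 * (wt t0 (dd κ T) t * Mk T X t) +
        16 ^ (2 * k) * (wt t0 (dd κ T) t * ‖SP.Q1 κ T k t‖ ^ (2 * k)) := by
      intro t
      rw [mul_pow]
      ring
    rw [intervalIntegral.integral_congr (fun t _ => a1 t),
      intervalIntegral.integral_add (i1.const_mul _) (i2.const_mul _),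
      intervalIntegral.integral_const_mul, intervalIntegral.integral_const_mul]
    have b1 := hMk T hTM' t0 V1 V2 hV hV1 hV2
    have b2 : ∫ t in V1..V2, wt t0 (dd κ T) t * ‖SP.Q1 κ T k t‖ ^ (2 * k) ≤
        dd κ T * (CQ / k) ^ k := by
      refine le_trans ?_ hm.2
      rw [intervalIntegral.integral_of_le hV]
      exact setIntegral_le_integral hm.1 (Eventually.of_forall fun t => by
        have := Pool.Agent.KS6_1.SI.ExpAux.wt_nonneg t0 (dd κ T) t
        positivity)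
    have c1 : 512 * w * k / (X : ℝ) ^ 2 * ∫ t in V1..V2, wt t0 (dd κ T) t * Mk T X t ≤
        ε / 2 * dd κ T := by
      calc 512 * w * k / (X : ℝ) ^ 2 * ∫ t in V1..V2, wt t0 (dd κ T) t * Mk T X t
          ≤ 512 * w * k / (X : ℝ) ^ 2 * (CM * X * dd κ T) :=
            mul_le_mul_of_nonneg_left b1 (by positivity)
        _ = (512 * w * k * CM / X) * dd κ T := by
            have : (X : ℝ) ≠ 0 := by linarith
            field_simp
        _ ≤ ε / 2 * dd κ T := mul_le_mul_of_nonneg_right hX2 hD.le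
    have c2 : (16 : ℝ) ^ (2 * k) * ∫ t in V1..V2, wt t0 (dd κ T) t * ‖SP.Q1 κ T k t‖ ^ (2 * k) ≤
        ε / 2 * dd κ T := by
      calc (16 : ℝ) ^ (2 * k) * ∫ t in V1..V2, wt t0 (dd κ T) t * ‖SP.Q1 κ T k t‖ ^ (2 * k)
          ≤ (16 : ℝ) ^ (2 * k) * (dd κ T * (CQ / k) ^ k) :=
            mul_le_mul_of_nonneg_left b2 (by positivity)
        _ = (256 * CQ / (k : ℝ)) ^ k * dd κ T := by
            rw [pow_mul, show (16 : ℝ) ^ 2 = 256 by norm_num, mul_div_assoc, mul_pow]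
            ring
        _ ≤ ε / 2 * dd κ T := mul_le_mul_of_nonneg_right hpowk hD.le
    linarith

end Pool.Agent.KS6_1.SR.LG
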