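import Pool.Agent.KS6_1.SR.Defs
import Pool.Agent.KS6_1.SI.Many

/-! Large gaps: continuity of the parameters, pointwise bounds (part of task 14, LOCAL). -/

open Complex Filter Topology Set MeasureTheory

namespace Pool.Agent.KS6_1.SR.LG

open _root_.LG

variable [Pool.Agent.KS6_1.SI.Nu]

open SG (hh nn dl ord NZ zmult)
open SP (RHs ZZ mu wt Mk qq tt)
open Pool.Agent.KS6_1.SI (Par Eb PS chi dd Nu)

namespace LocAux

open Pool.Agent.KS6_1.SI.ManyAux

/-! ### continuity in the parameters -/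

theorem param_cont (P : Par) (m : ℕ) :
    Continuous (fun x : ℝ × ℝ => ∫ u in (0 : ℝ)..1, P.b m u * Real.sin (Real.pi * x.1 * u) *
      Real.exp (-(u * x.2) ^ 2 / 2)) := by
  have hb : Continuous (P.b m) := (P.hb m).continuous
  apply intervalIntegral.continuous_parametric_intervalIntegral_of_continuous'
  unfold Function.uncurry
  fun_prop

theorem sm_eq (P : Par) (A c : ℝ) (m : ℕ) : sm P A c m =
    ∫ u in (0 : ℝ)..1, P.b m u * Real.sin (Real.pi * (c, 1 / A).1 * u) *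
      Real.exp (-(u * (c, 1 / A).2) ^ 2 / 2) := by
  unfold sm
  simp only [mul_one_div]

theorem sm0_eq (P : Par) (c : ℝ) (m : ℕ) : sm0 P c m =
    ∫ u in (0 : ℝ)..1, P.b m u * Real.sin (Real.pi * (c, (0 : ℝ)).1 * u) *
      Real.exp (-(u * (c, (0 : ℝ)).2) ^ 2 / 2) := by
  unfold sm0
  simp

theorem choose_params (P : Par) (B0 : ℕ) (r : ℝ) (F q : ℕ → ℝ) (c : ℝ)
    (hstrict : c * SF B0 F q < SF B0 F q +
      4 * r / Real.pi * ∑ m ∈ Finset.Icc 2 B0, sm0 P c m * SM B0 F q m) :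
    ∃ η δ A1 : ℝ, 0 < η ∧ 0 < δ ∧ 0 < A1 ∧ ∀ A : ℝ, A1 ≤ A →
      (c + 2 * η) * SF B0 F q + 3 * δ ≤ SF B0 F q +
        4 * r / Real.pi * ∑ m ∈ Finset.Icc 2 B0, sm P A (c + 2 * η) m * SM B0 F q m := by
  set Ψ : ℝ × ℝ → ℝ := fun x => SF B0 F q + 4 * r / Real.pi * ∑ m ∈ Finset.Icc 2 B0,
    (∫ u in (0 : ℝ)..1, P.b m u * Real.sin (Real.pi * x.1 * u) *
      Real.exp (-(u * x.2) ^ 2 / 2)) * SM B0 F q m - x.1 * SF B0 F q with hΨ
  have hc : Continuous Ψ := by
    rw [hΨ]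
    apply Continuous.sub
    · apply Continuous.add continuous_const
      apply Continuous.mul continuous_const
      apply continuous_finsetSum
      intro m _
      exact (param_cont P m).mul continuous_const
    · fun_prop
  have h0 : 0 < Ψ (c, 0) := by
    have : Ψ (c, 0) = SF B0 F q + 4 * r / Real.pi * ∑ m ∈ Finset.Icc 2 B0,
      sm0 P c m * SM B0 F q m - c * SF B0 F q := by
      simp only [hΨ, sm0_eq]
    rw [this]
    linarith
  have hev : ∀ᶠ x in 𝓝 ((c, 0) : ℝ × ℝ), Ψ (c, 0) / 2 < Ψ x :=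
    hc.continuousAt.eventually (lt_mem_nhds (by linarith))
  rw [Metric.eventually_nhds_iff] at hev
  obtain ⟨ρ, hρ, hev⟩ := hev
  refine ⟨ρ / 4, Ψ (c, 0) / 6, 4 / ρ, by positivity, by positivity, by positivity, fun A hA => ?_⟩
  have hA0 : 0 < A := lt_of_lt_of_le (by positivity) hA
  have h1 : dist ((c + 2 * (ρ / 4), 1 / A) : ℝ × ℝ) (c, 0) < ρ := by
    rw [Prod.dist_eq, Real.dist_eq, Real.dist_eq]
    simp only
    apply max_lt
    · rw [show c + 2 * (ρ / 4) - c = ρ / 2 by ring, abs_of_pos (by positivity)]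
      linarith
    · rw [sub_zero, abs_of_pos (by positivity)]
      rw [div_le_iff₀ hρ] at hA
      rw [div_lt_iff₀ hA0]
      linarith
  have h2 := hev h1
  have h3 : Ψ (c + 2 * (ρ / 4), 1 / A) = SF B0 F q + 4 * r / Real.pi * ∑ m ∈ Finset.Icc 2 B0,
      sm P A (c + 2 * (ρ / 4)) m * SM B0 F q m - (c + 2 * (ρ / 4)) * SF B0 F q := by
    simp only [hΨ, sm_eq]
  rw [h3] at h2
  linarith

/-! ### the smoothed counting function -/

theorem Zs_eq (A c T t : ℝ) (hT : 1 ≤ T) : Zs A c T t = ∑ s ∈ (ZZ_finite T hT).toFinset,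
    (mu s : ℝ) * Real.exp (-(s.im - t) ^ 2 / 2) * gK A c (Real.log T * (s.im - t)) :=
  finsum_mem_eq_finite_toFinset_sum _ (ZZ_finite T hT)

theorem Zs_cont (A c T : ℝ) (hT : 1 ≤ T) (hg : Continuous (gK A c)) :
    Continuous (fun t => Zs A c T t) := by
  have h : (fun t => Zs A c T t) = fun t => ∑ s ∈ (ZZ_finite T hT).toFinset,
    (mu s : ℝ) * Real.exp (-(s.im - t) ^ 2 / 2) * gK A c (Real.log T * (s.im - t)) := by
    funext t
    exact Zs_eq A c T t hT
  rw [h]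
  apply continuous_finsetSum
  intro s _
  apply Continuous.mul
  · fun_prop
  · exact hg.comp (by fun_prop)

theorem Zs_nonneg (A c T t : ℝ) (hT : 1 ≤ T) (hg : ∀ x, 0 ≤ gK A c x) : 0 ≤ Zs A c T t := by
  rw [Zs_eq A c T t hT]
  apply Finset.sum_nonneg
  intro s _
  have := hg (Real.log T * (s.im - t))
  positivity

/-- a zero near `t` makes `Zs` large -/
theorem Zs_ge {A c T t R e : ℝ} (hT : 1 ≤ T) (hL : 1 ≤ Real.log T) (_hR : 0 < R) (he : 0 < e) (he1 : e < 1)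
    (hLR : R ^ 2 / (2 * e) ≤ Real.log T) (hg : ∀ x, 0 ≤ gK A c x)
    (hge : ∀ x : ℝ, |x| ≤ R → 1 - e ≤ gK A c x)
    {s : ℂ} (hs : s ∈ ZZ T) (hst : |s.im - t| ≤ R / Real.log T) : 1 - 2 * e ≤ Zs A c T t := by
  have hL0 : 0 < Real.log T := by linarith
  rw [Zs_eq A c T t hT]
  have h1 : (mu s : ℝ) * Real.exp (-(s.im - t) ^ 2 / 2) * gK A c (Real.log T * (s.im - t)) ≤
      ∑ s ∈ (ZZ_finite T hT).toFinset,
      (mu s : ℝ) * Real.exp (-(s.im - t) ^ 2 / 2) * gK A c (Real.log T * (s.im - t)) := by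
    refine Finset.single_le_sum (f := fun s : ℂ => (mu s : ℝ) * Real.exp (-(s.im - t) ^ 2 / 2) *
      gK A c (Real.log T * (s.im - t))) (fun z _ => ?_) (by rw [Set.Finite.mem_toFinset]; exact hs)
    have := hg (Real.log T * (z.im - t))
    positivity
  refine le_trans ?_ h1
  have hmu : (1 : ℝ) ≤ (mu s : ℝ) := by
    obtain ⟨a1, a2, a3, a4, a5⟩ := hs
    have : 1 ≤ zmult s := SG.zmult_pos (by linarith) a5
    exact_mod_cast this
  have hx : |Real.log T * (s.im - t)| ≤ R := by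
    rw [abs_mul, abs_of_pos hL0]
    rw [le_div_iff₀ hL0] at hst
    linarith
  have h2 := hge _ hx
  have h3 : 1 - e ≤ Real.exp (-(s.im - t) ^ 2 / 2) := by
    have h4 : (s.im - t) ^ 2 ≤ (R / Real.log T) ^ 2 := by
      rw [← sq_abs (s.im - t)]
      exact pow_le_pow_left₀ (abs_nonneg _) hst 2
    have h5 : (R / Real.log T) ^ 2 ≤ 2 * e := by
      rw [div_pow, div_le_iff₀ (by positivity)]
      rw [div_le_iff₀ (by positivity)] at hLR
      nlinarith
    have h6 := Real.add_one_le_exp (-(s.im - t) ^ 2 / 2)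
    linarith
  have h7 : 0 < 1 - e := by linarith
  calc 1 - 2 * e ≤ 1 * (1 - e) * (1 - e) := by nlinarith [sq_nonneg e]
    _ ≤ (mu s : ℝ) * Real.exp (-(s.im - t) ^ 2 / 2) * gK A c (Real.log T * (s.im - t)) := by
      gcongr

theorem EE_cont (P : Par) (B0 : ℕ) (r : ℝ) (F : ℕ → ℝ) (T : ℝ) :
    Continuous (fun t => EE P B0 r F T t) := by
  unfold EE
  apply continuous_finsetSum
  intro q _
  fun_prop

/-- the pointwise inequality -/
theorem pointwise2 {E g Z e B : ℝ} (he : 0 < e) (_hE : 0 ≤ E) (hg : 0 ≤ g) (hZ : 0 ≤ Z) (hB : 0 ≤ B)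
    (h : 1 ≤ g * Z ∨ 1 ≤ B) :
    E ^ 2 * (1 - g * Z) ≤ e * E ^ 4 + 1 / (4 * e) * B := by
  have h1 : 0 ≤ e * E ^ 4 := by positivity
  have h2 : 0 ≤ 1 / (4 * e) * B := by positivity
  rcases h with h | h
  · have : E ^ 2 * (1 - g * Z) ≤ 0 := mul_nonpos_of_nonneg_of_nonpos (by positivity) (by linarith)
    linarith
  · have h3 : E ^ 2 * (1 - g * Z) ≤ E ^ 2 := by
      have : 0 ≤ E ^ 2 * (g * Z) := by positivity
      nlinarith
    have h4 : E ^ 2 ≤ e * E ^ 4 + 1 / (4 * e) := by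
      have h5 : 0 ≤ e * (E ^ 2 - 1 / (2 * e)) ^ 2 := by positivity
      have h6 : e * (E ^ 2 - 1 / (2 * e)) ^ 2 = e * E ^ 4 - E ^ 2 + 1 / (4 * e) := by
        field_simp
        ring
      linarith
    have h7 : 1 / (4 * e) ≤ 1 / (4 * e) * B := le_mul_of_one_le_right (by positivity) h
    linarith

theorem dd_ge_one {κ T : ℝ} (hT : 1 ≤ T) (hκ : κ < 1) : 1 ≤ dd κ T := by
  have := Nu.pos
  unfold dd
  exact Real.one_le_rpow hT (by linarith)

/-- shifted weight -/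
theorem wt_shift (t0 D t d : ℝ) : wt t0 D t = wt (t0 + d) D (t + d) := by
  unfold wt
  congr 1
  ring

theorem int_shift (t0 D V1 V2 d : ℝ) (G : ℝ → ℝ) :
    ∫ t in V1..V2, wt t0 D t * G (t + d) = ∫ t in (V1 + d)..(V2 + d), wt (t0 + d) D t * G t := by
  rw [← intervalIntegral.integral_comp_add_right (fun t => wt (t0 + d) D t * G t) d]
  apply intervalIntegral.integral_congr
  intro t _
  simp only
  rw [wt_shift t0 D t d]

end LocAux

end Pool.Agent.KS6_1.SR.LG
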