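import Pool.Agent.KS6_1.SR.Stubs
import Pool.Graph.R_seed8.H403R2.LGLocalA
import Pool.Agent.KS6_1.SR.LGLocalB
import Pool.Graph.R_seed8.H503R2.LG.Ker
import Pool.Agent.KS6_1.SR.GapTail2

/-! `r`-gaps, task LOCL: many large `k`-gaps in every window (adapted from `LG.LOCAL_of` by helper403,
`Pool/Agent/H403R2/LGLocal.lean`). -/

open Complex Filter Topology Set MeasureTheory

namespace Pool.Agent.KS6_1.SR.RGap

variable [Pool.Agent.KS6_1.SI.Nu]

open SG (hh nn dl ord NZ zmult)
open SP (RHs ZZ mu wt Mk qq tt)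
open Pool.Agent.KS6_1.SI (Par Eb PS chi dd Nu)
open _root_.LG (gK gh Zs bk lk nA IsQ SF SM)
open Pool.Agent.KS6_1.SR.LG (fam prs yp ae EE Cn QT tm sm sm0)
open _root_.RGap

namespace LOCLAux

open Pool.Agent.KS6_1.SI.ManyAux LG.LocAux

/-- lower bound for the difference of the mean values -/
theorem mean_lower (P : Par) (B0 : ℕ) (r : ℝ) (F q s : ℕ → ℝ) (A c δ e1 : ℝ) (k : ℕ)
    (hMLIM : ∀ δ : ℝ, 0 < δ → ∃ T0 : ℝ, 10 ≤ T0 ∧ ∀ T : ℝ, T0 ≤ T →
    ∀ t0 : ℝ, 11 / 10 * T ≤ t0 → t0 ≤ 19 / 10 * T →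
    |(∫ t in (T + 2 * Real.log T)..(2 * T - 2 * Real.log T),
        wt t0 (dd P.κ T) t * ‖EES P B0 r F s T t‖ ^ 2) -
      Real.sqrt (2 * Real.pi) * dd P.κ T * SF B0 F q ^ 2| ≤ δ * dd P.κ T ∧
    |(∫ t in (T + 2 * Real.log T)..(2 * T - 2 * Real.log T),
        wt t0 (dd P.κ T) t * ‖EES P B0 r F s T t‖ ^ 2 * Zs A c T t) -
      Real.sqrt (2 * Real.pi) * dd P.κ T * (SF B0 F q * (c * SF B0 F q -
        4 * r / Real.pi * ∑ m ∈ Finset.Icc 2 B0, s m * (sm P A c m * SM B0 F q m)))| ≤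
      δ * dd P.κ T)
    (hSF : 0 < SF B0 F q) (hδ : 0 < δ) (he1 : 0 < e1) (he1' : e1 ≤ 1 / 4)
    (hδe : 2 * e1 * k * SF B0 F q ≤ δ)
    (hst : c * SF B0 F q + 3 * δ ≤ k * SF B0 F q +
        4 * r / Real.pi * ∑ m ∈ Finset.Icc 2 B0, s m * (sm P A c m * SM B0 F q m)) :
    ∃ T0 : ℝ, 10 ≤ T0 ∧ ∀ T : ℝ, T0 ≤ T → ∀ t0 : ℝ, 11 / 10 * T ≤ t0 → t0 ≤ 19 / 10 * T →
      SF B0 F q * δ * dd P.κ T ≤
      k * (∫ t in (T + 2 * Real.log T)..(2 * T - 2 * Real.log T),
        wt t0 (dd P.κ T) t * ‖EES P B0 r F s T t‖ ^ 2) -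
      1 / (1 - 2 * e1) * ∫ t in (T + 2 * Real.log T)..(2 * T - 2 * Real.log T),
        wt t0 (dd P.κ T) t * ‖EES P B0 r F s T t‖ ^ 2 * Zs A c T t := by
  set S := SF B0 F q with hS
  set U := 4 * r / Real.pi * ∑ m ∈ Finset.Icc 2 B0, s m * (sm P A c m * SM B0 F q m) with hU
  set g := 1 / (1 - 2 * e1) with hg
  have hg0 : 0 < 1 - 2 * e1 := by linarith
  have hg1 : 1 ≤ g := by rw [hg, le_div_iff₀ hg0]; linarith
  have hg2 : g ≤ 2 := by rw [hg, div_le_iff₀ hg0]; linarith
  have hgm : g * (1 - 2 * e1) = 1 := by rw [hg]; field_simp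
  set σ := Real.sqrt (2 * Real.pi) with hσ
  have hσ2 : 2 ≤ σ := two_le_sqrt_two_pi
  have hk0 : (0 : ℝ) ≤ k := Nat.cast_nonneg k
  set δ' := S * δ / (k + 2) with hδ'
  have hδ'0 : 0 < δ' := by positivity
  have hδ'1 : (k + 2) * δ' = S * δ := by rw [hδ']; field_simp
  obtain ⟨T0, hT0, hM⟩ := hMLIM δ' hδ'0
  refine ⟨T0, hT0, fun T hT t0 ht0 ht1 => ?_⟩
  obtain ⟨m1, m2⟩ := hM T hT t0 ht0 ht1
  have hT10 : 10 ≤ T := hT0.trans hT
  have hΔ1 := dd_ge_one (κ := P.κ) (by linarith : 1 ≤ T) P.hκ1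
  set Δ := dd P.κ T with hΔ
  have hΔ0 : 0 < Δ := by linarith
  have h4 := (abs_le.mp m1).1
  have h5 := (abs_le.mp m2).2
  have e2 : c * S - U ≤ k * S - 3 * δ := by linarith
  have e3 : g * (c * S - U) ≤ g * (k * S - 3 * δ) := mul_le_mul_of_nonneg_left e2 (by linarith)
  have e4 : 2 * δ ≤ k * S - g * (k * S - 3 * δ) := by
    have e5 : k * S - g * (k * S - 3 * δ) = g * (3 * δ - 2 * e1 * k * S) := by
      have : k * S = g * (1 - 2 * e1) * (k * S) := by rw [hgm, one_mul]
      calc k * S - g * (k * S - 3 * δ) = g * (1 - 2 * e1) * (k * S) - g * (k * S - 3 * δ) := by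
            rw [← this]
        _ = _ := by ring
    rw [e5]
    have e6 : 2 * δ ≤ 3 * δ - 2 * e1 * k * S := by linarith
    nlinarith
  have e7 : 2 * δ ≤ k * S - g * (c * S - U) := by linarith
  have e8 : S * (2 * δ) ≤ S * (k * S - g * (c * S - U)) := mul_le_mul_of_nonneg_left e7 hSF.le
  have e9 : 2 * (S * (2 * δ)) ≤ σ * (S * (k * S - g * (c * S - U))) :=
    mul_le_mul hσ2 e8 (by positivity) (by linarith)
  have e10 := mul_le_mul_of_nonneg_left e9 hΔ0.le
  have h4' := mul_le_mul_of_nonneg_left h4 hk0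
  have h5' := mul_le_mul_of_nonneg_left h5 (by linarith : 0 ≤ g)
  have h6 : (k + g) * (δ' * Δ) ≤ S * δ * Δ := by
    calc (k + g) * (δ' * Δ) ≤ (k + 2) * (δ' * Δ) := by gcongr
      _ = S * δ * Δ := by rw [← mul_assoc, hδ'1]
  have h7 : 0 < S * δ * Δ := by positivity
  have h8 : Δ * (σ * (S * (k * S - g * (c * S - U)))) =
      k * (σ * Δ * S ^ 2) - g * (σ * Δ * (S * (c * S - U))) := by ring
  rw [h8] at e10
  rw [mul_sub] at h4' h5'
  nlinarith

/-- the pointwise inequality -/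
theorem pointwise3 {E g Z e B k : ℝ} (he : 0 < e) (hg : 0 ≤ g) (hZ : 0 ≤ Z)
    (hB : 0 ≤ B) (_hk : 0 ≤ k) (h : k ≤ g * Z ∨ 1 ≤ B) :
    E ^ 2 * (k - g * Z) ≤ e * E ^ 4 + k ^ 2 / (4 * e) * B := by
  have h1 : 0 ≤ e * E ^ 4 := by positivity
  have h2 : 0 ≤ k ^ 2 / (4 * e) * B := by positivity
  rcases h with h | h
  · have : E ^ 2 * (k - g * Z) ≤ 0 := mul_nonpos_of_nonneg_of_nonpos (by positivity) (by linarith)
    linarith
  · have h3 : E ^ 2 * (k - g * Z) ≤ E ^ 2 * k := by
      have : 0 ≤ E ^ 2 * (g * Z) := by positivity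
      nlinarith
    have h4 : E ^ 2 * k ≤ e * E ^ 4 + k ^ 2 / (4 * e) := by
      have h5 : 0 ≤ e * (E ^ 2 - k / (2 * e)) ^ 2 := by positivity
      have h6 : e * (E ^ 2 - k / (2 * e)) ^ 2 = e * E ^ 4 - E ^ 2 * k + k ^ 2 / (4 * e) := by
        field_simp
        ring
      linarith
    have h7 : k ^ 2 / (4 * e) ≤ k ^ 2 / (4 * e) * B := le_mul_of_one_le_right (by positivity) h
    linarith

theorem EES_cont (P : Par) (B0 : ℕ) (r : ℝ) (F s : ℕ → ℝ) (T : ℝ) :
    Continuous (fun t => EES P B0 r F s T t) := by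
  unfold EES
  apply continuous_finsetSum
  intro q _
  fun_prop

/-- the fourth moment of `EES` -/
theorem mom4 (h2 : EESB) (h3 : MKM) (hRH : RHs) (P : Par) (B0 : ℕ) (hB : P.B = 2 * B0) (r : ℝ)
    (hr : 0 < r) (F s : ℕ → ℝ) (hs : IsSgn s) :
    ∃ C T0 : ℝ, 0 < C ∧ 10 ≤ T0 ∧ ∀ T : ℝ, T0 ≤ T → ∀ t0 : ℝ,
      ∫ t in (T + 2 * Real.log T)..(2 * T - 2 * Real.log T),
        wt t0 (dd P.κ T) t * ‖EES P B0 r F s T t‖ ^ 4 ≤ C * dd P.κ T := by
  obtain ⟨C1, T1, hC1, hT1, hE⟩ := h2 hRH P B0 hB r hr F s hs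
  obtain ⟨C2, T2, hC2, hT2, hM⟩ := h3 hRH P.κ P.hκ P.hκ1 (8 * B0)
  obtain ⟨T3, hT3⟩ := (Real.isLittleO_log_id_atTop.bound
    (by norm_num : (0 : ℝ) < 1 / 4)).exists_forall_of_atTop
  refine ⟨C1 ^ 4 * C2, max (max T1 T2) T3, by positivity,
    hT1.trans ((le_max_left _ _).trans (le_max_left _ _)), fun T hT t0 => ?_⟩
  simp only [max_le_iff] at hT
  obtain ⟨⟨a1, a2⟩, a3⟩ := hT
  have hT10 : 10 ≤ T := hT1.trans a1
  have hTone : 1 ≤ T := by linarith
  have hL0 : 0 < Real.log T := Real.log_pos (by linarith)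
  have hLT : 4 * Real.log T ≤ T := by
    have := hT3 T a3
    simp only [id, Real.norm_eq_abs] at this
    rw [abs_of_pos (by linarith : 0 < T)] at this
    have h := le_abs_self (Real.log T)
    linarith
  have hV : T + 2 * Real.log T ≤ 2 * T - 2 * Real.log T := by linarith
  have hwc : Continuous (wt t0 (dd P.κ T)) := wt_cont _ _
  have hMc : Continuous (fun t => Mk T 1 t) := Mk_cont T 1 hTone
  have hEc := (EES_cont P B0 r F s T).norm
  calc ∫ t in (T + 2 * Real.log T)..(2 * T - 2 * Real.log T),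
        wt t0 (dd P.κ T) t * ‖EES P B0 r F s T t‖ ^ 4
      ≤ ∫ t in (T + 2 * Real.log T)..(2 * T - 2 * Real.log T),
        C1 ^ 4 * (wt t0 (dd P.κ T) t * (1 + Mk T 1 t) ^ (8 * B0)) := by
        apply intervalIntegral.integral_mono_on hV
        · exact (hwc.mul (hEc.pow 4)).intervalIntegrable _ _
        · exact ((hwc.mul ((hMc.const_add 1).pow _)).const_mul _).intervalIntegrable _ _
        · intro t ht
          have b1 := hE T a1 t ht.1 ht.2
          have b2 : 0 ≤ Mk T 1 t := Mk_nonneg T 1 t hTone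
          have b3 : ‖EES P B0 r F s T t‖ ^ 4 ≤ (C1 * (1 + Mk T 1 t) ^ (2 * B0)) ^ 4 :=
            pow_le_pow_left₀ (norm_nonneg _) b1 4
          have b4 : (C1 * (1 + Mk T 1 t) ^ (2 * B0)) ^ 4 =
              C1 ^ 4 * (1 + Mk T 1 t) ^ (8 * B0) := by
            rw [mul_pow, ← pow_mul]
            congr 2
            ring
          calc wt t0 (dd P.κ T) t * ‖EES P B0 r F s T t‖ ^ 4
              ≤ wt t0 (dd P.κ T) t * (C1 ^ 4 * (1 + Mk T 1 t) ^ (8 * B0)) := by
                rw [← b4]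
                exact mul_le_mul_of_nonneg_left b3 (wt_nonneg _ _ _)
            _ = _ := by ring
    _ = C1 ^ 4 * ∫ t in (T + 2 * Real.log T)..(2 * T - 2 * Real.log T),
        (wt t0 (dd P.κ T) t * (1 + Mk T 1 t) ^ (8 * B0)) := intervalIntegral.integral_const_mul _ _
    _ ≤ C1 ^ 4 * (C2 * dd P.κ T) := mul_le_mul_of_nonneg_left (hM T a2 t0) (by positivity)
    _ = C1 ^ 4 * C2 * dd P.κ T := by ring

end LOCLAux

set_option maxHeartbeats 4000000 in
open LOCLAux Pool.Agent.KS6_1.SI.ManyAux LG.LocAux _root_.LG.LocAux in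
/-- **many large `k`-gaps near every `t0`** -/
theorem LOCL_of (h1 : MLIM) (h2 : EESB) (h3 : MKM) (h4 : ZLOW) (h5 : ORDL) (h6 : PARC) : LOCL := by
  classical
  intro hRH P B0 hB hνκ r hr F q s hs hq hSF k c hk hc hstrict
  have hpi := Real.pi_pos
  have hk1 : (1 : ℝ) ≤ k := by exact_mod_cast hk
  have hk0 : (0 : ℝ) < k := by linarith
  obtain ⟨η, δ, A1, hη, _, hδ, hA1, hpar⟩ := h6 P B0 r F q s c (c - k) 1 one_pos hstrict
  set S0 := SF B0 F q with hS0
  -- the smoothing parameters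
  set e1 := min (1 / 4) (δ / (2 * k * S0)) with he1
  have he10 : 0 < e1 := by rw [he1]; exact lt_min (by norm_num) (by positivity)
  have he14 : e1 ≤ 1 / 4 := min_le_left _ _
  have he1S : 2 * e1 * k * S0 ≤ δ := by
    have : e1 ≤ δ / (2 * k * S0) := min_le_right _ _
    rw [le_div_iff₀ (by positivity)] at this
    linarith
  have hc1 : 0 < c + 2 * η := by linarith
  obtain ⟨A0, hA0, hge⟩ := LG.gK_ge (c + η) (c + 2 * η) e1 (by linarith) (by linarith) he10
  set A := max A0 A1 with hA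
  have hApos : 0 < A := lt_of_lt_of_le hA0 (le_max_left _ _)
  have hst := hpar A (c + 2 * η) (le_max_right _ _) (by
    rw [add_sub_cancel_left, abs_of_pos (by positivity)])
  have hge' := hge A (le_max_left _ _)
  have hg0 : ∀ x, 0 ≤ gK A (c + 2 * η) x := fun x => (LG.gK_bounds A (c + 2 * η) x hApos hc1).1
  have hgc : Continuous (gK A (c + 2 * η)) := LG.gK_continuous A (c + 2 * η)
  obtain ⟨TA, hTA, hlow⟩ := mean_lower P B0 r F q s A (c + 2 * η) δ e1 k
    (h1 hRH P B0 hB hνκ r hr F q s hs hq A (c + 2 * η) hApos hc1) hSF hδ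
    he10 he14 he1S (by linarith)
  set ρ := S0 * δ with hρ
  have hρ0 : 0 < ρ := by positivity
  obtain ⟨C4, TF, hC4, hTF, hmom⟩ := mom4 h2 h3 hRH P B0 hB r hr F s hs
  obtain ⟨TZ, hTZ, hzlow⟩ := h4 A (c + 2 * η) (c + η) e1 hApos (by linarith) (by linarith) he10
    (by linarith) hge'
  set e := ρ / (4 * C4) with he
  have he0 : 0 < e := by positivity
  have heC : e * C4 = ρ / 4 := by rw [he]; field_simp
  obtain ⟨X, TG, hX, hTG, hG⟩ := LG.GAPTAIL hRH P.κ P.hκ P.hκ1 (ρ * e / (2 * k ^ 3)) (by positivity)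
  have hX0 : 0 < X := by linarith
  obtain ⟨M, hM0, hMe⟩ := exists_M (ρ * e / (6 * k ^ 2)) (by positivity)
  obtain ⟨TN, hTN⟩ := NZ_pos_large
  set g := 1 / (1 - 2 * e1) with hgdef
  have hg1 : 0 < 1 - 2 * e1 := by linarith
  have hgpos : 0 < g := by positivity
  -- largeness of `T`
  set R := Real.pi * (c + η) with hR
  have hR0 : 0 < R := by positivity
  obtain ⟨T1, hT1⟩ := (Real.tendsto_log_atTop.eventually_ge_atTop
    (max 1 (max (6 * k * X) R))).exists_forall_of_atTop
  obtain ⟨T2, hT2⟩ := (Real.isLittleO_log_id_atTop.bound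
    (by norm_num : (0 : ℝ) < 1 / 4)).exists_forall_of_atTop
  refine ⟨η, ρ * e / (6 * k ^ 3 * X), M + 1, max (max (max TA TF) TZ) (max (max TG TN) (max T1 T2)),
    hη, by positivity, by linarith,
    hTA.trans ((le_max_left _ _).trans ((le_max_left _ _).trans (le_max_left _ _))), ?_⟩
  intro T hT t0 ht0 ht1
  simp only [max_le_iff] at hT
  obtain ⟨⟨⟨eA, eF⟩, eZ⟩, ⟨eG, eN⟩, e1', e2'⟩ := hT
  have hT10 : 10 ≤ T := hTA.trans eA
  have hTone : 1 ≤ T := by linarith
  have hTpos : 0 < T := by linarith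
  have hLB := hT1 T e1'
  simp only [max_le_iff] at hLB
  obtain ⟨hL1, hLX, hLR2⟩ := hLB
  obtain ⟨G, hGc, hGn, hGone, hGint⟩ := hG T eG
  have hlowT := hlow T eA t0 ht0 ht1
  have hmomT := hmom T eF t0
  have hzT := hzlow T eZ
  unfold NLarge
  set L := Real.log T with hL
  have hL0 : 0 < L := by linarith
  have hLT : 4 * L ≤ T := by
    have := hT2 T e2'
    simp only [id, Real.norm_eq_abs] at this
    rw [abs_of_pos hTpos] at this
    have h := le_abs_self (Real.log T)
    rw [← hL] at h this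
    linarith
  set Δ := dd P.κ T with hΔ
  have hΔ1 : 1 ≤ Δ := dd_ge_one hTone P.hκ1
  have hΔ0 : 0 < Δ := by linarith
  set V1 := T + 2 * L with hV1
  set V2 := 2 * T - 2 * L with hV2
  have hV : V1 ≤ V2 := by rw [hV1, hV2]; linarith
  set w : ℝ → ℝ := wt t0 Δ with hw
  have hw0 : ∀ t, 0 ≤ w t := fun t => wt_nonneg _ _ _
  have hw1 : ∀ t, w t ≤ 1 := fun t => wt_le_one _ _ _
  have hwc : Continuous w := wt_cont _ _
  set En : ℝ → ℝ := fun t => ‖EES P B0 r F s T t‖ with hEn
  have hEc : Continuous En := (EES_cont P B0 r F s T).norm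
  set Z : ℝ → ℝ := fun t => Zs A (c + 2 * η) T t with hZ
  have hZc : Continuous Z := Zs_cont A (c + 2 * η) T hTone hgc
  have hZ0 : ∀ t, 0 ≤ Z t := fun t => Zs_nonneg A (c + 2 * η) T t hTone hg0
  set d := X / L with hd
  have hd0 : 0 < d := by positivity
  have hd1 : 6 * k * d ≤ 1 := by
    rw [hd, mul_div_assoc', div_le_one hL0]; exact hLX
  -- the index set
  have hfin : {n : ℕ | 1 ≤ n ∧ |ord n - t0| ≤ (M + 1) * Δ ∧
      2 * Real.pi * (c + η) / L < ord (n + k) - ord n}.Finite :=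
    (idx_finite t0 ((M + 1) * Δ)).subset (fun n hn => ⟨hn.1, hn.2.1⟩)
  set N := hfin.toFinset with hN
  have hcard : {n : ℕ | 1 ≤ n ∧ |ord n - t0| ≤ (M + 1) * Δ ∧
      2 * Real.pi * (c + η) / L < ord (n + k) - ord n}.ncard = N.card :=
    Set.ncard_eq_toFinset_card _ hfin
  rw [hcard]
  set N' := N.filter (fun n => ord (n + k) - ord n ≤ 6 * k * d) with hN'
  have hN'm : ∀ n ∈ N', 1 ≤ n ∧ ord (n + k) - ord n ≤ 6 * k * d := by
    intro n hn
    rw [hN', Finset.mem_filter, hN, Set.Finite.mem_toFinset] at hn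
    exact ⟨hn.1.1, hn.2⟩
  set S : ℝ → ℝ := fun t => ∑ n ∈ N',
    (Set.Icc (ord n) (ord (n + k))).indicator (fun _ => (1 : ℝ)) t with hSdef
  have hSn : ∀ t, 0 ≤ S t := fun t =>
    Finset.sum_nonneg (fun n _ => Set.indicator_nonneg (fun _ _ => zero_le_one) t)
  have hSi : ∀ n ∈ N', IntervalIntegrable (fun t => (Set.Icc (ord n)
      (ord (n + k))).indicator (fun _ => (1 : ℝ)) t) volume V1 V2 := fun n hn =>
    (ind_int (ord n) (ord (n + k)) V1 V2 (SG.ord_mono (hN'm n hn).1 (by omega)) hV).1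
  have iS : IntervalIntegrable S volume V1 V2 := by
    have h1 := IntervalIntegrable.sum N' hSi
    have h2 : (∑ n ∈ N', (fun t => (Set.Icc (ord n)
      (ord (n + k))).indicator (fun _ => (1 : ℝ)) t)) = S := by
      funext t
      rw [Finset.sum_apply]
    rw [← h2]
    exact h1
  have I4 : ∫ t in V1..V2, S t ≤ N.card * (6 * k * d) := by
    rw [hSdef, intervalIntegral.integral_finsetSum hSi]
    calc _ ≤ ∑ n ∈ N', (6 * k * d) := by
          apply Finset.sum_le_sum
          intro n hn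
          exact ((ind_int (ord n) (ord (n + k)) V1 V2 (SG.ord_mono (hN'm n hn).1 (by omega)) hV).2).trans
            (hN'm n hn).2
      _ = N'.card * (6 * k * d) := by rw [Finset.sum_const, nsmul_eq_mul]
      _ ≤ N.card * (6 * k * d) := by
          have : (N'.card : ℝ) ≤ N.card := by exact_mod_cast Finset.card_filter_le _ _
          exact mul_le_mul_of_nonneg_right this (by positivity)
  -- the sum of the shifted majorants
  set GG : ℝ → ℝ := fun t => ∑ j ∈ Finset.range k,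
    (w t * G (t + (3 * j + 1) * d) + w t * G (t + -((3 * j + 1) * d))) with hGG
  have hGGt : ∀ t, ∀ j ∈ Finset.range k,
      0 ≤ w t * G (t + (3 * j + 1) * d) + w t * G (t + -((3 * j + 1) * d)) := fun t j _ =>
    add_nonneg (mul_nonneg (hw0 t) (hGn _)) (mul_nonneg (hw0 t) (hGn _))
  have hGGn : ∀ t, 0 ≤ GG t := fun t => Finset.sum_nonneg (hGGt t)
  have hGGc : Continuous GG := by
    rw [hGG]
    apply continuous_finsetSum
    intro j _
    exact (hwc.mul (hGc.comp (continuous_id.add continuous_const))).add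
      (hwc.mul (hGc.comp (continuous_id.add continuous_const)))
  have hshift : ∀ j ∈ Finset.range k, 0 < (3 * (j : ℝ) + 1) * d ∧ (3 * (j : ℝ) + 1) * d ≤ L := by
    intro j hj
    have hj1 : (j : ℝ) + 1 ≤ k := by exact_mod_cast Finset.mem_range.mp hj
    constructor
    · positivity
    · have : (3 * (j : ℝ) + 1) * d ≤ (6 * k) * d :=
        mul_le_mul_of_nonneg_right (by linarith) hd0.le
      linarith
  -- pointwise bound
  have hpt : ∀ t ∈ Set.Icc V1 V2, k * (w t * En t ^ 2) - g * (w t * En t ^ 2 * Z t) ≤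
      e * (w t * En t ^ 4) + k ^ 2 / (4 * e) * S t + k ^ 2 / (4 * e) * GG t +
      k ^ 2 / (4 * e) * Real.exp (-M ^ 2 / 4) * wt t0 (2 * Δ) t := by
    intro t ht
    have htV1 : T + 2 * L ≤ t := ht.1
    have htV2 : t ≤ 2 * T - 2 * L := ht.2
    have hE0 : 0 ≤ Real.exp (-M ^ 2 / 4) * wt t0 (2 * Δ) t :=
      mul_nonneg (Real.exp_pos _).le (wt_nonneg _ _ _)
    set b1 : ℝ := if NZ (t + R / L) < NZ (t - R / L) + k then 1 else 0 with hb1
    have hb10 : 0 ≤ b1 := by rw [hb1]; split_ifs <;> norm_num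
    have hdich : (k : ℝ) ≤ g * Z t ∨ 1 ≤ b1 := by
      by_cases hno : NZ (t + R / L) < NZ (t - R / L) + k
      · right
        rw [hb1, if_pos hno]
      · left
        push Not at hno
        have a1 := hzT t (by linarith) (by linarith)
        have a2 : (k : ℝ) ≤ NN (R / L) t := by
          unfold NN
          have : ((NZ (t - R / L) + k : ℕ) : ℝ) ≤ (NZ (t + R / L) : ℕ) := by exact_mod_cast hno
          push_cast at this
          linarith
        have a3 : g * (1 - 2 * e1) = 1 := by rw [hgdef]; field_simp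
        have a4 : (1 - 2 * e1) * (k : ℝ) ≤ Z t :=
          (mul_le_mul_of_nonneg_left a2 hg1.le).trans a1
        calc (k : ℝ) = g * ((1 - 2 * e1) * k) := by rw [← mul_assoc, a3, one_mul]
          _ ≤ g * Z t := mul_le_mul_of_nonneg_left a4 hgpos.le
    have h1 := pointwise3 (E := En t) (g := g) (Z := Z t) (k := (k : ℝ)) he0 hgpos.le (hZ0 t)
      hb10 hk0.le hdich
    have h2 := mul_le_mul_of_nonneg_left h1 (hw0 t)
    have h3 : w t * b1 ≤ S t + GG t + Real.exp (-M ^ 2 / 4) * wt t0 (2 * Δ) t := by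
      by_cases hno : NZ (t + R / L) < NZ (t - R / L) + k
      · have hb : b1 = 1 := by rw [hb1, if_pos hno]
        rw [hb, mul_one]
        have hRL : 0 < R / L := by positivity
        have hRL1 : R / L ≤ 1 := by rw [div_le_one hL0]; exact hLR2
        have hNt : 1 ≤ NZ (t - R / L) := hTN _ (by linarith)
        obtain ⟨g1, g2, g3, g4⟩ := h5 T t (R / L) d k hTone hk hRL hd0 (by linarith) hNt hno
        set n := NZ (t - R / L) with hn
        rcases g4 with g4 | ⟨j, hj, g4⟩ | ⟨j, hj, g4⟩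
        · by_cases hn0 : |ord n - t0| ≤ (M + 1) * Δ
          · have hnN : n ∈ N' := by
              rw [hN', Finset.mem_filter, hN, Set.Finite.mem_toFinset]
              refine ⟨⟨hNt, hn0, ?_⟩, g4⟩
              have : 2 * Real.pi * (c + η) / L = 2 * (R / L) := by rw [hR]; ring
              rw [this]
              exact g1
            have h7 : (1 : ℝ) ≤ S t := by
              have h8 : (Set.Icc (ord n) (ord (n + k))).indicator
                  (fun _ => (1 : ℝ)) t = 1 := by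
                apply Set.indicator_of_mem
                exact ⟨g2, g3⟩
              rw [← h8]
              exact Finset.single_le_sum (f := fun n =>
                (Set.Icc (ord n) (ord (n + k))).indicator (fun _ => (1 : ℝ)) t)
                (fun n _ => Set.indicator_nonneg (fun _ _ => zero_le_one) t) hnN
            linarith [hw1 t, hGGn t]
          · push Not at hn0
            have h7 : M * Δ ≤ |t - t0| := by
              have h8 : |ord n - t0| ≤ |ord n - t| + |t - t0| := by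
                have := abs_add_le (ord n - t) (t - t0)
                simpa using this
              have h9 : |ord n - t| ≤ Δ := by
                rw [abs_of_nonpos (by linarith)]
                linarith
              nlinarith
            have := wt_tail t0 Δ t M hΔ0 hM0 h7
            linarith [hSn t, hGGn t]
        · have hjm : j ∈ Finset.range k := Finset.mem_range.mpr hj
          obtain ⟨s1, s2⟩ := hshift j hjm
          have h8 := hGone (t + (3 * j + 1) * d) (by linarith) (by linarith) g4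
          have h9 : w t ≤ w t * G (t + (3 * j + 1) * d) := le_mul_of_one_le_right (hw0 t) h8
          have h10 : w t * G (t + (3 * j + 1) * d) + w t * G (t + -((3 * j + 1) * d)) ≤ GG t :=
            Finset.single_le_sum (f := fun j : ℕ =>
              w t * G (t + (3 * j + 1) * d) + w t * G (t + -((3 * j + 1) * d))) (hGGt t) hjm
          have h11 : 0 ≤ w t * G (t + -((3 * j + 1) * d)) := mul_nonneg (hw0 t) (hGn _)
          linarith [hSn t]
        · have hjm : j ∈ Finset.range k := Finset.mem_range.mpr hj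
          obtain ⟨s1, s2⟩ := hshift j hjm
          have h8 := hGone (t + -((3 * j + 1) * d)) (by linarith) (by linarith) (by
            intro z hz
            have := g4 z hz
            rwa [sub_eq_add_neg t] at this)
          have h9 : w t ≤ w t * G (t + -((3 * j + 1) * d)) := le_mul_of_one_le_right (hw0 t) h8
          have h10 : w t * G (t + (3 * j + 1) * d) + w t * G (t + -((3 * j + 1) * d)) ≤ GG t :=
            Finset.single_le_sum (f := fun j : ℕ =>
              w t * G (t + (3 * j + 1) * d) + w t * G (t + -((3 * j + 1) * d))) (hGGt t) hjm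
          have h11 : 0 ≤ w t * G (t + (3 * j + 1) * d) := mul_nonneg (hw0 t) (hGn _)
          linarith [hSn t]
      · have hb : b1 = 0 := by rw [hb1, if_neg hno]
        rw [hb, mul_zero]
        linarith [hSn t, hGGn t]
    have h4 : k ^ 2 / (4 * e) * (w t * b1) ≤ k ^ 2 / (4 * e) * (S t + GG t +
        Real.exp (-M ^ 2 / 4) * wt t0 (2 * Δ) t) :=
      mul_le_mul_of_nonneg_left h3 (by positivity)
    have e3 : k * (w t * En t ^ 2) - g * (w t * En t ^ 2 * Z t) =
        w t * (En t ^ 2 * (k - g * Z t)) := by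
      ring
    rw [e3]
    refine h2.trans ?_
    have e4 : w t * (e * En t ^ 4 + k ^ 2 / (4 * e) * b1) =
        e * (w t * En t ^ 4) + k ^ 2 / (4 * e) * (w t * b1) := by ring
    rw [e4]
    linarith
  -- integrability
  have i0 : IntervalIntegrable (fun t => w t * En t ^ 2) volume V1 V2 :=
    (hwc.mul (hEc.pow 2)).intervalIntegrable _ _
  have i0' : IntervalIntegrable (fun t => w t * En t ^ 2 * Z t) volume V1 V2 :=
    ((hwc.mul (hEc.pow 2)).mul hZc).intervalIntegrable _ _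
  have i2 : IntervalIntegrable (fun t => w t * En t ^ 4) volume V1 V2 :=
    (hwc.mul (hEc.pow 4)).intervalIntegrable _ _
  have i5 : IntervalIntegrable (fun t => wt t0 (2 * Δ) t) volume V1 V2 :=
    (wt_cont _ _).intervalIntegrable _ _
  have iGG : IntervalIntegrable GG volume V1 V2 := hGGc.intervalIntegrable _ _
  have iG : ∀ x : ℝ, IntervalIntegrable (fun t => w t * G (t + x)) volume V1 V2 := fun x =>
    (hwc.mul (hGc.comp (continuous_id.add continuous_const))).intervalIntegrable _ _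
  -- the integrals
  have I5 : ∫ t in V1..V2, wt t0 (2 * Δ) t ≤ 6 * Δ := by
    have h1 := wt_int t0 (2 * Δ) V1 V2 (by positivity) hV
    have h2 : Real.sqrt (2 * Real.pi) * (2 * Δ) ≤ 3 * (2 * Δ) :=
      mul_le_mul_of_nonneg_right sqrt_two_pi_le (by positivity)
    linarith
  have IG : ∀ x : ℝ, |x| ≤ L → ∫ t in V1..V2, w t * G (t + x) ≤ ρ * e / (2 * k ^ 3) * Δ := by
    intro x hx
    rw [hw, int_shift]
    rw [abs_le] at hx
    exact hGint (t0 + x) (V1 + x) (V2 + x) (by linarith) (by linarith) (by linarith)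
  have IGG : ∫ t in V1..V2, GG t ≤ ρ * e / k ^ 2 * Δ := by
    rw [hGG, intervalIntegral.integral_finsetSum (fun j _ => (iG _).add (iG _))]
    calc _ ≤ ∑ j ∈ Finset.range k, (ρ * e / k ^ 3 * Δ) := by
          apply Finset.sum_le_sum
          intro j hj
          obtain ⟨s1, s2⟩ := hshift j hj
          rw [intervalIntegral.integral_add (iG _) (iG _)]
          have a1 := IG ((3 * j + 1) * d) (by rw [abs_of_pos s1]; exact s2)
          have a2 := IG (-((3 * j + 1) * d)) (by rw [abs_neg, abs_of_pos s1]; exact s2)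
          have a3 : ρ * e / k ^ 3 * Δ = ρ * e / (2 * k ^ 3) * Δ + ρ * e / (2 * k ^ 3) * Δ := by
            field_simp
            ring
          rw [a3]
          exact add_le_add a1 a2
      _ = k * (ρ * e / k ^ 3 * Δ) := by rw [Finset.sum_const, Finset.card_range, nsmul_eq_mul]
      _ = ρ * e / k ^ 2 * Δ := by field_simp
  have hint := intervalIntegral.integral_mono_on hV ((i0.const_mul (k : ℝ)).sub (i0'.const_mul g))
    ((((i2.const_mul e).add (iS.const_mul (k ^ 2 / (4 * e)))).add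
      (iGG.const_mul (k ^ 2 / (4 * e)))).add
      (i5.const_mul (k ^ 2 / (4 * e) * Real.exp (-M ^ 2 / 4)))) hpt
  rw [intervalIntegral.integral_sub (i0.const_mul (k : ℝ)) (i0'.const_mul g),
    intervalIntegral.integral_add
    (((i2.const_mul e).add (iS.const_mul (k ^ 2 / (4 * e)))).add
      (iGG.const_mul (k ^ 2 / (4 * e))))
      (i5.const_mul (k ^ 2 / (4 * e) * Real.exp (-M ^ 2 / 4))),
    intervalIntegral.integral_add
    ((i2.const_mul e).add (iS.const_mul (k ^ 2 / (4 * e)))) (iGG.const_mul (k ^ 2 / (4 * e))),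
    intervalIntegral.integral_add (i2.const_mul e) (iS.const_mul (k ^ 2 / (4 * e))),
    intervalIntegral.integral_const_mul, intervalIntegral.integral_const_mul,
    intervalIntegral.integral_const_mul, intervalIntegral.integral_const_mul,
    intervalIntegral.integral_const_mul, intervalIntegral.integral_const_mul] at hint
  have hlow2 : ρ * Δ ≤ k * (∫ t in V1..V2, w t * En t ^ 2) -
      g * ∫ t in V1..V2, w t * En t ^ 2 * Z t := hlowT
  have J2 := mul_le_mul_of_nonneg_left hmomT he0.le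
  have J4 := mul_le_mul_of_nonneg_left I4 (by positivity : 0 ≤ k ^ 2 / (4 * e))
  have JG := mul_le_mul_of_nonneg_left IGG (by positivity : 0 ≤ k ^ 2 / (4 * e))
  have J5 := mul_le_mul_of_nonneg_left I5
    (by positivity : 0 ≤ k ^ 2 / (4 * e) * Real.exp (-M ^ 2 / 4))
  have K5 : k ^ 2 / (4 * e) * Real.exp (-M ^ 2 / 4) * (6 * Δ) ≤ ρ / 4 * Δ := by
    calc k ^ 2 / (4 * e) * Real.exp (-M ^ 2 / 4) * (6 * Δ) ≤
        k ^ 2 / (4 * e) * (ρ * e / (6 * k ^ 2)) * (6 * Δ) := by gcongr
      _ = ρ / 4 * Δ := by field_simp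
  have KG : k ^ 2 / (4 * e) * (ρ * e / k ^ 2 * Δ) = ρ / 4 * Δ := by
    field_simp
  have K2 : e * (C4 * Δ) = ρ / 4 * Δ := by rw [← mul_assoc, heC]
  rw [KG] at JG
  rw [K2] at J2
  have K : ρ / 4 * Δ ≤ k ^ 2 / (4 * e) * (N.card * (6 * k * d)) := by linarith
  have e5 : k ^ 2 / (4 * e) * (N.card * (6 * k * d)) = N.card * (6 * k ^ 3 * X) / (4 * e * L) := by
    rw [hd]
    field_simp
  rw [e5, le_div_iff₀ (by positivity)] at K
  have e6 : ρ * e / (6 * k ^ 3 * X) * Δ * L = (ρ / 4 * Δ * (4 * e * L)) / (6 * k ^ 3 * X) := by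
    field_simp
  rw [e6, div_le_iff₀ (by positivity)]
  exact K

end Pool.Agent.KS6_1.SR.RGap
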