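import Pool.Agent.KS6_1.SR.Stubs

/-! # r-gaps, task LOCS: many small `k`-gaps near every `t0` -/

open Complex Filter Topology Set MeasureTheory

namespace Pool.Agent.KS6_1.SR.RGap

variable [Pool.Agent.KS6_1.SI.Nu]

open SG (hh nn dl ord NZ)
open SP (RHs ZZ mu wt Mk qq tt)
open Pool.Agent.KS6_1.SI (Par Eb PS chi dd Nu)
open _root_.LG (gK gh Zs bk lk nA IsQ SF SM)
open Pool.Agent.KS6_1.SR.LG (fam prs yp ae EE Cn QT tm sm sm0)
open _root_.RGap

namespace LocsAux

theorem wt_cont (t0 D : ℝ) : Continuous (wt t0 D) := by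
  unfold wt
  fun_prop

theorem wt_nonneg (t0 D t : ℝ) : 0 ≤ wt t0 D t := (Real.exp_pos _).le

theorem wt_le_one (t0 D t : ℝ) : wt t0 D t ≤ 1 := by
  unfold wt
  rw [Real.exp_le_one_iff]
  apply div_nonpos_of_nonpos_of_nonneg
  · nlinarith [sq_nonneg (t - t0)]
  · positivity

theorem wt_eq (t0 D t : ℝ) : wt t0 D t = Real.exp (-(1 / (2 * D ^ 2)) * (t - t0) ^ 2) := by
  unfold wt
  congr 1
  ring

theorem wt_integrable (t0 D : ℝ) (hD : 0 < D) : Integrable (wt t0 D) := by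
  have h := (integrable_exp_neg_mul_sq (b := 1 / (2 * D ^ 2)) (by positivity)).comp_sub_right t0
  refine h.congr (Filter.Eventually.of_forall fun t => ?_)
  simp only [wt_eq]

theorem wt_total (t0 D : ℝ) (hD : 0 < D) : ∫ t, wt t0 D t = Real.sqrt (2 * Real.pi) * D := by
  have h := integral_gaussian (1 / (2 * D ^ 2))
  have h2 : ∫ t, wt t0 D t = ∫ t : ℝ, Real.exp (-(1 / (2 * D ^ 2)) * (t - t0) ^ 2) :=
    integral_congr_ae (Filter.Eventually.of_forall fun t => wt_eq t0 D t)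
  have h3 := integral_sub_right_eq_self (μ := volume)
    (fun t : ℝ => Real.exp (-(1 / (2 * D ^ 2)) * t ^ 2)) t0
  rw [h2, h3, h]
  have e : Real.pi / (1 / (2 * D ^ 2)) = (2 * Real.pi) * D ^ 2 := by field_simp
  rw [e, Real.sqrt_mul (by positivity), Real.sqrt_sq hD.le]

theorem wt_int (t0 D V1 V2 : ℝ) (hD : 0 < D) (h : V1 ≤ V2) :
    ∫ t in V1..V2, wt t0 D t ≤ Real.sqrt (2 * Real.pi) * D := by
  rw [intervalIntegral.integral_of_le h, ← wt_total t0 D hD]
  exact setIntegral_le_integral (wt_integrable t0 D hD)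
    (Filter.Eventually.of_forall fun t => wt_nonneg t0 D t)

theorem sqrt_two_pi_le : Real.sqrt (2 * Real.pi) ≤ 3 := by
  rw [Real.sqrt_le_left (by norm_num)]
  have := Real.pi_lt_four
  linarith

theorem two_le_sqrt_two_pi : 2 ≤ Real.sqrt (2 * Real.pi) := by
  apply Real.le_sqrt_of_sq_le
  have := Real.pi_gt_three
  linarith

/-- tail of the Gaussian -/
theorem wt_tail (t0 D t M : ℝ) (hD : 0 < D) (hM : 0 ≤ M) (h : M * D ≤ |t - t0|) :
    wt t0 D t ≤ Real.exp (-M ^ 2 / 4) * wt t0 (2 * D) t := by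
  unfold wt
  rw [← Real.exp_add, Real.exp_le_exp]
  have h1 : (M * D) ^ 2 ≤ (t - t0) ^ 2 := by
    rw [← sq_abs (t - t0)]
    exact pow_le_pow_left₀ (by positivity) h 2
  rw [mul_pow] at h1
  have h2 : M ^ 2 ≤ (t - t0) ^ 2 / D ^ 2 := by
    rw [le_div_iff₀ (by positivity)]; exact h1
  have e1 : -(t - t0) ^ 2 / (2 * D ^ 2) = -((t - t0) ^ 2 / D ^ 2) / 2 := by field_simp
  have e2 : -(t - t0) ^ 2 / (2 * (2 * D) ^ 2) = -((t - t0) ^ 2 / D ^ 2) / 8 := by field_simp; ring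
  rw [e1, e2]
  linarith [sq_nonneg M]

theorem ZZ_finite (T : ℝ) (hT : 1 ≤ T) : (ZZ T).Finite :=
  H370.zset_finite H370.good_zeta T (2 * T) hT

theorem Mk_eq (T k t : ℝ) (hT : 1 ≤ T) : Mk T k t = ∑ s ∈ (ZZ_finite T hT).toFinset,
    (mu s : ℝ) * Real.exp (-(s.im - t) ^ 2 / 2) / (1 + (Real.log T * (s.im - t) / k) ^ 2) :=
  finsum_mem_eq_finite_toFinset_sum _ (ZZ_finite T hT)

theorem Mk_cont (T k : ℝ) (hT : 1 ≤ T) : Continuous (fun t => Mk T k t) := by
  have h : (fun t => Mk T k t) = fun t => ∑ s ∈ (ZZ_finite T hT).toFinset,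
    (mu s : ℝ) * Real.exp (-(s.im - t) ^ 2 / 2) / (1 + (Real.log T * (s.im - t) / k) ^ 2) := by
    funext t
    exact Mk_eq T k t hT
  rw [h]
  apply continuous_finsetSum
  intro s _
  apply Continuous.div
  · fun_prop
  · fun_prop
  · intro t
    positivity

theorem Mk_nonneg (T k t : ℝ) (hT : 1 ≤ T) : 0 ≤ Mk T k t := by
  rw [Mk_eq T k t hT]
  apply Finset.sum_nonneg
  intro s _
  positivity

theorem Zs_eq (A c T t : ℝ) (hT : 1 ≤ T) : Zs A c T t = ∑ s ∈ (ZZ_finite T hT).toFinset,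
    (mu s : ℝ) * Real.exp (-(s.im - t) ^ 2 / 2) * gK A c (Real.log T * (s.im - t)) :=
  finsum_mem_eq_finite_toFinset_sum _ (ZZ_finite T hT)

theorem gK_cont (A c : ℝ) : Continuous (gK A c) := by
  unfold gK
  apply intervalIntegral.continuous_parametric_intervalIntegral_of_continuous'
  unfold Function.uncurry
  fun_prop

theorem Zs_cont (A c T : ℝ) (hT : 1 ≤ T) : Continuous (fun t => Zs A c T t) := by
  have h : (fun t => Zs A c T t) = fun t => ∑ s ∈ (ZZ_finite T hT).toFinset,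
    (mu s : ℝ) * Real.exp (-(s.im - t) ^ 2 / 2) * gK A c (Real.log T * (s.im - t)) := by
    funext t
    exact Zs_eq A c T t hT
  rw [h]
  apply continuous_finsetSum
  intro s _
  apply Continuous.mul
  · fun_prop
  · exact (gK_cont A c).comp (by fun_prop)

theorem EES_cont (P : Par) (B0 : ℕ) (r : ℝ) (F s : ℕ → ℝ) (T : ℝ) :
    Continuous (fun t => EES P B0 r F s T t) := by
  unfold EES
  apply continuous_finsetSum
  intro q _
  fun_prop

/-- finiteness of the index set -/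
theorem idx_finite (A B : ℝ) : {n : ℕ | 1 ≤ n ∧ |ord n - A| ≤ B}.Finite := by
  refine (Set.finite_Iic (NZ (A + B))).subset ?_
  rintro n ⟨hn, h⟩
  rw [abs_le] at h
  exact (SG.ord_le_iff hn _).mp (by linarith)

/-- integral of the indicator of an interval -/
theorem ind_int (a b V1 V2 : ℝ) (hab : a ≤ b) (hV : V1 ≤ V2) :
    IntervalIntegrable ((Set.Icc a b).indicator (fun _ => (1 : ℝ))) volume V1 V2 ∧
    ∫ t in V1..V2, (Set.Icc a b).indicator (fun _ => (1 : ℝ)) t ≤ b - a := by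
  have hi : Integrable ((Set.Icc a b).indicator (fun _ => (1 : ℝ))) := by
    rw [integrable_indicator_iff measurableSet_Icc]
    exact integrableOn_const (by simp) (by simp)
  refine ⟨hi.intervalIntegrable, ?_⟩
  rw [intervalIntegral.integral_of_le hV]
  refine (setIntegral_le_integral hi (Filter.Eventually.of_forall fun t => ?_)).trans ?_
  · exact Set.indicator_nonneg (fun _ _ => zero_le_one) t
  · rw [integral_indicator measurableSet_Icc]
    simp [hab]

theorem exists_M (x : ℝ) (hx : 0 < x) : ∃ M : ℝ, 0 ≤ M ∧ Real.exp (-M ^ 2 / 4) ≤ x := by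
  refine ⟨4 * max 1 (Real.log (1 / x)), by positivity, ?_⟩
  have h1 : 1 ≤ max 1 (Real.log (1 / x)) := le_max_left _ _
  have h2 : Real.log (1 / x) ≤ max 1 (Real.log (1 / x)) := le_max_right _ _
  set m := max 1 (Real.log (1 / x))
  have h3 : -(4 * m) ^ 2 / 4 ≤ -Real.log (1 / x) := by nlinarith
  calc Real.exp (-(4 * m) ^ 2 / 4) ≤ Real.exp (-Real.log (1 / x)) := Real.exp_le_exp.mpr h3
    _ = x := by
      rw [one_div, Real.log_inv, neg_neg, Real.exp_log hx]

/-- the pointwise inequality: `E ≤ CE m^{2B0}`, `Z ≤ N + ee * Y`, `N ≤ CN * Y`, `Y ≤ m`, and either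
`N ≤ k` or `1 ≤ b`. -/
theorem pointwise {E Z N Y m ee e CE CN k b : ℝ} {B0 : ℕ} (he : 0 < e) (hee : 0 ≤ ee)
    (hee1 : ee ≤ 1) (hE : 0 ≤ E) (hY : 0 ≤ Y) (hm : 1 ≤ m) (hYm : Y ≤ m) (_hCE : 0 ≤ CE)
    (hCN : 0 ≤ CN) (hk : 0 ≤ k) (hb : 0 ≤ b) (hEm : E ≤ CE * m ^ (2 * B0))
    (hZ : Z ≤ N + ee * Y) (hN : N ≤ CN * Y) (h : N ≤ k ∨ 1 ≤ b) :
    E ^ 2 * (Z - k) ≤ ee * CE ^ 2 * m ^ (4 * B0 + 1) +
      e * ((CN + 1) ^ 2 * CE ^ 4) * m ^ (8 * B0 + 2) + 1 / (4 * e) * b := by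
  have hm0 : 0 < m := by linarith
  have h1 : E ^ 2 ≤ CE ^ 2 * m ^ (4 * B0) := by
    calc E ^ 2 ≤ (CE * m ^ (2 * B0)) ^ 2 := pow_le_pow_left₀ hE hEm 2
      _ = CE ^ 2 * m ^ (4 * B0) := by rw [mul_pow, ← pow_mul]; ring_nf
  have h2 : 0 ≤ e * ((CN + 1) ^ 2 * CE ^ 4) * m ^ (8 * B0 + 2) := by positivity
  have h3 : 0 ≤ 1 / (4 * e) * b := by positivity
  have h4 : 0 ≤ ee * CE ^ 2 * m ^ (4 * B0 + 1) := by positivity
  have h5 : E ^ 2 * Y ≤ CE ^ 2 * m ^ (4 * B0 + 1) := by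
    calc E ^ 2 * Y ≤ (CE ^ 2 * m ^ (4 * B0)) * m := by gcongr
      _ = CE ^ 2 * m ^ (4 * B0 + 1) := by rw [pow_succ]; ring
  rcases h with h | h
  · have h6 : E ^ 2 * (Z - k) ≤ E ^ 2 * (ee * Y) :=
      mul_le_mul_of_nonneg_left (by linarith) (by positivity)
    have h7 : E ^ 2 * (ee * Y) = ee * (E ^ 2 * Y) := by ring
    have h8 : ee * (E ^ 2 * Y) ≤ ee * (CE ^ 2 * m ^ (4 * B0 + 1)) :=
      mul_le_mul_of_nonneg_left h5 hee
    linarith
  · have h6 : Z - k ≤ (CN + 1) * Y := by nlinarith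
    have h7 : E ^ 2 * (Z - k) ≤ (CN + 1) * (CE ^ 2 * m ^ (4 * B0 + 1)) := by
      calc E ^ 2 * (Z - k) ≤ E ^ 2 * ((CN + 1) * Y) :=
            mul_le_mul_of_nonneg_left h6 (by positivity)
        _ = (CN + 1) * (E ^ 2 * Y) := by ring
        _ ≤ (CN + 1) * (CE ^ 2 * m ^ (4 * B0 + 1)) := by gcongr
    set y := (CN + 1) * (CE ^ 2 * m ^ (4 * B0 + 1)) with hy
    have h8 : y ≤ e * y ^ 2 + 1 / (4 * e) := by
      have : 0 ≤ e * (y - 1 / (2 * e)) ^ 2 := by positivity
      have e1 : e * (y - 1 / (2 * e)) ^ 2 = e * y ^ 2 - y + 1 / (4 * e) := by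
        field_simp
        ring
      linarith
    have h9 : e * y ^ 2 = e * ((CN + 1) ^ 2 * CE ^ 4) * m ^ (8 * B0 + 2) := by
      rw [hy]
      have : m ^ (8 * B0 + 2) = (m ^ (4 * B0 + 1)) ^ 2 := by rw [← pow_mul]; ring_nf
      rw [this]
      ring
    have h10 : 1 / (4 * e) ≤ 1 / (4 * e) * b := le_mul_of_one_le_right (by positivity) h
    linarith

theorem arith_low {X W A' SF δ δ' Dl k r0 Q : ℝ} (g1 : W - A' * SF ^ 2 ≤ δ' * Dl)
    (g2 : -(δ' * Dl) ≤ X - A' * (SF * Q)) (g3 : k * SF + 3 * δ ≤ Q) (hA : 2 * Dl ≤ A')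
    (hSF : 0 < SF) (hδ : 0 < δ) (hk : 0 ≤ k) (hδ' : (1 + k) * δ' = 2 * r0) (hr : r0 = SF * δ)
    (hD : 0 < Dl) : 4 * r0 * Dl ≤ X - k * W := by
  have hA0 : 0 < A' := by linarith
  have a1 : A' * (SF * (k * SF + 3 * δ)) ≤ A' * (SF * Q) := by gcongr
  have a2 : k * (W - A' * SF ^ 2) ≤ k * (δ' * Dl) := mul_le_mul_of_nonneg_left g1 hk
  have a3 : 2 * Dl * (SF * (3 * δ)) ≤ A' * (SF * (3 * δ)) :=
    mul_le_mul_of_nonneg_right hA (by positivity)
  have a4 : (1 + k) * δ' * Dl = 2 * r0 * Dl := by rw [hδ']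
  subst hr
  linarith

end LocsAux

open LocsAux in
theorem LOCS_of (h1 : MLIM) (h2 : EESB) (h3 : MKM) (h4 : ZUP) (h5 : NZMK) (h6 : ORDS)
    (h7 : PARC) : LOCS := by
  classical
  intro hRH P B0 hB hνκ r hr F q s hs hq hSF k c hk hc hstrict
  -- parameters
  obtain ⟨η, δ, A1, hη, hη0, hδ, hA1, hpar⟩ := h7 P B0 r F q (fun m => -s m) c (k - c) (c / 8)
    (by positivity) (by
      have : LM P B0 r F q (fun m => -s m) c = -LM P B0 r F q s c := by
        unfold LM
        simp only [neg_mul, Finset.sum_neg_distrib, mul_neg]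
      rw [this]
      exact hstrict)
  set c1 : ℝ := c - 2 * η with hc1
  set c2 : ℝ := c - η with hc2
  have hc10 : 0 < c1 := by linarith
  have hc12 : c1 < c2 := by linarith
  have hc20 : 0 < c2 := by linarith
  obtain ⟨CE, TE, hCE, hTE, hE⟩ := h2 hRH P B0 hB r hr F s hs
  obtain ⟨CN, TN, hCN, hTN, hN⟩ := h5 c2 hc20
  obtain ⟨M1, TM1, hM1, hTM1, hMk1⟩ := h3 hRH P.κ P.hκ P.hκ1 (4 * B0 + 1)
  obtain ⟨M2, TM2, hM2, hTM2, hMk2⟩ := h3 hRH P.κ P.hκ P.hκ1 (8 * B0 + 2)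
  set r0 := SF B0 F q * δ with hr0
  have hr00 : 0 < r0 := by positivity
  -- the small parameters
  set ee := min 1 (r0 / (CE ^ 2 * M1)) with hee
  have hee0 : 0 < ee := by rw [hee]; positivity
  have hee1 : ee ≤ 1 := min_le_left _ _
  have hee2 : ee * CE ^ 2 * M1 ≤ r0 := by
    have : ee ≤ r0 / (CE ^ 2 * M1) := min_le_right _ _
    rw [le_div_iff₀ (by positivity)] at this
    linarith
  set e := r0 / ((CN + 1) ^ 2 * CE ^ 4 * M2) with he
  have he0 : 0 < e := by rw [he]; positivity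
  have he2 : e * ((CN + 1) ^ 2 * CE ^ 4) * M2 = r0 := by
    rw [he]; field_simp
  obtain ⟨A0, hA0, hZUP⟩ := h4 c1 c2 ee hc10 hc12 hee0
  set A := max A0 A1 with hA
  have hAA0 : A0 ≤ A := le_max_left _ _
  have hAA1 : A1 ≤ A := le_max_right _ _
  have hApos : 0 < A := lt_of_lt_of_le hA0 hAA0
  obtain ⟨TZ, hTZ, hZ⟩ := hZUP A hAA0
  have hkpos : (1 : ℝ) ≤ k := by exact_mod_cast hk
  set δ' : ℝ := 2 * SF B0 F q * δ / (1 + k) with hδ'
  have hδ'0 : 0 < δ' := by positivity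
  have hδ'1 : (1 + k) * δ' = 2 * r0 := by rw [hδ', hr0]; field_simp
  obtain ⟨TL, hTL, hLim⟩ := h1 hRH P B0 hB hνκ r hr F q s hs hq A c1 hApos hc10 δ' hδ'0
  obtain ⟨M, hM0, hMe⟩ := exists_M (2 * e * r0 / 3) (by positivity)
  -- the parameter inequality
  have hp := hpar A c1 hAA1 (by rw [hc1, abs_le]; constructor <;> linarith)
  set Sg : ℝ := 4 * r / Real.pi * ∑ m ∈ Finset.Icc 2 B0, s m * (sm P A c1 m * SM B0 F q m)
    with hSg
  have hneg : 4 * r / Real.pi * ∑ m ∈ Finset.Icc 2 B0, -s m * (sm P A c1 m * SM B0 F q m) =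
      -Sg := by
    rw [hSg]
    simp only [neg_mul, Finset.sum_neg_distrib, mul_neg]
  have hp' : k * SF B0 F q + 3 * δ ≤ c1 * SF B0 F q - Sg := by
    have h := hp
    simp only [hneg] at h
    have : (k - c + 2 * η) * SF B0 F q = k * SF B0 F q - c1 * SF B0 F q := by rw [hc1]; ring
    linarith
  -- largeness of `T`
  obtain ⟨T1, hT1⟩ := (Real.tendsto_log_atTop.eventually_ge_atTop
    (max 2 (Real.pi * c2))).exists_forall_of_atTop
  obtain ⟨T2, hT2⟩ := (Real.isLittleO_log_id_atTop.bound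
    (by norm_num : (0 : ℝ) < 1 / 4)).exists_forall_of_atTop
  refine ⟨η, 2 * e * r0 / (Real.pi * c2), M + 1,
    max (max (max TE TN) (max TM1 TM2)) (max (max TZ TL) (max T1 T2)),
    hη, by have := Real.pi_pos; positivity, by linarith, ?_, ?_⟩
  · exact hTE.trans ((le_max_left _ _).trans ((le_max_left _ _).trans (le_max_left _ _)))
  intro T hT t0 ht0 ht1
  simp only [max_le_iff] at hT
  obtain ⟨⟨⟨eE, eN⟩, eM1, eM2⟩, ⟨eZ, eL⟩, e1, e2⟩ := hT
  have hT10 : 10 ≤ T := hTE.trans eE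
  have hTone : 1 ≤ T := by linarith
  have hTpos : 0 < T := by linarith
  have hLB := hT1 T e1
  simp only [max_le_iff] at hLB
  obtain ⟨hL2, hLρ⟩ := hLB
  set L := Real.log T with hL
  have hL0 : 0 < L := by linarith
  have hLT : 4 * L ≤ T := by
    have := hT2 T e2
    simp only [id, Real.norm_eq_abs] at this
    rw [abs_of_pos hTpos] at this
    have h := le_abs_self (Real.log T)
    rw [← hL] at h this
    linarith
  set Δ := dd P.κ T with hΔ
  have hΔ1 : 1 ≤ Δ := by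
    rw [hΔ]; unfold dd
    exact Real.one_le_rpow hTone (by linarith [P.hκ1, Nu.pos])
  have hΔ0 : 0 < Δ := by linarith
  set V1 := T + 2 * L with hV1
  set V2 := 2 * T - 2 * L with hV2
  have hV : V1 ≤ V2 := by rw [hV1, hV2]; linarith
  set w : ℝ → ℝ := wt t0 Δ with hw
  have hw0 : ∀ t, 0 ≤ w t := fun t => wt_nonneg _ _ _
  have hw1 : ∀ t, w t ≤ 1 := fun t => wt_le_one _ _ _
  have hwc : Continuous w := wt_cont _ _
  set E : ℝ → ℝ := fun t => ‖EES P B0 r F s T t‖ with hEd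
  have hEc : Continuous E := (EES_cont P B0 r F s T).norm
  set Z : ℝ → ℝ := fun t => Zs A c1 T t with hZd
  have hZc : Continuous Z := Zs_cont A c1 T hTone
  set Y : ℝ → ℝ := fun t => Mk T 1 t with hYd
  have hYc : Continuous Y := Mk_cont T 1 hTone
  set ρ := Real.pi * c2 / L with hρ
  have hρ0 : 0 < ρ := by have := Real.pi_pos; positivity
  have hρ1 : ρ ≤ 1 := by rw [hρ, div_le_one hL0]; exact hLρ
  -- lower bound
  obtain ⟨l1, l2⟩ := hLim T eL t0 ht0 ht1
  rw [abs_le] at l1 l2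
  have hlow : 4 * r0 * Δ ≤ (∫ t in V1..V2, w t * E t ^ 2 * Z t) -
      k * ∫ t in V1..V2, w t * E t ^ 2 := by
    refine arith_low (A' := Real.sqrt (2 * Real.pi) * Δ) l1.2 l2.1 hp' ?_ hSF hδ (by linarith)
      hδ'1 hr0 hΔ0
    exact mul_le_mul_of_nonneg_right two_le_sqrt_two_pi hΔ0.le
  -- the index set
  have hfin : {n : ℕ | 1 ≤ n ∧ |ord n - t0| ≤ (M + 1) * Δ ∧
      ord (n + k) - ord n ≤ 2 * Real.pi * (c - η) / L}.Finite :=
    (idx_finite t0 ((M + 1) * Δ)).subset (fun n hn => ⟨hn.1, hn.2.1⟩)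
  set N := hfin.toFinset with hNdef
  have hcard : (NSmall k (c - η) T ((M + 1) * Δ) t0 : ℝ) = N.card := by
    unfold NSmall
    rw [← Set.ncard_eq_toFinset_card _ hfin]
  rw [hcard]
  set S : ℝ → ℝ := fun t => ∑ n ∈ N,
    (Set.Icc (ord n - ρ) (ord n + ρ)).indicator (fun _ => (1 : ℝ)) t with hSdef
  have hS0 : ∀ t, 0 ≤ S t := fun t =>
    Finset.sum_nonneg (fun n _ => Set.indicator_nonneg (fun _ _ => zero_le_one) t)
  have hSi : ∀ n, IntervalIntegrable (fun t => (Set.Icc (ord n - ρ)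
      (ord n + ρ)).indicator (fun _ => (1 : ℝ)) t) volume V1 V2 := fun n =>
    (ind_int (ord n - ρ) (ord n + ρ) V1 V2 (by linarith) hV).1
  have iS : IntervalIntegrable S volume V1 V2 := by
    have h1 := IntervalIntegrable.sum N (fun n _ => hSi n)
    have h2 : (∑ n ∈ N, (fun t => (Set.Icc (ord n - ρ)
      (ord n + ρ)).indicator (fun _ => (1 : ℝ)) t)) = S := by
      funext t
      rw [Finset.sum_apply]
    rw [← h2]
    exact h1
  have I4 : ∫ t in V1..V2, S t ≤ N.card * (2 * ρ) := by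
    rw [hSdef, intervalIntegral.integral_finsetSum (fun n _ => hSi n)]
    calc _ ≤ ∑ n ∈ N, (2 * ρ) := by
          apply Finset.sum_le_sum
          intro n _
          refine ((ind_int (ord n - ρ) (ord n + ρ) V1 V2 (by linarith) hV).2).trans ?_
          linarith
      _ = N.card * (2 * ρ) := by rw [Finset.sum_const, nsmul_eq_mul]
  -- pointwise bound
  have hpt : ∀ t ∈ Set.Icc V1 V2, w t * E t ^ 2 * Z t - k * (w t * E t ^ 2) ≤
      ee * CE ^ 2 * (w t * (1 + Y t) ^ (4 * B0 + 1)) +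
      e * ((CN + 1) ^ 2 * CE ^ 4) * (w t * (1 + Y t) ^ (8 * B0 + 2)) +
      1 / (4 * e) * S t + 1 / (4 * e) * Real.exp (-M ^ 2 / 4) * wt t0 (2 * Δ) t := by
    intro t ht
    have htV1 : T + 2 * L ≤ t := ht.1
    have htV2 : t ≤ 2 * T - 2 * L := ht.2
    have hY0 : 0 ≤ Y t := Mk_nonneg T 1 t hTone
    set b1 : ℝ := if NN ρ t ≤ k then 0 else 1 with hb1
    have hb10 : 0 ≤ b1 := by rw [hb1]; split_ifs <;> norm_num
    have hdich : NN ρ t ≤ k ∨ 1 ≤ b1 := by
      by_cases hh : NN ρ t ≤ k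
      · exact Or.inl hh
      · right; rw [hb1, if_neg hh]
    have q1 := hE T eE t htV1 htV2
    have q2 := hN T eN t (by linarith) (by linarith)
    have q3 := hZ T eZ t (by linarith) (by linarith)
    have h1 := pointwise (E := E t) (Z := Z t) (N := NN ρ t) (Y := Y t) (m := 1 + Y t)
      (ee := ee) (e := e) (CE := CE) (CN := CN) (k := k) (b := b1) (B0 := B0) he0 hee0.le hee1
      (norm_nonneg _) hY0 (by linarith) (by linarith) hCE.le hCN.le (by linarith) hb10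
      q1 q3 q2.2 hdich
    have h2 := mul_le_mul_of_nonneg_left h1 (hw0 t)
    have h3 : w t * b1 ≤ S t + Real.exp (-M ^ 2 / 4) * wt t0 (2 * Δ) t := by
      have hE0 : 0 ≤ Real.exp (-M ^ 2 / 4) * wt t0 (2 * Δ) t :=
        mul_nonneg (Real.exp_pos _).le (wt_nonneg _ _ _)
      by_cases hh : NN ρ t ≤ k
      · have : b1 = 0 := by rw [hb1, if_pos hh]
        rw [this, mul_zero]
        linarith [hS0 t]
      · have hb : b1 = 1 := by rw [hb1, if_neg hh]
        rw [hb, mul_one]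
        have hcnt : NZ (t - ρ) + k + 1 ≤ NZ (t + ρ) := by
          unfold NN at hh
          push Not at hh
          have : ((k + NZ (t - ρ) : ℕ) : ℝ) < NZ (t + ρ) := by push_cast; linarith
          have := Nat.cast_lt.1 this
          omega
        obtain ⟨o1, o2, o3⟩ := h6 t ρ k hρ0 hcnt
        set n := NZ (t - ρ) + 1 with hn
        have hon : |ord n - t| ≤ ρ := by rw [abs_le]; constructor <;> linarith
        by_cases hn0 : |ord n - t0| ≤ (M + 1) * Δ
        · have hnN : n ∈ N := by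
            rw [hNdef, Set.Finite.mem_toFinset]
            refine ⟨by omega, hn0, ?_⟩
            refine o3.trans (le_of_eq ?_)
            rw [hρ, hc2]; ring
          have h7 : (1 : ℝ) ≤ S t := by
            have h8 : (Set.Icc (ord n - ρ) (ord n + ρ)).indicator
                (fun _ => (1 : ℝ)) t = 1 := by
              apply Set.indicator_of_mem
              rw [abs_le] at hon
              constructor <;> linarith
            rw [← h8]
            exact Finset.single_le_sum (f := fun n =>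
              (Set.Icc (ord n - ρ) (ord n + ρ)).indicator (fun _ => (1 : ℝ)) t)
              (fun n _ => Set.indicator_nonneg (fun _ _ => zero_le_one) t) hnN
          linarith [hw1 t]
        · push Not at hn0
          have h7 : M * Δ ≤ |t - t0| := by
            have h8 : |ord n - t0| ≤ |ord n - t| + |t - t0| := by
              have := abs_add_le (ord n - t) (t - t0)
              simpa using this
            have h9 : (M + 1) * Δ = M * Δ + Δ := by ring
            rw [h9] at hn0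
            clear_value Δ ρ n
            linarith only [h8, hn0, hon, hρ1, hΔ1]
          have := wt_tail t0 Δ t M hΔ0 hM0 h7
          linarith [hS0 t]
    have h4 : 1 / (4 * e) * (w t * b1) ≤
        1 / (4 * e) * (S t + Real.exp (-M ^ 2 / 4) * wt t0 (2 * Δ) t) :=
      mul_le_mul_of_nonneg_left h3 (by positivity)
    have e3 : w t * E t ^ 2 * Z t - k * (w t * E t ^ 2) = w t * (E t ^ 2 * (Z t - k)) := by ring
    rw [e3]
    refine h2.trans ?_
    have e4 : w t * (ee * CE ^ 2 * (1 + Y t) ^ (4 * B0 + 1) +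
        e * ((CN + 1) ^ 2 * CE ^ 4) * (1 + Y t) ^ (8 * B0 + 2) + 1 / (4 * e) * b1) =
        ee * CE ^ 2 * (w t * (1 + Y t) ^ (4 * B0 + 1)) +
        e * ((CN + 1) ^ 2 * CE ^ 4) * (w t * (1 + Y t) ^ (8 * B0 + 2)) +
        1 / (4 * e) * (w t * b1) := by
      ring
    rw [e4]
    linarith
  -- integrability
  have i1 : IntervalIntegrable (fun t => w t * E t ^ 2 * Z t) volume V1 V2 :=
    ((hwc.mul (hEc.pow 2)).mul hZc).intervalIntegrable _ _
  have i2 : IntervalIntegrable (fun t => w t * E t ^ 2) volume V1 V2 :=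
    (hwc.mul (hEc.pow 2)).intervalIntegrable _ _
  have i3 : IntervalIntegrable (fun t => w t * (1 + Y t) ^ (4 * B0 + 1)) volume V1 V2 :=
    (hwc.mul ((continuous_const.add hYc).pow _)).intervalIntegrable _ _
  have i4 : IntervalIntegrable (fun t => w t * (1 + Y t) ^ (8 * B0 + 2)) volume V1 V2 :=
    (hwc.mul ((continuous_const.add hYc).pow _)).intervalIntegrable _ _
  have i5 : IntervalIntegrable (fun t => wt t0 (2 * Δ) t) volume V1 V2 :=
    (wt_cont _ _).intervalIntegrable _ _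
  have I3 : ∫ t in V1..V2, w t * (1 + Y t) ^ (4 * B0 + 1) ≤ M1 * Δ := hMk1 T eM1 t0
  have I3' : ∫ t in V1..V2, w t * (1 + Y t) ^ (8 * B0 + 2) ≤ M2 * Δ := hMk2 T eM2 t0
  have I5 : ∫ t in V1..V2, wt t0 (2 * Δ) t ≤ 6 * Δ := by
    have h1 := wt_int t0 (2 * Δ) V1 V2 (by positivity) hV
    have h2 : Real.sqrt (2 * Real.pi) * (2 * Δ) ≤ 3 * (2 * Δ) :=
      mul_le_mul_of_nonneg_right sqrt_two_pi_le (by positivity)
    linarith
  have hint := intervalIntegral.integral_mono_on hV (i1.sub (i2.const_mul (k : ℝ)))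
    ((((i3.const_mul (ee * CE ^ 2)).add (i4.const_mul (e * ((CN + 1) ^ 2 * CE ^ 4)))).add
      (iS.const_mul (1 / (4 * e)))).add
      (i5.const_mul (1 / (4 * e) * Real.exp (-M ^ 2 / 4)))) hpt
  rw [intervalIntegral.integral_sub i1 (i2.const_mul (k : ℝ)),
    intervalIntegral.integral_add
    (((i3.const_mul (ee * CE ^ 2)).add (i4.const_mul (e * ((CN + 1) ^ 2 * CE ^ 4)))).add
      (iS.const_mul (1 / (4 * e))))
      (i5.const_mul (1 / (4 * e) * Real.exp (-M ^ 2 / 4))),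
    intervalIntegral.integral_add
    ((i3.const_mul (ee * CE ^ 2)).add (i4.const_mul (e * ((CN + 1) ^ 2 * CE ^ 4))))
      (iS.const_mul (1 / (4 * e))),
    intervalIntegral.integral_add (i3.const_mul (ee * CE ^ 2))
      (i4.const_mul (e * ((CN + 1) ^ 2 * CE ^ 4))),
    intervalIntegral.integral_const_mul, intervalIntegral.integral_const_mul,
    intervalIntegral.integral_const_mul, intervalIntegral.integral_const_mul,
    intervalIntegral.integral_const_mul] at hint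
  -- arithmetic
  have J1 := mul_le_mul_of_nonneg_left I3 (by positivity : 0 ≤ ee * CE ^ 2)
  have J2 := mul_le_mul_of_nonneg_left I3' (by positivity : 0 ≤ e * ((CN + 1) ^ 2 * CE ^ 4))
  have J4 := mul_le_mul_of_nonneg_left I4 (by positivity : 0 ≤ 1 / (4 * e))
  have J5 := mul_le_mul_of_nonneg_left I5
    (by positivity : 0 ≤ 1 / (4 * e) * Real.exp (-M ^ 2 / 4))
  have K1 : ee * CE ^ 2 * (M1 * Δ) ≤ r0 * Δ := by
    calc ee * CE ^ 2 * (M1 * Δ) = (ee * CE ^ 2 * M1) * Δ := by ring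
      _ ≤ r0 * Δ := by gcongr
  have K2 : e * ((CN + 1) ^ 2 * CE ^ 4) * (M2 * Δ) = r0 * Δ := by
    rw [← he2]; ring
  have K5 : 1 / (4 * e) * Real.exp (-M ^ 2 / 4) * (6 * Δ) ≤ r0 * Δ := by
    calc 1 / (4 * e) * Real.exp (-M ^ 2 / 4) * (6 * Δ) ≤
        1 / (4 * e) * (2 * e * r0 / 3) * (6 * Δ) := by gcongr
      _ = r0 * Δ := by field_simp; ring
  have K : r0 * Δ ≤ 1 / (4 * e) * (N.card * (2 * ρ)) := by linarith
  have e5 : 1 / (4 * e) * (N.card * (2 * ρ)) = N.card * (Real.pi * c2) / (2 * e * L) := by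
    rw [hρ]
    field_simp
    ring
  rw [e5, le_div_iff₀ (by positivity)] at K
  have hpc : 0 < Real.pi * c2 := by have := Real.pi_pos; positivity
  have e6 : 2 * e * r0 / (Real.pi * c2) * Δ * L = (r0 * Δ * (2 * e * L)) / (Real.pi * c2) := by
    field_simp
  rw [e6, div_le_iff₀ hpc]
  exact K

end Pool.Agent.KS6_1.SR.RGap
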