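import Pool.Agent.KS6_1.SR.Stubs
import Pool.Graph.R_seed8.H880R2.LG.Mean
import Pool.Agent.KS6_1.SR.Sets

/-! Task MEANS: the Gaussian mean values of `|EES|²` and `|EES|² Zs` (adapted from LG.MEAN). -/

open Complex Filter Topology Set MeasureTheory

namespace Pool.Agent.KS6_1.SR.RGap

variable [Pool.Agent.KS6_1.SI.Nu]

open SG (hh nn dl ord NZ)
open SP (RHs ZZ mu wt Mk qq tt)
open Pool.Agent.KS6_1.SI (Par Eb PS chi dd Nu)
open _root_.LG (gK gh Zs bk lk nA IsQ SF SM)
open Pool.Agent.KS6_1.SR.LG (fam prs yp ae EE Cn QT tm sm sm0)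
open _root_.RGap

namespace MeansAux

theorem sg_abs (P : Par) (s : ℕ → ℝ) (hs : IsSgn s) (T : ℝ) (A : Finset ℕ) :
    |sg P s T A| = 1 := by
  unfold sg
  rw [Finset.abs_prod]
  apply Finset.prod_eq_one
  intro p _
  rcases hs (Eb P T p) with h | h <;> rw [h] <;> simp

theorem aeS_abs (P : Par) (r : ℝ) (F s : ℕ → ℝ) (hs : IsSgn s) (T : ℝ) (A : Finset ℕ) :
    |aeS P r F s T A| = |ae P r F T A| := by
  unfold aeS
  rw [abs_mul, sg_abs P s hs, one_mul]

theorem EES_norm_le (P : Par) (B0 : ℕ) (r : ℝ) (F s : ℕ → ℝ) (T t : ℝ) :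
    ‖EES P B0 r F s T t‖ ≤ ∑ q ∈ prs P B0 T, |aeS P r F s T q.1 * aeS P r F s T q.2| := by
  unfold EES
  refine (norm_sum_le _ _).trans (Finset.sum_le_sum fun q _ => ?_)
  rw [norm_mul, Complex.norm_real, Real.norm_eq_abs, mul_comm I, Complex.norm_exp_ofReal_mul_I,
    mul_one]

theorem EES_cont (P : Par) (B0 : ℕ) (r : ℝ) (F s : ℕ → ℝ) (T : ℝ) :
    Continuous (EES P B0 r F s T) := by
  unfold EES
  fun_prop

theorem CnS_le (P : Par) (B0 : ℕ) (r : ℝ) (F s : ℕ → ℝ) (T : ℝ) (n : ℕ) :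
    |CnS P B0 r F s T n| ≤ (∑ q ∈ prs P B0 T, |aeS P r F s T q.1 * aeS P r F s T q.2|) ^ 2 := by
  unfold CnS
  refine (Finset.abs_sum_le_sum_abs _ _).trans ?_
  rw [sq, Finset.sum_mul_sum]
  refine Finset.sum_le_sum fun q _ => (Finset.abs_sum_le_sum_abs _ _).trans
    (Finset.sum_le_sum fun q' _ => ?_)
  split_ifs
  · rw [abs_mul]
  · rw [abs_zero]
    positivity

end MeansAux

open MeansAux LG.MeanAux

set_option maxHeartbeats 4000000 in
theorem MEANS_proof : MEANS := by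
  intro hRH P B0 hB hνκ r F s hs A c hA hc
  have hν := Nu.pos
  obtain ⟨θ, hθ⟩ : ∃ θ : ℝ, θ = min (2 * Nu.ν) (2 * (P.κ - Nu.ν)) := ⟨_, rfl⟩
  have hθ0 : 0 < θ := by rw [hθ]; exact lt_min (by linarith) (by linarith)
  have hθ1 : θ ≤ 2 * Nu.ν := by rw [hθ]; exact min_le_left _ _
  have hθ2 : θ ≤ 2 * (P.κ - Nu.ν) := by rw [hθ]; exact min_le_right _ _
  obtain ⟨C1, T1, hC1, hT1, hzef⟩ := LG.MeanAux.ZEF' hRH A c hA hc
  obtain ⟨C2, hC2, hlks⟩ := LG.lk_summable A c hc
  obtain ⟨C3, T3, hC3, hT3, hfam⟩ := LG.fam_facts P B0 hB r F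
  obtain ⟨T4, hT4, hev⟩ := ev_all θ C2 hθ0 hC2
  refine ⟨3 * C1 + c + 3, max T1 (max T3 T4), by positivity, hT1.trans (le_max_left _ _), ?_⟩
  intro T hT t0 ht1 ht2
  have hTT1 : T1 ≤ T := (le_max_left _ _).trans hT
  have hTT3 : T3 ≤ T := (le_max_left _ _).trans ((le_max_right _ _).trans hT)
  have hTT4 : T4 ≤ T := (le_max_right _ _).trans ((le_max_right _ _).trans hT)
  obtain ⟨hL40, hL1, hsmall⟩ := hev T hTT4
  have hT10 : 10 ≤ T := hT1.trans hTT1
  have hT0 : 0 < T := by linarith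
  obtain ⟨hfamA, -, hsum2', -⟩ := hfam T hTT3
  have hsum2 : ∑ q ∈ prs P B0 T, |aeS P r F s T q.1 * aeS P r F s T q.2| ≤ T ^ 2 := by
    refine le_trans (le_of_eq (Finset.sum_congr rfl fun q _ => ?_)) hsum2'
    rw [abs_mul, abs_mul, aeS_abs P r F s hs, aeS_abs P r F s hs]
  set κ := P.κ with hκ
  set D := dd κ T with hDdef
  have hD : 0 < D := Real.rpow_pos_of_pos hT0 _
  set L := Real.log T with hLdef
  set Se : ℝ := ∑ q ∈ prs P B0 T, |aeS P r F s T q.1 * aeS P r F s T q.2| with hSe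
  have hSe0 : 0 ≤ Se := Finset.sum_nonneg fun _ _ => abs_nonneg _
  have hSeM : Se ^ 2 ≤ T ^ 4 := by
    calc Se ^ 2 ≤ (T ^ 2) ^ 2 := pow_le_pow_left₀ hSe0 hsum2 2
      _ = T ^ 4 := by ring
  set G : ℝ → ℝ := fun t => ‖EES P B0 r F s T t‖ ^ 2 with hG
  have hGcont : Continuous G := ((EES_cont P B0 r F s T).norm).pow 2
  have hG0 : ∀ t, 0 ≤ G t := fun t => by rw [hG]; positivity
  have hGM : ∀ t, G t ≤ T ^ 4 := fun t =>
    (pow_le_pow_left₀ (norm_nonneg _) (EES_norm_le P B0 r F s T t) 2).trans hSeM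
  have hlk0 : lk A c T 0 = 0 := by
    unfold lk
    simp
  obtain ⟨hs1, hs2⟩ := hlks T hT10
  have hT1' : 1 ≤ T := by linarith
  have hD2 : D ^ 2 = T ^ (2 * (1 - κ + Nu.ν)) := by
    rw [hDdef]
    unfold dd
    rw [← Real.rpow_natCast, ← Real.rpow_mul hT0.le]
    congr 1
    push_cast
    ring
  have hTκ : T ^ θ * D ^ 2 ≤ T ^ 2 := by
    rw [hD2, ← Real.rpow_add hT0]
    have : T ^ (2 : ℕ) = T ^ (2 : ℝ) := by rw [← Real.rpow_natCast]; norm_num
    rw [this]
    apply Real.rpow_le_rpow_of_exponent_le hT1'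
    linarith
  have hR : T ^ θ / 1600 ≤ (T / 20) ^ 2 / (4 * D ^ 2) := by
    rw [div_pow, div_div, div_le_div_iff₀ (by norm_num) (by positivity)]
    nlinarith
  have hκpos : 0 ≤ T ^ θ := Real.rpow_nonneg hT0.le _
  set X : ℝ := T ^ (1 - κ) with hX
  have hκ1 : κ < 1 := P.hκ1
  have hX1 : 1 ≤ X := Real.one_le_rpow (by linarith) (by linarith)
  have hXD : T ^ θ / 8 ≤ D ^ 2 / (8 * X ^ 2) := by
    have h1 : X ^ 2 * T ^ θ ≤ D ^ 2 := by
      rw [hD2, hX, ← Real.rpow_natCast, ← Real.rpow_mul hT0.le, ← Real.rpow_add hT0]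
      apply Real.rpow_le_rpow_of_exponent_le hT1'
      push_cast
      linarith
    rw [div_le_div_iff₀ (by norm_num) (by positivity)]
    nlinarith
  have hmain := core G (Zs A c T) (CnS P B0 r F s T) (lk A c T) t0 D L (T + 2 * L) (2 * T - 2 * L)
    (T ^ 4) C1 c (C2 * Real.exp (L ^ 4)) (7 * D * T ^ 4 * Real.exp (-(T ^ θ / 1600)))
    hGcont hG0 hGM (Zs_cont A c T (by linarith)) (by linarith) hD hL1 hlk0 hs1 hs2
    (fun n => (CnS_le P B0 r F s T n).trans hSeM)
    (by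
      intro n hn
      have hgmv := LG.GMV (prs P B0 T) (fun q => aeS P r F s T q.1 * aeS P r F s T q.2)
        (fun q => nA q.2) (fun q => nA q.1) D t0 X n hD hX1
        (fun i hi => by
          have h1 := (Finset.mem_filter.1 hi).1
          exact (hfamA _ (Finset.mem_product.1 h1).2).1)
        (fun i hi => by
          have h1 := (Finset.mem_filter.1 hi).1
          exact (hfamA _ (Finset.mem_product.1 h1).1).1)
        (fun i hi j hj => by
          have h1 := (Finset.mem_product.1 (Finset.mem_filter.1 hi).1).2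
          have h2 := (Finset.mem_product.1 (Finset.mem_filter.1 hj).1).1
          have h3 := (hfamA _ h1).2.1
          have h4 := (hfamA _ h2).2.1
          calc ((nA i.2 : ℕ) : ℝ) * ((nA j.1 : ℕ) : ℝ) ≤ T ^ ((1 - κ) / 2) * T ^ ((1 - κ) / 2) := by
                gcongr
            _ = X := by
                rw [← Real.rpow_add hT0, hX]
                congr 1
                ring)
        hn
      replace hgmv := hgmv.trans (mul_le_mul_of_nonneg_left (Real.exp_le_exp.2 (neg_le_neg hXD))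
        (by positivity))
      set f : ℝ → ℂ := fun t => ((wt t0 D t * G t : ℝ) : ℂ) *
        cexp (-(I * ((t * Real.log n : ℝ) : ℂ))) with hf
      have hfc : Continuous f := by
        have := wt_cont t0 D
        rw [hf]
        fun_prop
      have hfb : ∀ t, ‖f t‖ ≤ T ^ 4 * wt t0 D t := by
        intro t
        rw [hf]
        simp only
        rw [norm_mul, norm_osc, mul_one, Complex.norm_real, Real.norm_eq_abs,
          abs_of_nonneg (mul_nonneg (wt_pos t0 D t).le (hG0 t)), mul_comm]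
        exact mul_le_mul_of_nonneg_right (hGM t) (wt_pos t0 D t).le
      have htail := tail_int f t0 D (T + 2 * L) (2 * T - 2 * L) (T / 20) (T ^ 4) hD
        (by positivity) (by linarith) (by linarith) (by linarith) hfc (by positivity) hfb
      replace htail := htail.trans (mul_le_mul_of_nonneg_left (Real.exp_le_exp.2 (neg_le_neg hR))
        (by positivity))
      have hgmv' : ‖(∫ t : ℝ, f t) - ((Real.sqrt (2 * Real.pi) * D * CnS P B0 r F s T n : ℝ) : ℂ)‖ ≤
          Real.sqrt (2 * Real.pi) * D * Se ^ 2 * Real.exp (-(T ^ θ / 8)) := by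
        have e1 : (∫ t : ℝ, f t) = ∫ t : ℝ, (wt t0 D t : ℂ) * ((‖∑ i ∈ prs P B0 T,
            ((aeS P r F s T i.1 * aeS P r F s T i.2 : ℝ) : ℂ) *
            cexp (I * ((t * (Real.log (nA i.2) - Real.log (nA i.1)) : ℝ) : ℂ))‖ ^ 2 : ℝ) : ℂ) *
            cexp (-(I * ((t * Real.log n : ℝ) : ℂ))) := by
          congr 1
          funext t
          rw [hf]
          simp only
          rw [Complex.ofReal_mul]
          rfl
        rw [e1]
        exact hgmv
      have hsq : Real.sqrt (2 * Real.pi) ≤ 3 := by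
        rw [Real.sqrt_le_left (by norm_num)]
        have := Real.pi_lt_d2
        linarith
      have hexp : Real.exp (-(T ^ θ / 8)) ≤ Real.exp (-(T ^ θ / 1600)) := by
        apply Real.exp_le_exp.2
        linarith
      have hb1 : Real.sqrt (2 * Real.pi) * D * Se ^ 2 * Real.exp (-(T ^ θ / 8)) ≤
          3 * D * T ^ 4 * Real.exp (-(T ^ θ / 1600)) := by gcongr
      calc ‖(∫ t in (T + 2 * L)..(2 * T - 2 * L), f t) -
            ((Real.sqrt (2 * Real.pi) * D * CnS P B0 r F s T n : ℝ) : ℂ)‖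
          = ‖((∫ t in (T + 2 * L)..(2 * T - 2 * L), f t) - ∫ t : ℝ, f t) +
            ((∫ t : ℝ, f t) - ((Real.sqrt (2 * Real.pi) * D * CnS P B0 r F s T n : ℝ) : ℂ))‖ := by
            congr 1
            ring
        _ ≤ T ^ 4 * (4 * D) * Real.exp (-(T ^ θ / 1600)) +
            3 * D * T ^ 4 * Real.exp (-(T ^ θ / 1600)) :=
            (norm_add_le _ _).trans (add_le_add htail (hgmv'.trans hb1))
        _ = 7 * D * T ^ 4 * Real.exp (-(T ^ θ / 1600)) := by ring)
    (fun t ht1 ht2 => hzef T hTT1 t (by linarith) (by linarith))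
    hc.le hC1.le
    (by
      rw [le_div_iff₀ (by linarith)]
      calc 7 * D * T ^ 4 * Real.exp (-(T ^ θ / 1600)) * (1 + C2 * Real.exp (L ^ 4)) * L
          = D * (7 * T ^ 4 * Real.exp (-(T ^ θ / 1600)) * (1 + C2 * Real.exp (L ^ 4)) * L) := by
            ring
        _ ≤ D * 1 := by gcongr
        _ = D := mul_one D)
  obtain ⟨hm1, hm2⟩ := hmain
  have hL0 : 0 < L := by linarith
  constructor
  · refine hm1.trans ?_
    have h1 : D / L * 1 ≤ D / L * ((3 * C1 + c + 3) * (1 + |CnS P B0 r F s T 1|)) := by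
      apply mul_le_mul_of_nonneg_left _ (by positivity)
      have : 0 ≤ |CnS P B0 r F s T 1| := abs_nonneg _
      nlinarith
    calc D / L = D / L * 1 := (mul_one _).symm
      _ ≤ D / L * ((3 * C1 + c + 3) * (1 + |CnS P B0 r F s T 1|)) := h1
      _ = (3 * C1 + c + 3) * D / L * (1 + |CnS P B0 r F s T 1|) := by ring
  · refine hm2.trans (le_of_eq ?_)
    ring

end Pool.Agent.KS6_1.SR.RGap
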