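import Pool.Agent.KS6_1.SR.Stubs
import Pool.Agent.KS6_1.SI.Mom2

/-! # r-gaps, task MKM: all moments of `Mk` -/

open Complex Filter Topology Set MeasureTheory

namespace Pool.Agent.KS6_1.SR.RGap

open _root_.RGap

variable [Pool.Agent.KS6_1.SI.Nu]

open SG (hh nn dl ord NZ)
open SP (RHs ZZ mu wt Mk qq tt)
open Pool.Agent.KS6_1.SI (Par Eb PS chi dd Nu)

theorem MKM_proof : MKM := by
  intro hRH κ hκ hκ1 j
  obtain ⟨C2, T2, hC2, hT2, h2⟩ := Pool.Agent.KS6_1.SI.exp_main hRH κ 1 (j + 1) hκ hκ1 one_pos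
    (by positivity)
  refine ⟨C2, max T2 100, hC2, hT2.trans (le_max_left _ _), ?_⟩
  intro T hT t0
  simp only [max_le_iff] at hT
  obtain ⟨hTT2, hT100⟩ := hT
  obtain ⟨hL4, hLT⟩ := Pool.Agent.KS6_1.SI.Mom2.log_bounds T hT100
  have hV : T + 2 * Real.log T ≤ 2 * T - 2 * Real.log T := by linarith
  have hm := h2 T hTT2 t0 (T + 2 * Real.log T) (2 * T - 2 * Real.log T) hV (by linarith)
    (by linarith)
  have hpt : ∀ t ∈ Set.Icc (T + 2 * Real.log T) (2 * T - 2 * Real.log T),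
      wt t0 (dd κ T) t * (1 + Mk T 1 t) ^ j ≤
      wt t0 (dd κ T) t * Real.exp ((j + 1) * (‖SP.Ya T 1 t‖ + Mk T 1 t)) := by
    intro t ht
    have hM0 : 0 ≤ Mk T 1 t := Pool.Agent.KS6_1.SI.DpB_Mk_nonneg _ _ _
    have hw := Pool.Agent.KS6_1.SI.Mom2.wt_nonneg t0 (dd κ T) t
    apply mul_le_mul_of_nonneg_left _ hw
    calc (1 + Mk T 1 t) ^ j ≤ (Real.exp (Mk T 1 t)) ^ j := by
          gcongr
          linarith [Real.add_one_le_exp (Mk T 1 t)]
      _ = Real.exp ((j : ℕ) * Mk T 1 t) := by rw [← Real.exp_nat_mul]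
      _ ≤ Real.exp ((j + 1) * (‖SP.Ya T 1 t‖ + Mk T 1 t)) := by
          apply Real.exp_le_exp.2
          have e1 := norm_nonneg (SP.Ya T 1 t)
          have e2 : (0 : ℝ) ≤ (j + 1) * ‖SP.Ya T 1 t‖ := by positivity
          nlinarith
  have hcont : Continuous (fun t => wt t0 (dd κ T) t *
      Real.exp ((j + 1) * (‖SP.Ya T 1 t‖ + Mk T 1 t))) :=
    Pool.Agent.KS6_1.SI.Mom2.main_cont T κ 1 (j + 1) (by linarith) one_pos t0
  have hmono := Pool.Agent.KS6_1.SI.Mom2.int_mono (fun t => wt t0 (dd κ T) t * (1 + Mk T 1 t) ^ j) _ _ _ hV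
    (fun t _ => mul_nonneg (Pool.Agent.KS6_1.SI.Mom2.wt_nonneg _ _ _)
      (by have := Pool.Agent.KS6_1.SI.DpB_Mk_nonneg T 1 t; positivity)) hpt hcont
  exact hmono.trans hm

end Pool.Agent.KS6_1.SR.RGap
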