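import Pool.Agent.KS6_1.SR.Stubs

/-! Task MLIM (helper360): limits of the mean values. -/

set_option autoImplicit false

open Complex Filter Topology Set MeasureTheory

namespace Pool.Agent.KS6_1.SR.RGap

variable [Pool.Agent.KS6_1.SI.Nu]

open SG (hh nn dl ord NZ)
open SP (RHs ZZ mu wt Mk qq tt)
open Pool.Agent.KS6_1.SI (Par Eb PS chi dd Nu)
open _root_.LG (gK gh Zs bk lk nA IsQ SF SM)
open Pool.Agent.KS6_1.SR.LG (fam prs yp ae EE Cn QT tm sm sm0)
open _root_.RGap

theorem MLIM_of (h1 : MEANS) (h2 : COMBS) : MLIM := by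
  intro hRH P B0 hB hνκ r hr F q s hs hq A c hA hc δ hδ
  obtain ⟨C, T0, hC, hT0, hM⟩ := h1 hRH P B0 hB hνκ r F s hs A c hA hc
  obtain ⟨hl1, hl2⟩ := h2 P B0 hB r hr F q s hs hq A c hA hc
  set S : ℝ := SF B0 F q with hS
  set Sg : ℝ := ∑ m ∈ Finset.Icc 2 B0, s m * (sm P A c m * SM B0 F q m) with hSg
  have hlog : Tendsto (fun T : ℝ => C / Real.log T) atTop (𝓝 0) :=
    tendsto_const_nhds.div_atTop Real.tendsto_log_atTop
  have ha : Tendsto (fun T : ℝ => C / Real.log T * (1 + |CnS P B0 r F s T 1|)) atTop (𝓝 0) := by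
    have := hlog.mul ((tendsto_const_nhds (x := (1 : ℝ))).add hl1.abs)
    simpa using this
  have hb1 : Tendsto (fun T : ℝ => C / Real.log T * (1 + |CnS P B0 r F s T 1|) +
      Real.sqrt (2 * Real.pi) * |CnS P B0 r F s T 1 - S ^ 2|) atTop (𝓝 0) := by
    have h3 : Tendsto (fun T : ℝ => |CnS P B0 r F s T 1 - S ^ 2|) atTop (𝓝 0) := by
      have := (hl1.sub (tendsto_const_nhds (x := S ^ 2))).abs
      simpa using this
    have := ha.add ((tendsto_const_nhds (x := Real.sqrt (2 * Real.pi))).mul h3)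
    simpa using this
  have hb2 : Tendsto (fun T : ℝ => C / Real.log T * (1 + |CnS P B0 r F s T 1|) +
      Real.sqrt (2 * Real.pi) * |(c * CnS P B0 r F s T 1 -
        (2 / Real.log T) * ∑' n : ℕ, lk A c T n * CnS P B0 r F s T n) -
        (c * S ^ 2 - 4 * r / Real.pi * (S * Sg))|) atTop (𝓝 0) := by
    have h3 : Tendsto (fun T : ℝ => |(c * CnS P B0 r F s T 1 -
        (2 / Real.log T) * ∑' n : ℕ, lk A c T n * CnS P B0 r F s T n) -
        (c * S ^ 2 - 4 * r / Real.pi * (S * Sg))|) atTop (𝓝 0) := by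
      have := ((((tendsto_const_nhds (x := c)).mul hl1).sub hl2).sub
        (tendsto_const_nhds (x := c * S ^ 2 - 4 * r / Real.pi * (S * Sg)))).abs
      simpa using this
    have := ha.add ((tendsto_const_nhds (x := Real.sqrt (2 * Real.pi))).mul h3)
    simpa using this
  have he1 := hb1.eventually_le_const hδ
  have he2 := hb2.eventually_le_const hδ
  obtain ⟨T1, hT1⟩ := eventually_atTop.1 (he1.and he2)
  refine ⟨max T0 T1, hT0.trans (le_max_left _ _), fun T hT t0 ht0 ht0' => ?_⟩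
  obtain ⟨e1, e2⟩ := hT1 T ((le_max_right _ _).trans hT)
  obtain ⟨m1, m2⟩ := hM T ((le_max_left _ _).trans hT) t0 ht0 ht0'
  have hD : 0 ≤ dd P.κ T := by
    unfold dd
    have : (0 : ℝ) ≤ T := by linarith [(le_max_left T0 T1).trans hT]
    positivity
  set D := dd P.κ T with hDdef
  set V1 := CnS P B0 r F s T 1 with hV1
  set V2 := (2 / Real.log T) * ∑' n : ℕ, lk A c T n * CnS P B0 r F s T n with hV2
  set s2 := Real.sqrt (2 * Real.pi) with hs2
  have hs20 : 0 ≤ s2 := Real.sqrt_nonneg _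
  have hCD : C * D / Real.log T * (1 + |V1|) = C / Real.log T * (1 + |V1|) * D := by ring
  rw [hCD] at m1 m2
  constructor
  · set I1 := ∫ t in (T + 2 * Real.log T)..(2 * T - 2 * Real.log T),
        wt t0 D t * ‖EES P B0 r F s T t‖ ^ 2
    have e3 : I1 - s2 * D * S ^ 2 = (I1 - s2 * D * V1) + s2 * D * (V1 - S ^ 2) := by ring
    rw [e3]
    refine (abs_add_le _ _).trans ?_
    rw [abs_mul (s2 * D), abs_of_nonneg (mul_nonneg hs20 hD)]
    calc |I1 - s2 * D * V1| + s2 * D * |V1 - S ^ 2|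
        ≤ C / Real.log T * (1 + |V1|) * D + s2 * D * |V1 - S ^ 2| := by linarith
      _ = (C / Real.log T * (1 + |V1|) + s2 * |V1 - S ^ 2|) * D := by ring
      _ ≤ δ * D := mul_le_mul_of_nonneg_right e1 hD
  · set I2 := ∫ t in (T + 2 * Real.log T)..(2 * T - 2 * Real.log T),
        wt t0 D t * ‖EES P B0 r F s T t‖ ^ 2 * Zs A c T t
    have e3 : I2 - s2 * D * (S * (c * S - 4 * r / Real.pi * Sg)) =
        (I2 - s2 * D * (c * V1 - V2)) +
          s2 * D * ((c * V1 - V2) - (c * S ^ 2 - 4 * r / Real.pi * (S * Sg))) := by ring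
    rw [e3]
    refine (abs_add_le _ _).trans ?_
    rw [abs_mul (s2 * D), abs_of_nonneg (mul_nonneg hs20 hD)]
    calc |I2 - s2 * D * (c * V1 - V2)| +
          s2 * D * |(c * V1 - V2) - (c * S ^ 2 - 4 * r / Real.pi * (S * Sg))|
        ≤ C / Real.log T * (1 + |V1|) * D +
          s2 * D * |(c * V1 - V2) - (c * S ^ 2 - 4 * r / Real.pi * (S * Sg))| := by linarith
      _ = (C / Real.log T * (1 + |V1|) +
          s2 * |(c * V1 - V2) - (c * S ^ 2 - 4 * r / Real.pi * (S * Sg))|) * D := by ring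
      _ ≤ δ * D := mul_le_mul_of_nonneg_right e2 hD

end Pool.Agent.KS6_1.SR.RGap
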