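import Pool.Agent.KS6_1.SR.Stubs

/-! # r-gaps, task PARC: continuity in the parameters

Adapted from `LG.LocAux.choose_params` (`Pool/Agent/H403R2/LGLocalB.lean`). -/

open Complex Filter Topology Set MeasureTheory

namespace Pool.Agent.KS6_1.SR.RGap

variable [Pool.Agent.KS6_1.SI.Nu]

open SG (hh nn dl ord NZ)
open SP (RHs ZZ mu wt Mk qq tt)
open Pool.Agent.KS6_1.SI (Par Eb PS chi dd Nu)
open _root_.LG (gK gh Zs bk lk nA IsQ SF SM)
open Pool.Agent.KS6_1.SR.LG (fam prs yp ae EE Cn QT tm sm sm0)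
open _root_.RGap

namespace ParcAux

theorem param_cont (P : Par) (m : ℕ) :
    Continuous (fun x : ℝ × ℝ => ∫ u in (0 : ℝ)..1, P.b m u * Real.sin (Real.pi * x.1 * u) *
      Real.exp (-(u * x.2) ^ 2 / 2)) := by
  have hb : Continuous (P.b m) := (P.hb m).continuous
  apply intervalIntegral.continuous_parametric_intervalIntegral_of_continuous'
  unfold Function.uncurry
  fun_prop

theorem sm_eq (P : Par) (A c : ℝ) (m : ℕ) : sm P A c m =
    ∫ u in (0 : ℝ)..1, P.b m u * Real.sin (Real.pi * (c, 1 / A).1 * u) *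
      Real.exp (-(u * (c, 1 / A).2) ^ 2 / 2) := by
  unfold sm
  simp only [mul_one_div]

theorem sm0_eq (P : Par) (c : ℝ) (m : ℕ) : sm0 P c m =
    ∫ u in (0 : ℝ)..1, P.b m u * Real.sin (Real.pi * (c, (0 : ℝ)).1 * u) *
      Real.exp (-(u * (c, (0 : ℝ)).2) ^ 2 / 2) := by
  unfold sm0
  simp

end ParcAux

open ParcAux in
theorem PARC_proof : PARC := by
  intro P B0 r F q s c x η0 hη0 hstrict
  set Ψ : ℝ × ℝ → ℝ := fun y => 4 * r / Real.pi * ∑ m ∈ Finset.Icc 2 B0, s m *
    ((∫ u in (0 : ℝ)..1, P.b m u * Real.sin (Real.pi * y.1 * u) *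
      Real.exp (-(u * y.2) ^ 2 / 2)) * SM B0 F q m) - x * SF B0 F q with hΨ
  have hc : Continuous Ψ := by
    rw [hΨ]
    apply Continuous.sub
    · apply Continuous.mul continuous_const
      apply continuous_finsetSum
      intro m _
      exact continuous_const.mul ((param_cont P m).mul continuous_const)
    · exact continuous_const
  have h0 : 0 < Ψ (c, 0) := by
    have : Ψ (c, 0) = LM P B0 r F q s c - x * SF B0 F q := by
      simp only [hΨ, LM, sm0_eq]
    rw [this]
    linarith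
  set D := Ψ (c, 0) with hD
  have hev : ∀ᶠ y in 𝓝 ((c, 0) : ℝ × ℝ), D / 2 < Ψ y :=
    hc.continuousAt.eventually (lt_mem_nhds (by linarith))
  rw [Metric.eventually_nhds_iff] at hev
  obtain ⟨ρ, hρ, hev⟩ := hev
  set S := |SF B0 F q| + 1 with hS
  have hS1 : 1 ≤ S := by
    have := abs_nonneg (SF B0 F q)
    linarith
  have hS0 : 0 < S := by linarith
  have hη1 : 0 < D / (8 * S) := by positivity
  refine ⟨min η0 (min (ρ / 4) (D / (8 * S))), D / 12, 4 / ρ, ?_, min_le_left _ _, by positivity,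
    by positivity, fun A c' hA hc' => ?_⟩
  · exact lt_min hη0 (lt_min (by positivity) hη1)
  set η := min η0 (min (ρ / 4) (D / (8 * S))) with hη
  have hηρ : η ≤ ρ / 4 := le_trans (min_le_right _ _) (min_le_left _ _)
  have hηD : η ≤ D / (8 * S) := le_trans (min_le_right _ _) (min_le_right _ _)
  have hηpos : 0 < η := lt_min hη0 (lt_min (by positivity) hη1)
  have hA0 : 0 < A := lt_of_lt_of_le (by positivity) hA
  have h1 : dist ((c', 1 / A) : ℝ × ℝ) (c, 0) < ρ := by
    rw [Prod.dist_eq, Real.dist_eq, Real.dist_eq]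
    simp only
    apply max_lt
    · linarith
    · rw [sub_zero, abs_of_pos (by positivity)]
      rw [div_le_iff₀ hρ] at hA
      rw [div_lt_iff₀ hA0]
      linarith
  have h2 := hev h1
  have h3 : Ψ (c', 1 / A) = 4 * r / Real.pi * ∑ m ∈ Finset.Icc 2 B0,
      s m * (sm P A c' m * SM B0 F q m) - x * SF B0 F q := by
    simp only [hΨ, sm_eq]
  rw [h3] at h2
  have h4 : 2 * η * SF B0 F q ≤ D / 4 := by
    have h5 : SF B0 F q ≤ S := by
      have := le_abs_self (SF B0 F q)
      linarith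
    have h6 : 2 * η * SF B0 F q ≤ 2 * η * S := by
      apply mul_le_mul_of_nonneg_left h5
      linarith
    have h7 : η * (8 * S) ≤ D := (le_div_iff₀ (by positivity)).1 hηD
    linarith
  linarith

end Pool.Agent.KS6_1.SR.RGap
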