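import Pool.Agent.KS6_1.SR.Stubs
import Pool.Agent.KS6_1.SR.LGPar

/-! # r-gaps, task PARG: from the ideal inequality to smooth parameters (helper619, adapted from
`Pool/Agent/H778R2/LG/Par.lean` by helper778) -/

open Complex Filter Topology Set MeasureTheory

namespace Pool.Agent.KS6_1.SR.RGap

variable [Pool.Agent.KS6_1.SI.Nu]

open Pool.Agent.KS6_1.SI (Par)
open Pool.Agent.KS6_1.SI.ChooseAux
open _root_.LG (IsQ SF SM)
open Pool.Agent.KS6_1.SR.LG (tm sm0)
open _root_.RGap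
open LG.ParAux (qr isQ_qr qr_tendsto lim_int)

namespace PargAux

section

variable (κ : ℝ) (B0 : ℕ)

/-- the width of a bin -/
noncomputable def wB : ℝ := (1 - κ) / (2 * B0)

/-- left endpoint of the ideal sub-bin -/
noncomputable def lB (j : ℕ) : ℝ := j * wB κ B0 * Real.exp (-1 / j)

/-- right endpoint of the ideal sub-bin -/
noncomputable def rB (j : ℕ) : ℝ := j * wB κ B0

variable {κ B0}

theorem wB_pos (hκ1 : κ < 1) (h : 1 ≤ B0) : 0 < wB κ B0 := by
  have : (1 : ℝ) ≤ B0 := by exact_mod_cast h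
  unfold wB
  apply div_pos <;> linarith

theorem lB_pos (hκ1 : κ < 1) (h : 1 ≤ B0) {j : ℕ} (hj : 1 ≤ j) : 0 < lB κ B0 j := by
  have := wB_pos hκ1 h
  have : (1 : ℝ) ≤ j := by exact_mod_cast hj
  unfold lB
  positivity

theorem lB_lt_rB (hκ1 : κ < 1) (h : 1 ≤ B0) {j : ℕ} (hj : 1 ≤ j) :
    lB κ B0 j < rB κ B0 j := by
  have h1 := wB_pos hκ1 h
  have h2 : (1 : ℝ) ≤ j := by exact_mod_cast hj
  unfold lB rB
  have h3 : Real.exp (-1 / (j : ℝ)) < 1 := by
    rw [Real.exp_lt_one_iff]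
    exact div_neg_of_neg_of_pos (by norm_num) (by linarith)
  have h4 : 0 < (j : ℝ) * wB κ B0 := by positivity
  nlinarith

theorem lB_ge (hκ1 : κ < 1) (h : 1 ≤ B0) {j : ℕ} (hj : 1 ≤ j) :
    ((j : ℝ) - 1) * wB κ B0 ≤ lB κ B0 j := by
  have h1 := wB_pos hκ1 h
  have h2 : (1 : ℝ) ≤ j := by exact_mod_cast hj
  have h3 := Real.add_one_le_exp (-1 / (j : ℝ))
  have h4 : ((j : ℝ) - 1) * wB κ B0 = j * wB κ B0 * (-1 / (j : ℝ) + 1) := by
    field_simp
    ring
  unfold lB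
  rw [h4]
  exact mul_le_mul_of_nonneg_left h3 (by positivity)

theorem rB_le_one (hκ : 0 < κ) (h : 1 ≤ B0) {j : ℕ} (hj : j ≤ 2 * B0) :
    rB κ B0 j ≤ 1 := by
  have h1 : (1 : ℝ) ≤ B0 := by exact_mod_cast h
  have h2 : (j : ℝ) ≤ 2 * B0 := by exact_mod_cast hj
  have h3 : (0 : ℝ) ≤ j := Nat.cast_nonneg j
  unfold rB wB
  rw [mul_div_assoc', div_le_one (by positivity)]
  nlinarith

/-- the parameters -/
noncomputable def PP (hκ : 0 < κ) (hκ1 : κ < 1) (h : 1 ≤ B0) (V : ℕ → ℝ)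
    (hV : ∀ m, 0 ≤ V m ∧ V m ≤ 1) (ε : ℝ) (hε : 0 < ε) : Par where
  c := 3 / 4
  a := 1
  κ := κ
  m := ε
  B := 2 * B0
  b := fun j u => if 2 ≤ j ∧ j ≤ 2 * B0 then V j * (bump (lB κ B0 j) (rB κ B0 j) ε u / u) else 0
  hc := by norm_num
  hc1 := by norm_num
  ha := by norm_num
  ha1 := by norm_num
  hκ := hκ
  hκ1 := hκ1
  hB := by omega
  hm := hε
  hb := by
    intro j
    by_cases hj : 2 ≤ j ∧ j ≤ 2 * B0
    · simp only [hj, and_self, if_true]
      exact contDiff_const.mul (div_contDiff (lB_pos hκ1 h (by omega)) hε)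
    · simp only [hj, if_false]
      exact contDiff_const
  hb0 := by
    intro j u hne
    by_cases hj : 2 ≤ j ∧ j ≤ 2 * B0
    · rw [if_pos hj] at hne
      have hB0 : (1 : ℝ) ≤ B0 := by exact_mod_cast h
      have e1 : ((j : ℝ) - 1) * (1 - κ) / ((2 * B0 : ℕ) : ℝ) = ((j : ℝ) - 1) * wB κ B0 := by
        unfold wB
        push_cast
        ring
      have e2 : (j : ℝ) * (1 - κ) / ((2 * B0 : ℕ) : ℝ) = rB κ B0 j := by
        unfold rB wB
        push_cast
        ring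
      refine ⟨hj.1, hj.2, ?_, ?_⟩
      · by_contra hcon
        push Not at hcon
        apply hne
        rw [bump_zero_left hε, zero_div, mul_zero]
        have h1 := lB_ge hκ1 h (j := j) (by omega)
        linarith
      · by_contra hcon
        push Not at hcon
        apply hne
        rw [bump_zero_right hε, zero_div, mul_zero]
        linarith
    · rw [if_neg hj] at hne
      exact absurd rfl hne
  hb1 := by
    intro j u
    by_cases hj : 2 ≤ j ∧ j ≤ 2 * B0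
    · rw [if_pos hj]
      by_cases hu : u ≤ 0
      · rw [bump_zero_left hε (by have := lB_pos hκ1 h (j := j) (by omega); linarith)]
        simp
      · push Not at hu
        refine ⟨mul_nonneg (hV j).1 (div_nonneg (bump_nonneg _ _ _ _) hu.le), ?_⟩
        have : u * (V j * (bump (lB κ B0 j) (rB κ B0 j) ε u / u)) =
            V j * bump (lB κ B0 j) (rB κ B0 j) ε u := by
          field_simp
        rw [this]
        exact mul_le_one₀ (hV j).2 (bump_nonneg _ _ _ _) (bump_le_one _ _ _ _)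
    · rw [if_neg hj]
      simp

variable (hκ : 0 < κ) (hκ1 : κ < 1) (h : 1 ≤ B0) (V : ℕ → ℝ) (hV : ∀ m, 0 ≤ V m ∧ V m ≤ 1)

theorem PP_b {ε : ℝ} (hε : 0 < ε) {j : ℕ} (hj : 2 ≤ j) (hj' : j ≤ 2 * B0) (u : ℝ) :
    (PP hκ hκ1 h V hV ε hε).b j u = V j * (bump (lB κ B0 j) (rB κ B0 j) ε u / u) := by
  change (if 2 ≤ j ∧ j ≤ 2 * B0 then V j * (bump (lB κ B0 j) (rB κ B0 j) ε u / u) else 0) = _
  rw [if_pos ⟨hj, hj'⟩]

theorem PP_b_one {ε : ℝ} (hε : 0 < ε) {j : ℕ} (hj : j < 2) (u : ℝ) :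
    (PP hκ hκ1 h V hV ε hε).b j u = 0 := by
  change (if 2 ≤ j ∧ j ≤ 2 * B0 then V j * (bump (lB κ B0 j) (rB κ B0 j) ε u / u) else 0) = _
  rw [if_neg (by omega)]

open Classical in
/-- the sequence `t` as a function of the margin -/
noncomputable def tP (r ε : ℝ) (m : ℕ) : ℝ :=
  if hε : 0 < ε then tm (PP hκ hκ1 h V hV ε hε) r m else 0

open Classical in
/-- the integrals as functions of the margin -/
noncomputable def sP (c ε : ℝ) (m : ℕ) : ℝ :=
  if hε : 0 < ε then sm0 (PP hκ hκ1 h V hV ε hε) c m else 0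

theorem tP_tendsto (r : ℝ) {m : ℕ} (hm : 1 ≤ m) (hm' : m ≤ 2 * B0) :
    Tendsto (fun ε => tP hκ hκ1 h V hV r ε m) (𝓝[>] 0)
      (𝓝 (if 2 ≤ m then r ^ 2 * V m ^ 2 else 0)) := by
  rcases Nat.lt_or_ge m 2 with h2 | h2
  · rw [if_neg (by omega)]
    have h1 : ∀ᶠ ε : ℝ in 𝓝[>] 0, 0 = tP hκ hκ1 h V hV r ε m := by
      filter_upwards [self_mem_nhdsWithin] with ε hε
      have hε' : 0 < ε := hε
      rw [tP, dif_pos hε', tm]
      simp only [PP_b_one hκ hκ1 h V hV hε' h2]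
      simp
    exact Tendsto.congr' h1 tendsto_const_nhds
  · rw [if_pos h2]
    have hl := lB_pos hκ1 h hm
    have hlr := lB_lt_rB hκ1 h hm
    have hr := rB_le_one hκ h hm'
    have hmr : (0 : ℝ) < m := by exact_mod_cast (by omega : 0 < m)
    have hc : ContinuousOn (fun u : ℝ => u⁻¹) (Set.Icc (lB κ B0 m) (rB κ B0 m)) := by
      apply continuousOn_inv₀.mono
      intro u hu
      have : 0 < u := lt_of_lt_of_le hl hu.1
      simpa using this.ne'
    have h1 := lim_int hl hlr hr hc (k := 2) (by norm_num)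
    rw [integral_inv_of_pos hl (hl.trans hlr)] at h1
    have hlog : Real.log (rB κ B0 m / lB κ B0 m) = 1 / m := by
      have : rB κ B0 m / lB κ B0 m = Real.exp (1 / m) := by
        have := wB_pos hκ1 h
        unfold rB lB
        rw [neg_div, Real.exp_neg]
        field_simp
      rw [this, Real.log_exp]
    rw [hlog] at h1
    have h3 := h1.const_mul ((m : ℝ) * r ^ 2 * V m ^ 2)
    have h4 : (m : ℝ) * r ^ 2 * V m ^ 2 * (1 / m) = r ^ 2 * V m ^ 2 := by field_simp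
    rw [h4] at h3
    refine Tendsto.congr' ?_ h3
    filter_upwards [self_mem_nhdsWithin] with ε hε
    have hε' : 0 < ε := hε
    rw [tP, dif_pos hε', tm, mul_assoc ((m : ℝ) * r ^ 2), ← intervalIntegral.integral_const_mul]
    congr 1
    apply intervalIntegral.integral_congr
    intro u _
    simp only
    rw [PP_b hκ hκ1 h V hV hε' h2 hm']
    by_cases hu : u = 0
    · rw [hu, bump_zero_left hε' (by linarith)]
      simp
    · field_simp

theorem sP_tendsto (c : ℝ) {m : ℕ} (hm : 2 ≤ m) (hm' : m ≤ 2 * B0) :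
    Tendsto (fun ε => sP hκ hκ1 h V hV c ε m) (𝓝[>] 0)
      (𝓝 (V m * ∫ u in (lB κ B0 m)..(rB κ B0 m), Real.sin (Real.pi * c * u) / u)) := by
  have hl := lB_pos hκ1 h (j := m) (by omega)
  have hlr := lB_lt_rB hκ1 h (j := m) (by omega)
  have hr := rB_le_one hκ h hm'
  have hc : ContinuousOn (fun u : ℝ => Real.sin (Real.pi * c * u) / u)
      (Set.Icc (lB κ B0 m) (rB κ B0 m)) := by
    apply ContinuousOn.div (by fun_prop) continuousOn_id
    intro u hu
    have : 0 < u := lt_of_lt_of_le hl hu.1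
    exact this.ne'
  have h1 := (lim_int hl hlr hr hc (k := 1) le_rfl).const_mul (V m)
  refine Tendsto.congr' ?_ h1
  filter_upwards [self_mem_nhdsWithin] with ε hε
  have hε' : 0 < ε := hε
  rw [sP, dif_pos hε', sm0, ← intervalIntegral.integral_const_mul]
  apply intervalIntegral.integral_congr
  intro u _
  simp only
  rw [PP_b hκ hκ1 h V hV hε' hm hm', pow_one]
  ring

end

end PargAux

open PargAux in
/-- task PARG -/
theorem PARG_proof : PARG := by
  intro κ hκ hκ1 B0 hB0 r V F s hV x c hI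
  obtain ⟨h1, h2⟩ := hI (qr (fun m => if 2 ≤ m then r ^ 2 * V m ^ 2 else 0)) (isQ_qr _ _)
  set q0 := qr (fun m => if 2 ≤ m then r ^ 2 * V m ^ 2 else 0) with hq0
  have hq : ∀ n, n ≤ B0 →
      Tendsto (fun ε : ℝ => qr (tP hκ hκ1 hB0 V hV r ε) n) (𝓝[>] 0) (𝓝 (q0 n)) := by
    rw [hq0]
    apply qr_tendsto
    intro m hm hm'
    exact tP_tendsto hκ hκ1 hB0 V hV r hm (by omega)
  have hSF : Tendsto (fun ε : ℝ => SF B0 F (qr (tP hκ hκ1 hB0 V hV r ε))) (𝓝[>] 0)
      (𝓝 (SF B0 F q0)) := by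
    unfold SF
    apply tendsto_finsetSum
    intro n hn
    rw [Finset.mem_range] at hn
    exact (hq n (by omega)).const_mul _
  have hSM : ∀ m, Tendsto (fun ε : ℝ => SM B0 F (qr (tP hκ hκ1 hB0 V hV r ε)) m) (𝓝[>] 0)
      (𝓝 (SM B0 F q0 m)) := by
    intro m
    unfold SM
    apply tendsto_finsetSum
    intro n hn
    rw [Finset.mem_range] at hn
    exact (hq n (by omega)).const_mul _
  have hR : Tendsto (fun ε : ℝ =>
      4 * r / Real.pi * ∑ m ∈ Finset.Icc 2 B0, s m * (sP hκ hκ1 hB0 V hV c ε m *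
        SM B0 F (qr (tP hκ hκ1 hB0 V hV r ε)) m))
      (𝓝[>] 0) (𝓝 (4 * r / Real.pi * ∑ m ∈ Finset.Icc 2 B0, s m *
        ((V m * ∫ u in (lB κ B0 m)..(rB κ B0 m), Real.sin (Real.pi * c * u) / u) *
          SM B0 F q0 m))) := by
    apply Tendsto.const_mul
    apply tendsto_finsetSum
    intro m hm
    rw [Finset.mem_Icc] at hm
    exact ((sP_tendsto hκ hκ1 hB0 V hV c hm.1 (by omega)).mul (hSM m)).const_mul _
  have hL : Tendsto (fun ε : ℝ => x * SF B0 F (qr (tP hκ hκ1 hB0 V hV r ε))) (𝓝[>] 0)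
      (𝓝 (x * SF B0 F q0)) := hSF.const_mul x
  have h2' : x * SF B0 F q0 < 4 * r / Real.pi * ∑ m ∈ Finset.Icc 2 B0, s m *
        ((V m * ∫ u in (lB κ B0 m)..(rB κ B0 m), Real.sin (Real.pi * c * u) / u) *
          SM B0 F q0 m) := h2
  have e1 := hSF.eventually (lt_mem_nhds h1)
  have e2 := hL.eventually_lt hR h2'
  obtain ⟨ε, hε1, hε2, hε3⟩ := (e1.and (e2.and self_mem_nhdsWithin)).exists
  have hε : 0 < ε := hε3
  refine ⟨PP hκ hκ1 hB0 V hV ε hε, qr (tP hκ hκ1 hB0 V hV r ε), rfl, rfl, ?_, hε1, ?_⟩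
  · have : tm (PP hκ hκ1 hB0 V hV ε hε) r = tP hκ hκ1 hB0 V hV r ε := by
      funext m
      rw [tP, dif_pos hε]
    rw [this]
    exact isQ_qr _ _
  · have h3 : ∀ m, sm0 (PP hκ hκ1 hB0 V hV ε hε) c m = sP hκ hκ1 hB0 V hV c ε m := by
      intro m
      rw [sP, dif_pos hε]
    unfold LM
    simp only [h3]
    exact hε2

end Pool.Agent.KS6_1.SR.RGap
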