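import Pool.Agent.KS6_1.SR.SGN
import Pool.Agent.KS6_1.SR.MEANS
import Pool.Agent.KS6_1.SR.COMBS
import Pool.Agent.KS6_1.SR.MLIM
import Pool.Agent.KS6_1.SR.EESB
import Pool.Agent.KS6_1.SR.MKM
import Pool.Agent.KS6_1.SR.PARC
import Pool.Agent.KS6_1.SR.LOCL
import Pool.Agent.KS6_1.SR.LOCS
import Pool.Agent.KS6_1.SR.Parg
import Pool.Graph.R_seed8.H768R2.RG.ZLOW
import Pool.Graph.R_seed8.H726R2.RG.ZUP
import Pool.Graph.R_seed8.H726R2.RG.ORD

/-! # r-gaps in short windows: assembly -/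

namespace Pool.Agent.KS6_1.SR.RGap

open Pool.Agent.KS6_1.SI (Nu)

theorem COMBS_main [Nu] : COMBS := COMBS_of SGN_proof

theorem MLIM_main [Nu] : MLIM := MLIM_of MEANS_proof COMBS_main

theorem LOCL_main [Nu] : LOCL :=
  LOCL_of MLIM_main EESB_proof MKM_proof _root_.RGap.ZLOW_proof _root_.RGap.ORDL_proof PARC_proof

theorem LOCS_main [Nu] : LOCS :=
  LOCS_of MLIM_main EESB_proof MKM_proof _root_.RGap.ZUP_proof _root_.RGap.NZMK_proof
    _root_.RGap.ORDS_proof PARC_proof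

end Pool.Agent.KS6_1.SR.RGap
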