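import Pool.Agent.KS6_1.SR.Stubs
import Pool.Agent.KS6_1.SR.Cls

/-! Task SGN of the r-gaps project: the signed diagonal coefficients. -/

open Complex Filter Topology Set MeasureTheory

namespace Pool.Agent.KS6_1.SR.RGap

variable [Pool.Agent.KS6_1.SI.Nu]

open SG (hh nn dl ord NZ)
open SP (RHs ZZ mu wt Mk qq tt)
open Pool.Agent.KS6_1.SI (Par Eb PS chi dd Nu)
open _root_.LG (gK gh Zs bk lk nA IsQ SF SM)
open Pool.Agent.KS6_1.SR.LG (fam prs yp ae EE Cn QT tm sm sm0)
open _root_.RGap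

namespace SGNaux

/-- the completely multiplicative sign function -/
noncomputable def GG (P : Par) (s : ℕ → ℝ) (T : ℝ) (n : ℕ) : ℝ :=
  n.factorization.prod (fun p e => s (Eb P T p) ^ e)

theorem GG_one (P : Par) (s : ℕ → ℝ) (T : ℝ) : GG P s T 1 = 1 := by
  simp [GG]

theorem GG_mul (P : Par) (s : ℕ → ℝ) (T : ℝ) {m n : ℕ} (hm : m ≠ 0) (hn : n ≠ 0) :
    GG P s T (m * n) = GG P s T m * GG P s T n := by
  unfold GG
  rw [Nat.factorization_mul hm hn]
  exact Finsupp.prod_add_index' (fun a => pow_zero _) (fun a b₁ b₂ => pow_add _ _ _)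

theorem GG_prime (P : Par) (s : ℕ → ℝ) (T : ℝ) {p : ℕ} (hp : p.Prime) :
    GG P s T p = s (Eb P T p) := by
  unfold GG
  rw [hp.factorization, Finsupp.prod_single_index (h := fun p e => s (Eb P T p) ^ e)
    (pow_zero _), pow_one]

theorem GG_nA (P : Par) (s : ℕ → ℝ) (T : ℝ) (A : Finset ℕ) (hA : ∀ p ∈ A, p.Prime) :
    GG P s T (nA A) = sg P s T A := by
  classical
  induction A using Finset.induction_on with
  | empty => simp [nA, sg, GG_one]
  | insert a A ha ih =>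
    have hpa : a.Prime := hA a (Finset.mem_insert_self a A)
    have hpA : ∀ p ∈ A, p.Prime := fun p hp => hA p (Finset.mem_insert_of_mem hp)
    have h1 : nA (insert a A) = a * nA A := by
      unfold nA; rw [Finset.prod_insert ha]
    have h2 : sg P s T (insert a A) = s (Eb P T a) * sg P s T A := by
      unfold sg; rw [Finset.prod_insert ha]
    rw [h1, h2, GG_mul P s T hpa.ne_zero (LG.Cls.nA_ne A hpA), GG_prime P s T hpa, ih hpA]

theorem sg_sq (P : Par) (s : ℕ → ℝ) (hs : IsSgn s) (T : ℝ) (A : Finset ℕ) :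
    sg P s T A * sg P s T A = 1 := by
  unfold sg
  rw [← Finset.prod_mul_distrib]
  apply Finset.prod_eq_one
  intro p _
  rcases hs (Eb P T p) with h | h <;> rw [h] <;> norm_num

theorem CnS_eq (P : Par) (B0 : ℕ) (r : ℝ) (F s : ℕ → ℝ) (T : ℝ) (hs : IsSgn s) (n : ℕ)
    (hn : n ≠ 0) : CnS P B0 r F s T n = GG P s T n * Cn P B0 r F T n := by
  unfold CnS Cn
  rw [Finset.mul_sum]
  apply Finset.sum_congr rfl
  intro q hq
  rw [Finset.mul_sum]
  apply Finset.sum_congr rfl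
  intro q' hq'
  obtain ⟨⟨a1, a2⟩, -⟩ := LG.Cls.mem_prs.mp hq
  obtain ⟨⟨b1, b2⟩, -⟩ := LG.Cls.mem_prs.mp hq'
  have pa1 := LG.Cls.fam_prime a1
  have pa2 := LG.Cls.fam_prime a2
  have pb1 := LG.Cls.fam_prime b1
  have pb2 := LG.Cls.fam_prime b2
  split_ifs with h
  · have h1 : GG P s T (nA q.2) * GG P s T (nA q'.1) =
        GG P s T n * (GG P s T (nA q.1) * GG P s T (nA q'.2)) := by
      rw [← GG_mul P s T (LG.Cls.nA_ne _ pa2) (LG.Cls.nA_ne _ pb1),
        ← GG_mul P s T (LG.Cls.nA_ne _ pa1) (LG.Cls.nA_ne _ pb2),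
        ← GG_mul P s T hn (mul_ne_zero (LG.Cls.nA_ne _ pa1) (LG.Cls.nA_ne _ pb2)), h]
    rw [GG_nA P s T _ pa1, GG_nA P s T _ pa2, GG_nA P s T _ pb1, GG_nA P s T _ pb2] at h1
    have e1 := sg_sq P s hs T q.1
    have e2 := sg_sq P s hs T q'.2
    unfold aeS
    have : sg P s T q.1 * sg P s T q.2 * (sg P s T q'.1 * sg P s T q'.2) = GG P s T n := by
      calc sg P s T q.1 * sg P s T q.2 * (sg P s T q'.1 * sg P s T q'.2)
          = (sg P s T q.2 * sg P s T q'.1) * (sg P s T q.1 * sg P s T q'.2) := by ring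
        _ = GG P s T n * ((sg P s T q.1 * sg P s T q.1) * (sg P s T q'.2 * sg P s T q'.2)) := by
            rw [h1]; ring
        _ = GG P s T n := by rw [e1, e2]; ring
    calc sg P s T q.1 * ae P r F T q.1 * (sg P s T q.2 * ae P r F T q.2) *
          (sg P s T q'.1 * ae P r F T q'.1 * (sg P s T q'.2 * ae P r F T q'.2))
        = (sg P s T q.1 * sg P s T q.2 * (sg P s T q'.1 * sg P s T q'.2)) *
          (ae P r F T q.1 * ae P r F T q.2 * (ae P r F T q'.1 * ae P r F T q'.2)) := by ring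
      _ = _ := by rw [this]
  · rw [mul_zero]

end SGNaux

open SGNaux

theorem SGN_proof : SGN := by
  intro P B0 r F s T hs hT
  refine ⟨?_, ?_, ?_, ?_⟩
  · rw [CnS_eq P B0 r F s T hs 1 one_ne_zero, GG_one, one_mul]
  · intro p hp
    have hpp := LG.Cls.prime_PS hp
    rw [CnS_eq P B0 r F s T hs p hpp.ne_zero, GG_prime P s T hpp]
  · intro p hp
    have hpp := LG.Cls.prime_PS hp
    rw [CnS_eq P B0 r F s T hs (p ^ 2) (pow_ne_zero _ hpp.ne_zero), pow_two,
      GG_mul P s T hpp.ne_zero hpp.ne_zero, GG_prime P s T hpp]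
    rcases hs (Eb P T p) with h | h <;> rw [h] <;> norm_num
  · intro p k hp hk h
    rw [CnS_eq P B0 r F s T hs (p ^ k) (pow_ne_zero _ hp.ne_zero),
      LG.Cn_zero P B0 r F T hT p k hp hk h, mul_zero]

end Pool.Agent.KS6_1.SR.RGap
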