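import Pool.Agent.KS6_1.SR.Defs
import Pool.Graph.R_seed8.H360R2.RG.Stubs

/-! # r-gaps in short intervals: the statements (as propositions). -/

open Complex Filter Topology Set MeasureTheory

namespace Pool.Agent.KS6_1.SR.RGap

open SG (hh nn dl ord NZ)
open SP (RHs ZZ mu wt Mk qq tt)
open Pool.Agent.KS6_1.SI (Par Eb PS chi dd Nu)
open _root_.LG (gK gh Zs bk lk nA IsQ SF SM)
open Pool.Agent.KS6_1.SR.LG (fam prs yp ae EE Cn QT tm sm sm0)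
open _root_.RGap (IsSgn smI NN lam1 NLarge NSmall PosLarge PosSmall PosT Ideal)

/-- A1. the signed diagonal coefficients -/
def SGN : Prop := ∀ (P : Par) (B0 : ℕ) (r : ℝ) (F s : ℕ → ℝ) (T : ℝ), IsSgn s → 10 ≤ T →
  CnS P B0 r F s T 1 = Cn P B0 r F T 1 ∧
  (∀ p ∈ PS P T, CnS P B0 r F s T p = s (Eb P T p) * Cn P B0 r F T p) ∧
  (∀ p ∈ PS P T, CnS P B0 r F s T (p ^ 2) = Cn P B0 r F T (p ^ 2)) ∧
  (∀ p k : ℕ, p.Prime → 1 ≤ k → (p ∉ PS P T ∨ 3 ≤ k) → CnS P B0 r F s T (p ^ k) = 0)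

/-- A3. limits of the diagonal terms -/
def COMBS : Prop := ∀ (P : Par) (B0 : ℕ), P.B = 2 * B0 → ∀ (r : ℝ), 0 < r → ∀ (F q s : ℕ → ℝ),
    IsSgn s → IsQ B0 (tm P r) q → ∀ (A c : ℝ), 0 < A → 0 < c →
    Tendsto (fun T : ℝ => CnS P B0 r F s T 1) atTop (𝓝 (SF B0 F q ^ 2)) ∧
    Tendsto (fun T : ℝ => (2 / Real.log T) * ∑' n : ℕ, lk A c T n * CnS P B0 r F s T n) atTop
      (𝓝 (4 * r / Real.pi * (SF B0 F q *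
        ∑ m ∈ Finset.Icc 2 B0, s m * (sm P A c m * SM B0 F q m))))

/-- A5. pointwise bound for `EES` -/
def EESB : Prop := RHs → ∀ (P : Par) (B0 : ℕ), P.B = 2 * B0 → ∀ (r : ℝ), 0 < r →
    ∀ (F s : ℕ → ℝ), IsSgn s → ∃ C T0 : ℝ, 0 < C ∧ 10 ≤ T0 ∧ ∀ T : ℝ, T0 ≤ T → ∀ t : ℝ,
    T + 2 * Real.log T ≤ t → t ≤ 2 * T - 2 * Real.log T →
    ‖EES P B0 r F s T t‖ ≤ C * (1 + Mk T 1 t) ^ (2 * B0)

/-- B6. continuity in the parameters -/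
def PARC : Prop := ∀ (P : Par) (B0 : ℕ) (r : ℝ) (F q s : ℕ → ℝ) (c x η0 : ℝ), 0 < η0 →
    x * SF B0 F q < LM P B0 r F q s c →
    ∃ η δ A1 : ℝ, 0 < η ∧ η ≤ η0 ∧ 0 < δ ∧ 0 < A1 ∧ ∀ A c' : ℝ, A1 ≤ A → |c' - c| ≤ 2 * η →
      (x + 2 * η) * SF B0 F q + 3 * δ ≤
        4 * r / Real.pi * ∑ m ∈ Finset.Icc 2 B0, s m * (sm P A c' m * SM B0 F q m)

/-- D1. from the ideal inequality to smooth parameters -/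
def PARG : Prop := ∀ (κ : ℝ), 0 < κ → κ < 1 → ∀ (B0 : ℕ), 1 ≤ B0 → ∀ (r : ℝ) (V F s : ℕ → ℝ),
    (∀ m, 0 ≤ V m ∧ V m ≤ 1) → ∀ (x c : ℝ), Ideal κ B0 r V F s x c →
    ∃ (P : Par) (q : ℕ → ℝ), P.κ = κ ∧ P.B = 2 * B0 ∧ IsQ B0 (tm P r) q ∧ 0 < SF B0 F q ∧
      x * SF B0 F q < LM P B0 r F q s c

variable [Nu]

/-- A2. mean values of `|EES|²` and `|EES|² Zs` -/
def MEANS : Prop := RHs → ∀ (P : Par) (B0 : ℕ), P.B = 2 * B0 → Nu.ν < P.κ →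
    ∀ (r : ℝ) (F s : ℕ → ℝ), IsSgn s →
    ∀ (A c : ℝ), 0 < A → 0 < c → ∃ C T0 : ℝ, 0 < C ∧ 10 ≤ T0 ∧ ∀ T : ℝ, T0 ≤ T →
    ∀ t0 : ℝ, 11 / 10 * T ≤ t0 → t0 ≤ 19 / 10 * T →
    |(∫ t in (T + 2 * Real.log T)..(2 * T - 2 * Real.log T),
        wt t0 (dd P.κ T) t * ‖EES P B0 r F s T t‖ ^ 2) -
      Real.sqrt (2 * Real.pi) * dd P.κ T * CnS P B0 r F s T 1| ≤
      C * dd P.κ T / Real.log T * (1 + |CnS P B0 r F s T 1|) ∧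
    |(∫ t in (T + 2 * Real.log T)..(2 * T - 2 * Real.log T),
        wt t0 (dd P.κ T) t * ‖EES P B0 r F s T t‖ ^ 2 * Zs A c T t) -
      Real.sqrt (2 * Real.pi) * dd P.κ T * (c * CnS P B0 r F s T 1 -
        (2 / Real.log T) * ∑' n : ℕ, lk A c T n * CnS P B0 r F s T n)| ≤
      C * dd P.κ T / Real.log T * (1 + |CnS P B0 r F s T 1|)

/-- A4. limits of the mean values, uniformly in `t0` -/
def MLIM : Prop := RHs → ∀ (P : Par) (B0 : ℕ), P.B = 2 * B0 → Nu.ν < P.κ → ∀ (r : ℝ), 0 < r →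
    ∀ (F q s : ℕ → ℝ), IsSgn s → IsQ B0 (tm P r) q → ∀ (A c : ℝ), 0 < A → 0 < c →
    ∀ δ : ℝ, 0 < δ → ∃ T0 : ℝ, 10 ≤ T0 ∧ ∀ T : ℝ, T0 ≤ T →
    ∀ t0 : ℝ, 11 / 10 * T ≤ t0 → t0 ≤ 19 / 10 * T →
    |(∫ t in (T + 2 * Real.log T)..(2 * T - 2 * Real.log T),
        wt t0 (dd P.κ T) t * ‖EES P B0 r F s T t‖ ^ 2) -
      Real.sqrt (2 * Real.pi) * dd P.κ T * SF B0 F q ^ 2| ≤ δ * dd P.κ T ∧
    |(∫ t in (T + 2 * Real.log T)..(2 * T - 2 * Real.log T),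
        wt t0 (dd P.κ T) t * ‖EES P B0 r F s T t‖ ^ 2 * Zs A c T t) -
      Real.sqrt (2 * Real.pi) * dd P.κ T * (SF B0 F q * (c * SF B0 F q -
        4 * r / Real.pi * ∑ m ∈ Finset.Icc 2 B0, s m * (sm P A c m * SM B0 F q m)))| ≤
      δ * dd P.κ T

/-- A6. all moments of `Mk` -/
def MKM : Prop := RHs → ∀ κ : ℝ, 0 < κ → κ < 1 → ∀ j : ℕ,
    ∃ C T0 : ℝ, 0 < C ∧ 10 ≤ T0 ∧ ∀ T : ℝ, T0 ≤ T → ∀ t0 : ℝ,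
    ∫ t in (T + 2 * Real.log T)..(2 * T - 2 * Real.log T),
      wt t0 (dd κ T) t * (1 + Mk T 1 t) ^ j ≤ C * dd κ T

/-- C1. many large `k`-gaps (uses MLIM EESB MKM ZLOW ORDL PARC and LG.GAPTAIL) -/
def LOCL : Prop := RHs → ∀ (P : Par) (B0 : ℕ), P.B = 2 * B0 → Nu.ν < P.κ → ∀ (r : ℝ), 0 < r →
    ∀ (F q s : ℕ → ℝ), IsSgn s → IsQ B0 (tm P r) q → 0 < SF B0 F q →
    ∀ (k : ℕ) (c : ℝ), 1 ≤ k → 0 < c →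
    (c - k) * SF B0 F q < LM P B0 r F q s c → LocLarge P.κ k c

/-- C2. many small `k`-gaps (uses MLIM EESB MKM ZUP NZMK ORDS PARC) -/
def LOCS : Prop := RHs → ∀ (P : Par) (B0 : ℕ), P.B = 2 * B0 → Nu.ν < P.κ → ∀ (r : ℝ), 0 < r →
    ∀ (F q s : ℕ → ℝ), IsSgn s → IsQ B0 (tm P r) q → 0 < SF B0 F q →
    ∀ (k : ℕ) (c : ℝ), 1 ≤ k → 0 < c →
    (k - c) * SF B0 F q < -LM P B0 r F q s c → LocSmall P.κ k c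

end Pool.Agent.KS6_1.SR.RGap
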